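import Pool.Agent.NH3.XT.Stm
import Pool.Agent.NH3.XS.SQ
import Pool.Agent.NH3.XS.CSa
import Pool.Agent.NH3.XS.CSb
import Pool.Agent.NH3.XS.CSc
import Pool.Agent.NH3.XS.TR
import Pool.Agent.NH3.XS.ASa
import Pool.Agent.NH3.XS.ASb
import Pool.Agent.NH3.XS.ASc
import Pool.Agent.NH3.XS.NM
import Pool.Agent.Z864.SX.SelH
import Pool.Agent.Y214.SX.RKSHA
import Pool.Agent.Y833.SX.Sel
import Pool.Agent.Y212.RZ.Selc2

/-!
# Project XT: the orders of the 2-Selmer groups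
-/

set_option autoImplicit false

open scoped Classical

namespace Pool.Agent.NH3.XT

open Pool.Agent.W307.SE (SelR)
open Pool.Agent.W307.RT (Sh)
open Pool.Agent.Y667.SX (Sel2H)
open Pool.Agent.Y667.BK (SelInf)
open Pool.Agent.TH841.SH (selHom)
open Pool.Agent.TH841.SH.D (Sha)
open Pool.Agent.NH4.XG (nx)
open Pool.Agent.NH3.XS (G4 S_R4)

theorem as_eq (D : ℤ) : AS D = XS.AS D := rfl

theorem cs_eq (D : ℤ) : CS D = XS.CS D := rfl

theorem sel_eq (A B : ℤ) : Sel A B = Pool.Agent.W307.SE.Sel A B := rfl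

/-- the number of the pairs -/
theorem card_prod {D : ℤ} (h0 : D < 0) (hs : Squarefree D) :
    (AS D ×ˢ CS D).Finite ∧ (AS D ×ˢ CS D).ncard = nx D.natAbs.primeFactors ^ 2 := by
  have h4 : D % 4 ≠ 0 := by
    intro h
    have h1 : (2 : ℤ) * 2 ∣ D := by omega
    have h2 := hs 2 h1
    rw [Int.isUnit_iff] at h2
    omega
  have hp : ∀ p ∈ D.natAbs.primeFactors, p.Prime := fun p hp => Nat.prime_of_mem_primeFactors hp
  have key : ∀ κ : ℤ, XS.S_CS κ → XS.S_AS κ → D % 4 = κ →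
      (AS D ×ˢ CS D).Finite ∧ (AS D ×ˢ CS D).ncard = nx D.natAbs.primeFactors ^ 2 := by
    intro κ hC hA hκ
    obtain ⟨c1, c2⟩ := hC XS.t_SQ D h0 hs hκ
    obtain ⟨a1, a2⟩ := hA XS.t_SQ D h0 hs hκ
    rw [as_eq, cs_eq]
    refine ⟨a1.prod c1, ?_⟩
    rw [Set.ncard_prod, a2, c2, XS.t_TR _ hp, sq]
  have h5 : D % 4 = 1 ∨ D % 4 = 2 ∨ D % 4 = 3 := by omega
  rcases h5 with h | h | h
  · exact key 1 XS.t_CSa XS.t_ASa h
  · exact key 2 XS.t_CSc XS.t_ASc h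
  · exact key 3 XS.t_CSb XS.t_ASb h

/-- the coefficients of the twist `y² = x (x - a² D) (x - b² D)` -/
def cA (a b D : ℤ) : ℤ := -27 * (a ^ 4 - a ^ 2 * b ^ 2 + b ^ 4) * D ^ 2

/-- the coefficients of the twist `y² = x (x - a² D) (x - b² D)` -/
def cB (a b D : ℤ) : ℤ :=
  27 * (a ^ 2 + b ^ 2) * (2 * b ^ 2 - a ^ 2) * (2 * a ^ 2 - b ^ 2) * D ^ 3

/-- the twist -/
abbrev Ec (a b D : ℤ) : WeierstrassCurve ℚ := Sh (cA a b D) (cB a b D)

theorem disc_ne {a b D : ℤ} (ha : a ≠ 0) (hb : b ≠ 0) (hab : a ^ 2 ≠ b ^ 2) (hD : D ≠ 0) :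
    4 * cA a b D ^ 3 + 27 * cB a b D ^ 2 ≠ 0 := by
  have e : 4 * cA a b D ^ 3 + 27 * cB a b D ^ 2 =
      -(729 * (a ^ 2 * b ^ 2 * (b ^ 2 - a ^ 2)) * D ^ 3) ^ 2 := by
    unfold cA cB
    ring
  rw [e]
  refine neg_ne_zero.2 (pow_ne_zero 2 ?_)
  have h1 : b ^ 2 - a ^ 2 ≠ 0 := fun h => hab (by linarith)
  positivity

/-- **the orders of the groups** -/
theorem orders {a b D k : ℤ} (ha : a ≠ 0) (hb : b ≠ 0) (hab : a ^ 2 ≠ b ^ 2) (hD : D ≠ 0)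
    (hk : k ≠ 0) {n : ℕ}
    (hC : (Sel (b ^ 2 * D) (a ^ 2 * D)).Finite ∧ (Sel (b ^ 2 * D) (a ^ 2 * D)).ncard = n ^ 2) :
    (Finite (Sel2H (Ec a b (D * k ^ 2))) ∧ Nat.card (Sel2H (Ec a b (D * k ^ 2))) = n ^ 2) ∧
    (Finite {x : Sha (Ec a b (D * k ^ 2)) // x + x = 0} ∧
      4 * (2 ^ Module.finrank ℤ (Ec a b (D * k ^ 2)).toAffine.Point *
        Nat.card {x : Sha (Ec a b (D * k ^ 2)) // x + x = 0}) = n ^ 2) ∧
    (Finite {x : SelInf (Ec a b (D * k ^ 2)) // x + x = 0} ∧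
      4 * Nat.card {x : SelInf (Ec a b (D * k ^ 2)) // x + x = 0} = n ^ 2) := by
  rw [sel_eq] at hC
  obtain ⟨c1, c2⟩ := hC
  have hM : D * k ^ 2 ≠ 0 := mul_ne_zero hD (pow_ne_zero 2 hk)
  have hd := disc_ne ha hb hab hM
  have hr : ∀ x : ℤ, x ^ 3 + cA a b (D * k ^ 2) * x + cB a b (D * k ^ 2) =
      (x - (-3 * (a ^ 2 + b ^ 2) * (D * k ^ 2))) * (x - (6 * b ^ 2 - 3 * a ^ 2) * (D * k ^ 2)) *
        (x - (6 * a ^ 2 - 3 * b ^ 2) * (D * k ^ 2)) := by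
    intro x
    unfold cA cB
    ring
  have hq : ((3 * k : ℤ) : ℚ) ≠ 0 := by
    exact_mod_cast mul_ne_zero (by norm_num : (3 : ℤ) ≠ 0) hk
  obtain ⟨s1, s2⟩ := Pool.Agent.Y212.RZ.SELC2 _ _ _ _ _ (b ^ 2 * D) (a ^ 2 * D) ((3 * k : ℤ) : ℚ)
    hd hr hq (by push_cast; ring) (by push_cast; ring) c1
  rw [c2] at s2
  obtain ⟨h1, h2⟩ := Pool.Agent.Z864.SX.SELH _ _ _ _ _ hd hr s1
  obtain ⟨h3, h4⟩ := Pool.Agent.Y214.SX.RKSHA _ _ _ _ _ hd hr h1
  obtain ⟨h5⟩ := Pool.Agent.Y833.SX.SEL2 _ _ _ _ _ hd hr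
  obtain ⟨h6, h7⟩ := Pool.Agent.Y833.SX.SELI _ _ _ _ _ hd hr h1
  rw [s2] at h2
  refine ⟨⟨Finite.of_equiv _ h5.symm, (Nat.card_congr h5).trans h2⟩, ⟨h3, ?_⟩, ⟨h6, h7.trans h2⟩⟩
  rw [← h2, ← h4]
  ring

/-- the four-rank -/
theorem four_rank (hR : S_R4) {D : ℤ} (h0 : D < 0) (hs : Squarefree D) (h1 : D ≠ -1) (h3 : D ≠ -3)
    (K : Type) [Field K] [NumberField K] (hK : Module.finrank ℚ K = 2)
    (ha : ∃ a : K, a ^ 2 = (D : K)) : 2 * Nat.card (G4 K) = nx D.natAbs.primeFactors := by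
  have hsn : Squarefree D.natAbs := Int.squarefree_natAbs.2 hs
  have e : (-(D.natAbs : ℤ)) = D := by omega
  rw [hR D.natAbs hsn (by omega) (by omega) K hK (by rw [e]; exact ha), XS.t_NM _ hsn]

/-- three divides one of the legs -/
theorem three_dvd {a c b : ℤ} (h : a ^ 2 + c ^ 2 = b ^ 2) : (3 : ℤ) ∣ a ∨ (3 : ℤ) ∣ c := by
  have h1 : (a ^ 2 + c ^ 2) % 3 = (b ^ 2) % 3 := by rw [h]
  have ha : a % 3 = 0 ∨ a % 3 = 1 ∨ a % 3 = 2 := by omega
  have hb : b % 3 = 0 ∨ b % 3 = 1 ∨ b % 3 = 2 := by omega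
  have hc : c % 3 = 0 ∨ c % 3 = 1 ∨ c % 3 = 2 := by omega
  by_contra hcon
  rw [not_or] at hcon
  rcases ha with ha | ha | ha <;> rcases hb with hb | hb | hb <;> rcases hc with hc | hc | hc <;>
    first
    | (exfalso; omega)
    | (simp [pow_two, Int.add_emod, Int.mul_emod, ha, hb, hc] at h1)

theorem ne_small {a b c : ℤ} {e : ℕ} (hT : Tri a b c e) {D : ℤ} (hD : Cls a b c e D) :
    D ≠ -1 ∧ D ≠ -3 := by
  obtain ⟨-, -, h1, h2, -⟩ := hD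
  constructor
  · rintro rfl
    have hb1 : b.natAbs ≠ 1 := by
      intro hb
      have hb2 : b ^ 2 = 1 := by
        rw [← Int.natAbs_sq, hb]
        rfl
      have hq := hT.eq
      rw [hb2] at hq
      have ha : 0 < a ^ 2 := by
        have : a ≠ 0 := by
          rintro rfl
          exact absurd hT.oa (by norm_num)
        positivity
      have hc : 0 < (2 ^ e * c) ^ 2 := by
        have : c ≠ 0 := by
          rintro rfl
          exact absurd hT.oc (by norm_num)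
        positivity
      linarith
    obtain ⟨p, hp, hpb⟩ := Nat.exists_prime_and_dvd hb1
    have h3 := h1 p hp ((Int.natCast_dvd.2 hpb).mul_left a)
    rw [show (-(-1 : ℤ)) = 1 by ring, jacobiSym.one_left] at h3
    norm_num at h3
  · rintro rfl
    have hp3 : Nat.Prime 3 := Nat.prime_three
    have h0 : jacobiSym 3 3 = 0 := by norm_num
    have h0' : jacobiSym (-3) 3 = 0 := by norm_num
    rcases three_dvd hT.eq with h | h
    · have h3 := h1 3 hp3 (by push_cast; exact h.mul_right b)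
      rw [show (-(-3 : ℤ)) = 3 by ring, h0] at h3
      norm_num at h3
    · have h4 : (3 : ℤ) ∣ c := by
        have hpr : Prime (3 : ℤ) := Int.prime_three
        rcases hpr.dvd_or_dvd h with h5 | h5
        · have h6 : (3 : ℤ) ∣ 2 := hpr.dvd_of_dvd_pow h5
          norm_num at h6
        · exact h5
      have h3 := h2 3 hp3 (by push_cast; exact h4)
      rw [h0'] at h3
      norm_num at h3

end Pool.Agent.NH3.XT
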