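import Pool.Agent.NH3.XT.StmE

/-!
# Project XE2: the integers and the classes
-/

set_option autoImplicit false
set_option linter.unusedVariables false

open scoped Classical

namespace Pool.Agent.NH3.XT.EQ

open Finset Filter Topology

namespace BIJP

theorem dvd_prod_iff {p : ℕ} (hp : p.Prime) {T : Finset ℕ} (hT : ∀ q ∈ T, q.Prime) :
    p ∣ ∏ q ∈ T, q ↔ p ∈ T := by
  constructor
  · intro h
    obtain ⟨q, hq, hd⟩ := (Prime.dvd_finsetProd_iff hp.prime _).1 h
    have := (Nat.prime_dvd_prime_iff_eq hp (hT q hq)).1 hd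
    exact this ▸ hq
  · intro h
    exact dvd_prod_of_mem _ h

theorem sqf_prod {T : Finset ℕ} (hT : ∀ q ∈ T, q.Prime) : Squarefree (∏ q ∈ T, q) := by
  induction T using Finset.induction_on with
  | empty => simp
  | insert a s ha ih =>
    rw [prod_insert ha, Nat.squarefree_mul]
    · exact ⟨(hT a (mem_insert_self _ _)).prime.squarefree, ih fun q hq => hT q (mem_insert_of_mem hq)⟩
    · refine Nat.Coprime.prod_right fun q hq => ?_
      rw [Nat.coprime_primes (hT a (mem_insert_self _ _)) (hT q (mem_insert_of_mem hq))]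
      rintro rfl
      exact ha hq

/-- the coordinates -/
noncomputable def co (S : Finset ℕ) (g : G S) (q : ℕ) : ZMod 2 :=
  if h : q ∈ S then g.2.2 ⟨q, h⟩ else g.2.1

/-- the primes -/
noncomputable def TT (S : Finset ℕ) (g : G S) : Finset ℕ :=
  (insert 2 S).filter fun q => co S g q ≠ 0

/-- the sign -/
noncomputable def sg (x : ZMod 2) : ℤ := if x = 0 then 1 else -1

theorem sg_abs (x : ZMod 2) : (sg x).natAbs = 1 := by
  unfold sg
  split_ifs <;> rfl

variable {S : Finset ℕ} (hS : ∀ p ∈ S, p.Prime ∧ p ≠ 2)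

include hS

theorem TT_prime (g : G S) : ∀ q ∈ TT S g, q.Prime := by
  intro q hq
  have h1 := (mem_filter.1 hq).1
  rcases mem_insert.1 h1 with h | h
  · rw [h]; exact Nat.prime_two
  · exact (hS q h).1

theorem two_notMem : 2 ∉ S := fun h => (hS 2 h).2 rfl

theorem F_eq (g : G S) : F S g = sg g.1 * ((∏ q ∈ TT S g, q : ℕ) : ℤ) := by
  unfold F TT
  rw [prod_filter, prod_insert (two_notMem hS)]
  have h1 : co S g 2 = g.2.1 := by
    unfold co
    rw [dif_neg (two_notMem hS)]
  have h2 : (∏ p : S, (if g.2.2 p = 0 then (1 : ℤ) else ((p : ℕ) : ℤ))) =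
      ((∏ q ∈ S, (if co S g q ≠ 0 then q else 1) : ℕ) : ℤ) := by
    rw [← Finset.prod_coe_sort S (fun q => if co S g q ≠ 0 then q else 1)]
    push_cast
    refine Finset.prod_congr rfl fun p _ => ?_
    have h3 : co S g p = g.2.2 p := by
      unfold co
      rw [dif_pos p.2]
    rw [h3]
    by_cases h4 : g.2.2 p = 0
    · simp [h4]
    · simp [h4]
  rw [h2, h1]
  unfold sg
  by_cases h5 : g.2.1 = 0
  · simp [h5]
  · simp [h5]

theorem F_abs (g : G S) : (F S g).natAbs = ∏ q ∈ TT S g, q := by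
  rw [F_eq hS, Int.natAbs_mul, sg_abs, one_mul, Int.natAbs_natCast]

theorem prod_pos' (g : G S) : 0 < ∏ q ∈ TT S g, q :=
  Finset.prod_pos fun q hq => (TT_prime hS g q hq).pos

theorem F_pos (g : G S) : 0 < F S g ↔ g.1 = 0 := by
  have h1 : (0 : ℤ) < ((∏ q ∈ TT S g, q : ℕ) : ℤ) := by exact_mod_cast prod_pos' hS g
  rw [F_eq hS]
  unfold sg
  by_cases h : g.1 = 0
  · rw [if_pos h, one_mul]
    exact ⟨fun _ => h, fun _ => h1⟩
  · rw [if_neg h]
    constructor
    · intro h2
      exfalso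
      linarith
    · intro h2
      exact absurd h2 h

theorem TT_eq {g g' : G S} (h : (F S g).natAbs = (F S g').natAbs) : TT S g = TT S g' := by
  rw [F_abs hS, F_abs hS] at h
  ext q
  constructor
  · intro hq
    have hp := TT_prime hS g q hq
    rw [← dvd_prod_iff hp (TT_prime hS g'), ← h]
    exact dvd_prod_of_mem _ hq
  · intro hq
    have hp := TT_prime hS g' q hq
    rw [← dvd_prod_iff hp (TT_prime hS g), h]
    exact dvd_prod_of_mem _ hq

omit hS in
theorem zm_eq {x y : ZMod 2} (h : x = 0 ↔ y = 0) : x = y := by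
  revert x y
  decide

omit hS in
theorem co_eq {g g' : G S} (h : TT S g = TT S g') (q : ℕ) (hq : q ∈ insert 2 S) :
    co S g q = co S g' q := by
  apply zm_eq
  have h1 : q ∈ TT S g ↔ q ∈ TT S g' := by rw [h]
  unfold TT at h1
  rw [mem_filter, mem_filter] at h1
  constructor
  · intro h2
    by_contra h3
    exact (h1.2 ⟨hq, h3⟩).2 h2
  · intro h2
    by_contra h3
    exact (h1.1 ⟨hq, h3⟩).2 h2

theorem inj : Function.Injective (F S) := by
  intro g g' h
  have hT := TT_eq hS (congrArg Int.natAbs h)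
  have h1 : g.1 = g'.1 := by
    apply zm_eq
    rw [← F_pos hS, ← F_pos hS, h]
  have h2 : g.2.1 = g'.2.1 := by
    have := co_eq hT 2 (mem_insert_self _ _)
    unfold co at this
    rwa [dif_neg (two_notMem hS), dif_neg (two_notMem hS)] at this
  have h3 : g.2.2 = g'.2.2 := by
    funext p
    have := co_eq hT p (mem_insert_of_mem p.2)
    unfold co at this
    rwa [dif_pos p.2, dif_pos p.2] at this
  exact Prod.ext h1 (Prod.ext h2 h3)

theorem surj (d : ℤ) (hd : Squarefree d)
    (h : ∀ p : ℕ, p.Prime → p ≠ 2 → p ∉ S → ¬ (p : ℤ) ∣ d) : ∃ g, F S g = d := by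
  have hd0 : d ≠ 0 := hd.ne_zero
  let g : G S := (if 0 < d then 0 else 1, if (2 : ℤ) ∣ d then 1 else 0,
    fun p => if ((p : ℕ) : ℤ) ∣ d then 1 else 0)
  have hco : ∀ q ∈ insert 2 S, (co S g q ≠ 0 ↔ (q : ℤ) ∣ d) := by
    intro q hq
    have key : ∀ (P : Prop) [Decidable P], ((if P then (1 : ZMod 2) else 0) ≠ 0 ↔ P) := by
      intro P _
      by_cases hP : P <;> simp [hP]
    unfold co
    by_cases hqS : q ∈ S
    · rw [dif_pos hqS]
      have h6 : g.2.2 ⟨q, hqS⟩ = if ((q : ℕ) : ℤ) ∣ d then 1 else 0 := rfl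
      rw [h6]
      exact key _
    · rw [dif_neg hqS]
      have h2 : q = 2 := (mem_insert.1 hq).resolve_right hqS
      have h7 : g.2.1 = if (2 : ℤ) ∣ d then 1 else 0 := rfl
      rw [h7, h2]
      exact key ((2 : ℤ) ∣ d)
  have hT : TT S g = d.natAbs.primeFactors := by
    ext q
    unfold TT
    rw [mem_filter, Nat.mem_primeFactors]
    constructor
    · rintro ⟨h1, h2⟩
      rw [hco q h1] at h2
      refine ⟨?_, Int.natCast_dvd.1 h2, Int.natAbs_ne_zero.2 hd0⟩
      rcases mem_insert.1 h1 with h3 | h3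
      · rw [h3]; exact Nat.prime_two
      · exact (hS q h3).1
    · rintro ⟨h1, h2, -⟩
      have h3 : (q : ℤ) ∣ d := Int.natCast_dvd.2 h2
      have h4 : q ∈ insert 2 S := by
        by_contra h5
        rw [mem_insert, not_or] at h5
        exact h q h1 h5.1 h5.2 h3
      exact ⟨h4, (hco q h4).2 h3⟩
  refine ⟨g, ?_⟩
  rw [F_eq hS, hT, Nat.prod_primeFactors_of_squarefree (Int.squarefree_natAbs.2 hd)]
  have hg1 : g.1 = if 0 < d then 0 else 1 := rfl
  rw [hg1]
  unfold sg
  by_cases h0 : 0 < d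
  · rw [if_pos h0, if_pos rfl]
    omega
  · rw [if_neg h0, if_neg one_ne_zero]
    omega

end BIJP

open BIJP in
theorem t_BIJ : S_BIJ := by
  intro S hS
  refine ⟨inj hS, fun g => ?_, F_pos hS, fun g p hp hp2 hpS hd => ?_, surj hS⟩
  · rw [← Int.squarefree_natAbs, F_abs hS]
    exact sqf_prod (TT_prime hS g)
  · have h1 : p ∣ (F S g).natAbs := Int.natCast_dvd.1 hd
    rw [F_abs hS, dvd_prod_iff hp (TT_prime hS g)] at h1
    rcases mem_insert.1 (mem_filter.1 h1).1 with h2 | h2
    · exact hp2 h2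
    · exact hpS h2

end Pool.Agent.NH3.XT.EQ
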