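import Pool.Agent.NH3.XT.StmE

/-!
# CRD: duality in coordinates
-/

set_option autoImplicit false
set_option linter.unusedVariables false

namespace Pool.Agent.NH3.XT.EQ

open Finset

namespace EpCrd

/-- the local coordinates -/
abbrev V (S : Finset ℕ) : Type := ZMod 2 × (ZMod 2 × ZMod 2 × ZMod 2) × (S → ZMod 2 × ZMod 2)

/-- the pairing, as a function -/
def bf (S : Finset ℕ) (v w : V S) : ZMod 2 :=
  v.1 * w.1 + (v.2.1.1 * w.2.1.2.2 + w.2.1.1 * v.2.1.2.2 + v.2.1.2.1 * w.2.1.2.1) +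
    ∑ p : S, ((v.2.2 p).1 * (w.2.2 p).2 + (w.2.2 p).1 * (v.2.2 p).2 +
      (v.2.2 p).1 * (w.2.2 p).1 * ch p)

theorem bf_add (S : Finset ℕ) (v v' w : V S) : bf S (v + v') w = bf S v w + bf S v' w := by
  unfold bf
  have h : ∑ p : S, (((v + v').2.2 p).1 * (w.2.2 p).2 + (w.2.2 p).1 * ((v + v').2.2 p).2 +
      ((v + v').2.2 p).1 * (w.2.2 p).1 * ch p) =
      ∑ p : S, ((v.2.2 p).1 * (w.2.2 p).2 + (w.2.2 p).1 * (v.2.2 p).2 +
        (v.2.2 p).1 * (w.2.2 p).1 * ch p) +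
      ∑ p : S, ((v'.2.2 p).1 * (w.2.2 p).2 + (w.2.2 p).1 * (v'.2.2 p).2 +
        (v'.2.2 p).1 * (w.2.2 p).1 * ch p) := by
    rw [← sum_add_distrib]
    refine sum_congr rfl fun p _ => ?_
    simp only [Prod.snd_add, Prod.fst_add, Pi.add_apply]
    ring
  rw [h]
  simp only [Prod.snd_add, Prod.fst_add]
  ring

theorem bf_symm (S : Finset ℕ) (v w : V S) : bf S v w = bf S w v := by
  unfold bf
  have h : ∀ p : S, (v.2.2 p).1 * (w.2.2 p).2 + (w.2.2 p).1 * (v.2.2 p).2 +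
      (v.2.2 p).1 * (w.2.2 p).1 * ch p = (w.2.2 p).1 * (v.2.2 p).2 + (v.2.2 p).1 * (w.2.2 p).2 +
      (w.2.2 p).1 * (v.2.2 p).1 * ch p := fun p => by ring
  rw [sum_congr rfl fun p _ => h p]
  ring

/-- the pairing -/
noncomputable def bl (S : Finset ℕ) : V S →ₗ[ZMod 2] V S →ₗ[ZMod 2] ZMod 2 :=
  AddMonoidHom.toZModLinearMap 2
    (AddMonoidHom.mk' (fun v => AddMonoidHom.toZModLinearMap 2
      (AddMonoidHom.mk' (fun w => bf S v w) (fun w w' => by
        rw [bf_symm S v (w + w'), bf_add, bf_symm S w v, bf_symm S w' v])))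
      (fun v v' => LinearMap.ext fun w => bf_add S v v' w))

theorem bl_apply (S : Finset ℕ) (v w : V S) : bl S v w = bf S v w := rfl

theorem ep_add (S : Finset ℕ) (g h : G S) : ep S (g + h) = ep S g + ep S h := by
  unfold ep
  simp only [Prod.fst_add, Prod.snd_add, Pi.add_apply, mul_add, sum_add_distrib]
  ring

theorem ow_add (S : Finset ℕ) (g h : G S) : ow S (g + h) = ow S g + ow S h := by
  unfold ow
  simp only [Prod.fst_add, Prod.snd_add, Pi.add_apply, mul_add, sum_add_distrib]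

theorem rr_add (S : Finset ℕ) (g h : G S) (p : S) : rr S (g + h) p = rr S g p + rr S h p := by
  unfold rr
  simp only [Prod.fst_add, Prod.snd_add, Pi.add_apply, mul_add, add_mul, sum_add_distrib]
  ring

/-- the localisation -/
noncomputable def fl (S : Finset ℕ) : G S →ₗ[ZMod 2] V S :=
  AddMonoidHom.toZModLinearMap 2
    (AddMonoidHom.mk' (fun g => (g.1, (g.2.1, ep S g, ow S g), fun p => (g.2.2 p, rr S g p)))
      (fun g h => by
        refine Prod.ext rfl (Prod.ext (Prod.ext rfl (Prod.ext ?_ ?_)) ?_)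
        · exact ep_add S g h
        · exact ow_add S g h
        · funext p
          exact Prod.ext rfl (rr_add S g h p)))

theorem fl_apply (S : Finset ℕ) (g : G S) :
    fl S g = (g.1, (g.2.1, ep S g, ow S g), fun p => (g.2.2 p, rr S g p)) := rfl

theorem eq_of_add : ∀ r v : ZMod 2, r + v = 0 → v = r := by decide

theorem add_self' : ∀ v : ZMod 2, v + v = 0 := by decide

theorem eq_of_add2 : ∀ r z v : ZMod 2, r + z + v = 0 → r + v = z := by decide

theorem ac1 {a b x y z : ZMod 2} : Ac 1 a b x y z ↔ x = 0 ∧ y = 0 := by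
  unfold Ac
  norm_num

theorem ac3 {a b x y z : ZMod 2} : Ac 3 a b x y z ↔ x = 0 ∧ z = y * b := by
  unfold Ac
  norm_num

theorem ac2 {a b x y z : ZMod 2} : Ac 2 a b x y z ↔ y = x * a ∧ z = x * b := by
  unfold Ac
  norm_num

theorem cc1 {a b x y z : ZMod 2} : Cc 1 a b x y z ↔ x = 0 := by
  unfold Cc
  norm_num

theorem cc3 {a b x y z : ZMod 2} : Cc 3 a b x y z ↔ x * b + y = 0 := by
  unfold Cc
  norm_num

theorem cc2 {a b x y z : ZMod 2} : Cc 2 a b x y z ↔ x * b + z + y * a = 0 := by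
  unfold Cc
  norm_num

theorem c_add {κ : ℤ} (hκ : κ = 1 ∨ κ = 3 ∨ κ = 2) : ∀ a b x y z x' y' z' : ZMod 2,
    Ac κ a b x y z → Ac κ a b x' y' z' → Ac κ a b (x + x') (y + y') (z + z') := by
  intro a b x y z x' y' z' h h'
  rcases hκ with rfl | rfl | rfl
  · rw [ac1] at h h' ⊢
    exact ⟨by rw [h.1, h'.1, add_zero], by rw [h.2, h'.2, add_zero]⟩
  · rw [ac3] at h h' ⊢
    exact ⟨by rw [h.1, h'.1, add_zero], by rw [h.2, h'.2]; ring⟩
  · rw [ac2] at h h' ⊢
    exact ⟨by rw [h.1, h'.1]; ring, by rw [h.2, h'.2]; ring⟩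

theorem c_add' {κ : ℤ} (hκ : κ = 1 ∨ κ = 3 ∨ κ = 2) : ∀ a b x y z x' y' z' : ZMod 2,
    Cc κ a b x y z → Cc κ a b x' y' z' → Cc κ a b (x + x') (y + y') (z + z') := by
  intro a b x y z x' y' z' h h'
  rcases hκ with rfl | rfl | rfl
  · rw [cc1] at h h' ⊢
    rw [h, h', add_zero]
  · rw [cc3] at h h' ⊢
    linear_combination h + h'
  · rw [cc2] at h h' ⊢
    linear_combination h + h'

theorem c_zero {κ : ℤ} (hκ : κ = 1 ∨ κ = 3 ∨ κ = 2) : ∀ a b : ZMod 2,
    Ac κ a b 0 0 0 ∧ Cc κ a b 0 0 0 := by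
  intro a b
  rcases hκ with rfl | rfl | rfl
  · rw [ac1, cc1]
    simp
  · rw [ac3, cc3]
    simp
  · rw [ac2, cc2]
    simp

theorem c_orth {κ : ℤ} (hκ : κ = 1 ∨ κ = 3 ∨ κ = 2) : ∀ a b x y z x' y' z' : ZMod 2,
    Ac κ a b x y z → Cc κ a b x' y' z' → x * z' + x' * z + y * y' = 0 := by
  intro a b x y z x' y' z' h h'
  rcases hκ with rfl | rfl | rfl
  · rw [ac1] at h
    rw [cc1] at h'
    rw [h.1, h.2, h']
    ring
  · rw [ac3] at h
    rw [cc3] at h'
    rw [h.1, h.2]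
    linear_combination y * h'
  · rw [ac2] at h
    rw [cc2] at h'
    rw [h.1, h.2]
    linear_combination x * h'

theorem c_card {κ : ℤ} (hκ : κ = 1 ∨ κ = 3 ∨ κ = 2) (a b : ZMod 2) :
    Nat.card {u : ZMod 2 × ZMod 2 × ZMod 2 // Ac κ a b u.1 u.2.1 u.2.2} = 2 := by
  have e : Nonempty ({u : ZMod 2 × ZMod 2 × ZMod 2 // Ac κ a b u.1 u.2.1 u.2.2} ≃ ZMod 2) := by
    rcases hκ with rfl | rfl | rfl
    · exact ⟨{
        toFun := fun u => u.1.2.2
        invFun := fun z => ⟨(0, 0, z), ac1.2 ⟨rfl, rfl⟩⟩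
        left_inv := fun u => Subtype.ext (Prod.ext (ac1.1 u.2).1.symm
          (Prod.ext (ac1.1 u.2).2.symm rfl))
        right_inv := fun z => rfl }⟩
    · exact ⟨{
        toFun := fun u => u.1.2.1
        invFun := fun y => ⟨(0, y, y * b), ac3.2 ⟨rfl, rfl⟩⟩
        left_inv := fun u => Subtype.ext (Prod.ext (ac3.1 u.2).1.symm
          (Prod.ext rfl (ac3.1 u.2).2.symm))
        right_inv := fun z => rfl }⟩
    · exact ⟨{
        toFun := fun u => u.1.1
        invFun := fun x => ⟨(x, x * a, x * b), ac2.2 ⟨rfl, rfl⟩⟩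
        left_inv := fun u => Subtype.ext (Prod.ext rfl
          (Prod.ext (ac2.1 u.2).1.symm (ac2.1 u.2).2.symm))
        right_inv := fun z => rfl }⟩
  obtain ⟨e⟩ := e
  rw [Nat.card_congr e, Nat.card_eq_fintype_card, ZMod.card]

theorem c_card' {κ : ℤ} (hκ : κ = 1 ∨ κ = 3 ∨ κ = 2) (a b : ZMod 2) :
    Nat.card {u : ZMod 2 × ZMod 2 × ZMod 2 // Cc κ a b u.1 u.2.1 u.2.2} = 4 := by
  have e : Nonempty ({u : ZMod 2 × ZMod 2 × ZMod 2 // Cc κ a b u.1 u.2.1 u.2.2} ≃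
      ZMod 2 × ZMod 2) := by
    rcases hκ with rfl | rfl | rfl
    · exact ⟨{
        toFun := fun u => u.1.2
        invFun := fun w => ⟨(0, w), cc1.2 rfl⟩
        left_inv := fun u => Subtype.ext (Prod.ext (cc1.1 u.2).symm rfl)
        right_inv := fun z => rfl }⟩
    · exact ⟨{
        toFun := fun u => (u.1.1, u.1.2.2)
        invFun := fun w => ⟨(w.1, w.1 * b, w.2), cc3.2 (add_self' _)⟩
        left_inv := fun u => Subtype.ext (Prod.ext rfl
          (Prod.ext (eq_of_add _ _ (cc3.1 u.2)).symm rfl))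
        right_inv := fun z => rfl }⟩
    · exact ⟨{
        toFun := fun u => (u.1.1, u.1.2.1)
        invFun := fun w => ⟨(w.1, w.2, w.1 * b + w.2 * a), cc2.2 (by
          show w.1 * b + (w.1 * b + w.2 * a) + w.2 * a = 0
          linear_combination add_self' (w.1 * b) + add_self' (w.2 * a))⟩
        left_inv := fun u => Subtype.ext (Prod.ext rfl
          (Prod.ext rfl (eq_of_add2 _ _ _ (cc2.1 u.2))))
        right_inv := fun z => rfl }⟩
  obtain ⟨e⟩ := e
  rw [Nat.card_congr e, Nat.card_prod, Nat.card_eq_fintype_card, ZMod.card]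

theorem smul_cases (P : ZMod 2 → Prop) (h0 : P 0) (h1 : P 1) : ∀ c, P c := by
  intro c
  have h : ∀ c : ZMod 2, c = 0 ∨ c = 1 := by decide
  rcases h c with rfl | rfl
  · exact h0
  · exact h1

/-- the first subspace -/
def W (S : Finset ℕ) (ρ : ℕ → ZMod 2) {κ : ℤ} (hκ : κ = 1 ∨ κ = 3 ∨ κ = 2) (a b : ZMod 2) :
    Submodule (ZMod 2) (V S) where
  carrier := {v | v.1 = 0 ∧ Ac κ a b v.2.1.1 v.2.1.2.1 v.2.1.2.2 ∧
    ∀ p : S, (v.2.2 p).2 + (v.2.2 p).1 * ρ p = 0}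
  zero_mem' := ⟨rfl, (c_zero hκ a b).1, fun p => by
    show (0 : ZMod 2) + 0 * ρ p = 0
    ring⟩
  add_mem' := fun {v w} hv hw => by
    refine ⟨?_, c_add hκ a b _ _ _ _ _ _ hv.2.1 hw.2.1, fun p => ?_⟩
    · show v.1 + w.1 = 0
      rw [hv.1, hw.1, add_zero]
    · show (v.2.2 p).2 + (w.2.2 p).2 + ((v.2.2 p).1 + (w.2.2 p).1) * ρ p = 0
      linear_combination hv.2.2 p + hw.2.2 p
  smul_mem' := fun c v hv => by
    refine smul_cases (fun c => c • v ∈ {v : V S | v.1 = 0 ∧ Ac κ a b v.2.1.1 v.2.1.2.1 v.2.1.2.2 ∧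
      ∀ p : S, (v.2.2 p).2 + (v.2.2 p).1 * ρ p = 0}) ?_ ?_ c
    · rw [zero_smul]
      refine ⟨rfl, (c_zero hκ a b).1, fun p => ?_⟩
      show (0 : ZMod 2) + 0 * ρ p = 0
      ring
    · rw [one_smul]
      exact hv

/-- the second subspace -/
def W' (S : Finset ℕ) (ρ : ℕ → ZMod 2) {κ : ℤ} (hκ : κ = 1 ∨ κ = 3 ∨ κ = 2) (a b : ZMod 2) :
    Submodule (ZMod 2) (V S) where
  carrier := {v | Cc κ a b v.2.1.1 v.2.1.2.1 v.2.1.2.2 ∧
    ∀ p : S, (v.2.2 p).2 + (v.2.2 p).1 * (ρ p + ch p) = 0}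
  zero_mem' := ⟨(c_zero hκ a b).2, fun p => by
    show (0 : ZMod 2) + 0 * (ρ p + ch p) = 0
    ring⟩
  add_mem' := fun {v w} hv hw => by
    refine ⟨c_add' hκ a b _ _ _ _ _ _ hv.1 hw.1, fun p => ?_⟩
    show (v.2.2 p).2 + (w.2.2 p).2 + ((v.2.2 p).1 + (w.2.2 p).1) * (ρ p + ch p) = 0
    linear_combination hv.2 p + hw.2 p
  smul_mem' := fun c v hv => by
    refine smul_cases (fun c => c • v ∈ {v : V S | Cc κ a b v.2.1.1 v.2.1.2.1 v.2.1.2.2 ∧
      ∀ p : S, (v.2.2 p).2 + (v.2.2 p).1 * (ρ p + ch p) = 0}) ?_ ?_ c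
    · rw [zero_smul]
      refine ⟨(c_zero hκ a b).2, fun p => ?_⟩
      show (0 : ZMod 2) + 0 * (ρ p + ch p) = 0
      ring
    · rw [one_smul]
      exact hv

theorem card_W (S : Finset ℕ) (ρ : ℕ → ZMod 2) {κ : ℤ} (hκ : κ = 1 ∨ κ = 3 ∨ κ = 2)
    (a b : ZMod 2) : Nat.card (W S ρ hκ a b) = 2 * 2 ^ S.card := by
  have e : W S ρ hκ a b ≃
      {u : ZMod 2 × ZMod 2 × ZMod 2 // Ac κ a b u.1 u.2.1 u.2.2} × (S → ZMod 2) :=
    { toFun := fun w => (⟨w.1.2.1, w.2.2.1⟩, fun p => (w.1.2.2 p).1)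
      invFun := fun x => ⟨(0, x.1.1, fun p => (x.2 p, x.2 p * ρ p)), rfl, x.1.2,
        fun p => add_self' _⟩
      left_inv := fun w => by
        apply Subtype.ext
        refine Prod.ext w.2.1.symm (Prod.ext rfl ?_)
        funext p
        exact Prod.ext rfl (eq_of_add _ _ (w.2.2.2 p))
      right_inv := fun x => rfl }
  rw [Nat.card_congr e, Nat.card_prod, c_card hκ, Nat.card_eq_fintype_card (α := S → ZMod 2),
    Fintype.card_fun, ZMod.card, Fintype.card_coe]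

theorem card_W' (S : Finset ℕ) (ρ : ℕ → ZMod 2) {κ : ℤ} (hκ : κ = 1 ∨ κ = 3 ∨ κ = 2)
    (a b : ZMod 2) : Nat.card (W' S ρ hκ a b) = 2 * (4 * 2 ^ S.card) := by
  have e : W' S ρ hκ a b ≃
      ZMod 2 × {u : ZMod 2 × ZMod 2 × ZMod 2 // Cc κ a b u.1 u.2.1 u.2.2} × (S → ZMod 2) :=
    { toFun := fun w => (w.1.1, ⟨w.1.2.1, w.2.1⟩, fun p => (w.1.2.2 p).1)
      invFun := fun x => ⟨(x.1, x.2.1.1, fun p => (x.2.2 p, x.2.2 p * (ρ p + ch p))), x.2.1.2,
        fun p => add_self' _⟩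
      left_inv := fun w => by
        apply Subtype.ext
        refine Prod.ext rfl (Prod.ext rfl ?_)
        funext p
        exact Prod.ext rfl (eq_of_add _ _ (w.2.2 p))
      right_inv := fun x => rfl }
  rw [Nat.card_congr e, Nat.card_prod, Nat.card_prod, c_card' hκ,
    Nat.card_eq_fintype_card (α := S → ZMod 2),
    Fintype.card_fun, Nat.card_eq_fintype_card (α := ZMod 2), ZMod.card, Fintype.card_coe]

theorem card_G (S : Finset ℕ) : Nat.card (G S) = 2 * (2 * 2 ^ S.card) := by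
  rw [Nat.card_prod, Nat.card_prod, Nat.card_eq_fintype_card (α := S → ZMod 2),
    Fintype.card_fun, Nat.card_eq_fintype_card (α := ZMod 2), ZMod.card, Fintype.card_coe]

theorem card_V (S : Finset ℕ) : Nat.card (V S) = 2 * ((2 * (2 * 2)) * (2 * 2) ^ S.card) := by
  rw [Nat.card_prod, Nat.card_prod, Nat.card_prod, Nat.card_prod,
    Nat.card_eq_fintype_card (α := S → ZMod 2 × ZMod 2), Fintype.card_fun, Fintype.card_prod,
    Nat.card_eq_fintype_card (α := ZMod 2), ZMod.card, Fintype.card_coe]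

theorem nondeg (S : Finset ℕ) (v : V S) (h : ∀ w, bl S v w = 0) : v = 0 := by
  have h1 : v.1 = 0 := by
    have := h (1, (0, 0, 0), 0)
    rw [bl_apply] at this
    simpa [bf] using this
  have h2 : v.2.1.1 = 0 := by
    have := h (0, (0, 0, 1), 0)
    rw [bl_apply] at this
    simpa [bf] using this
  have h3 : v.2.1.2.1 = 0 := by
    have := h (0, (0, 1, 0), 0)
    rw [bl_apply] at this
    simpa [bf] using this
  have h4 : v.2.1.2.2 = 0 := by
    have := h (0, (1, 0, 0), 0)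
    rw [bl_apply] at this
    simpa [bf] using this
  have h5 : ∀ p : S, (v.2.2 p).1 = 0 := by
    intro p
    have := h (0, (0, 0, 0), Pi.single p (0, 1))
    rw [bl_apply] at this
    unfold bf at this
    rw [Finset.sum_eq_single p] at this
    · simpa using this
    · intro q _ hq
      simp [Pi.single_eq_of_ne hq]
    · intro hp
      exact absurd (mem_univ p) hp
  have h6 : ∀ p : S, (v.2.2 p).2 = 0 := by
    intro p
    have := h (0, (0, 0, 0), Pi.single p (1, 0))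
    rw [bl_apply] at this
    unfold bf at this
    rw [Finset.sum_eq_single p] at this
    · simpa [h5 p] using this
    · intro q _ hq
      simp [Pi.single_eq_of_ne hq]
    · intro hp
      exact absurd (mem_univ p) hp
  refine Prod.ext h1 (Prod.ext (Prod.ext h2 (Prod.ext h3 h4)) ?_)
  funext p
  exact Prod.ext (h5 p) (h6 p)

theorem odd_orth : ∀ v v' r r' ρ c : ZMod 2, r + v * ρ = 0 → r' + v' * (ρ + c) = 0 →
    v * r' + v' * r + v * v' * c = 0 := by decide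

theorem orth (S : Finset ℕ) (ρ : ℕ → ZMod 2) {κ : ℤ} (hκ : κ = 1 ∨ κ = 3 ∨ κ = 2)
    (a b : ZMod 2) (w : V S) (hw : w ∈ W S ρ hκ a b) (w' : V S) (hw' : w' ∈ W' S ρ hκ a b) :
    bl S w w' = 0 := by
  rw [bl_apply]
  unfold bf
  obtain ⟨h1, h2, h3⟩ := hw
  obtain ⟨h4, h5⟩ := hw'
  rw [h1, c_orth hκ a b _ _ _ _ _ _ h2 h4, zero_mul, zero_add, zero_add]
  refine sum_eq_zero fun p _ => ?_
  exact odd_orth _ _ _ _ _ _ (h3 p) (h5 p)

end EpCrd

open EpCrd in
theorem t_CRD : S_CRD := by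
  intro hI hL S ρ κ a b hS hκ
  have h1 := hL (G S) (V S) (bl S) (fl S) (W S ρ hκ a b) (W' S ρ hκ a b) (nondeg S)
    (fun v w => bf_symm S v w)
    (fun g h hgh => by
      rw [fl_apply, fl_apply] at hgh
      have e1 := congrArg Prod.fst hgh
      have e2 := congrArg (fun v : V S => v.2.1.1) hgh
      have e3 := congrArg (fun v : V S => v.2.2) hgh
      refine Prod.ext e1 (Prod.ext e2 ?_)
      funext p
      exact congrArg Prod.fst (congrFun e3 p))
    (fun g g' => by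
      rw [bl_apply, fl_apply, fl_apply]
      rw [← hI S hS g g']
      unfold bf
      ring)
    (by
      rw [card_G, card_V, mul_pow 2 2 S.card]
      ring)
    (orth S ρ hκ a b)
    (by
      rw [card_W, card_W', card_V, mul_pow 2 2 S.card]
      ring)
  rw [card_W, card_G] at h1
  have h2 : Nat.card {g : G S // fl S g ∈ W' S ρ hκ a b} =
      2 * Nat.card {g : G S // fl S g ∈ W S ρ hκ a b} := by
    have h3 : 0 < 2 * 2 ^ S.card := by positivity
    apply Nat.eq_of_mul_eq_mul_right h3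
    rw [h1]
    ring
  exact h2

end Pool.Agent.NH3.XT.EQ
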