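import Pool.Agent.NH3.XT.StmE

/-!
# Project EP (helper3): the second factor has twice as many elements as the first one
-/

set_option autoImplicit false

open scoped Classical

namespace Pool.Agent.NH3.XT.EQ

open Finset
open Pool.Agent.Y703.CQ (nr)

theorem eqt (hI : S_ISO) (hL : S_LAM) (hC : S_CRD) (hB : S_BIJ) (hH : S_HSY) (hT : S_TWO) :
    S_EQT := by
  intro D h0 hs
  obtain ⟨n, hnD⟩ : ∃ n : ℕ, (n : ℤ) = D := ⟨D.natAbs, by omega⟩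
  have hsn : Squarefree n := by
    rw [← Int.squarefree_natCast, hnD]
    exact hs
  have hn0 : n ≠ 0 := hsn.ne_zero
  obtain ⟨S, hS⟩ : ∃ S : Finset ℕ, S = n.primeFactors.erase 2 := ⟨_, rfl⟩
  have hSp : ∀ p ∈ S, p.Prime ∧ p ≠ 2 := by
    intro p hp
    rw [hS] at hp
    exact ⟨Nat.prime_of_mem_primeFactors (Finset.mem_of_mem_erase hp), Finset.ne_of_mem_erase hp⟩
  have h1 : ∏ p ∈ n.primeFactors, p = n := Nat.prod_primeFactors_of_squarefree hsn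
  obtain ⟨δ, hδ, hDδ⟩ : ∃ δ : ℕ, (δ = 1 ∨ δ = 2) ∧ D = δ * ∏ q ∈ S, (q : ℤ) := by
    by_cases h2 : 2 ∈ n.primeFactors
    · refine ⟨2, Or.inr rfl, ?_⟩
      have h3 := Finset.mul_prod_erase n.primeFactors (fun p => p) h2
      rw [h1, ← hS] at h3
      rw [← hnD, ← h3]
      push_cast
      rfl
    · refine ⟨1, Or.inl rfl, ?_⟩
      rw [Finset.erase_eq_of_notMem h2] at hS
      rw [hS, ← Nat.cast_prod, h1, hnD, Nat.cast_one, one_mul]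
  have hdiv : ∀ p : ℕ, p.Prime → p ≠ 2 → ((p : ℤ) ∣ D ↔ p ∈ S) := by
    intro p hp hp2
    rw [← hnD, Int.natCast_dvd_natCast, hS, Finset.mem_erase, Nat.mem_primeFactors]
    exact ⟨fun h => ⟨hp2, hp, h, hn0⟩, fun h => h.2.2.1⟩
  have hκ : D % 4 = 1 ∨ D % 4 = 3 ∨ D % 4 = 2 := by
    have h4 : D % 4 ≠ 0 := by
      intro h
      have h1 : (2 : ℤ) * 2 ∣ D := by omega
      have h2 := hs 2 h1
      rw [Int.isUnit_iff] at h2
      omega
    omega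
  obtain ⟨b1, b2, b3, b4, b5⟩ := hB S hSp
  have hcrd := hC hI hL S (fun p => (if δ = 2 then nr p 2 else 0) + ∑ q ∈ S, nr p q) (D % 4)
    (ch (∏ q ∈ S, q)) (om (∏ q ∈ S, q)) hSp hκ
  have t2 := hT S δ hSp hδ
  have hh := hH S δ hSp hδ
  rw [← hDδ] at t2 hh
  have eA : ASp D = F S '' {g : G S | g.1 = 0 ∧ Ac (D % 4) (ch (∏ q ∈ S, q)) (om (∏ q ∈ S, q))
      g.2.1 (ep S g) (ow S g) ∧ ∀ p : S, rr S g p + g.2.2 p *
        ((fun p => (if δ = 2 then nr p 2 else 0) + ∑ q ∈ S, nr p q) p) = 0} := by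
    ext d
    constructor
    · rintro ⟨s1, s2, s3, s4⟩
      obtain ⟨g, rfl⟩ := b5 d s1 fun p hp hp2 hpS => by
        have : Fact p.Prime := ⟨hp⟩
        exact (s4 p hp2).2 fun h => hpS ((hdiv p hp hp2).1 h)
      refine ⟨g, ⟨(b3 g).1 s2, (t2 g).1.1 s3, fun p => ?_⟩, rfl⟩
      have hp := hSp p p.2
      have : Fact (p : ℕ).Prime := ⟨hp.1⟩
      exact (hh g p).1.1 ((s4 p hp.2).1 ((hdiv p hp.1 hp.2).2 p.2))
    · rintro ⟨g, ⟨g1, g2, g3⟩, rfl⟩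
      refine ⟨b2 g, (b3 g).2 g1, (t2 g).1.2 g2, fun p hp hp2 => ⟨fun h => ?_, fun h => ?_⟩⟩
      · have hpS := (hdiv p hp.out hp2).1 h
        exact (hh g ⟨p, hpS⟩).1.2 (g3 ⟨p, hpS⟩)
      · exact b4 g p hp.out hp2 fun h' => h ((hdiv p hp.out hp2).2 h')
  have eC : CSp D = F S '' {g : G S | Cc (D % 4) (ch (∏ q ∈ S, q)) (om (∏ q ∈ S, q))
      g.2.1 (ep S g) (ow S g) ∧ ∀ p : S, rr S g p + g.2.2 p *
        ((fun p => (if δ = 2 then nr p 2 else 0) + ∑ q ∈ S, nr p q) p + ch p) = 0} := by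
    ext d
    constructor
    · rintro ⟨s1, s3, s4⟩
      obtain ⟨g, rfl⟩ := b5 d s1 fun p hp hp2 hpS => by
        have : Fact p.Prime := ⟨hp⟩
        exact (s4 p hp2).2 fun h => hpS ((hdiv p hp hp2).1 h)
      refine ⟨g, ⟨(t2 g).2.1 s3, fun p => ?_⟩, rfl⟩
      have hp := hSp p p.2
      have : Fact (p : ℕ).Prime := ⟨hp.1⟩
      exact (hh g p).2.1 ((s4 p hp.2).1 ((hdiv p hp.1 hp.2).2 p.2))
    · rintro ⟨g, ⟨g2, g3⟩, rfl⟩
      refine ⟨b2 g, (t2 g).2.2 g2, fun p hp hp2 => ⟨fun h => ?_, fun h => ?_⟩⟩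
      · have hpS := (hdiv p hp.out hp2).1 h
        exact (hh g ⟨p, hpS⟩).2.2 (g3 ⟨p, hpS⟩)
      · exact b4 g p hp.out hp2 fun h' => h ((hdiv p hp.out hp2).2 h')
  rw [eA, eC]
  refine ⟨(Set.toFinite _).image _, (Set.toFinite _).image _, ?_⟩
  rw [Set.ncard_image_of_injective _ b1, Set.ncard_image_of_injective _ b1]
  exact hcrd

end Pool.Agent.NH3.XT.EQ
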