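import Pool.Agent.NH3.XT.HtStm

/-!
# The number of the pairs `(t, M)`, `M < 0`
-/

set_option autoImplicit false
set_option linter.unusedVariables false

open scoped Classical

namespace Pool.Agent.NH3.XT.HT

open Finset Filter Topology

namespace Card

/-- the set counted by `cneg` -/
noncomputable def fib (P : ℤ → Prop) (X : ℕ) : Finset ℤ :=
  (Icc (-(X : ℤ)) (-1)).filter fun D : ℤ => Squarefree D ∧ P D

theorem cneg_eq (P : ℤ → Prop) (X : ℕ) : cneg P X = ((fib P X).card : ℝ) := rfl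

theorem mem_fib (P : ℤ → Prop) (X : ℕ) (D : ℤ) :
    D ∈ fib P X ↔ (-(X : ℤ) ≤ D ∧ D ≤ -1) ∧ Squarefree D ∧ P D := by
  unfold fib
  rw [Finset.mem_filter, Finset.mem_Icc]

theorem le_yy {h X y : ℕ} (hh : 0 < h) : y ≤ yy h X ↔ y ^ 6 * h ≤ X := by
  unfold yy
  constructor
  · intro hy
    have h0 := Nat.findGreatest_spec (P := fun y => y ^ 6 * h ≤ X) (m := 0) (Nat.zero_le X) (by simp)
    exact (Nat.mul_le_mul_right h (Nat.pow_le_pow_left hy 6)).trans h0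
  · intro hy
    refine Nat.le_findGreatest ?_ hy
    have h1 : y ≤ y ^ 6 := Nat.le_self_pow (by norm_num) y
    have h2 : y ^ 6 ≤ y ^ 6 * h := Nat.le_mul_of_pos_right _ hh
    omega

/-- the height for `M = 1` -/
noncomputable def ht (t : Trp) : ℕ := (hh t.1.1 t.1.2.1).toNat

theorem htpos (hB : S_HHB) (t : Trp) : 0 < ht t := (hB t).2.2

theorem key (hB : S_HHB) (t : Trp) (X y : ℕ) :
    (-(y : ℤ)) ^ 6 * hh t.1.1 t.1.2.1 ≤ X ↔ y ≤ yy (ht t) X := by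
  rw [le_yy (htpos hB t)]
  have h1 : (-(y : ℤ)) ^ 6 * hh t.1.1 t.1.2.1 = ((y ^ 6 * ht t : ℕ) : ℤ) := by
    push_cast
    have h2 : (ht t : ℤ) = hh t.1.1 t.1.2.1 := (hB t).2.1
    rw [h2]
    ring
  rw [h1]
  exact Nat.cast_le

theorem box (hB : S_HHB) (X : ℕ) (t : Trp) (h : ht t ≤ X) :
    t.1 ∈ (Icc (0 : ℤ) X) ×ˢ ((Icc (0 : ℤ) X) ×ˢ (Icc (0 : ℤ) X)) := by
  have h1 := (hB t).1
  obtain ⟨ha, hb, hc, heq, -, -⟩ := t.2
  have h2 : ((t.1.2.1 : ℝ)) ^ 12 ≤ (X : ℝ) := h1.trans (by exact_mod_cast h)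
  have h3 : t.1.2.1 ^ 12 ≤ (X : ℤ) := by exact_mod_cast h2
  have h4 : t.1.2.1 ≤ t.1.2.1 ^ 12 := le_self_pow₀ (by omega) (by norm_num)
  have h5 : t.1.1 ≤ t.1.2.1 := by nlinarith
  have h6 : t.1.2.2 ≤ t.1.2.1 := by nlinarith
  rw [Finset.mem_product, Finset.mem_product, Finset.mem_Icc, Finset.mem_Icc, Finset.mem_Icc]
  refine ⟨⟨?_, ?_⟩, ⟨?_, ?_⟩, ⟨?_, ?_⟩⟩ <;> omega

theorem fin (hB : S_HHB) (X : ℕ) : {t : Trp | ht t ≤ X}.Finite := by
  refine Set.Finite.subset (Set.Finite.preimage (f := fun t : Trp => t.1) (Subtype.val_injective.injOn)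
    (((Icc (0 : ℤ) X) ×ˢ ((Icc (0 : ℤ) X) ×ˢ (Icc (0 : ℤ) X))).finite_toSet)) ?_
  intro t h
  exact box hB X t h

theorem yy_zero {h X : ℕ} (hh : 0 < h) (hX : ¬ h ≤ X) : yy h X = 0 := by
  by_contra h0
  have h1 : 1 ≤ yy h X := Nat.one_le_iff_ne_zero.2 h0
  rw [le_yy hh] at h1
  apply hX
  simpa using h1

theorem cneg_zero (P : ℤ → Prop) : cneg P 0 = 0 := by
  rw [cneg_eq]
  have h : fib P 0 = ∅ := by
    ext D
    rw [mem_fib]
    constructor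
    · rintro ⟨⟨h1, h2⟩, -⟩
      push_cast at h1
      omega
    · intro h
      exact absurd h (Finset.notMem_empty D)
  rw [h]
  simp

end Card

open Card in
theorem t_CARD : S_CARD := by
  intro hB Q X
  let F : Finset (Σ _ : Trp, ℤ) := (fin hB X).toFinset.sigma fun t => fib (Q t.1) (yy (ht t) X)
  let g : (Σ _ : Trp, ℤ) → (ℤ × ℤ × ℤ) × ℤ := fun x => (x.1.1, x.2)
  have hg : Function.Injective g := by
    rintro ⟨t, M⟩ ⟨t', M'⟩ h
    have h1 : t.1 = t'.1 := congrArg Prod.fst h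
    have h2 : M = M' := congrArg Prod.snd h
    have h3 : t = t' := Subtype.ext h1
    subst h3
    subst h2
    rfl
  have hZ : {z : (ℤ × ℤ × ℤ) × ℤ | Pyt z.1 ∧ z.2 < 0 ∧ Squarefree z.2 ∧ Q z.1 z.2 ∧
      z.2 ^ 6 * hh z.1.1 z.1.2.1 ≤ X} = ((F.image g : Finset _) : Set ((ℤ × ℤ × ℤ) × ℤ)) := by
    ext z
    rw [Finset.mem_coe, Finset.mem_image, Set.mem_ofPred_eq]
    constructor
    · rintro ⟨hP, hneg, hsq, hQ, hX⟩
      obtain ⟨y, hy⟩ : ∃ y : ℕ, z.2 = -(y : ℤ) := ⟨z.2.natAbs, by omega⟩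
      refine ⟨⟨⟨z.1, hP⟩, z.2⟩, ?_, rfl⟩
      have hyy : y ≤ yy (ht ⟨z.1, hP⟩) X := by
        rw [← key hB]
        rw [← hy]
        exact hX
      rw [Finset.mem_sigma]
      constructor
      · rw [Set.Finite.mem_toFinset]
        show ht ⟨z.1, hP⟩ ≤ X
        by_contra h0
        rw [yy_zero (htpos hB _) h0] at hyy
        omega
      · rw [mem_fib]
        refine ⟨⟨?_, ?_⟩, hsq, hQ⟩
        · show -((yy (ht ⟨z.1, hP⟩) X : ℕ) : ℤ) ≤ z.2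
          omega
        · show z.2 ≤ -1
          omega
    · rintro ⟨⟨t, M⟩, hM, rfl⟩
      rw [Finset.mem_sigma, mem_fib] at hM
      obtain ⟨-, ⟨h1, h2⟩, h3, h4⟩ := hM
      dsimp only at h1 h2 h3 h4
      obtain ⟨y, hy⟩ : ∃ y : ℕ, M = -(y : ℤ) := ⟨M.natAbs, by omega⟩
      refine ⟨t.2, ?_, h3, h4, ?_⟩
      · show M < 0
        omega
      · show M ^ 6 * hh t.1.1 t.1.2.1 ≤ X
        rw [hy, key hB]
        omega
  rw [hZ]
  refine ⟨Finset.finite_toSet _, ?_⟩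
  rw [Set.ncard_coe_finset, Finset.card_image_of_injective _ hg]
  rw [show F.card = ∑ t ∈ (fin hB X).toFinset, (fib (Q t.1) (yy (ht t) X)).card from Finset.card_sigma _ _]
  rw [tsum_eq_sum (s := (fin hB X).toFinset), Nat.cast_sum]
  · rfl
  · intro t h
    rw [Set.Finite.mem_toFinset] at h
    have h1 : yy (hh t.1.1 t.1.2.1).toNat X = 0 := yy_zero (htpos hB t) h
    rw [h1, cneg_zero]

end Pool.Agent.NH3.XT.HT
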