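import Pool.Agent.NH3.XT.HtStm

/-!
# HHB: the lower bound for the height
-/

set_option autoImplicit false

namespace Pool.Agent.NH3.XT.HT

namespace Hhb

theorem key (a b : ℤ) (hb : 0 < b) : b ^ 12 ≤ hh a b := by
  unfold hh
  refine le_trans ?_ (le_max_left _ _)
  have h1 : 3 * b ^ 4 ≤ 4 * (a ^ 4 - a ^ 2 * b ^ 2 + b ^ 4) := by
    nlinarith [sq_nonneg (2 * a ^ 2 - b ^ 2)]
  have hb4 : 0 < b ^ 4 := by positivity
  obtain ⟨u, hu⟩ : ∃ u, u = a ^ 4 - a ^ 2 * b ^ 2 + b ^ 4 := ⟨_, rfl⟩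
  rw [← hu] at h1 ⊢
  have hu0 : 0 < u := by linarith
  have h2 : |(-27) * u| = 27 * u := by
    rw [abs_mul, abs_of_pos hu0]
    norm_num
  rw [h2]
  have h3 : b ^ 4 ≤ 27 * u := by linarith
  have h4 : (b ^ 4) ^ 3 ≤ (27 * u) ^ 3 := pow_le_pow_left₀ hb4.le h3 3
  have h5 : b ^ 12 = (b ^ 4) ^ 3 := by ring
  have h6 : 0 < (27 * u) ^ 3 := by positivity
  linarith

end Hhb

theorem t_HHB : S_HHB := by
  intro t
  have hb : 0 < t.1.2.1 := t.2.2.1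
  have h1 := Hhb.key t.1.1 t.1.2.1 hb
  have h2 : 0 < t.1.2.1 ^ 12 := by positivity
  have h3 : 0 < hh t.1.1 t.1.2.1 := lt_of_lt_of_le h2 h1
  have h4 : ((hh t.1.1 t.1.2.1).toNat : ℤ) = hh t.1.1 t.1.2.1 := Int.toNat_of_nonneg h3.le
  refine ⟨?_, h4, by omega⟩
  have h5 : ((hh t.1.1 t.1.2.1).toNat : ℝ) = ((hh t.1.1 t.1.2.1 : ℤ) : ℝ) := by
    exact_mod_cast congrArg (fun z : ℤ => (z : ℝ)) h4
  rw [h5]
  exact_mod_cast h1

end Pool.Agent.NH3.XT.HT
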