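import Pool.Agent.NH3.XT.HtStm

/-!
# HT-1: the sum of `1 / b ^ 2` over the primitive Pythagorean triples
-/

set_option autoImplicit false

namespace Pool.Agent.NH3.XT.HT

namespace Summ68

theorem param (t : Trp) : ∃ m n : ℤ, t.1.1 = m ^ 2 - n ^ 2 ∧ t.1.2.2 = 2 * m * n ∧
    t.1.2.1 = m ^ 2 + n ^ 2 := by
  obtain ⟨h1, h2, h3, h4, h5, h6⟩ := t.2
  have h7 : PythagoreanTriple t.1.1 t.1.2.2 t.1.2.1 := by
    unfold PythagoreanTriple
    linarith [h4, sq t.1.1, sq t.1.2.2, sq t.1.2.1]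
  obtain ⟨m, n, e1, e2, e3, -⟩ := h7.coprime_classification' (Int.isCoprime_iff_gcd_eq_one.1 h5)
    h6 h2
  exact ⟨m, n, e1, e2, e3⟩

theorem gen (f : ℤ → ℝ) (hf : Summable f) (h0 : ∀ k, 0 ≤ f k) :
    Summable (fun q : ℤ × ℤ => f q.1 * f q.2) :=
  Summable.mul_of_nonneg hf hf h0 h0

theorem one : Summable (fun k : ℤ => 1 / (k : ℝ) ^ 2) :=
  Real.summable_one_div_int_pow.2 one_lt_two

theorem two : Summable (fun q : ℤ × ℤ => 1 / (q.1 : ℝ) ^ 2 * (1 / (q.2 : ℝ) ^ 2)) :=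
  gen (fun k : ℤ => 1 / (k : ℝ) ^ 2) one (fun k => by positivity)

end Summ68

theorem t_SUMM : S_SUMM := by
  choose m n h1 h2 h3 using Summ68.param
  have hinj : Function.Injective (fun t : Trp => (m t, n t)) := by
    intro t t' h
    have e1 : m t = m t' := congrArg Prod.fst h
    have e2 : n t = n t' := congrArg Prod.snd h
    apply Subtype.ext
    refine Prod.ext ?_ (Prod.ext ?_ ?_)
    · rw [h1, h1, e1, e2]
    · rw [h3, h3, e1, e2]
    · rw [h2, h2, e1, e2]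
  have hs3 := Summ68.two.comp_injective hinj
  unfold S_SUMM
  refine Summable.of_nonneg_of_le (fun t => by positivity) (fun t => ?_) hs3
  have hc : 0 < t.1.2.2 := t.2.2.2.1
  rw [h2 t] at hc
  have hm : m t ≠ 0 := by
    intro h
    rw [h] at hc
    simp at hc
  have hn : n t ≠ 0 := by
    intro h
    rw [h] at hc
    simp at hc
  have hmR : (m t : ℝ) ≠ 0 := by exact_mod_cast hm
  have hnR : (n t : ℝ) ≠ 0 := by exact_mod_cast hn
  have e : (t.1.2.1 : ℝ) = (m t : ℝ) ^ 2 + (n t : ℝ) ^ 2 := by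
    rw [h3 t]
    push_cast
    ring
  show 1 / (t.1.2.1 : ℝ) ^ 2 ≤ 1 / (m t : ℝ) ^ 2 * (1 / (n t : ℝ) ^ 2)
  rw [e, one_div_mul_one_div]
  apply one_div_le_one_div_of_le (by positivity)
  nlinarith [sq_nonneg ((m t : ℝ) ^ 2), sq_nonneg ((n t : ℝ) ^ 2),
    mul_nonneg (sq_nonneg (m t : ℝ)) (sq_nonneg (n t : ℝ))]

end Pool.Agent.NH3.XT.HT
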