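import Pool.Agent.NH3.XT.HtStm

/-! # Project XH, job HT-5 TANN (helper42): dominated convergence over the triples -/

set_option autoImplicit false

open scoped Classical

namespace Pool.Agent.NH3.XT.HT

open Finset Filter Topology

namespace TannJob

/-- the sixth root -/
noncomputable def rt (n : ℕ) : ℝ := (n : ℝ) ^ (1 / 6 : ℝ)

theorem rt_nonneg (n : ℕ) : 0 ≤ rt n := Real.rpow_nonneg (Nat.cast_nonneg n) _

theorem rt_pos {n : ℕ} (h : 0 < n) : 0 < rt n := Real.rpow_pos_of_pos (by exact_mod_cast h) _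

theorem rt_pow (n : ℕ) : rt n ^ 6 = n := by
  have h := Real.rpow_inv_natCast_pow (x := (n : ℝ)) (Nat.cast_nonneg n) (n := 6) (by norm_num)
  have h2 : ((6 : ℕ) : ℝ)⁻¹ = (1 / 6 : ℝ) := by norm_num
  rw [h2] at h
  exact h

theorem rt_one_le {n : ℕ} (h : 0 < n) : 1 ≤ rt n := by
  have : (1 : ℝ) ≤ (n : ℝ) := by exact_mod_cast h
  exact Real.one_le_rpow this (by norm_num)

theorem rt_le {n : ℕ} : rt n ≤ n := by
  rcases Nat.eq_zero_or_pos n with rfl | h
  · have : rt 0 = 0 := by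
      unfold rt
      rw [Nat.cast_zero, Real.zero_rpow (by norm_num)]
    rw [this]
    simp
  · have h1 : (1 : ℝ) ≤ (n : ℝ) := by exact_mod_cast h
    calc rt n ≤ (n : ℝ) ^ (1 : ℝ) := Real.rpow_le_rpow_of_exponent_le h1 (by norm_num)
      _ = n := Real.rpow_one _

theorem rt_tendsto : Tendsto rt atTop atTop :=
  (tendsto_rpow_atTop (by norm_num : (0 : ℝ) < 1 / 6)).comp tendsto_natCast_atTop_atTop

theorem yy_spec (h X : ℕ) : yy h X ^ 6 * h ≤ X := by
  have := Nat.findGreatest_spec (P := fun y => y ^ 6 * h ≤ X) (m := 0) (n := X) (Nat.zero_le _)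
    (by simp)
  exact this

theorem yy_mul_le (h X : ℕ) : (yy h X : ℝ) * rt h ≤ rt X := by
  have h1 := yy_spec h X
  have h2 : ((yy h X : ℝ) * rt h) ^ 6 ≤ rt X ^ 6 := by
    rw [mul_pow, rt_pow, rt_pow]
    exact_mod_cast h1
  exact le_of_pow_le_pow_left₀ (by norm_num) (rt_nonneg X) h2

theorem yy_le {h : ℕ} (hh : 0 < h) (X : ℕ) : (yy h X : ℝ) ≤ rt X * (1 / rt h) := by
  rw [mul_one_div, le_div_iff₀ (rt_pos hh)]
  exact yy_mul_le h X

theorem le_yy {h : ℕ} (hh : 0 < h) {m X : ℕ} (hm : (m : ℝ) * rt h ≤ rt X) : m ≤ yy h X := by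
  unfold yy
  refine Nat.le_findGreatest ?_ ?_
  · have h1 : (m : ℝ) ≤ (X : ℝ) := by
      calc (m : ℝ) ≤ (m : ℝ) * rt h := le_mul_of_one_le_right (Nat.cast_nonneg m) (rt_one_le hh)
        _ ≤ rt X := hm
        _ ≤ X := rt_le
    exact_mod_cast h1
  · have h1 : ((m : ℝ) * rt h) ^ 6 ≤ rt X ^ 6 :=
      pow_le_pow_left₀ (mul_nonneg (Nat.cast_nonneg m) (rt_nonneg h)) hm 6
    rw [mul_pow, rt_pow, rt_pow] at h1
    exact_mod_cast h1

theorem lt_yy {h : ℕ} (hh : 0 < h) (X : ℕ) : rt X / rt h - 1 < yy h X := by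
  have h0 : 0 ≤ rt X / rt h := div_nonneg (rt_nonneg X) (rt_nonneg h)
  have h1 : (⌊rt X / rt h⌋₊ : ℝ) ≤ rt X / rt h := Nat.floor_le h0
  have h2 : ⌊rt X / rt h⌋₊ ≤ yy h X := le_yy hh (by
    rw [le_div_iff₀ (rt_pos hh)] at h1
    exact h1)
  have h3 : rt X / rt h - 1 < ⌊rt X / rt h⌋₊ := Nat.sub_one_lt_floor _
  have h4 : (⌊rt X / rt h⌋₊ : ℝ) ≤ (yy h X : ℝ) := by exact_mod_cast h2
  linarith

theorem yy_tendsto {h : ℕ} (hh : 0 < h) : Tendsto (fun X => yy h X) atTop atTop := by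
  have h1 : Tendsto (fun X => (yy h X : ℝ)) atTop atTop := by
    refine tendsto_atTop_mono (fun X => (lt_yy hh X).le) ?_
    refine tendsto_atTop_add_const_right _ _ ?_
    exact rt_tendsto.atTop_div_const (rt_pos hh)
  exact tendsto_natCast_atTop_iff.1 h1

theorem main (ι : Type) (h : ι → ℕ) (f g : ι → ℕ → ℝ) (c : ℝ) (hh : ∀ i, 0 < h i)
    (hs : Summable (fun i => 1 / rt (h i)))
    (hfg : ∀ i Y, 0 ≤ g i Y ∧ g i Y ≤ f i Y ∧ f i Y ≤ Y)
    (hlim : ∀ i, Tendsto (fun Y => g i Y / f i Y) atTop (𝓝 c))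
    (hlow : ∃ i, ∃ δ : ℝ, 0 < δ ∧ ∀ᶠ Y : ℕ in atTop, δ * Y ≤ f i Y) :
    Tendsto (fun X : ℕ => (∑' i, g i (yy (h i) X)) / ∑' i, f i (yy (h i) X)) atTop (𝓝 c) ∧
    ∃ δ : ℝ, 0 < δ ∧ ∀ᶠ X : ℕ in atTop, δ * rt X ≤ ∑' i, f i (yy (h i) X) := by
  have f0 : ∀ i Y, 0 ≤ f i Y := fun i Y => (hfg i Y).1.trans (hfg i Y).2.1
  have sf : ∀ X, Summable fun i => f i (yy (h i) X) := fun X =>
    Summable.of_nonneg_of_le (fun i => f0 i _) (fun i => (hfg i _).2.2.trans (yy_le (hh i) X))
      (hs.mul_left (rt X))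
  have sg : ∀ X, Summable fun i => g i (yy (h i) X) := fun X =>
    Summable.of_nonneg_of_le (fun i => (hfg i _).1) (fun i => (hfg i _).2.1) (sf X)
  -- the lower bound
  obtain ⟨i₀, δ, hδ, hlow⟩ := hlow
  have hF : ∃ δ' : ℝ, 0 < δ' ∧ ∀ᶠ X : ℕ in atTop, δ' * rt X ≤ ∑' i, f i (yy (h i) X) := by
    refine ⟨δ / (2 * rt (h i₀)), div_pos hδ (mul_pos two_pos (rt_pos (hh i₀))), ?_⟩
    have h1 := (yy_tendsto (hh i₀)).eventually hlow
    have h2 := rt_tendsto.eventually (eventually_ge_atTop (2 * rt (h i₀)))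
    filter_upwards [h1, h2] with X h1 h2
    have h3 : f i₀ (yy (h i₀) X) ≤ ∑' i, f i (yy (h i) X) :=
      (sf X).le_tsum i₀ fun j _ => f0 j _
    refine le_trans ?_ h3
    refine le_trans ?_ h1
    have h4 := lt_yy (hh i₀) X
    have h5 : 0 < rt (h i₀) := rt_pos (hh i₀)
    have h6 : 1 ≤ rt X / (2 * rt (h i₀)) := by
      rw [le_div_iff₀ (by positivity)]
      linarith
    have h7 : rt X / rt (h i₀) = 2 * (rt X / (2 * rt (h i₀))) := by
      field_simp
    have h8 : rt X / (2 * rt (h i₀)) ≤ (yy (h i₀) X : ℝ) := by linarith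
    calc δ / (2 * rt (h i₀)) * rt X = δ * (rt X / (2 * rt (h i₀))) := by ring
      _ ≤ δ * (yy (h i₀) X : ℝ) := mul_le_mul_of_nonneg_left h8 hδ.le
  refine ⟨?_, hF⟩
  -- dominated convergence
  have hφ : Tendsto (fun X : ℕ => ∑' i, (g i (yy (h i) X) - c * f i (yy (h i) X)) / rt X) atTop
      (𝓝 (∑' _ : ι, (0 : ℝ))) := by
    refine tendsto_tsum_of_dominated_convergence (bound := fun i => (1 + |c|) * (1 / rt (h i)))
      (hs.mul_left _) ?_ ?_
    · intro i
      have h1 : Tendsto (fun X => |g i (yy (h i) X) / f i (yy (h i) X) - c| * (1 / rt (h i))) atTop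
          (𝓝 0) := by
        have h2 : Tendsto (fun X => g i (yy (h i) X) / f i (yy (h i) X)) atTop (𝓝 c) :=
          (hlim i).comp (yy_tendsto (hh i))
        have h3 := ((h2.sub_const c).abs).mul_const (1 / rt (h i))
        simpa using h3
      refine squeeze_zero_norm (fun X => ?_) h1
      rw [Real.norm_eq_abs, abs_div, abs_of_nonneg (rt_nonneg X)]
      have h4 : |g i (yy (h i) X) - c * f i (yy (h i) X)| ≤
          |g i (yy (h i) X) / f i (yy (h i) X) - c| * (rt X * (1 / rt (h i))) := by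
        rcases (f0 i (yy (h i) X)).eq_or_lt with h5 | h5
        · have h6 : g i (yy (h i) X) = 0 :=
            le_antisymm (by rw [h5]; exact (hfg i _).2.1) (hfg i _).1
          rw [h6, ← h5]
          simp only [mul_zero, sub_zero, abs_zero]
          exact mul_nonneg (abs_nonneg _) (mul_nonneg (rt_nonneg X)
            (one_div_nonneg.2 (rt_nonneg _)))
        · have h6 : g i (yy (h i) X) - c * f i (yy (h i) X) =
              (g i (yy (h i) X) / f i (yy (h i) X) - c) * f i (yy (h i) X) := by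
            rw [sub_mul, div_mul_cancel₀ _ h5.ne']
          rw [h6, abs_mul, abs_of_pos h5]
          exact mul_le_mul_of_nonneg_left ((hfg i _).2.2.trans (yy_le (hh i) X)) (abs_nonneg _)
      rcases (rt_nonneg X).eq_or_lt with h5 | h5
      · rw [← h5, div_zero]
        exact mul_nonneg (abs_nonneg _) (one_div_nonneg.2 (rt_nonneg _))
      · rw [div_le_iff₀ h5]
        refine h4.trans (le_of_eq ?_)
        ring
    · refine Eventually.of_forall fun X i => ?_
      rw [Real.norm_eq_abs, abs_div, abs_of_nonneg (rt_nonneg X)]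
      have h4 : |g i (yy (h i) X) - c * f i (yy (h i) X)| ≤
          (1 + |c|) * (rt X * (1 / rt (h i))) := by
        have h5 := (hfg i (yy (h i) X)).2.2.trans (yy_le (hh i) X)
        have h6 := (hfg i (yy (h i) X)).2.1
        have h7 := (hfg i (yy (h i) X)).1
        calc |g i (yy (h i) X) - c * f i (yy (h i) X)|
            ≤ |g i (yy (h i) X)| + |c * f i (yy (h i) X)| := abs_sub _ _
          _ = g i (yy (h i) X) + |c| * f i (yy (h i) X) := by
              rw [abs_mul, abs_of_nonneg h7, abs_of_nonneg (f0 i _)]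
          _ ≤ rt X * (1 / rt (h i)) + |c| * (rt X * (1 / rt (h i))) := by
              have := mul_le_mul_of_nonneg_left h5 (abs_nonneg c)
              linarith
          _ = (1 + |c|) * (rt X * (1 / rt (h i))) := by ring
      rcases (rt_nonneg X).eq_or_lt with h5 | h5
      · rw [← h5, div_zero]
        exact mul_nonneg (by positivity) (one_div_nonneg.2 (rt_nonneg _))
      · rw [div_le_iff₀ h5]
        refine h4.trans (le_of_eq ?_)
        ring
  rw [tsum_zero] at hφ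
  have hE : ∀ X : ℕ, ∑' i, (g i (yy (h i) X) - c * f i (yy (h i) X)) / rt X =
      ((∑' i, g i (yy (h i) X)) - c * ∑' i, f i (yy (h i) X)) / rt X := by
    intro X
    rw [tsum_div_const, (sg X).tsum_sub ((sf X).mul_left c), tsum_mul_left]
  simp only [hE] at hφ
  obtain ⟨δ', hδ', hF⟩ := hF
  have h1 : Tendsto (fun X : ℕ => |((∑' i, g i (yy (h i) X)) - c * ∑' i, f i (yy (h i) X)) / rt X| *
      (1 / δ')) atTop (𝓝 0) := by
    have := hφ.abs.mul_const (1 / δ')
    simpa using this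
  have h2 : Tendsto (fun X : ℕ => (∑' i, g i (yy (h i) X)) / (∑' i, f i (yy (h i) X)) - c) atTop
      (𝓝 0) := by
    refine squeeze_zero_norm' ?_ h1
    have h3 := rt_tendsto.eventually (eventually_gt_atTop 0)
    filter_upwards [hF, h3] with X hF h3
    rw [Real.norm_eq_abs]
    have h4 : 0 < ∑' i, f i (yy (h i) X) := lt_of_lt_of_le (mul_pos hδ' h3) hF
    have h5 : (∑' i, g i (yy (h i) X)) / (∑' i, f i (yy (h i) X)) - c =
        ((∑' i, g i (yy (h i) X)) - c * ∑' i, f i (yy (h i) X)) / rt X *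
          (rt X / ∑' i, f i (yy (h i) X)) := by
      field_simp
    rw [h5, abs_mul]
    refine mul_le_mul_of_nonneg_left ?_ (abs_nonneg _)
    rw [abs_of_pos (div_pos h3 h4), div_le_div_iff₀ h4 hδ']
    linarith
  have h3 := h2.add_const c
  simpa using h3

end TannJob

/-- HT-5 -/
theorem t_TANN : S_TANN := by
  intro ι h f g c h1 h2 h3 h4 h5
  exact TannJob.main ι h f g c h1 h2 h3 h4 h5

end Pool.Agent.NH3.XT.HT
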