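import Pool.Agent.NH3.XT.HtMain
import Pool.Agent.NH3.XT.HtTann
import Pool.Agent.NH3.XT.HtCard
import Pool.Agent.NH3.XT.HtSumm
import Pool.Agent.NH3.XT.HtHhb

/-!
# Project EP (helper3): the two signs are equally frequent
-/

set_option autoImplicit false

open scoped Classical

namespace Pool.Agent.NH3.XT.HT

open Finset Filter Topology

theorem half {u v : ℕ → ℝ} (hu : ∃ δ : ℝ, 0 < δ ∧ ∀ᶠ Y : ℕ in atTop, δ * Y ≤ u Y)
    (hd : Tendsto (fun Y : ℕ => (v Y - u Y) / Y) atTop (𝓝 0)) :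
    Tendsto (fun Y => (u Y / 2) / ((u Y + v Y) / 2)) atTop (𝓝 (1 / 2)) := by
  obtain ⟨δ, hδ, hu⟩ := hu
  have h1 : Tendsto (fun Y => (v Y - u Y) / u Y) atTop (𝓝 0) := by
    have h2 : Tendsto (fun Y : ℕ => (1 / δ) * |(v Y - u Y) / Y|) atTop (𝓝 0) := by
      have h3 := hd.abs.const_mul (1 / δ)
      simpa using h3
    refine squeeze_zero_norm' ?_ h2
    filter_upwards [hu, eventually_ge_atTop 1] with Y hY hY1
    have hY0 : (0 : ℝ) < Y := by exact_mod_cast hY1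
    have hu0 : 0 < u Y := lt_of_lt_of_le (mul_pos hδ hY0) hY
    rw [Real.norm_eq_abs, abs_div, abs_div, abs_of_pos hu0, abs_of_pos hY0, div_le_iff₀ hu0]
    calc |v Y - u Y| = 1 / δ * (|v Y - u Y| / Y) * (δ * Y) := by field_simp
      _ ≤ 1 / δ * (|v Y - u Y| / Y) * u Y := mul_le_mul_of_nonneg_left hY (by positivity)
  have h4 : Tendsto (fun Y => 1 / (2 + (v Y - u Y) / u Y)) atTop (𝓝 (1 / (2 + 0))) :=
    tendsto_const_nhds.div (tendsto_const_nhds.add h1) (by norm_num)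
  rw [add_zero] at h4
  refine h4.congr' ?_
  filter_upwards [hu, eventually_ge_atTop 1] with Y hY hY1
  have hY0 : (0 : ℝ) < Y := by exact_mod_cast hY1
  have hu0 : 0 < u Y := lt_of_lt_of_le (mul_pos hδ hY0) hY
  have h5 : 2 + (v Y - u Y) / u Y = (u Y + v Y) / u Y := by
    field_simp
    ring
  rw [h5, one_div_div, div_div_div_cancel_right₀ (by norm_num)]

/-- **the two signs in the order by height** -/
theorem half_ht (hS : S_SUMM) (hH : S_HHB) (hC : S_CARD) (hT : S_TANN)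
    {Q Q' : ℤ × ℤ × ℤ → ℤ → Prop}
    (hd : ∀ t : Trp, Tendsto (fun Y : ℕ => (cneg (Q t.1) Y - cneg (Q' t.1) Y) / Y) atTop (𝓝 0))
    (hp : ∀ t : Trp, ∃ δ : ℝ, 0 < δ ∧ ∀ᶠ Y : ℕ in atTop, δ * Y ≤ cneg (Q' t.1) Y) :
    Tendsto (fun X : ℕ => ((ZZ Q' X).ncard : ℝ) / (((ZZ Q' X).ncard : ℝ) + ((ZZ Q X).ncard : ℝ)))
      atTop (𝓝 (1 / 2)) := by
  obtain ⟨h1, -⟩ := hT Trp (fun t => (hh t.1.1 t.1.2.1).toNat)
    (fun t Y => (cneg (Q' t.1) Y + cneg (Q t.1) Y) / 2) (fun t Y => cneg (Q' t.1) Y / 2) (1 / 2)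
    (fun t => (hH t).2.2) (summ_h hS hH)
    (fun t Y => by
      have a1 := cneg_nonneg (Q t.1) Y
      have a2 := cneg_nonneg (Q' t.1) Y
      have a3 := cneg_le (Q t.1) Y
      have a4 := cneg_le (Q' t.1) Y
      exact ⟨by linarith, by linarith, by linarith⟩)
    (fun t => half (hp t) (hd t))
    (by
      obtain ⟨δ, hδ, h⟩ := hp t345
      refine ⟨t345, δ / 2, by positivity, h.mono fun Y hY => ?_⟩
      have a1 := cneg_nonneg (Q t345.1) Y
      have h2 : δ / 2 * (Y : ℝ) = δ * Y / 2 := by ring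
      rw [h2]
      linarith)
  have hsum : ∀ (R : ℤ × ℤ × ℤ → ℤ → Prop) (X : ℕ),
      Summable fun t : Trp => cneg (R t.1) (yy (hh t.1.1 t.1.2.1).toNat X) := by
    intro R X
    refine summable_of_ne_finset_zero (s := (Card.fin hH X).toFinset) fun t ht => ?_
    rw [Set.Finite.mem_toFinset] at ht
    have h2 : yy (hh t.1.1 t.1.2.1).toNat X = 0 := Card.yy_zero (hH t).2.2 ht
    rw [h2]
    exact Card.cneg_zero _
  have e1 : ∀ X : ℕ, ((ZZ Q X).ncard : ℝ) = ∑' t : Trp, cneg (Q t.1) (yy (hh t.1.1 t.1.2.1).toNat X) :=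
    fun X => (hC hH Q X).2
  have e2 : ∀ X : ℕ, ((ZZ Q' X).ncard : ℝ) =
      ∑' t : Trp, cneg (Q' t.1) (yy (hh t.1.1 t.1.2.1).toNat X) :=
    fun X => (hC hH Q' X).2
  refine h1.congr fun X => ?_
  rw [tsum_div_const, tsum_div_const, (hsum Q' X).tsum_add (hsum Q X), ← e1, ← e2,
    div_div_div_cancel_right₀ (by norm_num)]

end Pool.Agent.NH3.XT.HT
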