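import Pool.Agent.NH3.XT.StmE

/-!
# EP-5: the conditions at the odd primes

The lemmas on squares of `ℚ_p` are those of `NH3/XS/SQ.lean` (copied, since that file has many imports).
-/

set_option autoImplicit false
set_option linter.unusedVariables false

open scoped Classical

namespace Pool.Agent.NH3.XT.EQ

open Finset Filter Topology
open Pool.Agent.Y703.CQ (nr)

namespace EpHsy

/-- an integer prime to `p` which is a square of `ℚ_p` is a square modulo `p` -/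
lemma to_zmod {p : ℕ} [Fact p.Prime] {n : ℤ} (h : IsSquare (n : ℚ_[p])) :
    IsSquare (n : ZMod p) := by
  obtain ⟨x, hx⟩ := h
  have hx1 : ‖x‖ ≤ 1 := by
    have h1 : ‖x‖ * ‖x‖ ≤ 1 := by
      rw [← norm_mul, ← hx]
      exact Padic.norm_int_le_one n
    nlinarith [norm_nonneg x]
  obtain ⟨y, hy⟩ : ∃ y : ℤ_[p], (y : ℚ_[p]) = x := ⟨⟨x, hx1⟩, rfl⟩
  have h2 : (n : ℤ_[p]) = y * y := by
    apply Subtype.ext
    rw [PadicInt.coe_mul, hy, PadicInt.coe_intCast]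
    exact hx
  refine ⟨PadicInt.toZMod y, ?_⟩
  rw [← map_mul, ← h2, map_intCast]

/-- Hensel's lemma for squares -/
lemma of_zmod {p : ℕ} [Fact p.Prime] (hp2 : p ≠ 2) {n : ℤ} (hn : ¬ (p : ℤ) ∣ n)
    (h : IsSquare (n : ZMod p)) : IsSquare (n : ℚ_[p]) := by
  obtain ⟨y, hy⟩ := h
  obtain ⟨a, rfl⟩ := ZMod.intCast_surjective y
  have h1 : (p : ℤ) ∣ a * a - n := by
    rw [← ZMod.intCast_zmod_eq_zero_iff_dvd]
    push_cast
    rw [hy]
    ring
  have ha : ¬ (p : ℤ) ∣ a := by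
    intro h
    apply hn
    have h2 : (p : ℤ) ∣ a * a := Dvd.dvd.mul_right h a
    have h3 : n = a * a - (a * a - n) := by ring
    rw [h3]
    exact dvd_sub h2 h1
  have hpp : Prime (p : ℤ) := Nat.prime_iff_prime_int.1 (Fact.out : p.Prime)
  have h2a : ¬ (p : ℤ) ∣ 2 * a := by
    intro h
    rcases hpp.dvd_or_dvd h with h2 | h2
    · have h3 : p ∣ 2 := by exact_mod_cast h2
      have := (Nat.prime_dvd_prime_iff_eq (Fact.out : p.Prime) Nat.prime_two).1 h3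
      exact hp2 this
    · exact ha h2
  have h2a' : ‖((2 * a : ℤ) : ℤ_[p])‖ = 1 := by
    refine le_antisymm (PadicInt.norm_le_one _) (not_lt.1 fun h => h2a ?_)
    exact (PadicInt.norm_int_lt_one_iff_dvd _).1 h
  have hlt : ‖((a * a - n : ℤ) : ℤ_[p])‖ < 1 := (PadicInt.norm_int_lt_one_iff_dvd _).2 h1
  have key : ∃ z : ℤ_[p], z * z = (n : ℤ_[p]) := by
    have := hensels_lemma (p := p) (F := (Polynomial.X ^ 2 - Polynomial.C (n : ℤ_[p]))) (a := (a : ℤ_[p]))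
      (by
        simp only [map_sub, map_pow, Polynomial.aeval_X, Polynomial.aeval_C, Algebra.algebraMap_self,
          RingHom.id_apply, Polynomial.derivative_X_pow,
          Polynomial.derivative_C, sub_zero, map_mul, Nat.cast_ofNat]
        have e1 : (a : ℤ_[p]) ^ 2 - (n : ℤ_[p]) = ((a * a - n : ℤ) : ℤ_[p]) := by
          push_cast; ring
        rw [e1]
        refine lt_of_lt_of_eq hlt ?_
        have e2 : (2 : ℤ_[p]) * (a : ℤ_[p]) ^ (2 - 1) = ((2 * a : ℤ) : ℤ_[p]) := by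
          push_cast; ring
        rw [e2, h2a', one_pow])
    obtain ⟨z, hz, -⟩ := this
    refine ⟨z, ?_⟩
    simp only [map_sub, map_pow, Polynomial.aeval_X, Polynomial.aeval_C, Algebra.algebraMap_self,
      RingHom.id_apply] at hz
    linear_combination hz
  obtain ⟨z, hz⟩ := key
  refine ⟨(z : ℚ_[p]), ?_⟩
  rw [← PadicInt.coe_mul, hz, PadicInt.coe_intCast]

/-- squares of `ℚ_p` prime to `p` -/
lemma iff_jac {p : ℕ} [Fact p.Prime] (hp2 : p ≠ 2) {n : ℤ} (hn : ¬ (p : ℤ) ∣ n) :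
    IsSquare (n : ℚ_[p]) ↔ jacobiSym n p = 1 := by
  rw [← jacobiSym.legendreSym.to_jacobiSym]
  have h0 : ((n : ℤ) : ZMod p) ≠ 0 := by
    intro h
    exact hn ((ZMod.intCast_zmod_eq_zero_iff_dvd _ _).1 h)
  rw [legendreSym.eq_one_iff p h0]
  exact ⟨to_zmod, of_zmod hp2 hn⟩

/-- an integer that is divisible by `p` exactly once is not a square of `ℚ_p` -/
lemma not_sq {p : ℕ} [Fact p.Prime] {n : ℤ} (hn : ¬ (p : ℤ) ∣ n) :
    ¬ IsSquare ((p * n : ℤ) : ℚ_[p]) := by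
  rintro ⟨x, hx⟩
  have hn1 : ‖(n : ℚ_[p])‖ = 1 := by
    refine le_antisymm (Padic.norm_int_le_one _) (not_lt.1 fun h => hn ?_)
    exact Padic.norm_intCast_lt_one_iff.1 h
  have h1 : ‖((p * n : ℤ) : ℚ_[p])‖ = (p : ℝ)⁻¹ := by
    push_cast
    rw [norm_mul, hn1, mul_one, Padic.norm_p]
  rw [hx, norm_mul] at h1
  have hp0 : (p : ℝ) ≠ 0 := by exact_mod_cast (Fact.out : p.Prime).ne_zero
  have hp1 : (1 : ℝ) < p := by exact_mod_cast (Fact.out : p.Prime).one_lt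
  have hx0 : x ≠ 0 := by
    intro h
    rw [h, norm_zero, mul_zero] at h1
    exact inv_ne_zero hp0 h1.symm
  rw [Padic.norm_eq_zpow_neg_valuation hx0, ← zpow_add₀ hp0, ← zpow_neg_one] at h1
  have := zpow_right_injective₀ (by linarith) (by linarith) h1
  omega

lemma sq_mul_sq {p : ℕ} [Fact p.Prime] {n : ℤ} :
    IsSquare ((p * p * n : ℤ) : ℚ_[p]) ↔ IsSquare (n : ℚ_[p]) := by
  have hp0 : (p : ℚ_[p]) ≠ 0 := by exact_mod_cast (Fact.out : p.Prime).ne_zero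
  constructor
  · rintro ⟨x, hx⟩
    refine ⟨x / p, ?_⟩
    push_cast at hx
    field_simp
    linear_combination hx
  · rintro ⟨x, hx⟩
    refine ⟨p * x, ?_⟩
    push_cast
    rw [hx]
    ring


/-- the additive quadratic symbol -/
noncomputable def nu (q : ℕ) (a : ℤ) : ZMod 2 := if jacobiSym a q = 1 then 0 else 1

theorem nu_eq_zero {q : ℕ} {a : ℤ} : nu q a = 0 ↔ jacobiSym a q = 1 := by
  unfold nu
  by_cases h : jacobiSym a q = 1
  · rw [if_pos h]; exact ⟨fun _ => h, fun _ => rfl⟩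
  · rw [if_neg h]; exact ⟨fun h' => absurd h' one_ne_zero, fun h' => absurd h' h⟩

theorem jac_or {q : ℕ} (hq : q.Prime) {a : ℤ} (ha : ¬ (q : ℤ) ∣ a) :
    jacobiSym a q = 1 ∨ jacobiSym a q = -1 := by
  have := Fact.mk hq
  rw [← jacobiSym.legendreSym.to_jacobiSym]
  exact legendreSym.eq_one_or_neg_one q (by rwa [Ne, ZMod.intCast_zmod_eq_zero_iff_dvd])

theorem nu_mul {q : ℕ} (hq : q.Prime) {a b : ℤ} (ha : ¬ (q : ℤ) ∣ a) (hb : ¬ (q : ℤ) ∣ b) :
    nu q (a * b) = nu q a + nu q b := by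
  unfold nu
  rw [jacobiSym.mul_left]
  rcases jac_or hq ha with h1 | h1 <;> rcases jac_or hq hb with h2 | h2 <;>
    (rw [h1, h2]; norm_num; try rfl)

theorem nu_one (q : ℕ) : nu q 1 = 0 := nu_eq_zero.2 (jacobiSym.one_left q)

theorem ndvd_prod {ι : Type} {q : ℕ} (hq : q.Prime) (T : Finset ι) (g : ι → ℤ)
    (h : ∀ p ∈ T, ¬ (q : ℤ) ∣ g p) : ¬ (q : ℤ) ∣ ∏ p ∈ T, g p := by
  rw [Prime.dvd_finsetProd_iff (Nat.prime_iff_prime_int.1 hq)]
  rintro ⟨p, hp, hpd⟩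
  exact h p hp hpd

theorem nu_prod {ι : Type} {q : ℕ} (hq : q.Prime) (T : Finset ι) (g : ι → ℤ)
    (h : ∀ p ∈ T, ¬ (q : ℤ) ∣ g p) : nu q (∏ p ∈ T, g p) = ∑ p ∈ T, nu q (g p) := by
  induction T using Finset.induction_on with
  | empty => rw [Finset.prod_empty, Finset.sum_empty, nu_one]
  | insert a T ha ih =>
    rw [Finset.prod_insert ha, Finset.sum_insert ha, nu_mul hq (h a (Finset.mem_insert_self _ _))
      (ndvd_prod hq T g fun p hp => h p (Finset.mem_insert_of_mem hp)),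
      ih fun p hp => h p (Finset.mem_insert_of_mem hp)]

theorem nu_nat {q : ℕ} (hq : q.Prime) {n : ℕ} (hn : ¬ (q : ℤ) ∣ (n : ℤ)) :
    nu q n = nr q n := by
  have := Fact.mk hq
  have h0 : ((n : ℤ) : ZMod q) ≠ 0 := by rwa [Ne, ZMod.intCast_zmod_eq_zero_iff_dvd]
  have h1 := legendreSym.eq_one_iff q h0
  unfold nu nr
  rw [← jacobiSym.legendreSym.to_jacobiSym]
  by_cases h : legendreSym q n = 1
  · rw [if_pos h, if_pos]
    have := h1.1 h
    rwa [Int.cast_natCast] at this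
  · rw [if_neg h, if_neg]
    intro h'
    apply h
    apply h1.2
    rwa [Int.cast_natCast]

theorem nu_neg_one {q : ℕ} (hq : q.Prime) (hq2 : q ≠ 2) : nu q (-1) = ch q := by
  have ho : Odd q := hq.odd_of_ne_two hq2
  unfold nu ch
  rw [jacobiSym.at_neg_one ho]
  rcases Nat.odd_mod_four_iff.1 (Nat.odd_iff.1 ho) with h | h
  · rw [ZMod.χ₄_nat_one_mod_four h]
    simp [h]
  · rw [ZMod.χ₄_nat_three_mod_four h]
    simp [h]

theorem ndvd {p q : ℕ} (hp : p.Prime) (hq : q.Prime) (h : p ≠ q) : ¬ (q : ℤ) ∣ (p : ℤ) := by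
  rw [Int.natCast_dvd_natCast]
  exact fun h' => h ((Nat.prime_dvd_prime_iff_eq hq hp).1 h').symm

theorem ndvd1 {q : ℕ} (hq : q.Prime) : ¬ (q : ℤ) ∣ (1 : ℤ) := by
  intro h
  have h2 := Int.natCast_dvd_natCast.1 (by exact_mod_cast h : ((q : ℕ) : ℤ) ∣ ((1 : ℕ) : ℤ))
  exact hq.one_lt.ne' (Nat.dvd_one.1 h2)

theorem nr_self (p : ℕ) : nr p p = 0 := by
  unfold nr
  rw [if_pos]
  rw [ZMod.natCast_self]
  exact ⟨0, by simp⟩

/-- the conditions when `p` does not divide `d` -/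
theorem cond_ndvd {p : ℕ} [Fact p.Prime] (hp2 : p ≠ 2) {D' d : ℤ} (h1 : ¬ (p : ℤ) ∣ D')
    (hpd : ¬ (p : ℤ) ∣ d) : (H1 p (p * D') d ↔ nu p d = 0) ∧ (H3 p (p * D') d ↔ nu p d = 0) := by
  have hpp : Prime (p : ℤ) := Nat.prime_iff_prime_int.1 (Fact.out : p.Prime)
  have h3 : ¬ (p : ℤ) ∣ d * D' := fun h => (hpp.dvd_or_dvd h).elim hpd h1
  have h3' : ¬ (p : ℤ) ∣ -(d * D') := by rwa [dvd_neg]
  constructor
  · unfold H1
    rw [or_iff_left, iff_jac hp2 hpd, nu_eq_zero]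
    rw [show d * (p * D') = p * (d * D') by ring]
    exact not_sq h3
  · unfold H3
    rw [or_iff_left, iff_jac hp2 hpd, nu_eq_zero]
    rw [show -(d * (p * D')) = p * (-(d * D')) by ring]
    exact not_sq h3'

/-- the conditions when `p` divides `d` -/
theorem cond_dvd {p : ℕ} [Fact p.Prime] (hp2 : p ≠ 2) {D' d' : ℤ} (h1 : ¬ (p : ℤ) ∣ D')
    (h2 : ¬ (p : ℤ) ∣ d') : (H1 p (p * D') (p * d') ↔ nu p (D' * d') = 0) ∧
      (H3 p (p * D') (p * d') ↔ nu p (-1 * (D' * d')) = 0) := by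
  have hpp : Prime (p : ℤ) := Nat.prime_iff_prime_int.1 (Fact.out : p.Prime)
  have h3 : ¬ (p : ℤ) ∣ D' * d' := fun h => (hpp.dvd_or_dvd h).elim h1 h2
  have h3' : ¬ (p : ℤ) ∣ -1 * (D' * d') := by
    rw [neg_one_mul]
    rwa [dvd_neg]
  have h4 : ¬ IsSquare (((p : ℤ) * d' : ℤ) : ℚ_[p]) := not_sq h2
  constructor
  · unfold H1
    rw [or_iff_right h4, show (p : ℤ) * d' * (p * D') = p * p * (D' * d') by ring,
      sq_mul_sq, iff_jac hp2 h3, nu_eq_zero]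
  · unfold H3
    rw [or_iff_right h4, show -((p : ℤ) * d' * (p * D')) = p * p * (-1 * (D' * d')) by ring,
      sq_mul_sq, iff_jac hp2 h3', nu_eq_zero]

section

variable {S : Finset ℕ} (hS : ∀ p ∈ S, p.Prime ∧ p ≠ 2) (g : G S) (p : S)

/-- the factors prime to `p` -/
noncomputable def c' (g : G S) (p : S) (q : S) : ℤ := if g.2.2 q = 0 ∨ q = p then 1 else ((q : ℕ) : ℤ)

/-- the part of `F S g` prime to `p` -/
noncomputable def F' (g : G S) (p : S) : ℤ := (if g.1 = 0 then 1 else -1) *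
  (if g.2.1 = 0 then 1 else 2) * ∏ q : S, c' g p q

theorem F_eq : F S g = (if g.2.2 p = 0 then 1 else ((p : ℕ) : ℤ)) * F' g p := by
  unfold F F'
  have e1 : ∏ q : S, (if g.2.2 q = 0 then (1 : ℤ) else ((q : ℕ) : ℤ)) =
      (if g.2.2 p = 0 then (1 : ℤ) else ((p : ℕ) : ℤ)) *
        ∏ q ∈ (univ : Finset S).erase p, (if g.2.2 q = 0 then (1 : ℤ) else ((q : ℕ) : ℤ)) :=
    (mul_prod_erase univ (fun q : S => (if g.2.2 q = 0 then (1 : ℤ) else ((q : ℕ) : ℤ)))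
      (mem_univ p)).symm
  have e2 : ∏ q : S, c' g p q = c' g p p * ∏ q ∈ (univ : Finset S).erase p, c' g p q :=
    (mul_prod_erase univ (fun q : S => c' g p q) (mem_univ p)).symm
  have e3 : ∏ q ∈ (univ : Finset S).erase p, c' g p q =
      ∏ q ∈ (univ : Finset S).erase p, (if g.2.2 q = 0 then (1 : ℤ) else ((q : ℕ) : ℤ)) := by
    refine prod_congr rfl fun q hq => ?_
    have hne : q ≠ p := (mem_erase.1 hq).1
    unfold c'
    by_cases h : g.2.2 q = 0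
    · rw [if_pos (Or.inl h), if_pos h]
    · rw [if_neg (by tauto), if_neg h]
  have e4 : c' g p p = 1 := by
    unfold c'
    rw [if_pos (Or.inr rfl)]
  rw [e1, e2, e3, e4]
  ring

include hS

theorem c'_ndvd (q : S) : ¬ ((p : ℕ) : ℤ) ∣ c' g p q := by
  unfold c'
  split_ifs with h
  · exact ndvd1 (hS p p.2).1
  · push Not at h
    exact ndvd (hS q q.2).1 (hS p p.2).1 (fun h' => h.2 (Subtype.ext h'))

theorem nu_c' (q : S) : nu p (c' g p q) = nr p q * g.2.2 q := by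
  have h := c'_ndvd hS g p q
  unfold c' at h ⊢
  by_cases h1 : g.2.2 q = 0
  · rw [if_pos (Or.inl h1), nu_one, h1, mul_zero]
  · have h1' : g.2.2 q = 1 := by
      have : ∀ a : ZMod 2, a ≠ 0 → a = 1 := by decide
      exact this _ h1
    by_cases h2 : q = p
    · subst h2
      rw [if_pos (Or.inr rfl), nu_one, nr_self, zero_mul]
    · rw [if_neg (by tauto)] at h ⊢
      rw [nu_nat (hS p p.2).1 h, h1', mul_one]

theorem ndvd_two : ¬ ((p : ℕ) : ℤ) ∣ (2 : ℤ) := by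
  have := ndvd Nat.prime_two (hS p p.2).1 (hS p p.2).2.symm
  exact_mod_cast this

theorem F'_spec : ¬ ((p : ℕ) : ℤ) ∣ F' g p ∧ nu p (F' g p) = rr S g p := by
  have hp := (hS p p.2).1
  have hpp : Prime ((p : ℕ) : ℤ) := Nat.prime_iff_prime_int.1 hp
  have n1 : ¬ ((p : ℕ) : ℤ) ∣ (if g.1 = 0 then (1 : ℤ) else -1) := by
    split_ifs
    · exact ndvd1 hp
    · rw [dvd_neg]
      exact ndvd1 hp
  have n2 : ¬ ((p : ℕ) : ℤ) ∣ (if g.2.1 = 0 then (1 : ℤ) else 2) := by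
    split_ifs
    · exact ndvd1 hp
    · exact ndvd_two hS p
  have n3 : ¬ ((p : ℕ) : ℤ) ∣ ∏ q : S, c' g p q := ndvd_prod hp _ _ fun q _ => c'_ndvd hS g p q
  have n12 : ¬ ((p : ℕ) : ℤ) ∣ (if g.1 = 0 then (1 : ℤ) else -1) * (if g.2.1 = 0 then (1 : ℤ) else 2) :=
    fun h => (hpp.dvd_or_dvd h).elim n1 n2
  have z : ∀ a : ZMod 2, a ≠ 0 → a = 1 := by decide
  have m1 : nu p (if g.1 = 0 then (1 : ℤ) else -1) = g.1 * ch p := by
    by_cases h : g.1 = 0
    · rw [if_pos h, nu_one, h, zero_mul]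
    · rw [if_neg h, nu_neg_one hp (hS p p.2).2, z _ h, one_mul]
  have m2 : nu p (if g.2.1 = 0 then (1 : ℤ) else 2) = g.2.1 * nr p 2 := by
    by_cases h : g.2.1 = 0
    · rw [if_pos h, nu_one, h, zero_mul]
    · rw [if_neg h, z _ h, one_mul]
      have := nu_nat (n := 2) hp (by exact_mod_cast ndvd_two hS p)
      exact_mod_cast this
  unfold F'
  refine ⟨fun h => (hpp.dvd_or_dvd h).elim n12 n3, ?_⟩
  rw [nu_mul hp n12 n3, nu_mul hp n1 n2, nu_prod hp _ _ fun q _ => c'_ndvd hS g p q, m1, m2]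
  unfold rr
  congr 1
  exact sum_congr rfl fun q _ => nu_c' hS g p q

theorem D'_spec (δ : ℕ) (hδ : δ = 1 ∨ δ = 2) :
    ((δ : ℤ) * ∏ q ∈ S, (q : ℤ) = ((p : ℕ) : ℤ) * ((δ : ℤ) * ∏ q ∈ S.erase p, (q : ℤ))) ∧
    ¬ ((p : ℕ) : ℤ) ∣ ((δ : ℤ) * ∏ q ∈ S.erase p, (q : ℤ)) ∧
    nu p ((δ : ℤ) * ∏ q ∈ S.erase p, (q : ℤ)) =
      (if δ = 2 then nr p 2 else 0) + ∑ q ∈ S, nr p q := by
  have hp := (hS p p.2).1
  have hpp : Prime ((p : ℕ) : ℤ) := Nat.prime_iff_prime_int.1 hp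
  have n1 : ¬ ((p : ℕ) : ℤ) ∣ (δ : ℤ) := by
    rcases hδ with rfl | rfl
    · exact_mod_cast ndvd1 hp
    · exact_mod_cast ndvd_two hS p
  have nq : ∀ q ∈ S.erase p, ¬ ((p : ℕ) : ℤ) ∣ (q : ℤ) := by
    intro q hq
    rw [mem_erase] at hq
    exact ndvd (hS q hq.2).1 hp hq.1
  have n2 : ¬ ((p : ℕ) : ℤ) ∣ ∏ q ∈ S.erase p, (q : ℤ) := ndvd_prod hp _ _ nq
  refine ⟨?_, fun h => (hpp.dvd_or_dvd h).elim n1 n2, ?_⟩
  · rw [← mul_prod_erase S (fun q => (q : ℤ)) p.2]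
    ring
  · rw [nu_mul hp n1 n2, nu_prod hp _ _ nq]
    have e1 : nu p (δ : ℤ) = if δ = 2 then nr p 2 else 0 := by
      rcases hδ with rfl | rfl
      · rw [if_neg (by norm_num)]
        exact_mod_cast nu_one (p : ℕ)
      · rw [if_pos rfl]
        exact nu_nat hp n1
    have e2 : ∑ q ∈ S, nr p q = ∑ q ∈ S.erase p, nr p q := by
      rw [← add_sum_erase S (fun q => nr p q) p.2, nr_self, zero_add]
    rw [e1, e2]
    congr 1
    exact sum_congr rfl fun q hq => nu_nat hp (nq q hq)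

end

end EpHsy

open EpHsy in
/-- EP-5: the conditions at the odd primes -/
theorem t_HSY : S_HSY := by
  intro S δ hS hδ g p hfact
  have hp := (hS p p.2).1
  have hp2 := (hS p p.2).2
  have hpp : Prime ((p : ℕ) : ℤ) := Nat.prime_iff_prime_int.1 hp
  obtain ⟨eD, nD, uD⟩ := D'_spec hS p δ hδ
  obtain ⟨nF, uF⟩ := F'_spec hS g p
  have eF := F_eq g p
  rw [eD]
  by_cases h : g.2.2 p = 0
  · rw [if_pos h, one_mul] at eF
    rw [eF, h, zero_mul, zero_mul, add_zero]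
    have := cond_ndvd (p := (p : ℕ)) hp2 nD nF
    rw [uF] at this
    exact this
  · rw [if_neg h] at eF
    have z : ∀ a : ZMod 2, a ≠ 0 → a = 1 := by decide
    rw [eF, z _ h, one_mul, one_mul]
    have := cond_dvd (p := (p : ℕ)) hp2 nD nF
    have nDF : ¬ ((p : ℕ) : ℤ) ∣ ((δ : ℤ) * ∏ q ∈ S.erase p, (q : ℤ)) * F' g p :=
      fun h => (hpp.dvd_or_dvd h).elim nD nF
    have n1 : ¬ ((p : ℕ) : ℤ) ∣ (-1 : ℤ) := by
      rw [dvd_neg]
      exact ndvd1 hp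
    rw [nu_mul hp n1 nDF, nu_mul hp nD nF, nu_neg_one hp hp2, uD, uF] at this
    refine ⟨this.1.trans ?_, this.2.trans ?_⟩
    · rw [add_comm]
    · rw [show ch (p : ℕ) + ((if δ = 2 then nr p 2 else 0) + ∑ q ∈ S, nr p q + rr S g p) =
        rr S g p + ((if δ = 2 then nr p 2 else 0) + ∑ q ∈ S, nr p q + ch p) by ring]

end Pool.Agent.NH3.XT.EQ
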