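import Pool.Agent.NH3.XT.StmE

/-!
# EP-1 ISO: the product formula
-/

set_option autoImplicit false

namespace Pool.Agent.NH3.XT.EQ

open Finset
open Pool.Agent.Y703.CQ (nr)

namespace Iso

theorem two0 : (2 : ZMod 2) = 0 := rfl

theorem ch_sq (p : ℕ) : ch p * ch p = ch p := by
  unfold ch
  split_ifs <;> simp

theorem nr_self (p : ℕ) : nr p p = 0 := by
  unfold nr
  rw [if_pos]
  rw [ZMod.natCast_self]
  exact ⟨0, (mul_zero 0).symm⟩

theorem nr_two' {p : ℕ} (hp : p.Prime) (hp2 : p ≠ 2) : nr p 2 = om p := by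
  have : Fact p.Prime := ⟨hp⟩
  have h1 := ZMod.exists_sq_eq_two_iff (p := p) hp2
  have h2 : p % 2 = 1 := hp.eq_two_or_odd.resolve_left hp2
  have h3 : IsSquare ((2 : ℕ) : ZMod p) ↔ p % 8 = 1 ∨ p % 8 = 7 := by
    rw [← h1]
    push_cast
    rfl
  unfold nr om
  by_cases h : p % 8 = 3 ∨ p % 8 = 5
  · rw [if_pos h, if_neg]
    rw [h3]
    omega
  · rw [if_neg h, if_pos]
    rw [h3]
    omega

theorem rec1 {p q : ℕ} (hp : p.Prime) (hq : q.Prime) (hq2 : q ≠ 2) (h1 : p % 4 = 1) :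
    nr p q + nr q p = ch p * ch q := by
  have : Fact p.Prime := ⟨hp⟩
  have : Fact q.Prime := ⟨hq⟩
  have h := ZMod.exists_sq_eq_prime_iff_of_mod_four_eq_one (p := p) (q := q) h1 hq2
  have h3 : nr p q = nr q p := by
    unfold nr
    by_cases h5 : IsSquare (p : ZMod q)
    · rw [if_pos h5, if_pos (h.2 h5)]
    · rw [if_neg h5, if_neg (fun h6 => h5 (h.1 h6))]
  have h4 : ch p = 0 := by
    unfold ch
    rw [if_neg]
    omega
  rw [h3, h4, zero_mul, ← two_mul, two0, zero_mul]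

theorem rec' {p q : ℕ} (hp : p.Prime) (hp2 : p ≠ 2) (hq : q.Prime) (hq2 : q ≠ 2) (hpq : p ≠ q) :
    nr p q + nr q p = ch p * ch q := by
  have h1 : p % 2 = 1 := hp.eq_two_or_odd.resolve_left hp2
  have h2 : q % 2 = 1 := hq.eq_two_or_odd.resolve_left hq2
  by_cases h3 : p % 4 = 1
  · exact rec1 hp hq hq2 h3
  by_cases h4 : q % 4 = 1
  · rw [add_comm, mul_comm]
    exact rec1 hq hp hp2 h4
  have h5 : p % 4 = 3 := by omega
  have h6 : q % 4 = 3 := by omega
  have : Fact p.Prime := ⟨hp⟩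
  have : Fact q.Prime := ⟨hq⟩
  have h := ZMod.exists_sq_eq_prime_iff_of_mod_four_eq_three (p := p) (q := q) h5 h6 hpq
  unfold nr ch
  rw [if_pos h5, if_pos h6]
  by_cases h7 : IsSquare (p : ZMod q)
  · rw [if_pos h7, if_neg (fun h8 => h.1 h8 h7)]
    simp
  · rw [if_neg h7, if_pos (h.2 h7)]
    simp

end Iso

open Iso in
/-- ISO -/
theorem t_ISO : S_ISO := by
  intro S hS g g'
  obtain ⟨e, x2, x⟩ := g
  obtain ⟨e', x2', x'⟩ := g'
  have key : ∑ p : S, ∑ q : S, x p * x' q * (nr p q + nr q p + ch p * ch q) =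
      ∑ p : S, x p * x' p * ch p := by
    refine sum_congr rfl fun p _ => ?_
    rw [sum_eq_single p]
    · rw [nr_self, ch_sq, add_zero, zero_add]
    · intro q _ hq
      have h1 := rec' (hS p p.2).1 (hS p p.2).2 (hS q q.2).1 (hS q q.2).2
        (fun h => hq (Subtype.ext h.symm))
      rw [h1, ← two_mul, two0, zero_mul, mul_zero]
    · intro h
      exact absurd (mem_univ p) h
  have e1 : ∑ p : S, x p * ∑ q : S, nr p q * x' q = ∑ p : S, ∑ q : S, x p * x' q * nr p q := by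
    refine sum_congr rfl fun p _ => ?_
    rw [mul_sum]
    exact sum_congr rfl fun q _ => by ring
  have e2 : ∑ p : S, x' p * ∑ q : S, nr p q * x q = ∑ p : S, ∑ q : S, x p * x' q * nr q p := by
    rw [sum_comm]
    refine sum_congr rfl fun p _ => ?_
    rw [mul_sum]
    exact sum_congr rfl fun q _ => by ring
  have e3 : (∑ p : S, ch p * x p) * (∑ q : S, ch q * x' q) =
      ∑ p : S, ∑ q : S, x p * x' q * (ch p * ch q) := by
    rw [sum_mul]
    refine sum_congr rfl fun p _ => ?_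
    rw [mul_sum]
    exact sum_congr rfl fun q _ => by ring
  have key2 : ∑ p : S, x p * ∑ q : S, nr p q * x' q + ∑ p : S, x' p * ∑ q : S, nr p q * x q +
      (∑ p : S, ch p * x p) * (∑ q : S, ch q * x' q) = ∑ p : S, x p * x' p * ch p := by
    rw [e1, e2, e3, ← key, ← sum_add_distrib, ← sum_add_distrib]
    refine sum_congr rfl fun p _ => ?_
    rw [← sum_add_distrib, ← sum_add_distrib]
    exact sum_congr rfl fun q _ => by ring
  have e4 : ∑ p : S, (x p * (e' * ch p + x2' * nr p 2 + ∑ q : S, nr p q * x' q) +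
      x' p * (e * ch p + x2 * nr p 2 + ∑ q : S, nr p q * x q) + x p * x' p * ch p) =
      (e' * ∑ p : S, ch p * x p) + (x2' * ∑ p : S, om p * x p) +
        (∑ p : S, x p * ∑ q : S, nr p q * x' q) + ((e * ∑ p : S, ch p * x' p) +
        (x2 * ∑ p : S, om p * x' p) + ∑ p : S, x' p * ∑ q : S, nr p q * x q) +
        ∑ p : S, x p * x' p * ch p := by
    rw [mul_sum, mul_sum, mul_sum, mul_sum, ← sum_add_distrib, ← sum_add_distrib, ← sum_add_distrib,
      ← sum_add_distrib, ← sum_add_distrib, ← sum_add_distrib]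
    refine sum_congr rfl fun p _ => ?_
    rw [nr_two' (hS p p.2).1 (hS p p.2).2]
    ring
  show ∑ p : S, (x p * (e' * ch p + x2' * nr p 2 + ∑ q : S, nr p q * x' q) +
      x' p * (e * ch p + x2 * nr p 2 + ∑ q : S, nr p q * x q) + x p * x' p * ch p) +
    (x2 * (∑ q : S, om q * x' q) + x2' * (∑ q : S, om q * x q) +
      (e + ∑ q : S, ch q * x q) * (e' + ∑ q : S, ch q * x' q)) + e * e' = 0
  rw [e4]
  linear_combination key2 + ((e' * ∑ p : S, ch p * x p) + (x2' * ∑ p : S, om p * x p) +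
    (e * ∑ p : S, ch p * x' p) + (x2 * ∑ p : S, om p * x' p) + (∑ p : S, x p * x' p * ch p) +
    e * e') * two0

end Pool.Agent.NH3.XT.EQ
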