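import Pool.Agent.NH3.XT.StmE

/-!
# EP-2 LAM (helper48): linear algebra
-/

set_option autoImplicit false

namespace Pool.Agent.NH3.XT.EQ

namespace Lam

open Module

lemma card_eq (M : Type) [AddCommGroup M] [Module (ZMod 2) M] [Finite M] :
    Nat.card M = 2 ^ finrank (ZMod 2) M := by
  have := Fintype.ofFinite M
  rw [Nat.card_eq_fintype_card, Module.card_eq_pow_finrank (K := ZMod 2) (V := M), ZMod.card]

variable {G V : Type} [AddCommGroup G] [Module (ZMod 2) G] [Finite G]
  [AddCommGroup V] [Module (ZMod 2) V] [Finite V]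

/-- the number of the preimages -/
lemma card_pre (f : G →ₗ[ZMod 2] V) (hf : Function.Injective f) (W : Submodule (ZMod 2) V) :
    Nat.card {g : G // f g ∈ W} = 2 ^ finrank (ZMod 2) (LinearMap.range f ⊓ W : Submodule (ZMod 2) V) := by
  have h1 : Nat.card {g : G // f g ∈ W} = Nat.card (W.comap f) := rfl
  rw [h1, card_eq, (Submodule.equivMapOfInjective f hf (W.comap f)).finrank_eq,
    Submodule.map_comap_eq]

end Lam

open Module in
theorem t_LAM : S_LAM := by
  intro G V _ _ _ _ _ _ B f W W' hnd hsym hf hiso hcard hWW hWc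
  have hrefl : LinearMap.BilinForm.IsRefl B := fun x y h => by rw [hsym]; exact h
  have hB : LinearMap.BilinForm.Nondegenerate B := by
    constructor
    · intro x h
      exact hnd x h
    · intro y h
      exact hnd y fun w => by rw [hsym]; exact h w
  have : Module.Finite (ZMod 2) V := Module.Finite.of_finite
  set X : Submodule (ZMod 2) V := LinearMap.range f with hX
  have hXG : finrank (ZMod 2) X = finrank (ZMod 2) G := LinearMap.finrank_range_of_inj hf
  have d1 : 2 * finrank (ZMod 2) G = finrank (ZMod 2) V := by
    rw [Lam.card_eq, Lam.card_eq, ← pow_mul] at hcard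
    have := Nat.pow_right_injective le_rfl hcard
    omega
  have d2 : finrank (ZMod 2) W + finrank (ZMod 2) W' = finrank (ZMod 2) V := by
    rw [Lam.card_eq, Lam.card_eq, Lam.card_eq V, ← pow_add] at hWc
    exact Nat.pow_right_injective le_rfl hWc
  -- the orthogonal spaces
  have o1 : LinearMap.BilinForm.orthogonal B X = X := by
    refine (Submodule.eq_of_le_of_finrank_eq ?_ ?_).symm
    · rintro x ⟨g, rfl⟩
      rw [LinearMap.BilinForm.mem_orthogonal_iff]
      rintro y ⟨g', rfl⟩
      exact hiso g' g
    · rw [LinearMap.BilinForm.finrank_orthogonal hB]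
      omega
  have o2 : LinearMap.BilinForm.orthogonal B W' = W := by
    refine (Submodule.eq_of_le_of_finrank_eq ?_ ?_).symm
    · intro w hw
      rw [LinearMap.BilinForm.mem_orthogonal_iff]
      intro w' hw'
      rw [hsym]
      exact hWW w hw w' hw'
    · rw [LinearMap.BilinForm.finrank_orthogonal hB]
      omega
  have o3 : LinearMap.BilinForm.orthogonal B (X ⊔ W') = X ⊓ W := by
    apply le_antisymm
    · intro v hv
      rw [LinearMap.BilinForm.mem_orthogonal_iff] at hv
      refine ⟨?_, ?_⟩
      · have h : v ∈ LinearMap.BilinForm.orthogonal B X := by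
          rw [LinearMap.BilinForm.mem_orthogonal_iff]
          intro n hn
          exact hv n (Submodule.mem_sup_left hn)
        rw [o1] at h
        exact h
      · have h : v ∈ LinearMap.BilinForm.orthogonal B W' := by
          rw [LinearMap.BilinForm.mem_orthogonal_iff]
          intro n hn
          exact hv n (Submodule.mem_sup_right hn)
        rw [o2] at h
        exact h
    · rintro v ⟨h1, h2⟩
      rw [LinearMap.BilinForm.mem_orthogonal_iff]
      intro n hn
      obtain ⟨a, ha, b, hb, rfl⟩ := Submodule.mem_sup.1 hn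
      have h1' : v ∈ LinearMap.BilinForm.orthogonal B X := by rw [o1]; exact h1
      have h2' : v ∈ LinearMap.BilinForm.orthogonal B W' := by rw [o2]; exact h2
      rw [map_add, LinearMap.add_apply, h1' a ha, h2' b hb, add_zero]
  have d3 := LinearMap.BilinForm.finrank_orthogonal hB (X ⊔ W')
  rw [o3] at d3
  have d4 := Submodule.finrank_sup_add_finrank_inf_eq X W'
  have d5 : finrank (ZMod 2) (X ⊔ W' : Submodule (ZMod 2) V) ≤ finrank (ZMod 2) V :=
    Submodule.finrank_le _
  rw [Lam.card_pre f hf W', Lam.card_pre f hf W, Lam.card_eq W, Lam.card_eq G, ← pow_add, ← pow_add]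
  congr 1
  rw [← hX]
  omega

end Pool.Agent.NH3.XT.EQ
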