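import Pool.Agent.NH3.XT.StmE

/-!
# Project EP: a group killed by two
-/

set_option autoImplicit false

namespace Pool.Agent.NH3.XT.EQ

theorem t_POW : S_POW := by
  intro A _ hfin
  let H : AddSubgroup A :=
    { carrier := {x : A | x + x = 0}
      zero_mem' := by simp
      add_mem' := by
        intro x y hx hy
        have hx' : x + x = 0 := hx
        have hy' : y + y = 0 := hy
        show (x + y) + (x + y) = 0
        calc (x + y) + (x + y) = (x + x) + (y + y) := by abel
          _ = 0 := by rw [hx', hy', add_zero]
      neg_mem' := by
        intro x hx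
        have hx' : x + x = 0 := hx
        show -x + -x = 0
        rw [← neg_add, hx', neg_zero] }
  have : Finite H := hfin
  have h2 : ∀ x : H, 2 • x = 0 := by
    intro x
    rw [two_nsmul]
    exact Subtype.ext x.2
  let _ : Module (ZMod 2) H := AddCommGroup.zmodModule h2
  refine ⟨Module.finrank (ZMod 2) H, ?_⟩
  have h3 := Module.natCard_eq_pow_finrank (K := ZMod 2) (V := H)
  rw [Nat.card_zmod] at h3
  exact h3

end Pool.Agent.NH3.XT.EQ
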