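import Pool.Agent.NH3.XT.StmE

/-!
# Project EP: the two signs
-/

set_option autoImplicit false
set_option linter.unusedVariables false

open scoped Classical

namespace Pool.Agent.NH3.XT.EQ

open Finset Filter Topology

namespace Rat

theorem card_iff {α : Type*} {s : Finset α} {p q : α → Prop} {ip : DecidablePred p}
    {iq : DecidablePred q} (h : ∀ x ∈ s, p x ↔ q x) : (s.filter p).card = (s.filter q).card := by
  refine congrArg Finset.card (Finset.ext fun x => ?_)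
  rw [mem_filter, mem_filter]
  exact and_congr_right (h x)

/-- from negative integers to natural numbers -/
theorem cneg_eq (Q : ℤ → Prop) (X : ℕ) :
    cneg Q X = (((Icc 1 X).filter fun D : ℕ => Squarefree D ∧ Q (-(D : ℤ))).card : ℝ) := by
  unfold cneg
  congr 1
  refine Finset.card_bij' (fun D _ => D.natAbs) (fun N _ => -(N : ℤ)) ?_ ?_ ?_ ?_
  · intro D hD
    obtain ⟨h1, h2, h3⟩ := Finset.mem_filter.1 hD
    rw [Finset.mem_Icc] at h1
    have hN : (-(D.natAbs : ℤ)) = D := by omega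
    refine Finset.mem_filter.2 ⟨Finset.mem_Icc.2 ⟨by omega, by omega⟩,
      Int.squarefree_natAbs.2 h2, ?_⟩
    rw [hN]
    exact h3
  · intro N hN
    obtain ⟨h1, h2, h3⟩ := Finset.mem_filter.1 hN
    rw [Finset.mem_Icc] at h1
    refine Finset.mem_filter.2 ⟨Finset.mem_Icc.2 ⟨by omega, by omega⟩, ?_, h3⟩
    rw [← Int.squarefree_natAbs, Int.natAbs_neg, Int.natAbs_natCast]
    exact h2
  · intro D hD
    obtain ⟨h1, h2, h3⟩ := Finset.mem_filter.1 hD
    rw [Finset.mem_Icc] at h1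
    show (-(D.natAbs : ℤ)) = D
    omega
  · intro N hN
    show (-(N : ℤ)).natAbs = N
    omega

theorem fib {q : ℕ} (hq : 0 < q) {σ : ℤ} (hσ : σ * σ = 1) (m : ℕ) {r : ℕ} (hr : r < q) :
    ((σ * (m : ℤ)) % q).toNat = r ↔ (m : ℤ) ≡ σ * r [ZMOD q] := by
  have hq' : (0 : ℤ) < q := by exact_mod_cast hq
  have h0 := Int.emod_nonneg (σ * (m : ℤ)) hq'.ne'
  have hr' : (r : ℤ) % q = r := Int.emod_eq_of_lt (by omega) (by exact_mod_cast hr)
  constructor
  · intro h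
    have h1 : σ * (m : ℤ) ≡ r [ZMOD q] := by
      show (σ * (m : ℤ)) % q = (r : ℤ) % q
      rw [hr']
      omega
    have h2 := h1.mul_left σ
    rwa [← mul_assoc, hσ, one_mul] at h2
  · intro h
    have h2 := h.mul_left σ
    rw [← mul_assoc, hσ, one_mul] at h2
    have h3 : (σ * (m : ℤ)) % q = (r : ℤ) % q := h2
    rw [hr'] at h3
    omega

theorem cnt {q : ℕ} (hq : 0 < q) {P : ℤ → Prop} (hP : ∀ D D' : ℤ, D ≡ D' [ZMOD q] → (P D ↔ P D'))
    {σ : ℤ} (hσ : σ * σ = 1) (Y : ℕ) :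
    ((Icc 1 Y).filter fun m : ℕ => Squarefree m ∧ P (-(σ * (m : ℤ)))).card =
      ∑ r ∈ (range q).filter (fun r : ℕ => P (-(r : ℤ))),
        ((Icc 1 Y).filter fun m : ℕ => Squarefree m ∧ (m : ℤ) ≡ σ * r [ZMOD q]).card := by
  have hq' : (0 : ℤ) < q := by exact_mod_cast hq
  have hf : ∀ m : ℕ, ((σ * (m : ℤ)) % q).toNat < q := by
    intro m
    have h1 := Int.emod_lt_of_pos (σ * (m : ℤ)) hq'
    have h0 := Int.emod_nonneg (σ * (m : ℤ)) hq'.ne'
    omega
  have hPm : ∀ m : ℕ, P (-(((σ * (m : ℤ)) % q).toNat : ℤ)) ↔ P (-(σ * (m : ℤ))) := by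
    intro m
    have h0 := Int.emod_nonneg (σ * (m : ℤ)) hq'.ne'
    refine hP _ _ (Int.ModEq.neg ?_)
    rw [Int.toNat_of_nonneg h0]
    exact Int.mod_modEq _ _
  rw [Finset.card_eq_sum_card_fiberwise (f := fun m : ℕ => ((σ * (m : ℤ)) % q).toNat)
    (t := (range q).filter (fun r : ℕ => P (-(r : ℤ))))]
  · refine Finset.sum_congr rfl fun r hr => ?_
    obtain ⟨hr1, hr2⟩ := Finset.mem_filter.1 hr
    rw [Finset.mem_range] at hr1
    rw [Finset.filter_filter]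
    refine card_iff fun m _ => ?_
    rw [fib hq hσ m hr1]
    constructor
    · rintro ⟨⟨h1, -⟩, h3⟩
      exact ⟨h1, h3⟩
    · rintro ⟨h1, h3⟩
      refine ⟨⟨h1, ?_⟩, h3⟩
      rw [← hPm, (fib hq hσ m hr1).2 h3]
      exact hr2
  · intro m hm
    obtain ⟨-, -, h3⟩ := Finset.mem_filter.1 hm
    exact Finset.mem_filter.2 ⟨Finset.mem_range.2 (hf m), (hPm m).2 h3⟩

end Rat

open Rat in
theorem t_RAT : S_RAT := by
  intro hS q P hq hP
  have h1 : ∀ Y : ℕ, cneg P Y = ((∑ r ∈ (range q).filter (fun r : ℕ => P (-(r : ℤ))),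
      ((Icc 1 Y).filter fun m : ℕ => Squarefree m ∧ (m : ℤ) ≡ r [ZMOD q]).card : ℕ) : ℝ) := by
    intro Y
    rw [cneg_eq]
    have h := cnt hq hP (σ := 1) (by norm_num) Y
    simp only [one_mul] at h
    exact_mod_cast h
  have h2 : ∀ Y : ℕ, cneg (fun D => P (-D)) Y =
      ((∑ r ∈ (range q).filter (fun r : ℕ => P (-(r : ℤ))),
      ((Icc 1 Y).filter fun m : ℕ => Squarefree m ∧ (m : ℤ) ≡ -r [ZMOD q]).card : ℕ) : ℝ) := by
    intro Y
    rw [cneg_eq]
    have h := cnt hq hP (σ := -1) (by norm_num) Y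
    simp only [neg_mul, one_mul] at h
    exact_mod_cast h
  have h3 : ∀ Y : ℕ, (cneg P Y - cneg (fun D => P (-D)) Y) / Y =
      ∑ r ∈ (range q).filter (fun r : ℕ => P (-(r : ℤ))),
      ((((Icc 1 Y).filter fun m : ℕ => Squarefree m ∧ (m : ℤ) ≡ r [ZMOD q]).card : ℝ) -
        (((Icc 1 Y).filter fun m : ℕ => Squarefree m ∧ (m : ℤ) ≡ -r [ZMOD q]).card : ℝ)) / Y := by
    intro Y
    rw [h1, h2, Nat.cast_sum, Nat.cast_sum, ← Finset.sum_sub_distrib, Finset.sum_div]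
  have h4 := tendsto_finsetSum ((range q).filter (fun r : ℕ => P (-(r : ℤ))))
    (fun (r : ℕ) _ => hS q (r : ℤ) hq)
  rw [Finset.sum_const_zero] at h4
  exact h4.congr fun Y => (h3 Y).symm

end Pool.Agent.NH3.XT.EQ
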