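import Pool.Agent.NH3.XT.StmE

/-!
# Squarefree numbers in opposite residue classes
-/

set_option autoImplicit false

open scoped Classical

namespace Pool.Agent.NH3.XT.EQ

open Finset Filter Topology

namespace SQC

/-- the modulus -/
def LL (q z : ℕ) : ℕ := q * ∏ k ∈ Icc 1 z, k ^ 2

/-- not divisible by small squares, in the class of `r` -/
def R (q z : ℕ) (r : ℤ) (m : ℕ) : Prop := (∀ k ∈ Icc 2 z, ¬ k ^ 2 ∣ m) ∧ (m : ℤ) ≡ r [ZMOD q]

lemma LL_pos {q z : ℕ} (hq : 0 < q) : 0 < LL q z := by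
  unfold LL
  refine Nat.mul_pos hq (Finset.prod_pos fun k hk => ?_)
  have := (Finset.mem_Icc.1 hk).1
  positivity

lemma R_refl {q z : ℕ} {r : ℤ} {T m : ℕ} (hT : LL q z ∣ T) (hm : m ≤ T) (h : R q z r m) :
    R q z (-r) (T - m) := by
  constructor
  · intro k hk hd
    have h0 := Finset.mem_Icc.1 hk
    have h1 : k ^ 2 ∣ T := by
      refine (dvd_mul_of_dvd_right (Finset.dvd_prod_of_mem (fun k => k ^ 2)
        (Finset.mem_Icc.2 ⟨?_, h0.2⟩)) q).trans hT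
      omega
    have h2 : k ^ 2 ∣ m := by
      have h3 := Nat.dvd_sub h1 hd
      rwa [Nat.sub_sub_self hm] at h3
    exact h.1 k hk h2
  · have h3 : (q : ℤ) ∣ (T : ℤ) := by
      exact_mod_cast (Dvd.intro _ rfl : q ∣ LL q z).trans hT
    rw [Nat.cast_sub hm]
    have h4 : (T : ℤ) ≡ 0 [ZMOD q] := (Int.modEq_zero_iff_dvd).2 h3
    have h5 := h4.sub h.2
    rwa [zero_sub] at h5

/-- the count -/
noncomputable def N (q z : ℕ) (r : ℤ) (Y : ℕ) : ℕ := ((Icc 1 Y).filter fun m => R q z r m).card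

/-- the count of the squarefree numbers -/
noncomputable def S (q : ℕ) (r : ℤ) (Y : ℕ) : ℕ :=
  ((Icc 1 Y).filter fun m : ℕ => Squarefree m ∧ (m : ℤ) ≡ r [ZMOD q]).card

lemma N_le {q : ℕ} (z : ℕ) (hq : 0 < q) (r : ℤ) (Y : ℕ) :
    N q z r Y ≤ N q z (-r) Y + LL q z := by
  have hL : 0 < LL q z := LL_pos hq
  obtain ⟨T, hT⟩ : ∃ T, T = LL q z * (Y / LL q z + 1) := ⟨_, rfl⟩
  have hT1 : Y < T := by
    rw [hT]
    exact Nat.lt_mul_div_succ Y hL
  have hT2 : T ≤ Y + LL q z := by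
    have := Nat.mul_div_le Y (LL q z)
    rw [hT, mul_add, mul_one]
    omega
  have hd : LL q z ∣ T := ⟨_, hT⟩
  have h : ((Icc 1 Y).filter fun m => R q z r m).card ≤
      (((Icc 1 Y).filter fun m => R q z (-r) m) ∪ Ioo Y T).card := by
    refine card_le_card_of_injOn (fun m => T - m) ?_ ?_
    · intro m hm
      have hm' := Finset.mem_filter.1 (Finset.mem_coe.1 hm)
      have h1 := Finset.mem_Icc.1 hm'.1
      suffices key : T - m ∈ ((Icc 1 Y).filter fun m => R q z (-r) m) ∪ Ioo Y T from key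
      rw [Finset.mem_union]
      by_cases h2 : T - m ≤ Y
      · left
        exact Finset.mem_filter.2 ⟨Finset.mem_Icc.2 ⟨by omega, h2⟩, R_refl hd (by omega) hm'.2⟩
      · right
        exact Finset.mem_Ioo.2 ⟨by omega, by omega⟩
    · intro m hm m' hm' he
      have h1 := Finset.mem_Icc.1 (Finset.mem_filter.1 (Finset.mem_coe.1 hm)).1
      have h2 := Finset.mem_Icc.1 (Finset.mem_filter.1 (Finset.mem_coe.1 hm')).1
      simp only at he
      omega
  have h2 := Finset.card_union_le ((Icc 1 Y).filter fun m => R q z (-r) m) (Ioo Y T)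
  rw [Nat.card_Ioo] at h2
  unfold N
  omega

lemma S_le_N (q z : ℕ) (r : ℤ) (Y : ℕ) : S q r Y ≤ N q z r Y := by
  refine Finset.card_le_card fun m hm => ?_
  have h1 := Finset.mem_filter.1 hm
  refine Finset.mem_filter.2 ⟨h1.1, fun k hk hd => ?_, h1.2.2⟩
  have h2 := h1.2.1 k (by rwa [pow_two] at hd)
  have h3 := Nat.isUnit_iff.1 h2
  have h4 := (Finset.mem_Icc.1 hk).1
  omega

lemma N_le_S {q z : ℕ} (hz : 1 ≤ z) (r : ℤ) (Y : ℕ) :
    (N q z r Y : ℝ) ≤ S q r Y + Y / z := by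
  have hsub : ((Icc 1 Y).filter fun m => R q z r m) ⊆
      ((Icc 1 Y).filter fun m : ℕ => Squarefree m ∧ (m : ℤ) ≡ r [ZMOD q]) ∪
        (Ioc z Y).biUnion (fun k => (Ioc 0 Y).filter (fun m => k ^ 2 ∣ m)) := by
    intro m hm
    have h1 := Finset.mem_filter.1 hm
    have h2 := Finset.mem_Icc.1 h1.1
    rw [Finset.mem_union]
    by_cases hs : Squarefree m
    · left
      exact Finset.mem_filter.2 ⟨h1.1, hs, h1.2.2⟩
    · right
      have h3 : ∃ k : ℕ, k * k ∣ m ∧ ¬ IsUnit k := by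
        by_contra hc
        push Not at hc
        exact hs fun k hk => hc k hk
      obtain ⟨k, hk, hu⟩ := h3
      have hk1 : k ≠ 1 := fun h => hu (Nat.isUnit_iff.2 h)
      have hk0 : k ≠ 0 := by
        rintro rfl
        rw [mul_zero, zero_dvd_iff] at hk
        omega
      have hle : k * k ≤ m := Nat.le_of_dvd (by omega) hk
      have hkk : k ≤ k * k := Nat.le_mul_self k
      have hkz : ¬ k ≤ z := by
        intro hkz
        refine h1.2.1 k (Finset.mem_Icc.2 ⟨by omega, hkz⟩) ?_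
        rwa [pow_two]
      rw [Finset.mem_biUnion]
      refine ⟨k, Finset.mem_Ioc.2 ⟨by omega, by omega⟩, Finset.mem_filter.2
        ⟨Finset.mem_Ioc.2 ⟨by omega, h2.2⟩, ?_⟩⟩
      rwa [pow_two]
  have h1 := Finset.card_le_card hsub
  have h2 := h1.trans (Finset.card_union_le _ _)
  have h3 : ((Ioc z Y).biUnion (fun k => (Ioc 0 Y).filter (fun m => k ^ 2 ∣ m))).card ≤
      ∑ k ∈ Ioc z Y, Y / k ^ 2 := by
    refine Finset.card_biUnion_le.trans (Finset.sum_le_sum fun k _ => ?_)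
    rw [Nat.Ioc_filter_dvd_card_eq_div]
  have h4 : ((∑ k ∈ Ioc z Y, Y / k ^ 2 : ℕ) : ℝ) ≤ Y / z := by
    push_cast
    have hz0 : (0 : ℝ) < z := by exact_mod_cast hz
    have h5 : ∑ k ∈ Ioc z Y, ((Y / k ^ 2 : ℕ) : ℝ) ≤ ∑ k ∈ Ioc z Y, (Y : ℝ) * ((k : ℝ) ^ 2)⁻¹ := by
      refine Finset.sum_le_sum fun k _ => ?_
      have h6 : ((Y / k ^ 2 : ℕ) : ℝ) ≤ (Y : ℝ) / ((k ^ 2 : ℕ) : ℝ) := Nat.cast_div_le
      rwa [Nat.cast_pow, div_eq_mul_inv] at h6
    refine h5.trans ?_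
    rw [← Finset.mul_sum, div_eq_mul_inv]
    refine mul_le_mul_of_nonneg_left ?_ (Nat.cast_nonneg _)
    by_cases hzY : z ≤ Y
    · have h7 := sum_Ioc_inv_sq_le_sub (α := ℝ) (by omega : z ≠ 0) hzY
      have h8 : (0 : ℝ) ≤ (Y : ℝ)⁻¹ := by positivity
      linarith
    · rw [Finset.Ioc_eq_empty (by omega), Finset.sum_empty]
      positivity
  have h9 : N q z r Y ≤ S q r Y + ∑ k ∈ Ioc z Y, Y / k ^ 2 := by
    unfold N S
    omega
  have h10 : (N q z r Y : ℝ) ≤ S q r Y + ((∑ k ∈ Ioc z Y, Y / k ^ 2 : ℕ) : ℝ) := by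
    exact_mod_cast h9
  linarith

lemma diff {q z : ℕ} (hq : 0 < q) (hz : 1 ≤ z) (r : ℤ) (Y : ℕ) :
    (S q r Y : ℝ) - S q (-r) Y ≤ LL q z + Y / z := by
  have h1 : (S q r Y : ℝ) ≤ N q z r Y := by exact_mod_cast S_le_N q z r Y
  have h2 : (N q z r Y : ℝ) ≤ N q z (-r) Y + LL q z := by exact_mod_cast N_le z hq r Y
  have h3 := N_le_S (q := q) hz (-r) Y
  linarith

end SQC

open SQC in
/-- **SQC.** -/
theorem t_SQC : S_SQC := by
  intro q r hq
  have hS : ∀ Y : ℕ, ((((Icc 1 Y).filter fun m : ℕ => Squarefree m ∧ (m : ℤ) ≡ r [ZMOD q]).card : ℝ) -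
    (((Icc 1 Y).filter fun m : ℕ => Squarefree m ∧ (m : ℤ) ≡ -r [ZMOD q]).card : ℝ)) =
    (S q r Y : ℝ) - S q (-r) Y := fun Y => rfl
  simp only [hS]
  rw [Metric.tendsto_atTop]
  intro ε hε
  obtain ⟨z, hz⟩ := exists_nat_gt (2 / ε)
  have hz0 : (0 : ℝ) < z := lt_trans (by positivity) hz
  have hz1 : 1 ≤ z := by exact_mod_cast hz0
  obtain ⟨Y0, hY0⟩ := exists_nat_gt (2 * (LL q z : ℝ) / ε)
  refine ⟨max Y0 1, fun Y hY => ?_⟩
  have hY1 : 1 ≤ Y := (le_max_right _ _).trans hY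
  have hYp : (0 : ℝ) < Y := by exact_mod_cast hY1
  have hYY : (Y0 : ℝ) ≤ Y := by exact_mod_cast (le_max_left _ _).trans hY
  have h1 := diff hq hz1 r Y
  have h2 := diff hq hz1 (-r) Y
  rw [neg_neg] at h2
  have h3 : |(S q r Y : ℝ) - S q (-r) Y| ≤ LL q z + Y / z := by
    rw [abs_le]
    constructor <;> linarith
  rw [Real.dist_eq, sub_zero, abs_div, abs_of_pos hYp, div_lt_iff₀ hYp]
  have h4 : (LL q z : ℝ) < ε / 2 * Y := by
    have h5 : 2 * (LL q z : ℝ) / ε < Y := lt_of_lt_of_le hY0 hYY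
    rw [div_lt_iff₀ hε] at h5
    linarith
  have h6 : (Y : ℝ) / z ≤ ε / 2 * Y := by
    rw [div_lt_iff₀ hε] at hz
    rw [div_le_iff₀ hz0]
    nlinarith
  linarith

end Pool.Agent.NH3.XT.EQ
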