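import Pool.Agent.NH3.XT.StmE

/-!
# Project EP (helper3), EP-6: the prime two
-/

set_option autoImplicit false

namespace Pool.Agent.NH3.XT.EQ

open Finset

namespace Two

/-- the first character of the units modulo `8` -/
def c8 (r : ℤ) : ZMod 2 := if r = 3 ∨ r = 7 then 1 else 0

/-- the second character of the units modulo `8` -/
def o8 (r : ℤ) : ZMod 2 := if r = 3 ∨ r = 5 then 1 else 0

theorem res {x : ℤ} (hx : x % 2 = 1) : x % 8 = 1 ∨ x % 8 = 3 ∨ x % 8 = 5 ∨ x % 8 = 7 := by omega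

theorem c8_mul {x y : ℤ} (hx : x % 2 = 1) (hy : y % 2 = 1) :
    c8 (x * y % 8) = c8 (x % 8) + c8 (y % 8) := by
  rw [Int.mul_emod]
  rcases res hx with h | h | h | h <;> rcases res hy with h' | h' | h' | h' <;> rw [h, h'] <;>
    decide

theorem o8_mul {x y : ℤ} (hx : x % 2 = 1) (hy : y % 2 = 1) :
    o8 (x * y % 8) = o8 (x % 8) + o8 (y % 8) := by
  rw [Int.mul_emod]
  rcases res hx with h | h | h | h <;> rcases res hy with h' | h' | h' | h' <;> rw [h, h'] <;>
    decide

theorem odd_mul {x y : ℤ} (hx : x % 2 = 1) (hy : y % 2 = 1) : x * y % 2 = 1 := by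
  rw [Int.mul_emod, hx, hy]
  norm_num

theorem odd_prime {p : ℕ} (hp : p.Prime) (h2 : p ≠ 2) : (p : ℤ) % 2 = 1 := by
  have := hp.eq_two_or_odd
  omega

theorem ch_eq (p : ℕ) : ch p = c8 ((p : ℤ) % 8) := by
  unfold ch c8
  by_cases h : p % 4 = 3
  · rw [if_pos h, if_pos (by omega)]
  · rw [if_neg h, if_neg (by omega)]

theorem om_eq (p : ℕ) : om p = o8 ((p : ℤ) % 8) := by
  unfold om o8
  by_cases h : p % 8 = 3 ∨ p % 8 = 5
  · rw [if_pos h, if_pos (by omega)]
  · rw [if_neg h, if_neg (by omega)]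

/-- the product of `S` is odd -/
theorem odd_prod {S : Finset ℕ} (hS : ∀ p ∈ S, p.Prime ∧ p ≠ 2) : (∏ q ∈ S, (q : ℤ)) % 2 = 1 := by
  induction S using Finset.induction_on with
  | empty => norm_num
  | insert a A ha ih =>
    rw [Finset.prod_insert ha]
    have h1 := hS a (Finset.mem_insert_self a A)
    exact odd_mul (odd_prime h1.1 h1.2) (ih fun p hp => hS p (Finset.mem_insert_of_mem hp))

/-- the partial products of the odd part -/
theorem part {S : Finset ℕ} (hS : ∀ p ∈ S, p.Prime ∧ p ≠ 2) (x : S → ZMod 2) (T : Finset S) :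
    (∏ p ∈ T, (if x p = 0 then (1 : ℤ) else ((p : ℕ) : ℤ))) % 2 = 1 ∧
    c8 ((∏ p ∈ T, (if x p = 0 then (1 : ℤ) else ((p : ℕ) : ℤ))) % 8) = ∑ q ∈ T, ch q * x q ∧
    o8 ((∏ p ∈ T, (if x p = 0 then (1 : ℤ) else ((p : ℕ) : ℤ))) % 8) = ∑ q ∈ T, om q * x q := by
  classical
  induction T using Finset.induction_on with
  | empty =>
    refine ⟨by norm_num, ?_, ?_⟩ <;> rw [Finset.prod_empty, Finset.sum_empty] <;> decide
  | insert a T ha ih =>
    obtain ⟨h1, h2, h3⟩ := ih
    have hp := hS a a.2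
    have h4 := odd_prime hp.1 hp.2
    have hx : x a = 0 ∨ x a = 1 := by
      generalize x a = z
      revert z
      decide
    have h5 : (if x a = 0 then (1 : ℤ) else ((a : ℕ) : ℤ)) % 2 = 1 ∧
        c8 ((if x a = 0 then (1 : ℤ) else ((a : ℕ) : ℤ)) % 8) = ch a * x a ∧
        o8 ((if x a = 0 then (1 : ℤ) else ((a : ℕ) : ℤ)) % 8) = om a * x a := by
      rcases hx with h | h
      · rw [if_pos h, h, mul_zero, mul_zero]
        exact ⟨by norm_num, by decide, by decide⟩
      · rw [if_neg (by rw [h]; exact one_ne_zero), h, mul_one, mul_one]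
        exact ⟨h4, (ch_eq a).symm, (om_eq a).symm⟩
    rw [Finset.prod_insert ha, Finset.sum_insert ha, Finset.sum_insert ha]
    refine ⟨odd_mul h5.1 h1, ?_, ?_⟩
    · rw [c8_mul h5.1 h1, h5.2.1, h2]
    · rw [o8_mul h5.1 h1, h5.2.2, h3]

/-- the odd part of `F S g` -/
theorem oddpart {S : Finset ℕ} (hS : ∀ p ∈ S, p.Prime ∧ p ≠ 2) (g : G S) :
    ∃ w : ℤ, F S g = (if g.2.1 = 0 then 1 else 2) * w ∧ w % 2 = 1 ∧ ep S g = c8 (w % 8) ∧
      ow S g = o8 (w % 8) := by
  obtain ⟨h1, h2, h3⟩ := part hS g.2.2 Finset.univ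
  set W := ∏ p : S, (if g.2.2 p = 0 then (1 : ℤ) else ((p : ℕ) : ℤ)) with hW
  have hx : g.1 = 0 ∨ g.1 = 1 := by
    generalize g.1 = z
    revert z
    decide
  have h5 : (if g.1 = 0 then (1 : ℤ) else -1) % 2 = 1 ∧
      c8 ((if g.1 = 0 then (1 : ℤ) else -1) % 8) = g.1 ∧
      o8 ((if g.1 = 0 then (1 : ℤ) else -1) % 8) = 0 := by
    rcases hx with h | h
    · rw [if_pos h, h]
      exact ⟨by norm_num, by decide, by decide⟩
    · rw [if_neg (by rw [h]; exact one_ne_zero), h]
      exact ⟨by norm_num, by decide, by decide⟩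
  refine ⟨(if g.1 = 0 then (1 : ℤ) else -1) * W, ?_, odd_mul h5.1 h1, ?_, ?_⟩
  · unfold F
    rw [hW]
    ring
  · rw [c8_mul h5.1 h1, h5.2.1, h2]
    rfl
  · rw [o8_mul h5.1 h1, h5.2.2, h3, zero_add]
    rfl

theorem check_A {u w : ℤ} (hu : u % 2 = 1) (hw : w % 2 = 1) (x : ZMod 2) (δ : ℕ)
    (hδ : δ = 1 ∨ δ = 2) :
    A2 (δ * u) ((if x = 0 then 1 else 2) * w) ↔
      Ac ((δ * u) % 4) (c8 (u % 8)) (o8 (u % 8)) x (c8 (w % 8)) (o8 (w % 8)) := by
  have hx : x = 0 ∨ x = 1 := by
    revert x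
    decide
  have e1 : (1 : ZMod 2) ≠ 0 := one_ne_zero
  rcases hδ with rfl | rfl <;> rcases hx with rfl | rfl <;>
    rcases res hu with h | h | h | h <;> rcases res hw with h' | h' | h' | h' <;>
    rw [h, h'] <;> push_cast <;> simp only [if_pos, if_neg e1, one_mul] <;>
    first
      | (have k1 : u % 4 = 1 := by omega
         rw [k1]
         first
           | exact iff_of_true (by unfold A2; omega) (by unfold Ac; decide)
           | exact iff_of_false (by unfold A2; omega) (by unfold Ac; decide))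
      | (have k1 : u % 4 = 3 := by omega
         rw [k1]
         first
           | exact iff_of_true (by unfold A2; omega) (by unfold Ac; decide)
           | exact iff_of_false (by unfold A2; omega) (by unfold Ac; decide))
      | (have k1 : 2 * u % 4 = 2 := by omega
         rw [k1]
         first
           | exact iff_of_true (by unfold A2; omega) (by unfold Ac; decide)
           | exact iff_of_false (by unfold A2; omega) (by unfold Ac; decide))

theorem check_C {u w : ℤ} (hu : u % 2 = 1) (hw : w % 2 = 1) (x : ZMod 2) (δ : ℕ)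
    (hδ : δ = 1 ∨ δ = 2) :
    C2 (δ * u) ((if x = 0 then 1 else 2) * w) ↔
      Cc ((δ * u) % 4) (c8 (u % 8)) (o8 (u % 8)) x (c8 (w % 8)) (o8 (w % 8)) := by
  have hx : x = 0 ∨ x = 1 := by
    revert x
    decide
  have e1 : (1 : ZMod 2) ≠ 0 := one_ne_zero
  rcases hδ with rfl | rfl <;> rcases hx with rfl | rfl <;>
    rcases res hu with h | h | h | h <;> rcases res hw with h' | h' | h' | h' <;>
    rw [h, h'] <;> push_cast <;> simp only [if_pos, if_neg e1, one_mul] <;>
    first
      | (have k1 : u % 4 = 1 := by omega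
         rw [k1]
         first
           | exact iff_of_true (by unfold C2; omega) (by unfold Cc; decide)
           | exact iff_of_false (by unfold C2; omega) (by unfold Cc; decide))
      | (have k1 : u % 4 = 3 := by omega
         rw [k1]
         first
           | exact iff_of_true (by unfold C2; omega) (by unfold Cc; decide)
           | exact iff_of_false (by unfold C2; omega) (by unfold Cc; decide))
      | (have k1 : 2 * u % 4 = 2 := by omega
         rw [k1]
         first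
           | exact iff_of_true (by unfold C2; omega) (by unfold Cc; decide)
           | exact iff_of_false (by unfold C2; omega) (by unfold Cc; decide))

end Two

open Two in
theorem t_TWO : S_TWO := by
  intro S δ hS hδ g
  obtain ⟨w, h1, h2, h3, h4⟩ := oddpart hS g
  have h5 := odd_prod hS
  have h6 : ((∏ q ∈ S, q : ℕ) : ℤ) = ∏ q ∈ S, (q : ℤ) := by push_cast; rfl
  have h7 : ch (∏ q ∈ S, q) = c8 ((∏ q ∈ S, (q : ℤ)) % 8) := by rw [ch_eq, h6]
  have h8 : om (∏ q ∈ S, q) = o8 ((∏ q ∈ S, (q : ℤ)) % 8) := by rw [om_eq, h6]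
  rw [h1, h3, h4, h7, h8]
  exact ⟨check_A h5 h2 g.2.1 δ hδ, check_C h5 h2 g.2.1 δ hδ⟩

end Pool.Agent.NH3.XT.EQ
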