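import Pool.Agent.NH3.XT.Stm

/-!
# Project XT, part J2a: the integer conditions at `2`, `D = 1` modulo `4`
-/

set_option autoImplicit false

namespace Pool.Agent.NH3.XT

namespace J2a

/-- comparison of two representations `2 ^ e * odd` -/
theorem pow_odd_eq {e e' : ℕ} {v v' : ℤ} (h : (2 : ℤ) ^ e * v = 2 ^ e' * v') (hv : v % 2 = 1)
    (hv' : v' % 2 = 1) : e = e' ∧ v = v' := by
  have key : ∀ (e e' : ℕ) (v v' : ℤ), (2 : ℤ) ^ e * v = 2 ^ e' * v' → v % 2 = 1 → v' % 2 = 1 →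
      e ≤ e' → e = e' ∧ v = v' := by
    intro e e' v v' h hv hv' hle
    obtain ⟨k, rfl⟩ := Nat.exists_eq_add_of_le hle
    have h1 : v = 2 ^ k * v' := by
      have h2 : (2 : ℤ) ^ e * v = 2 ^ e * (2 ^ k * v') := by rw [h, pow_add]; ring
      exact mul_left_cancel₀ (pow_ne_zero _ two_ne_zero) h2
    rcases Nat.eq_zero_or_pos k with hk | hk
    · subst hk
      simp at h1
      exact ⟨by simp, h1⟩
    · exfalso
      obtain ⟨m, rfl⟩ := Nat.exists_eq_add_of_le' hk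
      rw [pow_succ] at h1
      have : v % 2 = 0 := by
        rw [h1, show (2 : ℤ) ^ m * 2 * v' = 2 * (2 ^ m * v') by ring]
        exact Int.mul_emod_right 2 _
      omega
  rcases Nat.le_total e e' with hle | hle
  · exact key e e' v v' h hv hv' hle
  · obtain ⟨h1, h2⟩ := key e' e v' v h.symm hv' hv hle
    exact ⟨h1.symm, h2.symm⟩

/-- every nonzero integer is `2 ^ e * odd` -/
theorem exists_odd (n : ℤ) (hn : n ≠ 0) : ∃ (e : ℕ) (w : ℤ), n = 2 ^ e * w ∧ w % 2 = 1 := by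
  obtain ⟨e, w, hw, h⟩ := Nat.exists_eq_two_pow_mul_odd (Int.natAbs_ne_zero.2 hn)
  have hw' : w % 2 = 1 := Nat.odd_iff.1 hw
  rcases Int.natAbs_eq n with h1 | h1
  · exact ⟨e, w, by rw [h1, h]; push_cast; ring, by omega⟩
  · exact ⟨e, -w, by rw [h1, h]; push_cast; ring, by omega⟩

theorem sq2_two_pow {n : ℤ} {e : ℕ} {w : ℤ} (h : n = 2 ^ e * w) (hw : w % 2 = 1) (hs : Sq2 n) :
    e % 2 = 0 ∧ w % 8 = 1 := by
  obtain ⟨k, u, h1, h2⟩ := hs
  have h3 : (2 : ℤ) ^ e * w = 2 ^ (2 * k) * u := by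
    rw [← h, h1, pow_mul]; norm_num
  obtain ⟨h4, h5⟩ := pow_odd_eq h3 hw (by omega)
  exact ⟨by omega, by rw [h5]; exact h2⟩

/-- a squarefree integer is odd or twice odd -/
theorem sqf {d : ℤ} (hd : Squarefree d) : d % 2 = 1 ∨ ∃ d', d = 2 * d' ∧ d' % 2 = 1 := by
  rcases Int.emod_two_eq_zero_or_one d with h | h
  · right
    refine ⟨d / 2, by omega, ?_⟩
    by_contra hc
    have h4 : (2 : ℤ) * 2 ∣ d := by omega
    have := hd 2 h4
    rw [Int.isUnit_iff] at this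
    omega
  · exact Or.inl h

/-- the useful lemma -/
theorem useful {n d w : ℤ} {e : ℕ} (h : n = 2 ^ e * w) (hw : w % 2 = 1) (hd : Squarefree d)
    (hs : Sq2 (n * d)) : (e % 2 = 0 ∧ d % 2 = 1 ∧ (w * d) % 8 = 1) ∨
      (e % 2 = 1 ∧ ∃ d', d = 2 * d' ∧ d' % 2 = 1 ∧ (w * d') % 8 = 1) := by
  rcases sqf hd with h1 | ⟨d', h1, h2⟩
  · left
    have h3 : n * d = 2 ^ e * (w * d) := by rw [h]; ring
    obtain ⟨h4, h5⟩ := sq2_two_pow h3 (by rw [Int.mul_emod, hw, h1]; norm_num) hs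
    exact ⟨h4, h1, h5⟩
  · right
    have h3 : n * d = 2 ^ (e + 1) * (w * d') := by rw [h, h1, pow_succ]; ring
    obtain ⟨h4, h5⟩ := sq2_two_pow h3 (by rw [Int.mul_emod, hw, h2]; norm_num) hs
    exact ⟨by omega, d', h1, h2, h5⟩

theorem sq8 {t : ℤ} (h : t % 2 = 1) : t ^ 2 % 8 = 1 := by
  have h1 : t % 8 = 1 ∨ t % 8 = 3 ∨ t % 8 = 5 ∨ t % 8 = 7 := by omega
  rw [pow_two, Int.mul_emod]
  rcases h1 with h | h | h | h <;> rw [h] <;> norm_num

theorem core {e : ℕ} (he : 2 ≤ e) {D X d1 d3 P Q : ℤ} (hP : P % 8 = D % 8) (hQ : Q % 8 = D % 8)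
    (hD : D % 4 = 1) (hD1 : 3 ≤ e → D % 8 ≠ 1) (hd1 : Squarefree d1) (hd3 : Squarefree d3)
    (hne : X * (X - P) * (X - P + 2 ^ (2 * e) * Q) ≠ 0) (h1 : Sq2 (X * d1))
    (h3 : Sq2 ((X - P) * d3)) (habc : Sq2 (X * (X - P) * (X - P + 2 ^ (2 * e) * Q))) :
    d1 % 4 = 1 ∧ d3 % 2 = 1 := by
  have hb0 : X - P ≠ 0 := fun h => hne (by rw [h]; ring)
  have hX0 : X ≠ 0 := fun h => hne (by rw [h]; ring)
  obtain ⟨f, rfl⟩ := Nat.exists_eq_add_of_le he
  have h16 : (2 : ℤ) ^ (2 * (2 + f)) = 16 * 2 ^ (2 * f) := by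
    rw [mul_add, pow_add]; norm_num
  rcases Int.emod_two_eq_zero_or_one X with hX | hX
  · -- X even
    obtain ⟨e, w, hw1, hw2⟩ := exists_odd X hX0
    have hbc : ((X - P) * (X - P + 2 ^ (2 * (2 + f)) * Q)) % 8 = 1 := by
      have e1 : (X - P) % 8 = 1 ∨ (X - P) % 8 = 3 ∨ (X - P) % 8 = 5 ∨
          (X - P) % 8 = 7 := by omega
      have e2 : (X - P + 2 ^ (2 * (2 + f)) * Q) % 8 = (X - P) % 8 := by
        rw [h16, mul_assoc]
        omega
      rw [Int.mul_emod, e2]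
      rcases e1 with h | h | h | h <;> rw [h] <;> norm_num
    have h5 : X * (X - P) * (X - P + 2 ^ (2 * (2 + f)) * Q) =
        2 ^ e * (w * ((X - P) * (X - P + 2 ^ (2 * (2 + f)) * Q))) := by
      rw [← mul_assoc (2 ^ e), ← hw1]; ring
    obtain ⟨h6, h7⟩ := sq2_two_pow h5 (by
      rw [Int.mul_emod, hw2]
      have : ((X - P) * (X - P + 2 ^ (2 * (2 + f)) * Q)) % 2 = 1 := by omega
      rw [this]; norm_num) habc
    have hw8 : w % 8 = 1 := by
      rw [Int.mul_emod, hbc] at h7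
      omega
    have hd1' : d1 % 8 = 1 := by
      rcases useful hw1 hw2 hd1 h1 with ⟨_, _, h8⟩ | ⟨h8, _⟩
      · rw [Int.mul_emod, hw8] at h8
        omega
      · omega
    have hd3' : d3 % 2 = 1 := by
      have h8 : X - P = 2 ^ 0 * (X - P) := by ring
      rcases useful h8 (by omega) hd3 h3 with ⟨_, h9, _⟩ | ⟨h9, _⟩
      · exact h9
      · omega
    exact ⟨by omega, hd3'⟩
  · -- X odd
    obtain ⟨j, s, hs1, hs2⟩ := exists_odd (X - P) hb0
    have hXd : d1 % 2 = 1 ∧ (X * d1) % 8 = 1 := by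
      have h8 : X = 2 ^ 0 * X := by ring
      rcases useful h8 hX hd1 h1 with ⟨_, h9, h10⟩ | ⟨h9, _⟩
      · exact ⟨h9, h10⟩
      · omega
    have hd1X : d1 % 8 = X % 8 := by
      have h9 := hXd.2
      have e1 : X % 8 = 1 ∨ X % 8 = 3 ∨ X % 8 = 5 ∨ X % 8 = 7 := by omega
      have e2 : d1 % 8 = 1 ∨ d1 % 8 = 3 ∨ d1 % 8 = 5 ∨ d1 % 8 = 7 := by omega
      rw [Int.mul_emod] at h9
      rcases e1 with h | h | h | h <;> rcases e2 with h' | h' | h' | h' <;> rw [h, h'] at h9 <;>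
        simp_all
    have hd3j : j % 2 = 0 → d3 % 2 = 1 := by
      intro hj
      rcases useful hs1 hs2 hd3 h3 with ⟨_, h9, _⟩ | ⟨h9, _⟩
      · exact h9
      · omega
    have hXs : X = 2 ^ j * s + P := by rw [← hs1]; ring
    have hjpos : 1 ≤ j := by
      rcases Nat.eq_zero_or_pos j with h | h
      · subst h
        rw [pow_zero, one_mul] at hs1
        omega
      · exact h
    have hs8 : (s % 8 = 1 ∨ s % 8 = 3 ∨ s % 8 = 5 ∨ s % 8 = 7) := by omega
    have hD8 : (D % 8 = 1 ∨ D % 8 = 5) := by omega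
    have hX8 : 3 ≤ j → X % 8 = D % 8 := by
      intro h
      obtain ⟨m, rfl⟩ := Nat.exists_eq_add_of_le h
      rw [hXs, pow_add, show (2 : ℤ) ^ 3 * 2 ^ m * s = 8 * (2 ^ m * s) by ring]
      omega
    have hcases : j ≤ 2 * f + 1 ∨ j = 2 * f + 2 ∨ j = 2 * f + 3 ∨ j = 2 * f + 4 ∨ 2 * f + 5 ≤ j := by
      omega
    rcases hcases with h | h | h | h | h
    · -- j ≤ 2 e - 3
      obtain ⟨r, hr⟩ := Nat.exists_eq_add_of_le h
      have h5 : X * (X - P) * (X - P + 2 ^ (2 * (2 + f)) * Q) =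
          2 ^ (2 * j) * (X * (s * (s + 8 * (2 ^ r * Q)))) := by
        have h6 : (2 : ℤ) ^ (2 * (2 + f)) = 2 ^ j * (8 * 2 ^ r) := by
          rw [show 2 * (2 + f) = j + (3 + r) by omega, pow_add, pow_add]; norm_num
        rw [h6, hs1]; ring
      have e1 : (s * (s + 8 * (2 ^ r * Q))) % 8 = 1 := by
        have e2 : (s + 8 * (2 ^ r * Q)) % 8 = s % 8 := by omega
        rw [Int.mul_emod, e2]
        rcases hs8 with h | h | h | h <;> rw [h] <;> norm_num
      obtain ⟨_, h7⟩ := sq2_two_pow h5 (by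
        rw [Int.mul_emod, hX]
        have : (s * (s + 8 * (2 ^ r * Q))) % 2 = 1 := by omega
        rw [this]; norm_num) habc
      rw [Int.mul_emod, e1] at h7
      have hX1 : X % 8 = 1 := by omega
      have hj : j = 1 ∨ j = 2 ∨ 3 ≤ j := by omega
      rcases hj with hj | hj | hj
      · exfalso
        subst hj
        rw [pow_one] at hXs
        omega
      · exact ⟨by omega, hd3j (by rw [hj])⟩
      · exfalso
        have h8 := hX8 hj
        have h9 := hD1 (by omega)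
        omega
    · -- j = 2 e - 2
      have h5 : X * (X - P) * (X - P + 2 ^ (2 * (2 + f)) * Q) =
          2 ^ (2 * j) * (X * (s * (s + 4 * Q))) := by
        have h6 : (2 : ℤ) ^ (2 * (2 + f)) = 2 ^ j * 4 := by
          rw [show 2 * (2 + f) = j + 2 by omega, pow_add]; norm_num
        rw [h6, hs1]; ring
      have e1 : (s * (s + 4 * Q)) % 8 = 5 := by
        have e2 : (s + 4 * Q) % 8 = (s + 4) % 8 := by omega
        rw [Int.mul_emod, e2, Int.add_emod]
        rcases hs8 with h | h | h | h <;> rw [h] <;> norm_num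
      obtain ⟨_, h7⟩ := sq2_two_pow h5 (by
        rw [Int.mul_emod, hX]
        have : (s * (s + 4 * Q)) % 2 = 1 := by omega
        rw [this]; norm_num) habc
      have hX5 : X % 8 = 5 := by
        rw [Int.mul_emod, e1] at h7
        omega
      exact ⟨by omega, hd3j (by omega)⟩
    · -- j = 2 e - 1
      exfalso
      have h5 : X * (X - P) * (X - P + 2 ^ (2 * (2 + f)) * Q) =
          2 ^ (2 * j) * (X * (s * (s + 2 * Q))) := by
        have h6 : (2 : ℤ) ^ (2 * (2 + f)) = 2 ^ j * 2 := by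
          rw [show 2 * (2 + f) = j + 1 by omega, pow_add]; norm_num
        rw [h6, hs1]; ring
      have h9 := hX8 (by omega)
      have e1 : (s * (s + 2 * Q)) % 4 = 3 := by
        have e2 : (s + 2 * Q) % 4 = (s + 2) % 4 := by omega
        have e3 : s % 4 = 1 ∨ s % 4 = 3 := by omega
        rw [Int.mul_emod, e2, Int.add_emod]
        rcases e3 with h | h <;> rw [h] <;> norm_num
      obtain ⟨_, h7⟩ := sq2_two_pow h5 (by
        rw [Int.mul_emod, hX]
        have : (s * (s + 2 * Q)) % 2 = 1 := by omega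
        rw [this]; norm_num) habc
      have h8 : (X * (s * (s + 2 * Q))) % 4 = 1 := by omega
      rw [Int.mul_emod, e1] at h8
      omega
    · -- j = 2 e
      have h9 := hX8 (by omega)
      exact ⟨by omega, hd3j (by omega)⟩
    · -- 2 e < j
      obtain ⟨m, rfl⟩ := Nat.exists_eq_add_of_le h
      have h5 : X * (X - P) * (X - P + 2 ^ (2 * (2 + f)) * Q) =
          2 ^ (4 * f + 9 + m) * (X * (s * (Q + 2 * (2 ^ m * s)))) := by
        rw [hs1, show 2 * f + 5 + m = 2 * (2 + f) + (1 + m) by ring,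
          show 4 * f + 9 + m = 2 * (2 + f) + 2 * (2 + f) + (1 + m) by ring,
          pow_add 2 (2 * (2 + f) + 2 * (2 + f)), pow_add 2 (2 * (2 + f)) (2 * (2 + f)),
          pow_add 2 (2 * (2 + f)) (1 + m), pow_add 2 1 m]
        ring
      have hodd : (Q + 2 * (2 ^ m * s)) % 2 = 1 := by omega
      obtain ⟨h6, _⟩ := sq2_two_pow h5 (by
        rw [Int.mul_emod, hX, Int.mul_emod s, hs2, hodd]; norm_num) habc
      have h9 := hX8 (by omega)
      exact ⟨by omega, hd3j (by omega)⟩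

end J2a

open J2a in
theorem t_J2a : S_J2 1 := by
  intro a b c e ht D X d1 d3 hD hD8 hd1 hd3 hne h1 h3 habc
  have hP : (b ^ 2 * D) % 8 = D % 8 := by
    rw [Int.mul_emod, sq8 ht.ob]; omega
  have hQ : (c ^ 2 * D) % 8 = D % 8 := by
    rw [Int.mul_emod, sq8 ht.oc]; omega
  have hw : X - a ^ 2 * D = X - b ^ 2 * D + 2 ^ (2 * e) * (c ^ 2 * D) := by
    rw [← ht.eq]; ring
  rw [hw] at hne habc
  obtain ⟨h5, h6⟩ := core ht.he hP hQ hD hD8 hd1 hd3 hne h1 h3 habc
  exact ⟨Or.inl ⟨hD, h5⟩, Or.inl ⟨hD, h6⟩⟩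

end Pool.Agent.NH3.XT
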