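import Pool.Agent.NH3.XT.Stm

/-!
XT-9 (helper75): the necessary conditions at `2` for `D` even, points with integral `x`.
-/

set_option autoImplicit false

open scoped Classical

namespace Pool.Agent.NH3.XT

namespace J2cT

lemma uniq : ∀ (a b : ℕ) (u w : ℤ), u % 2 = 1 → w % 2 = 1 → 2 ^ a * u = 2 ^ b * w →
    a = b ∧ u = w := by
  intro a
  induction a with
  | zero =>
    intro b u w hu hw h
    cases b with
    | zero => exact ⟨rfl, by simpa using h⟩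
    | succ b =>
      exfalso
      rw [pow_succ, pow_zero, one_mul] at h
      have h2 : u = 2 * (2 ^ b * w) := by linarith
      omega
  | succ a ih =>
    intro b u w hu hw h
    cases b with
    | zero =>
      exfalso
      rw [pow_succ, pow_zero, one_mul] at h
      have h2 : w = 2 * (2 ^ a * u) := by linarith
      omega
    | succ b =>
      obtain ⟨h1, h2⟩ := ih b u w hu hw (by
        rw [pow_succ, pow_succ] at h
        linarith)
      exact ⟨by rw [h1], h2⟩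

lemma sq2_dec {e : ℕ} {w : ℤ} (hw : w % 2 = 1) (h : Sq2 (2 ^ e * w)) :
    e % 2 = 0 ∧ w % 8 = 1 := by
  obtain ⟨k, u, h1, hu⟩ := h
  have e1 : (4 : ℤ) ^ k = 2 ^ (2 * k) := by rw [pow_mul]; norm_num
  rw [e1] at h1
  obtain ⟨h2, h3⟩ := uniq e (2 * k) w u hw (by omega) h1
  exact ⟨by omega, by rw [h3]; exact hu⟩

lemma dec {n : ℤ} (hn : n ≠ 0) : ∃ (e : ℕ) (w : ℤ), n = 2 ^ e * w ∧ w % 2 = 1 := by
  have hf : FiniteMultiplicity (2 : ℤ) n := Int.finiteMultiplicity_iff.2 ⟨by decide, hn⟩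
  obtain ⟨c, hc, hc2⟩ := hf.exists_eq_pow_mul_and_not_dvd
  exact ⟨_, c, hc, by omega⟩

lemma sqf {d : ℤ} (hd : Squarefree d) : d % 2 = 1 ∨ ∃ d', d = 2 * d' ∧ d' % 2 = 1 := by
  by_cases h : d % 2 = 1
  · exact Or.inl h
  · refine Or.inr ⟨d / 2, by omega, ?_⟩
    by_contra h2
    have h4 : (2 : ℤ) * 2 ∣ d := by omega
    have := Int.isUnit_iff.1 (hd 2 h4)
    omega

lemma odd_sq {x : ℤ} (hx : x % 2 = 1) : ∃ m, x * x = 8 * m + 1 := by
  obtain ⟨k, hk⟩ : ∃ k, x = 2 * k + 1 := ⟨x / 2, by omega⟩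
  obtain ⟨l, hl⟩ := Int.even_mul_succ_self k
  exact ⟨l, by rw [hk]; linear_combination 4 * hl⟩

lemma mul_odd {x y : ℤ} (hx : x % 2 = 1) (hy : y % 2 = 1) : (x * y) % 2 = 1 := by
  rw [Int.mul_emod, hx, hy]
  norm_num

lemma inv8 {w d : ℤ} (hw : w % 2 = 1) (h : (w * d) % 8 = 1) : (d - w) % 8 = 0 := by
  obtain ⟨m, hm⟩ := odd_sq hw
  obtain ⟨k, hk⟩ : ∃ k, w * d = 8 * k + 1 := ⟨w * d / 8, by omega⟩
  have : d - w = 8 * (w * k - m * d) := by linear_combination w * hk - d * hm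
  omega

lemma cls {e : ℕ} {w d : ℤ} (hw : w % 2 = 1) (hd : Squarefree d) (h : Sq2 (2 ^ e * w * d)) :
    (e % 2 = 0 ∧ (d - w) % 8 = 0) ∨ (e % 2 = 1 ∧ (d - 2 * w) % 16 = 0) := by
  rcases sqf hd with h1 | ⟨d', rfl, h1⟩
  · rw [mul_assoc] at h
    obtain ⟨h2, h3⟩ := sq2_dec (mul_odd hw h1) h
    exact Or.inl ⟨h2, inv8 hw h3⟩
  · have e1 : 2 ^ e * w * (2 * d') = 2 ^ (e + 1) * (w * d') := by rw [pow_succ]; ring
    rw [e1] at h
    obtain ⟨h2, h3⟩ := sq2_dec (mul_odd hw h1) h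
    have := inv8 hw h3
    exact Or.inr ⟨by omega, by omega⟩

/-- `b ≡ c` modulo `8` -/
lemma bc {x y z : ℤ} (hy : y % 2 = 1) (hyz : (y - z) % 8 = 0) (h : (x * y * z) % 8 = 1) :
    x % 8 = 1 := by
  obtain ⟨m, hm⟩ := odd_sq hy
  obtain ⟨k, hk⟩ : ∃ k, y - z = 8 * k := ⟨(y - z) / 8, by omega⟩
  have e1 : x * y * z = 8 * (x * m - x * y * k) + x := by
    linear_combination (-(x * y)) * hk + x * hm
  omega

/-- `X` odd -/
lemma c1 {D X Z W r r' d1 d3 : ℤ} (hD : D % 4 = 2) (hZ : Z = D + 16 * r) (hW : W = D + 16 * r')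
    (s1 : Squarefree d1) (s3 : Squarefree d3)
    (h1 : Sq2 (X * d1)) (h3 : Sq2 ((X - Z) * d3))
    (h : Sq2 (X * (X - Z) * (X - W))) (hX : X % 2 = 1) :
    (d1 % 8 = 1 ∨ (d1 - D) % 16 = 0) ∧
    (d3 % 8 = 1 ∨ (d3 + D - 1) % 8 = 0 ∨ (d3 + D) % 16 = 0 ∨ (d3 + D - 4) % 16 = 0) := by
  have hb : (X - Z) % 2 = 1 := by omega
  have hc : (X - W) % 2 = 1 := by omega
  have k1 : Sq2 (2 ^ 0 * (X * (X - Z) * (X - W))) := by rwa [pow_zero, one_mul]
  obtain ⟨-, k2⟩ := sq2_dec (mul_odd (mul_odd hX hb) hc) k1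
  have k3 := bc hb (by omega) k2
  have k4 : Sq2 (2 ^ 0 * X * d1) := by rwa [pow_zero, one_mul]
  have k5 : Sq2 (2 ^ 0 * (X - Z) * d3) := by rwa [pow_zero, one_mul]
  have k6 := cls hX s1 k4
  have k7 := cls hb s3 k5
  omega

/-- `X` divisible by `4` -/
lemma c2 {D X g zg wg r r' d1 d3 : ℤ} (hg : D = 2 * g) (hg2 : g % 2 = 1) (hz : zg = g + 8 * r)
    (hw : wg = g + 8 * r') (s1 : Squarefree d1) (s3 : Squarefree d3)
    (h0 : X ≠ 0) (h1 : Sq2 (X * d1)) (h3 : Sq2 ((X - 2 * zg) * d3))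
    (h : Sq2 (X * (X - 2 * zg) * (X - 2 * wg))) (hX : X % 4 = 0) :
    (d1 % 8 = 1 ∨ (d1 - D) % 16 = 0) ∧
    (d3 % 8 = 1 ∨ (d3 + D - 1) % 8 = 0 ∨ (d3 + D) % 16 = 0 ∨ (d3 + D - 4) % 16 = 0) := by
  obtain ⟨Y, hY⟩ : ∃ Y, X = 4 * Y := ⟨X / 4, by omega⟩
  have hY0 : Y ≠ 0 := by omega
  obtain ⟨e, v, hv, hv2⟩ := dec hY0
  have hb : (2 * Y - zg) % 2 = 1 := by omega
  have hc : (2 * Y - wg) % 2 = 1 := by omega
  have e1 : X * (X - 2 * zg) * (X - 2 * wg) =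
      2 ^ (e + 4) * (v * (2 * Y - zg) * (2 * Y - wg)) := by
    have e0 : X * (X - 2 * zg) * (X - 2 * wg) =
        16 * (Y * (2 * Y - zg) * (2 * Y - wg)) := by
      rw [hY]
      ring
    rw [e0]
    conv_lhs => rw [show Y * (2 * Y - zg) * (2 * Y - wg) =
      (2 ^ e * v) * (2 * Y - zg) * (2 * Y - wg) by rw [← hv]]
    ring
  rw [e1] at h
  obtain ⟨k1, k2⟩ := sq2_dec (mul_odd (mul_odd hv2 hb) hc) h
  have k3 := bc hb (by omega) k2
  have e2 : X * d1 = 2 ^ (e + 2) * v * d1 := by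
    rw [hY, hv]
    ring
  have e3 : (X - 2 * zg) * d3 = 2 ^ 1 * (2 * Y - zg) * d3 := by
    rw [hY]
    ring
  rw [e2] at h1
  rw [e3] at h3
  have k6 := cls hv2 s1 h1
  have k7 := cls hb s3 h3
  have k8 : (e = 0 ∧ Y = v) ∨ Y % 4 = 0 := by
    rcases Nat.eq_zero_or_pos e with h4 | h4
    · left
      refine ⟨h4, ?_⟩
      rw [hv, h4]
      ring
    · right
      obtain ⟨i, hi⟩ : ∃ i, e = i + 2 := ⟨e - 2, by omega⟩
      rw [hv, hi, pow_add]
      have : (2 : ℤ) ^ i * 2 ^ 2 * v = 4 * (2 ^ i * v) := by ring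
      rw [this]
      omega
  omega

/-- `X = 2 t`, `t` odd -/
lemma c3 {D X g zg wg r C γ d1 d3 : ℤ} {N : ℕ} (hN : 4 ≤ N) (hN2 : N % 2 = 0) (hg : D = 2 * g)
    (hg2 : g % 2 = 1) (hz : zg = g + 8 * r) (hC : C = 8 * γ + 1)
    (hzw : zg = wg + 2 ^ N * (C * g)) (s1 : Squarefree d1) (s3 : Squarefree d3)
    (h0 : X * (X - 2 * zg) * (X - 2 * wg) ≠ 0) (h1 : Sq2 (X * d1))
    (h3 : Sq2 ((X - 2 * zg) * d3))
    (h : Sq2 (X * (X - 2 * zg) * (X - 2 * wg))) (hX : X % 4 = 2) :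
    (d1 % 8 = 1 ∨ (d1 - D) % 16 = 0) ∧
    (d3 % 8 = 1 ∨ (d3 + D - 1) % 8 = 0 ∨ (d3 + D) % 16 = 0 ∨ (d3 + D - 4) % 16 = 0) := by
  obtain ⟨t, ht⟩ : ∃ t, X = 2 * t := ⟨X / 2, by omega⟩
  have ht2 : t % 2 = 1 := by omega
  have hb0 : t - zg ≠ 0 := by
    intro h2
    apply h0
    have : X - 2 * zg = 0 := by rw [ht]; linarith
    rw [this]
    ring
  have hc0 : t - wg ≠ 0 := by
    intro h2
    apply h0
    have : X - 2 * wg = 0 := by rw [ht]; linarith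
    rw [this]
    ring
  obtain ⟨j, s, hs, hs2⟩ := dec hb0
  obtain ⟨m, hm⟩ := odd_sq hg2
  obtain ⟨k, hk⟩ := odd_sq hs2
  have hCg : (C * g) % 2 = 1 := mul_odd (by omega) hg2
  have e1 : X * (X - 2 * zg) * (X - 2 * wg) =
      2 ^ (j + 3) * (t * s * (2 ^ j * s + 2 ^ N * (C * g))) := by
    have e0 : X * (X - 2 * zg) * (X - 2 * wg) = 8 * (t * (t - zg) * (t - wg)) := by
      rw [ht]
      ring
    have e2 : t - wg = 2 ^ j * s + 2 ^ N * (C * g) := by rw [← hs, hzw]; ring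
    rw [e0, e2, hs]
    ring
  have e4 : X * d1 = 2 ^ 1 * t * d1 := by
    rw [ht]
    ring
  have e5 : (X - 2 * zg) * d3 = 2 ^ (j + 1) * s * d3 := by
    have : X - 2 * zg = 2 * (t - zg) := by rw [ht]; ring
    rw [this, hs]
    ring
  rw [e4] at h1
  rw [e5] at h3
  have k1 := cls ht2 s1 h1
  have k3 := cls hs2 s3 h3
  rw [e1] at h
  rcases Nat.lt_or_ge j N with hj | hj
  · exfalso
    obtain ⟨n, rfl⟩ : ∃ n, N = j + 1 + n := ⟨N - j - 1, by omega⟩
    obtain ⟨P, hP⟩ : ∃ P : ℤ, P = 2 ^ n * (C * g) := ⟨_, rfl⟩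
    have e6 : (2 : ℤ) ^ (j + 3) * (t * s * (2 ^ j * s + 2 ^ (j + 1 + n) * (C * g))) =
        2 ^ (2 * j + 3) * (t * s * (s + 2 * P)) := by
      rw [hP, pow_add 2 (j + 1) n, pow_succ 2 j, pow_add 2 j 3, pow_add 2 (2 * j) 3, two_mul j,
        pow_add 2 j j]
      ring
    rw [e6] at h
    have := (sq2_dec (mul_odd (mul_odd ht2 hs2) (by omega)) h).1
    omega
  · obtain ⟨R, hR⟩ : ∃ R : ℤ, 2 ^ j * s = 8 * R := by
      obtain ⟨i, hi⟩ : ∃ i, j = i + 3 := ⟨j - 3, by omega⟩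
      exact ⟨2 ^ i * s, by rw [hi, pow_add]; ring⟩
    obtain ⟨T, hT⟩ : ∃ T : ℤ, T = r + R := ⟨_, rfl⟩
    have ht' : t = g + 8 * T := by linarith
    rcases Nat.eq_or_lt_of_le hj with hj | hj
    · -- `j = N`
      subst hj
      have hsg : s + C * g ≠ 0 := by
        intro h2
        apply hc0
        have : t - wg = 2 ^ N * (s + C * g) := by
          rw [mul_add, ← hs, hzw]
          ring
        rw [this, h2, mul_zero]
      obtain ⟨f, u, hu, hu2⟩ := dec hsg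
      have e6 : (2 : ℤ) ^ (N + 3) * (t * s * (2 ^ N * s + 2 ^ N * (C * g))) =
          2 ^ (2 * N + 3 + f) * (t * s * u) := by
        rw [← mul_add, hu, pow_add 2 (2 * N + 3) f, pow_add 2 (2 * N) 3, two_mul N,
          pow_add 2 N N, pow_add 2 N 3]
        ring
      rw [e6] at h
      obtain ⟨k4, k5⟩ := sq2_dec (mul_odd (mul_odd ht2 hs2) hu2) h
      have hCg' : C * g = g + 8 * (γ * g) := by rw [hC]; ring
      have k6 : f = 1 ∨ (s + C * g) % 8 = 0 := by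
        rcases Nat.lt_or_ge f 3 with h4 | h4
        · left
          omega
        · right
          obtain ⟨i, hi⟩ : ∃ i, f = i + 3 := ⟨f - 3, by omega⟩
          rw [hu, hi, pow_add]
          have : (2 : ℤ) ^ i * 2 ^ 3 * u = 8 * (2 ^ i * u) := by ring
          rw [this]
          omega
      rcases k6 with rfl | k6
      · have hu' : s = 2 * u - g - 8 * (γ * g) := by linarith
        obtain ⟨l, hl⟩ := odd_sq hu2
        have e8 : t * s * u = 8 * (T * s * u + 2 * g * l - m * u - γ * g * g * u)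
            + 2 * g - u := by
          have e7 : t * s * u = 8 * (T * s * u) + g * s * u := by rw [ht']; ring
          have e9 : g * s * u = g * (2 * u - g - 8 * (γ * g)) * u := by rw [← hu']
          rw [e7, e9]
          linear_combination 2 * g * hl - u * hm
        omega
      · omega
    · -- `j > N`
      obtain ⟨n, rfl⟩ : ∃ n, j = N + 1 + n := ⟨j - N - 1, by omega⟩
      obtain ⟨P, hP⟩ : ∃ P : ℤ, P = 2 ^ n * s := ⟨_, rfl⟩
      have hCgP : (C * g + 2 * P) % 2 = 1 := by omega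
      have e6 : (2 : ℤ) ^ (N + 1 + n + 3) * (t * s * (2 ^ (N + 1 + n) * s + 2 ^ N * (C * g))) =
          2 ^ (2 * N + 4 + n) * (t * s * (C * g + 2 * P)) := by
        rw [hP, pow_add 2 (2 * N + 4) n, pow_add 2 (2 * N) 4, two_mul N, pow_add 2 N N,
          pow_add 2 (N + 1 + n) 3, pow_add 2 (N + 1) n, pow_succ 2 N]
        ring
      rw [e6] at h
      obtain ⟨k4, k5⟩ := sq2_dec (mul_odd (mul_odd ht2 hs2) hCgP) h
      rcases Nat.eq_zero_or_pos n with hn | hn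
      · have hP' : P = s := by rw [hP, hn, pow_zero, one_mul]
        have e8 : t * s * (C * g + 2 * P) =
            8 * (T * s * (C * g + 2 * s) + γ * g * g * s + m * s + 2 * g * k) + s + 2 * g := by
          rw [hP', ht', hC]
          linear_combination s * hm + 2 * g * hk
        omega
      · obtain ⟨i, hi⟩ : ∃ i, n = i + 2 := ⟨n - 2, by omega⟩
        obtain ⟨P', hP'⟩ : ∃ P' : ℤ, P = 4 * P' := ⟨2 ^ i * s, by rw [hP, hi, pow_add]; ring⟩
        have e8 : t * s * (C * g + 2 * P) =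
            8 * (T * s * (C * g + 2 * P) + γ * g * g * s + m * s + g * s * P') + s := by
          rw [hP', ht', hC]
          linear_combination s * hm
        omega

end J2cT

open J2cT in
theorem t_J2c : S_J2 2 := by
  intro a b c e hT D X d1 d3 hD _ s1 s3 h0 h1 h3 h
  obtain ⟨g, hg⟩ : ∃ g, D = 2 * g := ⟨D / 2, by omega⟩
  have hg2 : g % 2 = 1 := by omega
  obtain ⟨α, hα⟩ := odd_sq hT.oa
  obtain ⟨β, hβ⟩ := odd_sq hT.ob
  obtain ⟨γ, hγ⟩ := odd_sq hT.oc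
  have hz : b ^ 2 * g = g + 8 * (β * g) := by linear_combination g * hβ
  have hw : a ^ 2 * g = g + 8 * (α * g) := by linear_combination g * hα
  have hC : c ^ 2 = 8 * γ + 1 := by linear_combination hγ
  have hZ : b ^ 2 * D = D + 16 * (β * g) := by rw [hg]; linear_combination 2 * g * hβ
  have hW : a ^ 2 * D = D + 16 * (α * g) := by rw [hg]; linear_combination 2 * g * hα
  have hZ2 : b ^ 2 * D = 2 * (b ^ 2 * g) := by rw [hg]; ring
  have hW2 : a ^ 2 * D = 2 * (a ^ 2 * g) := by rw [hg]; ring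
  have hzw : b ^ 2 * g = a ^ 2 * g + 2 ^ (2 * e) * (c ^ 2 * g) := by
    have h5 : (2 ^ e * c) ^ 2 = 2 ^ (2 * e) * c ^ 2 := by
      rw [mul_pow, ← pow_mul, mul_comm e 2]
    have h6 := hT.eq
    rw [h5] at h6
    linear_combination (-g) * h6
  have he := hT.he
  have key : (d1 % 8 = 1 ∨ (d1 - D) % 16 = 0) ∧
    (d3 % 8 = 1 ∨ (d3 + D - 1) % 8 = 0 ∨ (d3 + D) % 16 = 0 ∨ (d3 + D - 4) % 16 = 0) := by
    have hX : X % 2 = 1 ∨ X % 4 = 0 ∨ X % 4 = 2 := by omega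
    rcases hX with hX | hX | hX
    · exact c1 hD hZ hW s1 s3 h1 h3 h hX
    · rw [hZ2] at h3
      rw [hZ2, hW2] at h
      refine c2 hg hg2 hz hw s1 s3 ?_ h1 h3 h hX
      rintro rfl
      apply h0
      ring
    · rw [hZ2] at h3
      rw [hZ2, hW2] at h h0
      exact c3 (N := 2 * e) (by omega) (by omega) hg hg2 hz hC hzw s1 s3 h0 h1 h3 h hX
  obtain ⟨k1, k3⟩ := key
  constructor
  · right
    refine ⟨by omega, ?_⟩
    rcases k1 with k1 | k1
    · exact Or.inl k1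
    · exact Or.inr (Or.inr ⟨by omega, by omega⟩)
  · right
    right
    exact ⟨by omega, k3⟩

end Pool.Agent.NH3.XT
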