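import Pool.Agent.NH3.XT.Stm
import Pool.Agent.Y667.RP.Two

/-!
# Project XT: the prime `2`, `D = 1` modulo `4`, sufficient conditions
-/

set_option autoImplicit false

namespace Pool.Agent.NH3.XT

namespace L22a

lemma loc_of {K : Type} [Field K] [CharZero K] {A B d1 d2 : ℤ} (m X : ℤ) (hm : m ≠ 0)
    (h1 : IsSquare ((X * d1 : ℤ) : K)) (h2 : IsSquare (((X - A * m ^ 2) * d2 : ℤ) : K))
    (h3 : IsSquare ((X * (X - A * m ^ 2) * (X - B * m ^ 2) : ℤ) : K))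
    (h0 : X * (X - A * m ^ 2) * (X - B * m ^ 2) ≠ 0) : Loc K A B d1 d2 := by
  have hm' : (m : K) ≠ 0 := by exact_mod_cast hm
  obtain ⟨r1, hr1⟩ := h1
  obtain ⟨r2, hr2⟩ := h2
  obtain ⟨r3, hr3⟩ := h3
  push_cast at hr1 hr2 hr3
  have h0' : (X : K) * (X - A * m ^ 2) * (X - B * m ^ 2) ≠ 0 := by exact_mod_cast h0
  refine ⟨X / m ^ 2, r3 / m ^ 3, ?_, ?_, ⟨r1 / m, ?_⟩, ⟨r2 / m, ?_⟩⟩
  · refine div_ne_zero ?_ (pow_ne_zero _ hm')
    rintro rfl
    apply h0'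
    rw [hr3, mul_zero]
  · rw [div_pow, sq, ← hr3]
    field_simp
  · field_simp
    linear_combination hr1
  · field_simp
    linear_combination hr2

/-- `1` modulo `8` is a square -/
lemma sq_of_mod8 [Fact (Nat.Prime 2)] {u : ℤ} (hu : u % 8 = 1) : IsSquare (u : ℚ_[2]) := by
  obtain ⟨w, rfl⟩ : ∃ w, u = 8 * w + 1 := ⟨u / 8, by omega⟩
  obtain ⟨z, hz⟩ := Pool.Agent.Y667.RP.hens 2 ((w : ℤ) : ℤ_[2])
  refine ⟨(z : ℚ_[2]), ?_⟩
  have h := congrArg (fun t : ℤ_[2] => (t : ℚ_[2])) hz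
  simp only [PadicInt.coe_mul, PadicInt.coe_add, PadicInt.coe_one] at h
  have e4 : ((4 : ℤ_[2]) : ℚ_[2]) = 4 := rfl
  have e2 : (((2 : ℕ) : ℤ_[2]) : ℚ_[2]) = 2 := rfl
  have ew : (((w : ℤ) : ℤ_[2]) : ℚ_[2]) = (w : ℚ_[2]) := PadicInt.coe_intCast w
  rw [e4, e2, ew] at h
  rw [← h]
  push_cast
  ring

lemma sq2 [Fact (Nat.Prime 2)] (k : ℕ) {M N : ℤ} (hM : M % 8 = 1)
    (hN : N = ((2 : ℤ) ^ k) ^ 2 * M) : IsSquare ((N : ℤ) : ℚ_[2]) := by
  obtain ⟨v, hv⟩ := sq_of_mod8 hM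
  refine ⟨2 ^ k * v, ?_⟩
  rw [hN]
  push_cast
  rw [hv]
  ring

lemma loc_2 [Fact (Nat.Prime 2)] {A B d1 d2 : ℤ} (m X : ℤ) (hm : m ≠ 0) (k1 k2 k3 : ℕ)
    {M1 M2 M3 : ℤ} (e1 : X * d1 = ((2 : ℤ) ^ k1) ^ 2 * M1)
    (e2 : (X - A * m ^ 2) * d2 = ((2 : ℤ) ^ k2) ^ 2 * M2)
    (e3 : X * (X - A * m ^ 2) * (X - B * m ^ 2) = ((2 : ℤ) ^ k3) ^ 2 * M3)
    (j1 : M1 % 8 = 1) (j2 : M2 % 8 = 1) (j3 : M3 % 8 = 1) :
    Loc ℚ_[2] A B d1 d2 := by
  refine loc_of m X hm (sq2 k1 j1 e1) (sq2 k2 j2 e2) (sq2 k3 j3 e3) ?_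
  rw [e3]
  have h3 : M3 ≠ 0 := by omega
  positivity

lemma mul8 {x y a b : ℤ} (hx : x % 8 = a) (hy : y % 8 = b) : (x * y) % 8 = (a * b) % 8 := by
  rw [Int.mul_emod, hx, hy]

lemma sq8 {a : ℤ} (h : a % 2 = 1) : a ^ 2 % 8 = 1 := by
  have h1 : a % 8 = 1 ∨ a % 8 = 3 ∨ a % 8 = 5 ∨ a % 8 = 7 := by omega
  rw [sq]
  rcases h1 with h | h | h | h <;> rw [mul8 h h] <;> norm_num

lemma mulsq {a D : ℤ} (h : a % 2 = 1) : (a ^ 2 * D) % 8 = D % 8 := by
  rw [Int.mul_emod, sq8 h, one_mul, Int.emod_emod_of_dvd _ (dvd_refl 8)]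

end L22a

open L22a in
/-- L22 for `D = 1` modulo `4` -/
theorem t_L22a : S_L22 1 := by
  intro _ a b c e hT D d1 d3 hD he3 _ _ hA hC
  have h1 : d1 % 4 = 1 := by
    rcases hA with h | h
    · exact h.2
    · exact absurd hD h.1
  have h3 : d3 % 2 = 1 := by
    rcases hC with h | h | h
    · exact h.2
    · omega
    · omega
  have h1' : d1 % 8 = 1 ∨ d1 % 8 = 5 := by omega
  have h3' : d3 % 8 = 1 ∨ d3 % 8 = 3 ∨ d3 % 8 = 5 ∨ d3 % 8 = 7 := by omega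
  have hD' : D % 8 = 1 ∨ D % 8 = 5 := by omega
  obtain ⟨P, hP⟩ : ∃ P, P = b ^ 2 * D := ⟨_, rfl⟩
  obtain ⟨Q, hQ⟩ : ∃ Q, Q = a ^ 2 * D := ⟨_, rfl⟩
  obtain ⟨R, hR⟩ : ∃ R, R = c ^ 2 * D := ⟨_, rfl⟩
  have hP8 : P % 8 = D % 8 := by rw [hP]; exact mulsq hT.ob
  have hQ8 : Q % 8 = D % 8 := by rw [hQ]; exact mulsq hT.oa
  have hR8 : R % 8 = D % 8 := by rw [hR]; exact mulsq hT.oc
  have hPQ : Q = P - ((2 : ℤ) ^ e) ^ 2 * R := by
    rw [hP, hQ, hR, ← hT.eq]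
    ring
  rw [← hP, ← hQ]
  rcases h1' with h1' | h1'
  · -- d1 = 1 mod 8
    have case16 : d3 % 8 = (-D) % 8 → Loc ℚ_[2] P Q d1 d3 := by
      intro hh
      refine loc_2 1 16 (by norm_num) 2 0 2 (M1 := d1) (M2 := (16 - P) * d3)
        (M3 := (16 - P) * (16 - Q)) (by ring) (by ring) (by ring) h1' ?_ ?_
      · rcases hD' with h | h
        · rw [mul8 (show (16 - P) % 8 = 7 by omega) (show d3 % 8 = 7 by omega)]; norm_num
        · rw [mul8 (show (16 - P) % 8 = 3 by omega) (show d3 % 8 = 3 by omega)]; norm_num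
      · rcases hD' with h | h
        · rw [mul8 (show (16 - P) % 8 = 7 by omega) (show (16 - Q) % 8 = 7 by omega)]
          norm_num
        · rw [mul8 (show (16 - P) % 8 = 3 by omega) (show (16 - Q) % 8 = 3 by omega)]
          norm_num
    have case4 : d3 % 8 = (4 - D) % 8 → Loc ℚ_[2] P Q d1 d3 := by
      intro hh
      refine loc_2 1 4 (by norm_num) 1 0 1 (M1 := d1) (M2 := (4 - P) * d3)
        (M3 := (4 - P) * (4 - Q)) (by ring) (by ring) (by ring) h1' ?_ ?_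
      · rcases hD' with h | h
        · rw [mul8 (show (4 - P) % 8 = 3 by omega) (show d3 % 8 = 3 by omega)]; norm_num
        · rw [mul8 (show (4 - P) % 8 = 7 by omega) (show d3 % 8 = 7 by omega)]; norm_num
      · rcases hD' with h | h
        · rw [mul8 (show (4 - P) % 8 = 3 by omega) (show (4 - Q) % 8 = 3 by omega)]
          norm_num
        · rw [mul8 (show (4 - P) % 8 = 7 by omega) (show (4 - Q) % 8 = 7 by omega)]
          norm_num
    rcases h3' with h | h | h | h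
    · refine loc_2 4 1 (by norm_num) 0 0 0 (M1 := d1) (M2 := (1 - P * 4 ^ 2) * d3)
        (M3 := (1 - P * 4 ^ 2) * (1 - Q * 4 ^ 2)) (by ring) (by ring) (by ring) h1' ?_ ?_
      · rw [mul8 (show (1 - P * 4 ^ 2) % 8 = 1 by omega) h]; norm_num
      · rw [mul8 (show (1 - P * 4 ^ 2) % 8 = 1 by omega)
          (show (1 - Q * 4 ^ 2) % 8 = 1 by omega)]; norm_num
    · rcases hD' with h' | h'
      · exact case4 (by omega)
      · exact case16 (by omega)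
    · refine loc_2 2 1 (by norm_num) 0 0 0 (M1 := d1) (M2 := (1 - P * 2 ^ 2) * d3)
        (M3 := (1 - P * 2 ^ 2) * (1 - Q * 2 ^ 2)) (by ring) (by ring) (by ring) h1' ?_ ?_
      · rw [mul8 (show (1 - P * 2 ^ 2) % 8 = 5 by omega) h]; norm_num
      · rw [mul8 (show (1 - P * 2 ^ 2) % 8 = 5 by omega)
          (show (1 - Q * 2 ^ 2) % 8 = 5 by omega)]; norm_num
    · rcases hD' with h' | h'
      · exact case16 (by omega)
      · exact case4 (by omega)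
  · -- d1 = 5 mod 8
    rcases hD' with hD8 | hD8
    · -- D = 1 mod 8, hence e = 2
      have he : e = 2 := by
        by_contra hne
        exact he3 (by have := hT.he; omega) hD8
      rw [he] at hPQ
      have hsq : (d3 * d3) % 8 = 1 := by
        rcases h3' with h | h | h | h <;> rw [mul8 h h] <;> norm_num
      refine loc_2 1 (P + 4 * d3) (by norm_num) 0 1 2 (M1 := (P + 4 * d3) * d1)
        (M2 := d3 * d3) (M3 := (P + 4 * d3) * (d3 * d3 + 4 * (R * d3)))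
        (by ring) (by ring) (by rw [hPQ]; ring) ?_ hsq ?_
      · rw [mul8 (show (P + 4 * d3) % 8 = 5 by omega) h1']; norm_num
      · have hDd : (R * d3) % 2 = 1 := by
          rw [Int.mul_emod, show R % 2 = 1 by omega, h3]; norm_num
        rw [mul8 (show (P + 4 * d3) % 8 = 5 by omega)
          (show (d3 * d3 + 4 * (R * d3)) % 8 = 5 by omega)]; norm_num
    · -- D = 5 mod 8
      obtain ⟨F, hF⟩ : ∃ F : ℤ, ((2 : ℤ) ^ e) ^ 2 = 8 * F := by
        obtain ⟨k, hk⟩ : ∃ k, e = k + 2 := ⟨e - 2, by have := hT.he; omega⟩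
        exact ⟨2 * (2 ^ k) ^ 2, by rw [hk, pow_add]; ring⟩
      rcases h3' with h | h | h | h
      · -- d3 = 1
        have hX : (P + 64 * ((2 : ℤ) ^ e) ^ 2) % 8 = 5 := by rw [hF]; omega
        refine loc_2 1 (P + 64 * ((2 : ℤ) ^ e) ^ 2) (by norm_num) 0 (e + 3) (2 * e + 3)
          (M1 := (P + 64 * ((2 : ℤ) ^ e) ^ 2) * d1)
          (M2 := d3) (M3 := (P + 64 * ((2 : ℤ) ^ e) ^ 2) * (R + 64))
          (by ring) (by ring) (by rw [hPQ]; ring) ?_ h ?_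
        · rw [mul8 hX h1']; norm_num
        · rw [mul8 hX (show (R + 64) % 8 = 5 by omega)]; norm_num
      · -- d3 = 3
        have hX : (P + ((2 : ℤ) ^ e) ^ 2 * (112 - R)) % 8 = 5 := by
          rw [hF, mul_assoc]; omega
        refine loc_2 1 (P + ((2 : ℤ) ^ e) ^ 2 * (112 - R)) (by norm_num) 0 e (2 * e + 2)
          (M1 := (P + ((2 : ℤ) ^ e) ^ 2 * (112 - R)) * d1)
          (M2 := (112 - R) * d3) (M3 := (P + ((2 : ℤ) ^ e) ^ 2 * (112 - R)) * ((112 - R) * 7))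
          (by ring) (by ring) (by rw [hPQ]; ring) ?_ ?_ ?_
        · rw [mul8 hX h1']; norm_num
        · rw [mul8 (show (112 - R) % 8 = 3 by omega) h]; norm_num
        · rw [mul8 hX (show ((112 - R) * 7) % 8 = 5 by omega)]; norm_num
      · -- d3 = 5
        have hX : (P + 20 * ((2 : ℤ) ^ e) ^ 2) % 8 = 5 := by rw [hF]; omega
        refine loc_2 1 (P + 20 * ((2 : ℤ) ^ e) ^ 2) (by norm_num) 0 (e + 1) (2 * e + 1)
          (M1 := (P + 20 * ((2 : ℤ) ^ e) ^ 2) * d1)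
          (M2 := 5 * d3) (M3 := (P + 20 * ((2 : ℤ) ^ e) ^ 2) * (5 * (R + 20)))
          (by ring) (by ring) (by rw [hPQ]; ring) ?_ ?_ ?_
        · rw [mul8 hX h1']; norm_num
        · rw [mul8 (show (5 : ℤ) % 8 = 5 by norm_num) h]; norm_num
        · rw [mul8 hX (show (5 * (R + 20)) % 8 = 5 by omega)]; norm_num
      · -- d3 = 7
        have hX : (P + ((2 : ℤ) ^ e) ^ 2 * (12 - R)) % 8 = 5 := by
          rw [hF, mul_assoc]; omega
        refine loc_2 1 (P + ((2 : ℤ) ^ e) ^ 2 * (12 - R)) (by norm_num) 0 e (2 * e + 1)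
          (M1 := (P + ((2 : ℤ) ^ e) ^ 2 * (12 - R)) * d1)
          (M2 := (12 - R) * d3) (M3 := (P + ((2 : ℤ) ^ e) ^ 2 * (12 - R)) * ((12 - R) * 3))
          (by ring) (by ring) (by rw [hPQ]; ring) ?_ ?_ ?_
        · rw [mul8 hX h1']; norm_num
        · rw [mul8 (show (12 - R) % 8 = 7 by omega) h]; norm_num
        · rw [mul8 hX (show ((12 - R) * 3) % 8 = 5 by omega)]; norm_num

end Pool.Agent.NH3.XT
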