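import Pool.Agent.NH3.XT.Stm
import Pool.Agent.Y667.RP.Two

/-!
# XT-11: the prime `2`, `D = 3` modulo `4`, sufficient conditions (port of `XS/L2B2.lean`)
-/

set_option autoImplicit false

namespace Pool.Agent.NH3.XT

namespace L22b

/-- a local point from integers -/
lemma loc_of {K : Type} [Field K] [CharZero K] {A B d1 d2 : ℤ} (m X : ℤ) (hm : m ≠ 0)
    (h1 : IsSquare ((X * d1 : ℤ) : K)) (h2 : IsSquare (((X - A * m ^ 2) * d2 : ℤ) : K))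
    (h3 : IsSquare ((X * (X - A * m ^ 2) * (X - B * m ^ 2) : ℤ) : K))
    (h0 : X * (X - A * m ^ 2) * (X - B * m ^ 2) ≠ 0) : Loc K A B d1 d2 := by
  have hm' : (m : K) ≠ 0 := by exact_mod_cast hm
  obtain ⟨r1, hr1⟩ := h1
  obtain ⟨r2, hr2⟩ := h2
  obtain ⟨r3, hr3⟩ := h3
  push_cast at hr1 hr2 hr3
  have h0' : (X : K) * (X - A * m ^ 2) * (X - B * m ^ 2) ≠ 0 := by exact_mod_cast h0
  refine ⟨X / m ^ 2, r3 / m ^ 3, ?_, ?_, ⟨r1 / m, ?_⟩, ⟨r2 / m, ?_⟩⟩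
  · refine div_ne_zero ?_ (pow_ne_zero _ hm')
    rintro rfl
    apply h0'
    rw [hr3, mul_zero]
  · rw [div_pow, sq, ← hr3]
    field_simp
  · field_simp
    linear_combination hr1
  · field_simp
    linear_combination hr2

/-- squares at 2 -/
lemma sq2 [Fact (Nat.Prime 2)] (k : ℕ) {M N : ℤ} (hM : M % 8 = 1)
    (hN : N = ((2 : ℤ) ^ k) ^ 2 * M) : IsSquare ((N : ℤ) : ℚ_[2]) := by
  have h1 : (2 : ℤ) ^ 3 ∣ M - 1 := by norm_num; omega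
  have h2 := Pool.Agent.Y667.RP.norm_int_le h1
  obtain ⟨v, hv⟩ := Pool.Agent.Y667.RP.sq_near_one (w := ((M - 1 : ℤ) : ℚ_[2])) (by
    refine h2.trans (le_of_eq (by norm_num)))
  refine ⟨2 ^ k * v, ?_⟩
  have h3 : (M : ℚ_[2]) = v * v := by
    rw [← hv]; push_cast; ring
  rw [hN]
  push_cast
  rw [h3]
  ring

lemma loc_2 [Fact (Nat.Prime 2)] {A B d1 d2 : ℤ} (m X : ℤ) (hm : m ≠ 0) (k1 k2 k3 : ℕ)
    {M1 M2 M3 : ℤ} (e1 : X * d1 = ((2 : ℤ) ^ k1) ^ 2 * M1)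
    (e2 : (X - A * m ^ 2) * d2 = ((2 : ℤ) ^ k2) ^ 2 * M2)
    (e3 : X * (X - A * m ^ 2) * (X - B * m ^ 2) = ((2 : ℤ) ^ k3) ^ 2 * M3)
    (j1 : M1 % 8 = 1) (j2 : M2 % 8 = 1) (j3 : M3 % 8 = 1) :
    Loc ℚ_[2] A B d1 d2 := by
  refine loc_of m X hm (sq2 k1 j1 e1) (sq2 k2 j2 e2) (sq2 k3 j3 e3) ?_
  rw [e3]
  have h3 : M3 ≠ 0 := by omega
  positivity

lemma mul8 {x y a b : ℤ} (hx : x % 8 = a) (hy : y % 8 = b) : (x * y) % 8 = (a * b) % 8 := by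
  rw [Int.mul_emod, hx, hy]

theorem sq8 {s : ℤ} (hs : s % 2 = 1) : (s * s) % 8 = 1 := by
  have : s % 8 = 1 ∨ s % 8 = 3 ∨ s % 8 = 5 ∨ s % 8 = 7 := by omega
  rcases this with h | h | h | h <;> rw [mul8 h h] <;> norm_num

variable [Fact (Nat.Prime 2)] {A C D d1 d3 : ℤ} (n : ℕ)

theorem one_one (hd1 : d1 % 8 = 1) (hd3 : d3 % 8 = 1) :
    Loc ℚ_[2] A (A - 16 * ((2 ^ n) ^ 2 * C)) d1 d3 := by
  refine loc_2 4 1 (by norm_num) 0 0 0 (M1 := d1) (M2 := (1 - A * 4 ^ 2) * d3)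
    (M3 := (1 - A * 4 ^ 2) * (1 - (A - 16 * ((2 ^ n) ^ 2 * C)) * 4 ^ 2)) (by ring) (by ring)
    (by ring) hd1 ?_ ?_
  · rw [mul8 (show (1 - A * 4 ^ 2) % 8 = 1 by omega) hd3]; norm_num
  · rw [mul8 (show (1 - A * 4 ^ 2) % 8 = 1 by omega)
      (show (1 - (A - 16 * ((2 ^ n) ^ 2 * C)) * 4 ^ 2) % 8 = 1 by omega)]; norm_num

theorem one_five (hA : A % 2 = 1) (hd1 : d1 % 8 = 1) (hd3 : d3 % 8 = 5) :
    Loc ℚ_[2] A (A - 16 * ((2 ^ n) ^ 2 * C)) d1 d3 := by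
  refine loc_2 2 1 (by norm_num) 0 0 0 (M1 := d1) (M2 := (1 - A * 2 ^ 2) * d3)
    (M3 := (1 - A * 2 ^ 2) * (1 - (A - 16 * ((2 ^ n) ^ 2 * C)) * 2 ^ 2)) (by ring) (by ring)
    (by ring) hd1 ?_ ?_
  · rw [mul8 (show (1 - A * 2 ^ 2) % 8 = 5 by omega) hd3]; norm_num
  · rw [mul8 (show (1 - A * 2 ^ 2) % 8 = 5 by omega)
      (show (1 - (A - 16 * ((2 ^ n) ^ 2 * C)) * 2 ^ 2) % 8 = 5 by omega)]; norm_num

theorem one_ev {s : ℤ} (hs : s % 2 = 1) (hA : (2 * s + A - 1) % 8 = 0) (hd1 : d1 % 8 = 1) :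
    Loc ℚ_[2] A (A - 16 * ((2 ^ n) ^ 2 * C)) d1 (2 * s) := by
  have hX : (A + 2 * s) % 8 = 1 := by omega
  refine loc_2 1 (A + 2 * s) one_ne_zero 0 1 1 (M1 := (A + 2 * s) * d1) (M2 := s * s)
    (M3 := (A + 2 * s) * (s * (s + 8 * ((2 ^ n) ^ 2 * C)))) (by ring) (by ring) (by ring) ?_
    (sq8 hs) ?_
  · rw [mul8 hX hd1]; norm_num
  · have h : (s * (s + 8 * ((2 ^ n) ^ 2 * C))) % 8 = 1 := by
      have e : s * (s + 8 * ((2 ^ n) ^ 2 * C)) = s * s + 8 * (s * ((2 ^ n) ^ 2 * C)) := by ring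
      rw [e]
      have := sq8 hs
      omega
    rw [mul8 hX h]; norm_num

theorem D_one (hD : D % 2 = 1) (hA : A % 8 = D % 8) (hC : C % 8 = D % 8) (hd1 : d1 % 8 = D % 8)
    (hd3 : d3 % 8 = 1) : Loc ℚ_[2] A (A - 16 * ((2 ^ n) ^ 2 * C)) d1 d3 := by
  have hX : (A + 1024 * (2 ^ n) ^ 2) % 8 = D % 8 := by omega
  have hDD := sq8 hD
  refine loc_2 1 (A + 1024 * (2 ^ n) ^ 2) one_ne_zero 0 (5 + n) (7 + 2 * n)
    (M1 := (A + 1024 * (2 ^ n) ^ 2) * d1) (M2 := d3)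
    (M3 := (A + 1024 * (2 ^ n) ^ 2) * (C + 64)) (by ring) (by ring) (by ring) ?_ hd3 ?_
  · rw [mul8 hX hd1, ← Int.mul_emod]; exact hDD
  · rw [mul8 hX (show (C + 64) % 8 = D % 8 by omega), ← Int.mul_emod]; exact hDD

theorem D_five (hD : D % 2 = 1) (hA : A % 8 = D % 8) (hC : C % 8 = D % 8) (hd1 : d1 % 8 = D % 8)
    (hd3 : d3 % 8 = 5) : Loc ℚ_[2] A (A - 16 * ((2 ^ n) ^ 2 * C)) d1 d3 := by
  have hX : (A + 320 * (2 ^ n) ^ 2) % 8 = D % 8 := by omega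
  have hDD := sq8 hD
  refine loc_2 1 (A + 320 * (2 ^ n) ^ 2) one_ne_zero 0 (3 + n) (5 + 2 * n)
    (M1 := (A + 320 * (2 ^ n) ^ 2) * d1) (M2 := 5 * d3)
    (M3 := (A + 320 * (2 ^ n) ^ 2) * (5 * (C + 20))) (by ring) (by ring) (by ring) ?_ ?_ ?_
  · rw [mul8 hX hd1, ← Int.mul_emod]; exact hDD
  · omega
  · have h : D % 8 = 1 ∨ D % 8 = 3 ∨ D % 8 = 5 ∨ D % 8 = 7 := by omega
    rcases h with h | h | h | h
    · rw [mul8 (hX.trans h) (show (5 * (C + 20)) % 8 = 1 by omega)]; norm_num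
    · rw [mul8 (hX.trans h) (show (5 * (C + 20)) % 8 = 3 by omega)]; norm_num
    · rw [mul8 (hX.trans h) (show (5 * (C + 20)) % 8 = 5 by omega)]; norm_num
    · rw [mul8 (hX.trans h) (show (5 * (C + 20)) % 8 = 7 by omega)]; norm_num

theorem D_ev {s : ℤ} (hs : s % 2 = 1) (hD4 : D % 4 = 3) (hD : (2 * s + D - 1) % 8 = 0)
    (hA : A % 8 = D % 8) (hC : C % 8 = D % 8) (hd1 : d1 % 8 = D % 8) :
    Loc ℚ_[2] A (A - 16 * ((2 ^ n) ^ 2 * C)) d1 (2 * s) := by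
  have hD2 : D % 2 = 1 := by omega
  have hX : (A + 8 * ((2 ^ n) ^ 2 * s)) % 8 = D % 8 := by omega
  have hDD := sq8 hD2
  refine loc_2 1 (A + 8 * ((2 ^ n) ^ 2 * s)) one_ne_zero 0 (2 + n) (3 + 2 * n)
    (M1 := (A + 8 * ((2 ^ n) ^ 2 * s)) * d1) (M2 := s * s)
    (M3 := (A + 8 * ((2 ^ n) ^ 2 * s)) * (s * (s + 2 * C))) (by ring) (by ring) (by ring) ?_
    (sq8 hs) ?_
  · rw [mul8 hX hd1, ← Int.mul_emod]; exact hDD
  · have h : (D % 8 = 3 ∧ (s % 8 = 3 ∨ s % 8 = 7)) ∨ (D % 8 = 7 ∧ (s % 8 = 1 ∨ s % 8 = 5)) := by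
      omega
    rcases h with ⟨h, h' | h'⟩ | ⟨h, h' | h'⟩
    · rw [mul8 (hX.trans h) (mul8 h' (show (s + 2 * C) % 8 = 1 by omega))]; norm_num
    · rw [mul8 (hX.trans h) (mul8 h' (show (s + 2 * C) % 8 = 5 by omega))]; norm_num
    · rw [mul8 (hX.trans h) (mul8 h' (show (s + 2 * C) % 8 = 7 by omega))]; norm_num
    · rw [mul8 (hX.trans h) (mul8 h' (show (s + 2 * C) % 8 = 3 by omega))]; norm_num

end L22b

open L22b in
theorem t_L22b : S_L22 3 := by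
  intro _ a b c e hT D d1 d3 hD _ _ _ hA hC
  obtain ⟨n, rfl⟩ : ∃ n, e = n + 2 := ⟨e - 2, by have := hT.he; omega⟩
  have hD2 : D % 2 = 1 := by omega
  have hb : (b ^ 2 * D) % 8 = D % 8 := by
    rw [sq, Int.mul_emod, sq8 hT.ob, one_mul, Int.emod_emod]
  have hc : (c ^ 2 * D) % 8 = D % 8 := by
    rw [sq, Int.mul_emod, sq8 hT.oc, one_mul, Int.emod_emod]
  have hB : a ^ 2 * D = b ^ 2 * D - 16 * ((2 ^ n) ^ 2 * (c ^ 2 * D)) := by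
    linear_combination D * hT.eq
  rw [hB]
  generalize b ^ 2 * D = A at hb ⊢
  generalize c ^ 2 * D = C at hc ⊢
  have h1 : d1 % 8 = 1 ∨ d1 % 8 = D % 8 := by
    rcases hA with ⟨h, _⟩ | ⟨_, h | ⟨_, h⟩ | ⟨h, _⟩⟩
    · omega
    · exact Or.inl h
    · exact Or.inr h
    · omega
  have h3 : d3 % 4 = 1 ∨ (d3 + D - 1) % 8 = 0 := by
    rcases hC with ⟨h, _⟩ | ⟨_, h⟩ | ⟨h, _⟩
    · omega
    · exact h
    · omega
  rcases h3 with h3 | h3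
  · have h4 : d3 % 8 = 1 ∨ d3 % 8 = 5 := by omega
    rcases h1 with h1 | h1 <;> rcases h4 with h4 | h4
    · exact one_one n h1 h4
    · exact one_five n (by omega) h1 h4
    · exact D_one n hD2 hb hc h1 h4
    · exact D_five n hD2 hb hc h1 h4
  · obtain ⟨s, rfl⟩ : ∃ s, d3 = 2 * s := ⟨d3 / 2, by omega⟩
    have hs : s % 2 = 1 := by omega
    rcases h1 with h1 | h1
    · exact one_ev n hs (by omega) h1
    · exact D_ev n hs hD h3 hb hc h1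

end Pool.Agent.NH3.XT
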