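import Pool.Agent.NH3.XT.Stm

/-!
# Project XT, L22 for `D = 2` modulo `4`: 2-adic points (port of `XS/L2C2.lean`)
-/

set_option autoImplicit false

namespace Pool.Agent.NH3.XT

namespace L22c

/-- `1 + 4 p w` is a square -/
lemma hens (p : ℕ) [hp : Fact p.Prime] (w : ℤ_[p]) : IsSquare (1 + 4 * p * w) := by
  let F : Polynomial ℤ_[p] := Polynomial.X ^ 2 - Polynomial.C (1 + 4 * p * w)
  have h1 : F.aeval (1 : ℤ_[p]) = -(4 * p * w) := by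
    simp [F]
  have h2 : F.derivative.aeval (1 : ℤ_[p]) = 2 := by
    simp [F, one_add_one_eq_two]
  have h4 : 0 < ‖(4 : ℤ_[p])‖ := norm_pos_iff.2 (by norm_num)
  obtain ⟨z, hz, -⟩ := hensels_lemma (p := p) (R := ℤ_[p]) (F := F) (a := 1) (by
    rw [h1, h2, norm_neg, norm_mul, norm_mul]
    have h5 : ‖(2 : ℤ_[p])‖ ^ 2 = ‖(4 : ℤ_[p])‖ := by
      rw [← norm_pow]
      norm_num
    rw [h5]
    have h6 : ‖(p : ℤ_[p])‖ < 1 := by
      rw [PadicInt.norm_p]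
      exact inv_lt_one_of_one_lt₀ (by exact_mod_cast hp.out.one_lt)
    have h7 : ‖w‖ ≤ 1 := PadicInt.norm_le_one w
    calc ‖(4 : ℤ_[p])‖ * ‖(p : ℤ_[p])‖ * ‖w‖ ≤ ‖(4 : ℤ_[p])‖ * ‖(p : ℤ_[p])‖ * 1 := by
          gcongr
      _ < ‖(4 : ℤ_[p])‖ * 1 := by
          rw [mul_one]
          exact mul_lt_mul_of_pos_left h6 h4
      _ = ‖(4 : ℤ_[p])‖ := mul_one _)
  refine ⟨z, ?_⟩
  have : F.aeval z = z ^ 2 - (1 + 4 * p * w) := by simp [F]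
  rw [this] at hz
  rw [← pow_two]
  exact (sub_eq_zero.1 hz).symm

lemma norm_two_pow : ‖(8 : ℚ_[2])‖ = 1 / 8 := by
  have h : (8 : ℚ_[2]) = ((2 : ℕ) : ℚ_[2]) ^ 3 := by norm_num
  rw [h, norm_pow, Padic.norm_p]
  norm_num

lemma sq_near_one {w : ℚ_[2]} (hw : ‖w‖ ≤ 1 / 8) : IsSquare (1 + w) := by
  have h1 : ‖w / 8‖ ≤ 1 := by
    rw [norm_div, norm_two_pow]
    linarith
  obtain ⟨v, hv⟩ : ∃ v : ℤ_[2], (v : ℚ_[2]) = w / 8 := ⟨⟨w / 8, h1⟩, rfl⟩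
  obtain ⟨z, hz⟩ := hens 2 v
  refine ⟨(z : ℚ_[2]), ?_⟩
  have h2 := congrArg (fun t : ℤ_[2] => (t : ℚ_[2])) hz
  have hc4 : ((4 : ℤ_[2]) : ℚ_[2]) = 4 := rfl
  push_cast at h2
  have hc2 : (((2 : ℕ) : ℤ_[2]) : ℚ_[2]) = 2 := rfl
  rw [hc4, hv] at h2
  rw [← h2]
  have hc3 : ((2 : ℤ_[2]) : ℚ_[2]) = 2 := rfl
  simp only [hc2, hc3]
  ring

lemma norm_int_le {a : ℤ} {n : ℕ} (h : (2 : ℤ) ^ n ∣ a) : ‖(a : ℚ_[2])‖ ≤ 1 / 2 ^ n := by
  have := (Padic.norm_int_le_pow_iff_dvd (p := 2) a n).2 (by exact_mod_cast h)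
  refine this.trans (le_of_eq ?_)
  rw [zpow_neg, zpow_natCast]
  norm_num

lemma sq2' [Fact (Nat.Prime 2)] (k : ℕ) {M N : ℤ} (hM : M % 8 = 1)
    (hN : N = ((2 : ℤ) ^ k) ^ 2 * M) : IsSquare ((N : ℤ) : ℚ_[2]) := by
  have h1 : (2 : ℤ) ^ 3 ∣ M - 1 := by norm_num; omega
  have h2 := norm_int_le h1
  obtain ⟨v, hv⟩ := sq_near_one (w := ((M - 1 : ℤ) : ℚ_[2])) (by
    refine h2.trans (le_of_eq (by norm_num)))
  refine ⟨2 ^ k * v, ?_⟩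
  have h3 : (M : ℚ_[2]) = v * v := by
    rw [← hv]; push_cast; ring
  rw [hN]
  push_cast
  rw [h3]
  ring

lemma loc_of' {K : Type} [Field K] [CharZero K] {A B d1 d2 : ℤ} (m X : ℤ) (hm : m ≠ 0)
    (h1 : IsSquare ((X * d1 : ℤ) : K)) (h2 : IsSquare (((X - A * m ^ 2) * d2 : ℤ) : K))
    (h3 : IsSquare ((X * (X - A * m ^ 2) * (X - B * m ^ 2) : ℤ) : K))
    (h0 : X * (X - A * m ^ 2) * (X - B * m ^ 2) ≠ 0) : Loc K A B d1 d2 := by
  have hm' : (m : K) ≠ 0 := by exact_mod_cast hm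
  obtain ⟨r1, hr1⟩ := h1
  obtain ⟨r2, hr2⟩ := h2
  obtain ⟨r3, hr3⟩ := h3
  push_cast at hr1 hr2 hr3
  have h0' : (X : K) * (X - A * m ^ 2) * (X - B * m ^ 2) ≠ 0 := by exact_mod_cast h0
  refine ⟨X / m ^ 2, r3 / m ^ 3, ?_, ?_, ⟨r1 / m, ?_⟩, ⟨r2 / m, ?_⟩⟩
  · refine div_ne_zero ?_ (pow_ne_zero _ hm')
    rintro rfl
    apply h0'
    rw [hr3, mul_zero]
  · rw [div_pow, sq, ← hr3]
    field_simp
  · field_simp
    linear_combination hr1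
  · field_simp
    linear_combination hr2

lemma loc_2' [Fact (Nat.Prime 2)] {A B d1 d2 : ℤ} (m X : ℤ) (hm : m ≠ 0) (k1 k2 k3 : ℕ)
    (M1 M2 M3 : ℤ) (e1 : X * d1 = ((2 : ℤ) ^ k1) ^ 2 * M1)
    (e2 : (X - A * m ^ 2) * d2 = ((2 : ℤ) ^ k2) ^ 2 * M2)
    (e3 : X * (X - A * m ^ 2) * (X - B * m ^ 2) = ((2 : ℤ) ^ k3) ^ 2 * M3)
    (j1 : M1 % 8 = 1) (j2 : M2 % 8 = 1) (j3 : M3 % 8 = 1) :
    Loc ℚ_[2] A B d1 d2 := by
  refine loc_of' m X hm (sq2' k1 j1 e1) (sq2' k2 j2 e2) (sq2' k3 j3 e3) ?_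
  rw [e3]
  have h3 : M3 ≠ 0 := by omega
  positivity

lemma mul8' {x y a b : ℤ} (hx : x % 8 = a) (hy : y % 8 = b) : (x * y) % 8 = (a * b) % 8 := by
  rw [Int.mul_emod, hx, hy]

lemma sq8 {x y : ℤ} (h : (x - y) % 8 = 0) (hx : x % 2 = 1) : (x * y) % 8 = 1 := by
  have h1 : x % 8 = 1 ∨ x % 8 = 3 ∨ x % 8 = 5 ∨ x % 8 = 7 := by omega
  rcases h1 with h1 | h1 | h1 | h1
  · rw [mul8' h1 (show y % 8 = 1 by omega)]; norm_num
  · rw [mul8' h1 (show y % 8 = 3 by omega)]; norm_num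
  · rw [mul8' h1 (show y % 8 = 5 by omega)]; norm_num
  · rw [mul8' h1 (show y % 8 = 7 by omega)]; norm_num

/-- the class `1` of `x` -/
lemma part1 [Fact (Nat.Prime 2)] (α β g d1 d3 : ℤ) (hg : g % 2 = 1) (hP : (β * g) % 8 = g % 8)
    (hQ : (α * g) % 8 = g % 8) (h1 : d1 % 8 = 1)
    (hC : d3 % 8 = 1 ∨ (d3 + 2 * g - 1) % 8 = 0 ∨ (d3 + 2 * g) % 16 = 0 ∨ (d3 + 2 * g - 4) % 16 = 0) :
    Loc ℚ_[2] (β * (2 * g)) (α * (2 * g)) d1 d3 := by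
  rcases hC with h | h | h | h
  · exact loc_2' 4 1 (by norm_num) 0 0 0 d1 ((1 - 32 * (β * g)) * d3)
      ((1 - 32 * (β * g)) * (1 - 32 * (α * g)))
      (by ring) (by ring) (by ring) h1 (sq8 (by omega) (by omega)) (sq8 (by omega) (by omega))
  · exact loc_2' 1 1 (by norm_num) 0 0 0 d1 ((1 - 2 * (β * g)) * d3)
      ((1 - 2 * (β * g)) * (1 - 2 * (α * g)))
      (by ring) (by ring) (by ring) h1 (sq8 (by omega) (by omega)) (sq8 (by omega) (by omega))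
  · obtain ⟨s, rfl⟩ : ∃ s, d3 = 2 * s := ⟨d3 / 2, by omega⟩
    exact loc_2' 1 16 (by norm_num) 2 1 3 d1 ((8 - β * g) * s) ((8 - β * g) * (8 - α * g))
      (by ring) (by ring) (by ring) h1 (sq8 (by omega) (by omega)) (sq8 (by omega) (by omega))
  · obtain ⟨s, rfl⟩ : ∃ s, d3 = 2 * s := ⟨d3 / 2, by omega⟩
    exact loc_2' 1 4 (by norm_num) 1 1 2 d1 ((2 - β * g) * s) ((2 - β * g) * (2 - α * g))
      (by ring) (by ring) (by ring) h1 (sq8 (by omega) (by omega)) (sq8 (by omega) (by omega))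

/-- the class `D` of `x` -/
lemma part2 [Fact (Nat.Prime 2)] (α β γ E g f d3 : ℤ) (e : ℕ) (hE : E = ((2 : ℤ) ^ e) ^ 2)
    (hE8 : ∀ x : ℤ, (E * x) % 8 = 0) (hα : α = β - E * γ) (hg : g % 2 = 1)
    (hP : (β * g) % 8 = g % 8) (hQ : (α * g) % 8 = g % 8) (hR : (γ * g) % 8 = g % 8)
    (h1 : (f - g) % 8 = 0)
    (hC : d3 % 8 = 1 ∨ (d3 + 2 * g - 1) % 8 = 0 ∨ (d3 + 2 * g) % 16 = 0 ∨ (d3 + 2 * g - 4) % 16 = 0) :
    Loc ℚ_[2] (β * (2 * g)) (α * (2 * g)) (2 * f) d3 := by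
  rcases hC with h | h | h | h
  · have k1 := hE8 32
    exact loc_2' 1 (2 * (β * g + E * 32)) (by norm_num) 1 (e + 3) (2 * e + 4) ((β * g + E * 32) * f) d3
      ((β * g + E * 32) * (γ * g + 32)) (by ring) (by rw [hE]; ring) (by rw [hα, hE]; ring)
      (sq8 (by omega) (by omega)) h (sq8 (by omega) (by omega))
  · have k1 := hE8 (2 * d3)
    refine loc_2' 1 (2 * (β * g + E * (2 * d3))) (by norm_num) 1 (e + 1) (2 * e + 2)
      ((β * g + E * (2 * d3)) * f) (d3 * d3)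
      ((β * g + E * (2 * d3)) * (d3 * (γ * g + 2 * d3))) (by ring) (by rw [hE]; ring)
      (by rw [hα, hE]; ring)
      (sq8 (by omega) (by omega)) (sq8 (by omega) (by omega)) (sq8 ?_ (by omega))
    have h2 : g % 8 = 1 ∨ g % 8 = 3 ∨ g % 8 = 5 ∨ g % 8 = 7 := by omega
    rcases h2 with h2 | h2 | h2 | h2
    · have := mul8' (show d3 % 8 = 7 by omega) (show (γ * g + 2 * d3) % 8 = 7 by omega)
      norm_num at this; omega
    · have := mul8' (show d3 % 8 = 3 by omega) (show (γ * g + 2 * d3) % 8 = 1 by omega)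
      norm_num at this; omega
    · have := mul8' (show d3 % 8 = 7 by omega) (show (γ * g + 2 * d3) % 8 = 3 by omega)
      norm_num at this; omega
    · have := mul8' (show d3 % 8 = 3 by omega) (show (γ * g + 2 * d3) % 8 = 5 by omega)
      norm_num at this; omega
  · obtain ⟨s, rfl⟩ : ∃ s, d3 = 2 * s := ⟨d3 / 2, by omega⟩
    have k1 := hE8 128
    exact loc_2' 1 (2 * (α * g - E * 128)) (by norm_num) 1 (e + 1) (2 * e + 5) ((α * g - E * 128) * f)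
      ((-(γ * g + 128)) * s) ((α * g - E * 128) * (γ * g + 128)) (by ring) (by rw [hα, hE]; ring)
      (by rw [hα, hE]; ring)
      (sq8 (by omega) (by omega)) (sq8 (by omega) (by omega)) (sq8 (by omega) (by omega))
  · obtain ⟨s, rfl⟩ : ∃ s, d3 = 2 * s := ⟨d3 / 2, by omega⟩
    have h2 : g % 4 = 1 ∨ g % 4 = 3 := by omega
    rcases h2 with h2 | h2
    · have k1 := hE8 (2 - γ * g)
      exact loc_2' 1 (2 * (β * g + E * (2 - γ * g))) (by norm_num) 1 (e + 1) (2 * e + 2)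
        ((β * g + E * (2 - γ * g)) * f)
        ((2 - γ * g) * s) ((β * g + E * (2 - γ * g)) * (2 - γ * g)) (by ring) (by rw [hE]; ring)
        (by rw [hα, hE]; ring)
        (sq8 (by omega) (by omega)) (sq8 (by omega) (by omega)) (sq8 (by omega) (by omega))
    · have k1 := hE8 (10 - γ * g)
      exact loc_2' 1 (2 * (β * g + E * (10 - γ * g))) (by norm_num) 1 (e + 1) (2 * e + 2)
        ((β * g + E * (10 - γ * g)) * f)
        ((10 - γ * g) * s) ((β * g + E * (10 - γ * g)) * (5 * (10 - γ * g))) (by ring)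
        (by rw [hE]; ring) (by rw [hα, hE]; ring)
        (sq8 (by omega) (by omega)) (sq8 (by omega) (by omega)) (sq8 (by omega) (by omega))

lemma sq_mul8 {x g : ℤ} (hx : x % 2 = 1) : (x ^ 2 * g) % 8 = g % 8 := by
  have h1 : x % 8 = 1 ∨ x % 8 = 3 ∨ x % 8 = 5 ∨ x % 8 = 7 := by omega
  have h2 : x ^ 2 % 8 = 1 := by
    rw [pow_two, Int.mul_emod]
    rcases h1 with h | h | h | h <;> rw [h] <;> norm_num
  rw [Int.mul_emod, h2, one_mul, Int.emod_emod_of_dvd _ (dvd_refl 8)]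

end L22c

theorem t_L22c : S_L22 2 := by
  intro _ a b c e hT D d1 d3 hD _ _ _ hA hC
  obtain ⟨g, rfl⟩ : ∃ g, D = 2 * g := ⟨D / 2, by omega⟩
  have hg : g % 2 = 1 := by omega
  have hC' : d3 % 8 = 1 ∨ (d3 + 2 * g - 1) % 8 = 0 ∨ (d3 + 2 * g) % 16 = 0 ∨ (d3 + 2 * g - 4) % 16 = 0 := by
    unfold C2 at hC
    rcases hC with h | h | h
    · exact absurd h.1 (by omega)
    · exact absurd h.1 (by omega)
    · exact h.2
  have hE8 : ∀ x : ℤ, (((2 : ℤ) ^ e) ^ 2 * x) % 8 = 0 := by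
    intro x
    obtain ⟨m, rfl⟩ : ∃ m, e = m + 2 := ⟨e - 2, by have := hT.he; omega⟩
    have : ((2 : ℤ) ^ (m + 2)) ^ 2 * x = 8 * (2 * (2 ^ m) ^ 2 * x) := by ring
    rw [this]
    exact Int.mul_emod_right _ _
  have hα : a ^ 2 = b ^ 2 - ((2 : ℤ) ^ e) ^ 2 * c ^ 2 := by
    have := hT.eq
    rw [mul_pow] at this
    linarith
  unfold A2 at hA
  rcases hA with h | ⟨-, h | h | h⟩
  · exact absurd h.1 (by omega)
  · exact L22c.part1 (a ^ 2) (b ^ 2) g d1 d3 hg (L22c.sq_mul8 hT.ob) (L22c.sq_mul8 hT.oa) h hC'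
  · exact absurd h.1 (by omega)
  · obtain ⟨f, rfl⟩ : ∃ f, d1 = 2 * f := ⟨d1 / 2, by omega⟩
    exact L22c.part2 (a ^ 2) (b ^ 2) (c ^ 2) (((2 : ℤ) ^ e) ^ 2) g f d3 e rfl hE8 hα hg
      (L22c.sq_mul8 hT.ob) (L22c.sq_mul8 hT.oa) (L22c.sq_mul8 hT.oc) (by omega) hC'

end Pool.Agent.NH3.XT
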