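import Pool.Agent.NH3.XT.Stm

/-!
# XT-2: approximation, squares in `ℚ_2`, and the reduction of the conditions at `2` to integral `x`
(ports of XS/APX.lean by helper78 and XS/L2R.lean by helper58; helper86)
-/

set_option autoImplicit false
set_option linter.unusedVariables false

open scoped Classical

namespace Pool.Agent.NH3.XT

namespace APX

variable {p : ℕ} [hp : Fact p.Prime]

theorem norm_four : ‖(4 : ℚ_[p])‖ = ‖(2 : ℚ_[p])‖ ^ 2 := by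
  rw [← norm_pow]; norm_num

theorem norm_four_le : ‖(4 : ℚ_[p])‖ ≤ 1 := by
  have h := Padic.norm_int_le_one (p := p) 4
  simpa using h

/-- elements near `1` are squares -/
theorem sq_near_one (u : ℚ_[p]) (hu : ‖u - 1‖ < ‖(4 : ℚ_[p])‖) :
    ∃ c : ℚ_[p], c ≠ 0 ∧ u = c ^ 2 := by
  have h1 : ‖u - 1‖ < 1 := hu.trans_le norm_four_le
  have hun : ‖u‖ ≤ 1 := by
    have h2 := Padic.nonarchimedean (u - 1) 1
    rw [sub_add_cancel, norm_one] at h2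
    exact h2.trans (max_le h1.le le_rfl)
  have hu0 : u ≠ 0 := by
    rintro rfl
    rw [zero_sub, norm_neg, norm_one] at h1
    exact lt_irrefl _ h1
  set v : ℤ_[p] := ⟨u, hun⟩ with hv
  set F : Polynomial ℤ_[p] := Polynomial.X ^ 2 - Polynomial.C v with hF
  have e1 : F.aeval (1 : ℤ_[p]) = 1 - v := by simp [hF]
  have e2 : F.derivative.aeval (1 : ℤ_[p]) = 2 := by
    simp [hF]
    norm_num
  obtain ⟨z, hz, -⟩ := hensels_lemma (p := p) (F := F) (a := (1 : ℤ_[p])) (by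
    rw [e1, e2]
    have a1 : ‖(1 - v : ℤ_[p])‖ = ‖u - 1‖ := by
      rw [PadicInt.norm_def, ← norm_neg]
      congr 1
      push_cast
      rw [hv]
      ring
    have a2 : ‖(2 : ℤ_[p])‖ = ‖(2 : ℚ_[p])‖ := by
      rw [PadicInt.norm_def]
      rfl
    rw [a1, a2, ← norm_four]
    exact hu)
  have hz1 : (z : ℚ_[p]) ^ 2 = u := by
    have h2 : z ^ 2 - v = 0 := by simpa [hF] using hz
    have h3 : ((z ^ 2 - v : ℤ_[p]) : ℚ_[p]) = 0 := by rw [h2]; rfl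
    push_cast at h3
    rw [hv] at h3
    exact sub_eq_zero.1 h3
  refine ⟨z, ?_, hz1.symm⟩
  rintro h2
  rw [h2] at hz1
  apply hu0
  rw [← hz1]
  ring

theorem near {z x : ℚ_[p]} (hx : x ≠ 0) (h : ‖z - x‖ < ‖(4 : ℚ_[p])‖ * ‖x‖) :
    ∃ c : ℚ_[p], c ≠ 0 ∧ z = x * c ^ 2 := by
  have hxn : 0 < ‖x‖ := norm_pos_iff.2 hx
  obtain ⟨c, hc, hc2⟩ := sq_near_one (z / x) (by
    have : z / x - 1 = (z - x) / x := by field_simp
    rw [this, norm_div, div_lt_iff₀ hxn]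
    exact h)
  refine ⟨c, hc, ?_⟩
  rw [← hc2]
  field_simp

/-- approximation by numbers `X / p ^ (2 m)` -/
theorem appr (x : ℚ_[p]) (e : ℝ) (he : 0 < e) :
    ∃ (m : ℕ) (X : ℤ), ‖(X : ℚ_[p]) / ((p : ℚ_[p]) ^ m) ^ 2 - x‖ < e := by
  have hp1 : (1 : ℝ) < p := by exact_mod_cast hp.out.one_lt
  obtain ⟨m, hm⟩ := pow_unbounded_of_one_lt ‖x‖ hp1
  have hp0 : (p : ℚ_[p]) ≠ 0 := by exact_mod_cast hp.out.ne_zero
  have hP0 : ((p : ℚ_[p]) ^ m) ^ 2 ≠ 0 := pow_ne_zero _ (pow_ne_zero _ hp0)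
  have hPn : 0 < ‖((p : ℚ_[p]) ^ m) ^ 2‖ := norm_pos_iff.2 hP0
  have hx1 : ‖x * ((p : ℚ_[p]) ^ m) ^ 2‖ ≤ 1 := by
    rw [norm_mul, norm_pow, norm_pow, Padic.norm_p, inv_pow]
    have h0 : (0 : ℝ) < (p : ℝ) ^ m := by positivity
    have h1 : (1 : ℝ) ≤ (p : ℝ) ^ m := one_le_pow₀ hp1.le
    rw [inv_pow, ← div_eq_mul_inv, div_le_one (by positivity)]
    nlinarith
  obtain ⟨x', hx'⟩ : ∃ x' : ℤ_[p], (x' : ℚ_[p]) = x * ((p : ℚ_[p]) ^ m) ^ 2 :=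
    ⟨⟨x * ((p : ℚ_[p]) ^ m) ^ 2, hx1⟩, rfl⟩
  obtain ⟨X, hX⟩ := (PadicInt.denseRange_intCast (p := p)).exists_dist_lt x' (mul_pos he hPn)
  refine ⟨m, X, ?_⟩
  rw [dist_comm, dist_eq_norm, PadicInt.norm_def] at hX
  push_cast at hX
  rw [hx'] at hX
  have h2 : (X : ℚ_[p]) / ((p : ℚ_[p]) ^ m) ^ 2 - x =
      (X - x * ((p : ℚ_[p]) ^ m) ^ 2) / ((p : ℚ_[p]) ^ m) ^ 2 := by
    field_simp
  rw [h2, norm_div, div_lt_iff₀ hPn]
  exact hX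

end APX

open APX in
theorem t_APX : S_APX := by
  intro p hp A B d1 d3 _ _ h
  obtain ⟨x, y, hy, hE, ⟨s1, hs1⟩, ⟨s3, hs3⟩⟩ := h
  have hy2 : x * (x - A) * (x - B) ≠ 0 := by
    rw [← hE]
    exact pow_ne_zero 2 hy
  have hx : x ≠ 0 := fun h0 => hy2 (by rw [h0]; ring)
  have hxA : x - A ≠ 0 := fun h0 => hy2 (by rw [h0]; ring)
  have hxB : x - B ≠ 0 := fun h0 => hy2 (by rw [h0]; ring)
  have h4 : 0 < ‖(4 : ℚ_[p])‖ := norm_pos_iff.2 (by norm_num)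
  obtain ⟨e, he0, he1, he2, he3⟩ : ∃ e : ℝ, 0 < e ∧ e ≤ ‖(4 : ℚ_[p])‖ * ‖x‖ ∧
      e ≤ ‖(4 : ℚ_[p])‖ * ‖x - A‖ ∧ e ≤ ‖(4 : ℚ_[p])‖ * ‖x - B‖ := by
    refine ⟨min (‖(4 : ℚ_[p])‖ * ‖x‖) (min (‖(4 : ℚ_[p])‖ * ‖x - A‖) (‖(4 : ℚ_[p])‖ * ‖x - B‖)),
      lt_min (mul_pos h4 (norm_pos_iff.2 hx)) (lt_min (mul_pos h4 (norm_pos_iff.2 hxA))
        (mul_pos h4 (norm_pos_iff.2 hxB))), min_le_left _ _,
      (min_le_right _ _).trans (min_le_left _ _), (min_le_right _ _).trans (min_le_right _ _)⟩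
  obtain ⟨m, X, hX⟩ := appr x e he0
  have hp0 : (p : ℚ_[p]) ≠ 0 := by exact_mod_cast hp.out.ne_zero
  have hPm : (p : ℚ_[p]) ^ m ≠ 0 := pow_ne_zero _ hp0
  obtain ⟨z, hz⟩ : ∃ z : ℚ_[p], z = (X : ℚ_[p]) / ((p : ℚ_[p]) ^ m) ^ 2 := ⟨_, rfl⟩
  rw [← hz] at hX
  have hXz : (X : ℚ_[p]) = z * ((p : ℚ_[p]) ^ m) ^ 2 := by
    rw [hz]
    field_simp
  obtain ⟨c, hc, hzc⟩ := near hx (hX.trans_le he1)
  obtain ⟨cA, hcA, hzA⟩ := near (z := z - (A : ℚ_[p])) hxA (by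
    rw [sub_sub_sub_cancel_right]
    exact hX.trans_le he2)
  obtain ⟨cB, hcB, hzB⟩ := near (z := z - (B : ℚ_[p])) hxB (by
    rw [sub_sub_sub_cancel_right]
    exact hX.trans_le he3)
  have hprod : ((X * (X - A * ((p : ℤ) ^ m) ^ 2) * (X - B * ((p : ℤ) ^ m) ^ 2) : ℤ) : ℚ_[p]) =
      (y * c * cA * cB * ((p : ℚ_[p]) ^ m) ^ 3) * (y * c * cA * cB * ((p : ℚ_[p]) ^ m) ^ 3) := by
    push_cast
    have e1 : (X : ℚ_[p]) - A * ((p : ℚ_[p]) ^ m) ^ 2 = (z - A) * ((p : ℚ_[p]) ^ m) ^ 2 := by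
      rw [hXz]; ring
    have e2 : (X : ℚ_[p]) - B * ((p : ℚ_[p]) ^ m) ^ 2 = (z - B) * ((p : ℚ_[p]) ^ m) ^ 2 := by
      rw [hXz]; ring
    rw [e1, e2, hXz, hzA, hzB, hzc]
    linear_combination (-(c * cA * cB * ((p : ℚ_[p]) ^ m) ^ 3) ^ 2) * hE
  refine ⟨m, X, ?_, ⟨s1 * c * (p : ℚ_[p]) ^ m, ?_⟩, ⟨s3 * cA * (p : ℚ_[p]) ^ m, ?_⟩, ⟨_, hprod⟩⟩
  · intro h0
    rw [h0, Int.cast_zero] at hprod
    have h1 : y * c * cA * cB * ((p : ℚ_[p]) ^ m) ^ 3 ≠ 0 :=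
      mul_ne_zero (mul_ne_zero (mul_ne_zero (mul_ne_zero hy hc) hcA) hcB) (pow_ne_zero _ hPm)
    exact mul_ne_zero h1 h1 hprod.symm
  · push_cast
    rw [hXz, hzc]
    linear_combination (c ^ 2 * ((p : ℚ_[p]) ^ m) ^ 2) * hs1
  · push_cast
    have e1 : (X : ℚ_[p]) - A * ((p : ℚ_[p]) ^ m) ^ 2 = (z - A) * ((p : ℚ_[p]) ^ m) ^ 2 := by
      rw [hXz]; ring
    rw [e1, hzA]
    linear_combination (cA ^ 2 * ((p : ℚ_[p]) ^ m) ^ 2) * hs3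

end Pool.Agent.NH3.XT

namespace Pool.Agent.NH3.XT.L2R

/-- `1 + 4 p w` is a square -/
lemma hens (p : ℕ) [hp : Fact p.Prime] (w : ℤ_[p]) : IsSquare (1 + 4 * p * w) := by
  let F : Polynomial ℤ_[p] := Polynomial.X ^ 2 - Polynomial.C (1 + 4 * p * w)
  have h1 : F.aeval (1 : ℤ_[p]) = -(4 * p * w) := by
    simp [F]
  have h2 : F.derivative.aeval (1 : ℤ_[p]) = 2 := by
    simp [F, one_add_one_eq_two]
  have h4 : 0 < ‖(4 : ℤ_[p])‖ := norm_pos_iff.2 (by norm_num)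
  obtain ⟨z, hz, -⟩ := hensels_lemma (p := p) (R := ℤ_[p]) (F := F) (a := 1) (by
    rw [h1, h2, norm_neg, norm_mul, norm_mul]
    have h5 : ‖(2 : ℤ_[p])‖ ^ 2 = ‖(4 : ℤ_[p])‖ := by
      rw [← norm_pow]
      norm_num
    rw [h5]
    have h6 : ‖(p : ℤ_[p])‖ < 1 := by
      rw [PadicInt.norm_p]
      exact inv_lt_one_of_one_lt₀ (by exact_mod_cast hp.out.one_lt)
    have h7 : ‖w‖ ≤ 1 := PadicInt.norm_le_one w
    calc ‖(4 : ℤ_[p])‖ * ‖(p : ℤ_[p])‖ * ‖w‖ ≤ ‖(4 : ℤ_[p])‖ * ‖(p : ℤ_[p])‖ * 1 := by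
          gcongr
      _ < ‖(4 : ℤ_[p])‖ * 1 := by
          rw [mul_one]
          exact mul_lt_mul_of_pos_left h6 h4
      _ = ‖(4 : ℤ_[p])‖ := mul_one _)
  refine ⟨z, ?_⟩
  have : F.aeval z = z ^ 2 - (1 + 4 * p * w) := by simp [F]
  rw [this] at hz
  rw [← pow_two]
  exact (sub_eq_zero.1 hz).symm

/-- an integer that is a square in `ℚ_2` is a square modulo `8` -/
lemma sq_mod8 [Fact (Nat.Prime 2)] {d : ℤ} (h : IsSquare (d : ℚ_[2])) :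
    d % 8 = 0 ∨ d % 8 = 1 ∨ d % 8 = 4 := by
  obtain ⟨r, hr⟩ := h
  have h1 : ‖r‖ ≤ 1 := by
    by_contra hcon
    push Not at hcon
    have h2 : ‖(d : ℚ_[2])‖ ≤ 1 := Padic.norm_int_le_one d
    rw [hr, norm_mul] at h2
    nlinarith
  obtain ⟨v, hv⟩ : ∃ v : ℤ_[2], (v : ℚ_[2]) = r := ⟨⟨r, h1⟩, rfl⟩
  have h2 : ((d : ℤ) : ℤ_[2]) = v * v := by
    apply Subtype.ext
    rw [PadicInt.coe_mul, hv]
    push_cast
    exact hr
  have h3 := congrArg (PadicInt.toZModPow (p := 2) 3) h2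
  rw [map_mul, map_intCast] at h3
  have h4 : ∀ t e : ZMod (2 ^ 3), e = t * t → e = 0 ∨ e = 1 ∨ e = 4 := by decide
  have h7 : ∀ c : ℤ, ((d : ℤ) : ZMod 8) = (c : ZMod 8) → d % 8 = c % 8 := by
    intro c hc
    have h6 : ((d - c : ℤ) : ZMod 8) = 0 := by
      push_cast
      rw [hc, sub_self]
    have : ((8 : ℕ) : ℤ) ∣ d - c := (ZMod.intCast_zmod_eq_zero_iff_dvd _ 8).1 h6
    push_cast at this
    omega
  rcases h4 _ _ h3 with h5 | h5 | h5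
  · left
    have := h7 0 (by simpa using (show ((d : ℤ) : ZMod 8) = 0 from h5))
    omega
  · right
    left
    have := h7 1 (by simpa using (show ((d : ℤ) : ZMod 8) = 1 from h5))
    omega
  · right
    right
    have := h7 4 (by
      have : ((d : ℤ) : ZMod 8) = 4 := h5
      rw [this]
      norm_num)
    omega

lemma split_four : ∀ (N : ℕ) (n : ℤ), n.natAbs ≤ N → n ≠ 0 →
    ∃ (k : ℕ) (u : ℤ), n = 4 ^ k * u ∧ ¬ (4 : ℤ) ∣ u := by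
  intro N
  induction N with
  | zero =>
    intro n hn h0
    exfalso
    omega
  | succ N ih =>
    intro n hn h0
    by_cases h : (4 : ℤ) ∣ n
    · obtain ⟨v, rfl⟩ := h
      obtain ⟨k, u, hk, hu⟩ := ih v (by omega) (by omega)
      refine ⟨k + 1, u, ?_, hu⟩
      rw [hk, pow_succ]
      ring
    · exact ⟨0, n, by simp, h⟩

/-- `1` modulo `8` is a square -/
lemma sq_of_mod8 [Fact (Nat.Prime 2)] {u : ℤ} (hu : u % 8 = 1) : IsSquare (u : ℚ_[2]) := by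
  obtain ⟨w, rfl⟩ : ∃ w, u = 8 * w + 1 := ⟨u / 8, by omega⟩
  obtain ⟨z, hz⟩ := hens 2 ((w : ℤ) : ℤ_[2])
  refine ⟨(z : ℚ_[2]), ?_⟩
  have h := congrArg (fun t : ℤ_[2] => (t : ℚ_[2])) hz
  simp only [PadicInt.coe_mul, PadicInt.coe_add, PadicInt.coe_one] at h
  have e4 : ((4 : ℤ_[2]) : ℚ_[2]) = 4 := rfl
  have e2 : (((2 : ℕ) : ℤ_[2]) : ℚ_[2]) = 2 := rfl
  have ew : (((w : ℤ) : ℤ_[2]) : ℚ_[2]) = (w : ℚ_[2]) := PadicInt.coe_intCast w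
  rw [e4, e2, ew] at h
  rw [← h]
  push_cast
  ring

end Pool.Agent.NH3.XT.L2R

namespace Pool.Agent.NH3.XT

open L2R

theorem t_SQ2 : S_SQ2 := by
  intro _ n hn
  constructor
  · intro h
    obtain ⟨k, u, rfl, hu⟩ := split_four _ n le_rfl hn
    refine ⟨k, u, rfl, ?_⟩
    obtain ⟨r, hr⟩ := h
    have h2 : ((2 : ℚ_[2]) ^ k) ≠ 0 := pow_ne_zero _ two_ne_zero
    have h3 : IsSquare (u : ℚ_[2]) := by
      refine ⟨r / 2 ^ k, ?_⟩
      have e : (4 : ℚ_[2]) ^ k = 2 ^ k * 2 ^ k := by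
        rw [← mul_pow]
        norm_num
      push_cast at hr
      rw [e] at hr
      field_simp
      linear_combination hr
    rcases sq_mod8 h3 with h | h | h <;> omega
  · rintro ⟨k, u, rfl, hu⟩
    obtain ⟨r, hr⟩ := sq_of_mod8 hu
    refine ⟨2 ^ k * r, ?_⟩
    have e : (4 : ℚ_[2]) ^ k = 2 ^ k * 2 ^ k := by
      rw [← mul_pow]
      norm_num
    push_cast
    rw [e, hr]
    ring

end Pool.Agent.NH3.XT

namespace Pool.Agent.NH3.XT.L2R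

lemma sq2_mod {n : ℤ} (h : Sq2 n) : n % 8 = 0 ∨ n % 8 = 1 ∨ n % 8 = 4 := by
  obtain ⟨k, u, rfl, hu⟩ := h
  rcases k with _ | _ | k
  · rw [pow_zero, one_mul]
    omega
  · rw [zero_add, pow_one]
    omega
  · have e : (4 : ℤ) ^ (k + 1 + 1) * u = 8 * (2 * (4 ^ k * u)) := by ring
    rw [e]
    omega

lemma sq2_four {n : ℤ} (h : Sq2 (4 * n)) : Sq2 n := by
  obtain ⟨k, u, hk, hu⟩ := h
  rcases k with _ | k
  · rw [pow_zero, one_mul] at hk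
    omega
  · refine ⟨k, u, ?_, hu⟩
    have e : (4 : ℤ) ^ (k + 1) * u = 4 * (4 ^ k * u) := by ring
    rw [e] at hk
    omega

lemma not_four {d : ℤ} (h : Squarefree d) : ¬ (4 : ℤ) ∣ d := by
  intro hd
  have h1 : (2 : ℤ) * 2 ∣ d := by norm_num; exact hd
  have h2 := h 2 h1
  rw [Int.isUnit_iff] at h2
  omega

/-- the case of an odd `X` -/
lemma odd_case {D E X d1 d3 α β : ℤ} (hα : α % 8 = 1) (hβ : β % 8 = 1)
    (hE : D % 2 = 0 → E % 2 = 0) (hX : X % 2 = 1)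
    (h1 : Squarefree d1) (h3 : Squarefree d3)
    (s1 : Sq2 (X * d1)) (s3 : Sq2 ((X - 4 * β * E) * d3))
    (s : Sq2 (X * (X - 4 * β * E) * (X - 4 * α * E))) : A2 D d1 ∧ C2 D d3 := by
  have n1 := not_four h1
  have n3 := not_four h3
  obtain ⟨α', hα'⟩ : ∃ t, α = 8 * t + 1 := ⟨α / 8, by omega⟩
  obtain ⟨β', hβ'⟩ : ∃ t, β = 8 * t + 1 := ⟨β / 8, by omega⟩
  -- `X = 1` modulo `8`
  obtain ⟨a, ha⟩ : ∃ a, X = 2 * a + 1 := ⟨X / 2, by omega⟩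
  obtain ⟨b, hb⟩ := Int.even_mul_succ_self a
  have hX8 : X % 8 = 1 := by
    have e : X * (X - 4 * β * E) * (X - 4 * α * E) =
        X + 8 * (X * (b - (4 * α' + 4 * β' + 1) * X * E + 2 * α * β * E ^ 2)) := by
      have e2 : X ^ 2 = 8 * b + 1 := by
        rw [ha]
        linear_combination 4 * hb
      linear_combination X * e2 + (-4 * X ^ 2 * E) * hα' + (-4 * X ^ 2 * E) * hβ'
    have := sq2_mod s
    rw [e] at this
    omega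
  obtain ⟨q, hq⟩ : ∃ q, X = 8 * q + 1 := ⟨X / 8, by omega⟩
  have hd1 : d1 % 8 = 1 := by
    have e : X * d1 = 8 * (q * d1) + d1 := by rw [hq]; ring
    have := sq2_mod s1
    rw [e] at this
    omega
  have hd3 : d3 % 8 = 1 ∨ (D % 2 = 1 ∧ d3 % 8 = 5) := by
    have := sq2_mod s3
    rcases Int.emod_two_eq_zero_or_one E with h | h
    · left
      obtain ⟨f, hf⟩ : ∃ f, E = 2 * f := ⟨E / 2, by omega⟩
      have e : (X - 4 * β * E) * d3 = 8 * (q * d3 - β * (f * d3)) + d3 := by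
        rw [hq, hf]
        ring
      rw [e] at this
      omega
    · right
      obtain ⟨f, hf⟩ : ∃ f, E = 2 * f + 1 := ⟨E / 2, by omega⟩
      have e : (X - 4 * β * E) * d3 =
          8 * (q * d3 - β * (f * d3) - (1 + 4 * β') * d3) + 5 * d3 := by
        rw [hq, hf]
        linear_combination (-4 * d3) * hβ'
      rw [e] at this
      refine ⟨?_, by omega⟩
      by_contra hc
      have := hE (by omega)
      omega
  unfold A2 C2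
  omega

lemma sq8 {a : ℤ} (h : a % 2 = 1) : a ^ 2 % 8 = 1 := by
  obtain ⟨t, ht⟩ : ∃ t, a = 2 * t + 1 := ⟨a / 2, by omega⟩
  obtain ⟨b, hb⟩ := Int.even_mul_succ_self t
  have e : a ^ 2 = 8 * b + 1 := by
    rw [ht]
    linear_combination 4 * hb
  omega

lemma red {κ : ℤ} (J : S_J2 κ) {a b c : ℤ} {e0 : ℕ} (hT : Tri a b c e0) : ∀ (m : ℕ)
    (D X d1 d3 : ℤ), D % 4 = κ → (3 ≤ e0 → D % 8 ≠ 1) → Squarefree d1 →
    Squarefree d3 → X * (X - b ^ 2 * D * 4 ^ m) * (X - a ^ 2 * D * 4 ^ m) ≠ 0 → Sq2 (X * d1) →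
    Sq2 ((X - b ^ 2 * D * 4 ^ m) * d3) →
    Sq2 (X * (X - b ^ 2 * D * 4 ^ m) * (X - a ^ 2 * D * 4 ^ m)) →
    A2 D d1 ∧ C2 D d3 := by
  intro m
  induction m with
  | zero =>
    intro D X d1 d3 hD hD8 h1 h3 hne s1 s3 s
    simp only [pow_zero, mul_one] at hne s3 s
    exact J a b c e0 hT D X d1 d3 hD hD8 h1 h3 hne s1 s3 s
  | succ m ih =>
    intro D X d1 d3 hD hD8 h1 h3 hne s1 s3 s
    by_cases h4 : (4 : ℤ) ∣ X
    · obtain ⟨Y, rfl⟩ := h4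
      refine ih D Y d1 d3 hD hD8 h1 h3 ?_ (sq2_four ?_) (sq2_four ?_)
        (sq2_four (sq2_four (sq2_four ?_)))
      · intro h0
        apply hne
        have e : 4 * Y * (4 * Y - b ^ 2 * D * 4 ^ (m + 1)) * (4 * Y - a ^ 2 * D * 4 ^ (m + 1)) =
            64 * (Y * (Y - b ^ 2 * D * 4 ^ m) * (Y - a ^ 2 * D * 4 ^ m)) := by ring
        rw [e, h0, mul_zero]
      · have e : 4 * Y * d1 = 4 * (Y * d1) := by ring
        rwa [e] at s1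
      · have e : (4 * Y - b ^ 2 * D * 4 ^ (m + 1)) * d3 =
            4 * ((Y - b ^ 2 * D * 4 ^ m) * d3) := by ring
        rwa [e] at s3
      · have e : 4 * Y * (4 * Y - b ^ 2 * D * 4 ^ (m + 1)) * (4 * Y - a ^ 2 * D * 4 ^ (m + 1)) =
            4 * (4 * (4 * (Y * (Y - b ^ 2 * D * 4 ^ m) * (Y - a ^ 2 * D * 4 ^ m)))) := by ring
        rwa [e] at s
    · rcases Int.emod_two_eq_zero_or_one X with h2 | h2
      · exfalso
        obtain ⟨Y, hY, hY2⟩ : ∃ Y, X = 2 * Y ∧ Y % 2 = 1 := ⟨X / 2, by omega, by omega⟩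
        obtain ⟨Z, hZ⟩ : ∃ Z, Y = 2 * Z + 1 := ⟨Y / 2, by omega⟩
        have e : X * (X - b ^ 2 * D * 4 ^ (m + 1)) * (X - a ^ 2 * D * 4 ^ (m + 1)) =
            4 * (2 * (2 * (Z * (Y - 2 * b ^ 2 * D * 4 ^ m) * (Y - 2 * a ^ 2 * D * 4 ^ m)
              + Z * (Y - 2 * a ^ 2 * D * 4 ^ m) - b ^ 2 * D * 4 ^ m * (Y - 2 * a ^ 2 * D * 4 ^ m)
              + Z - a ^ 2 * D * 4 ^ m) + 1)) := by
          rw [hY, hZ]
          ring
        rw [e] at s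
        have := sq2_mod (sq2_four s)
        omega
      · have s3' : Sq2 ((X - 4 * b ^ 2 * (D * 4 ^ m)) * d3) := by
          have e : (X - 4 * b ^ 2 * (D * 4 ^ m)) * d3 = (X - b ^ 2 * D * 4 ^ (m + 1)) * d3 := by
            ring
          rw [e]
          exact s3
        have s' : Sq2 (X * (X - 4 * b ^ 2 * (D * 4 ^ m)) * (X - 4 * a ^ 2 * (D * 4 ^ m))) := by
          have e : X * (X - 4 * b ^ 2 * (D * 4 ^ m)) * (X - 4 * a ^ 2 * (D * 4 ^ m)) =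
              X * (X - b ^ 2 * D * 4 ^ (m + 1)) * (X - a ^ 2 * D * 4 ^ (m + 1)) := by
            ring
          rw [e]
          exact s
        refine odd_case (E := D * 4 ^ m) (sq8 hT.oa) (sq8 hT.ob) (fun h => ?_) h2 h1 h3 s1 s3' s'
        rw [Int.mul_emod, h, zero_mul, Int.zero_emod]

lemma fin {κ : ℤ} (hA : S_APX) (hS : S_SQ2) (J : S_J2 κ) [Fact (Nat.Prime 2)] {a b c : ℤ}
    {e0 : ℕ} (hT : Tri a b c e0) (D d1 d3 : ℤ)
    (hD : D % 4 = κ) (hD8 : 3 ≤ e0 → D % 8 ≠ 1) (h1 : Squarefree d1) (h3 : Squarefree d3)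
    (h : Loc ℚ_[2] (b ^ 2 * D) (a ^ 2 * D) d1 d3) : A2 D d1 ∧ C2 D d3 := by
  obtain ⟨m, X, hne, s1, s3, s⟩ := hA 2 (b ^ 2 * D) (a ^ 2 * D) d1 d3 h1.ne_zero h3.ne_zero h
  have e : (((2 : ℕ) : ℤ) ^ m) ^ 2 = 4 ^ m := by
    rw [← pow_mul, mul_comm, pow_mul]
    norm_num
  rw [e] at hne s3 s
  have hX : X ≠ 0 := fun h0 => hne (by rw [h0]; ring)
  have hY : X - b ^ 2 * D * 4 ^ m ≠ 0 := fun h0 => hne (by rw [h0]; ring)
  exact red J hT m D X d1 d3 hD hD8 h1 h3 hne ((hS _ (mul_ne_zero hX h1.ne_zero)).1 s1)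
    ((hS _ (mul_ne_zero hY h3.ne_zero)).1 s3) ((hS _ hne).1 s)

end Pool.Agent.NH3.XT.L2R

namespace Pool.Agent.NH3.XT

open L2R

theorem t_L2R : S_L2R := by
  intro hA hS J1 J3 J2 _ a b c e hT D d1 d3 hD hD8 h1 h3 h
  have h4 : D % 4 = 1 ∨ D % 4 = 3 ∨ D % 4 = 2 := by omega
  rcases h4 with h4 | h4 | h4
  · exact fin hA hS J1 hT D d1 d3 h4 hD8 h1 h3 h
  · exact fin hA hS J3 hT D d1 d3 h4 hD8 h1 h3 h
  · exact fin hA hS J2 hT D d1 d3 h4 hD8 h1 h3 h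

end Pool.Agent.NH3.XT
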