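import Pool.Agent.NH3.XT.Stm

/-!
# XT-3: the odd primes which divide `D` (helper58)
-/

set_option autoImplicit false
set_option linter.unusedVariables false

open scoped Classical

namespace Pool.Agent.NH3.XT.LA

variable {p : ℕ} [hp : Fact p.Prime]

/-- `1 + r` is a square if `r` is small and `p` is odd -/
lemma isSquare_one_add (hp2 : p ≠ 2) (r : ℚ_[p]) (hr : ‖r‖ < 1) : IsSquare (1 + r) := by
  let r' : ℤ_[p] := ⟨r, hr.le⟩
  let F : Polynomial ℤ_[p] := Polynomial.X ^ 2 - Polynomial.C (1 + r')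
  have hr' : ‖r'‖ < 1 := hr
  have h1 : F.aeval (1 : ℤ_[p]) = -r' := by
    simp [F]
  have h2 : F.derivative.aeval (1 : ℤ_[p]) = 2 := by
    simp [F, one_add_one_eq_two]
  have h3 : ‖(2 : ℤ_[p])‖ = 1 := by
    have h4 : ¬ (p : ℤ) ∣ 2 := by
      intro h
      have h5 : p ∣ 2 := by exact_mod_cast h
      exact hp2 ((Nat.prime_dvd_prime_iff_eq hp.out Nat.prime_two).1 h5)
    have h5 : ¬ ‖((2 : ℤ) : ℚ_[p])‖ < 1 := by
      rw [Padic.norm_intCast_lt_one_iff]
      exact h4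
    have h6 : ‖(2 : ℤ_[p])‖ = ‖((2 : ℤ) : ℚ_[p])‖ := by
      rw [PadicInt.norm_def]
      norm_cast
    have h7 := PadicInt.norm_le_one (2 : ℤ_[p])
    rw [h6] at h7 ⊢
    exact le_antisymm h7 (not_lt.1 h5)
  obtain ⟨z, hz, -⟩ := hensels_lemma (p := p) (R := ℤ_[p]) (F := F) (a := 1) (by
    rw [h1, h2, h3, norm_neg]
    simpa using hr')
  have h8 : z ^ 2 = 1 + r' := by
    have : F.aeval z = z ^ 2 - (1 + r') := by simp [F]
    rw [this] at hz
    exact sub_eq_zero.1 hz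
  refine ⟨(z : ℚ_[p]), ?_⟩
  have h9 := congrArg (fun w : ℤ_[p] => (w : ℚ_[p])) h8
  simp only [PadicInt.coe_pow, PadicInt.coe_add, PadicInt.coe_one] at h9
  rw [← pow_two, h9]

lemma sq1 (hp2 : p ≠ 2) {r : ℚ_[p]} (hr : ‖r‖ < 1) : ∃ s : ℚ_[p], s ≠ 0 ∧ 1 + r = s ^ 2 := by
  obtain ⟨s, hs⟩ := isSquare_one_add hp2 r hr
  refine ⟨s, ?_, by rw [hs]; ring⟩
  rintro rfl
  have h1 : r = -1 := by linear_combination hs
  rw [h1, norm_neg, norm_one] at hr
  exact lt_irrefl _ hr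

lemma mulsq {F : Type} [Field F] {t d e : F} (ht : t ≠ 0) (h1 : IsSquare (t * d))
    (h2 : IsSquare (t * e)) : IsSquare (d * e) := by
  obtain ⟨u, hu⟩ := h1
  obtain ⟨v, hv⟩ := h2
  refine ⟨u * v / t, ?_⟩
  have h : (t * d) * (t * e) = (u * u) * (v * v) := by rw [hu, hv]
  field_simp
  linear_combination h

lemma norm_unit {k : ℤ} (h : ¬ (p : ℤ) ∣ k) : ‖(k : ℚ_[p])‖ = 1 := by
  have h1 : ¬ ‖(k : ℚ_[p])‖ < 1 := by
    rw [Padic.norm_intCast_lt_one_iff]
    exact h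
  exact le_antisymm (Padic.norm_int_le_one k) (not_lt.1 h1)

lemma ne_of_unit {k : ℤ} (h : ¬ (p : ℤ) ∣ k) : (k : ℚ_[p]) ≠ 0 := by
  rw [← norm_pos_iff, norm_unit h]
  exact one_pos

/-- the classes of `x` and `z` -/
lemma core (hp2 : p ≠ 2) {a b c D : ℤ} (h : a ^ 2 + c ^ 2 = b ^ 2) (ha : ¬ (p : ℤ) ∣ a)
    (hb : ¬ (p : ℤ) ∣ b) (hc : ¬ (p : ℤ) ∣ c) (hD : (p : ℤ) ∣ D) (hD2 : ¬ (p : ℤ) ^ 2 ∣ D)
    {x y : ℚ_[p]} (hy : y ≠ 0)
    (hxy : y ^ 2 = x * (x - ((b ^ 2 * D : ℤ) : ℚ_[p])) * (x - ((a ^ 2 * D : ℤ) : ℚ_[p]))) :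
    (IsSquare x ∨ IsSquare (x * (D : ℚ_[p]))) ∧
      (IsSquare (x - ((b ^ 2 * D : ℤ) : ℚ_[p])) ∨
        IsSquare ((x - ((b ^ 2 * D : ℤ) : ℚ_[p])) * (-(D : ℚ_[p])))) := by
  push_cast at hxy ⊢
  have hab : (a : ℚ_[p]) ^ 2 + (c : ℚ_[p]) ^ 2 = (b : ℚ_[p]) ^ 2 := by exact_mod_cast h
  have na := norm_unit ha
  have nb := norm_unit hb
  have nc := norm_unit hc
  have a0 := ne_of_unit (p := p) ha
  have b0 := ne_of_unit (p := p) hb
  have c0 := ne_of_unit (p := p) hc
  set A : ℚ_[p] := (a : ℚ_[p]) with hA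
  set B : ℚ_[p] := (b : ℚ_[p]) with hB
  set C : ℚ_[p] := (c : ℚ_[p]) with hC
  have hy2 : y ^ 2 ≠ 0 := pow_ne_zero 2 hy
  rw [hxy] at hy2
  have hx : x ≠ 0 := left_ne_zero_of_mul (left_ne_zero_of_mul hy2)
  have hz : x - B ^ 2 * D ≠ 0 := right_ne_zero_of_mul (left_ne_zero_of_mul hy2)
  have hw : x - A ^ 2 * D ≠ 0 := right_ne_zero_of_mul hy2
  -- the norm of `D`
  have nD : ‖(D : ℚ_[p])‖ = (p : ℝ)⁻¹ := by
    obtain ⟨D', rfl⟩ := hD
    have h1 : ¬ (p : ℤ) ∣ D' := fun h1 => hD2 (by rw [pow_two]; exact mul_dvd_mul_left _ h1)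
    push_cast
    rw [norm_mul, norm_unit h1, mul_one]
    exact Padic.norm_p
  have p1 : (1 : ℝ) < p := by exact_mod_cast hp.out.one_lt
  have D0 : (D : ℚ_[p]) ≠ 0 := by
    rw [← norm_pos_iff, nD]
    positivity
  rcases lt_or_ge ‖(D : ℚ_[p])‖ ‖x‖ with hlt | hge
  · -- `x` is large
    have hr : ∀ {E : ℚ_[p]}, ‖E‖ = 1 → ‖-(E ^ 2 * D / x)‖ < 1 := by
      intro E hE
      rw [norm_neg, norm_div, norm_mul, norm_pow, hE, one_pow, one_mul, div_lt_one (norm_pos_iff.2 hx)]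
      exact hlt
    obtain ⟨s, hs0, hs⟩ := sq1 hp2 (hr nb)
    obtain ⟨t, ht0, ht⟩ := sq1 hp2 (hr na)
    have e1 : x - B ^ 2 * D = x * s ^ 2 := by
      rw [← hs]
      field_simp
      ring
    have e2 : x - A ^ 2 * D = x * t ^ 2 := by
      rw [← ht]
      field_simp
      ring
    have hsx : IsSquare x := by
      refine ⟨y / (x * s * t), ?_⟩
      rw [e1, e2] at hxy
      field_simp
      linear_combination -hxy
    refine ⟨Or.inl hsx, Or.inl ?_⟩
    obtain ⟨u, hu⟩ := hsx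
    exact ⟨u * s, by rw [e1, hu]; ring⟩
  · -- `x = D X`
    obtain ⟨X, hX⟩ : ∃ X, x = D * X := ⟨x / D, by field_simp⟩
    have nX : ‖X‖ ≤ 1 := by
      rw [hX, norm_mul] at hge
      have : 0 < ‖(D : ℚ_[p])‖ := norm_pos_iff.2 D0
      by_contra hcon
      push Not at hcon
      nlinarith
    rcases lt_or_eq_of_le nX with h1 | h1
    · -- `X` is small
      have hr : ∀ {E : ℚ_[p]}, ‖E‖ = 1 → ‖-(X / E ^ 2)‖ < 1 := by
        intro E hE
        rw [norm_neg, norm_div, norm_pow, hE, one_pow, div_one]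
        exact h1
      obtain ⟨s, hs0, hs⟩ := sq1 hp2 (hr nb)
      obtain ⟨t, ht0, ht⟩ := sq1 hp2 (hr na)
      have e1 : x - B ^ 2 * D = -(D * B ^ 2 * s ^ 2) := by
        rw [← hs, hX]
        field_simp
        ring
      have e2 : x - A ^ 2 * D = -(D * A ^ 2 * t ^ 2) := by
        rw [← ht, hX]
        field_simp
        ring
      refine ⟨Or.inl ⟨y / (D * A * B * s * t), ?_⟩, Or.inr ⟨D * B * s, ?_⟩⟩
      · rw [e1, e2] at hxy
        field_simp
        linear_combination -hxy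
      · rw [e1]
        ring
    · have nE : ∀ {E : ℚ_[p]}, ‖E‖ = 1 → ‖X - E ^ 2‖ ≤ 1 := by
        intro E hE
        have := Padic.nonarchimedean X (-(E ^ 2))
        rw [← sub_eq_add_neg, norm_neg, norm_pow, hE, one_pow, h1, max_self] at this
        exact this
      rcases lt_or_eq_of_le (nE nb) with h2 | h2
      · -- `X` is near `B ^ 2`
        have hr : ∀ {E : ℚ_[p]}, ‖E‖ = 1 → ‖(X - B ^ 2) / E ^ 2‖ < 1 := by
          intro E hE
          rw [norm_div, norm_pow, hE, one_pow, div_one]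
          exact h2
        obtain ⟨s, hs0, hs⟩ := sq1 hp2 (hr nb)
        obtain ⟨t, ht0, ht⟩ := sq1 hp2 (hr nc)
        have e1 : x = D * B ^ 2 * s ^ 2 := by
          rw [← hs, hX]
          field_simp
          ring
        have e2 : x - A ^ 2 * D = D * C ^ 2 * t ^ 2 := by
          rw [← ht, hX]
          field_simp
          linear_combination (-1 : ℚ_[p]) * hab
        refine ⟨Or.inr ⟨D * B * s, by rw [e1]; ring⟩, Or.inl ⟨y / (D * B * C * s * t), ?_⟩⟩
        have e3 : y ^ 2 = (D * B ^ 2 * s ^ 2) * (x - B ^ 2 * D) * (D * C ^ 2 * t ^ 2) := by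
          rw [hxy, e2, ← e1]
        field_simp
        linear_combination -e3
      · rcases lt_or_eq_of_le (nE na) with h3 | h3
        · -- `X` is near `A ^ 2`
          have hr : ∀ {E : ℚ_[p]}, ‖E‖ = 1 → ‖(X - A ^ 2) / E ^ 2‖ < 1 := by
            intro E hE
            rw [norm_div, norm_pow, hE, one_pow, div_one]
            exact h3
          obtain ⟨s, hs0, hs⟩ := sq1 hp2 (hr na)
          obtain ⟨t, ht0, ht⟩ := sq1 hp2 (r := -((X - A ^ 2) / C ^ 2)) (by
            rw [norm_neg]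
            exact hr nc)
          have e1 : x = D * A ^ 2 * s ^ 2 := by
            rw [← hs, hX]
            field_simp
            ring
          have e2 : x - B ^ 2 * D = -(D * C ^ 2 * t ^ 2) := by
            rw [← ht, hX]
            field_simp
            linear_combination hab
          exact ⟨Or.inr ⟨D * A * s, by rw [e1]; ring⟩, Or.inr ⟨D * C * t, by rw [e2]; ring⟩⟩
        · -- the parity of the valuation
          exfalso
          have e1 : y ^ 2 = (D : ℚ_[p]) ^ 3 * (X * (X - B ^ 2) * (X - A ^ 2)) := by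
            rw [hxy, hX]
            ring
          have e2 := congrArg norm e1
          rw [norm_mul, norm_mul, norm_mul, h1, h2, h3, norm_pow, norm_pow, nD,
            Padic.norm_eq_zpow_neg_valuation hy] at e2
          have e3 : ((p : ℝ) ^ (-y.valuation)) ^ 2 = (p : ℝ) ^ (-y.valuation * 2) := by
            rw [zpow_mul]
            norm_cast
          have e4 : ((p : ℝ)⁻¹) ^ 3 * (1 * 1 * 1) = (p : ℝ) ^ (-3 : ℤ) := by
            rw [zpow_neg, inv_pow]
            norm_num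
          rw [e3, e4] at e2
          have := zpow_right_injective₀ (by positivity) (by exact_mod_cast hp.out.one_lt.ne') e2
          omega

end Pool.Agent.NH3.XT.LA

namespace Pool.Agent.NH3.XT

open LA

theorem t_LA : S_LA := by
  intro p hp a b c D d1 d3 hp2 h ha hb hc hD hD2 h1 h3 hL
  obtain ⟨x, y, hy, hxy, s1, s3⟩ := hL
  have hy2 : y ^ 2 ≠ 0 := pow_ne_zero 2 hy
  rw [hxy] at hy2
  have hx : x ≠ 0 := left_ne_zero_of_mul (left_ne_zero_of_mul hy2)
  have hz := right_ne_zero_of_mul (left_ne_zero_of_mul hy2)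
  obtain ⟨c1, c3⟩ := core hp2 h ha hb hc hD hD2 hy hxy
  constructor
  · rcases c1 with c1 | c1
    · left
      have := mulsq hx s1 (e := 1) (by rwa [mul_one])
      rwa [mul_one] at this
    · right
      push_cast
      exact mulsq hx s1 c1
  · rcases c3 with c3 | c3
    · left
      have := mulsq hz s3 (e := 1) (by rwa [mul_one])
      rwa [mul_one] at this
    · right
      have := mulsq hz s3 c3
      push_cast
      rwa [mul_neg] at this

end Pool.Agent.NH3.XT
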