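import Pool.Agent.NH3.XT.Stm
import Pool.Agent.Y105.RZ.Goods
import Pool.Agent.W405.SE.GoodP
import Pool.Agent.W407.SE.Ratp

/-!
# Project XT: the primes of good reduction (helper51)
-/

set_option autoImplicit false
set_option linter.unusedVariables false

namespace Pool.Agent.NH3.XT

namespace LG

lemma bad {p : ℕ} [hp : Fact p.Prime] {a b c D : ℤ} (h2 : p ≠ 2) (habc : a ^ 2 + c ^ 2 = b ^ 2)
    (ha : ¬ (p : ℤ) ∣ a) (hb : ¬ (p : ℤ) ∣ b) (hc : ¬ (p : ℤ) ∣ c) (hD : ¬ (p : ℤ) ∣ D) :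
    ¬ (p : ℤ) ∣ 2 * (b ^ 2 * D) * (a ^ 2 * D) * (b ^ 2 * D - a ^ 2 * D) := by
  intro h
  have hpp : Prime (p : ℤ) := Nat.prime_iff_prime_int.1 hp.out
  have e : 2 * (b ^ 2 * D) * (a ^ 2 * D) * (b ^ 2 * D - a ^ 2 * D) =
      2 * (b ^ 2 * (a ^ 2 * (c ^ 2 * D ^ 3))) := by
    rw [← habc]
    ring
  rw [e] at h
  rcases hpp.dvd_or_dvd h with h | h
  · have h3 : p ∣ 2 := by exact_mod_cast h
    exact h2 ((Nat.prime_dvd_prime_iff_eq hp.out Nat.prime_two).1 h3)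
  rcases hpp.dvd_or_dvd h with h | h
  · exact hb (hpp.dvd_of_dvd_pow h)
  rcases hpp.dvd_or_dvd h with h | h
  · exact ha (hpp.dvd_of_dvd_pow h)
  rcases hpp.dvd_or_dvd h with h | h
  · exact hc (hpp.dvd_of_dvd_pow h)
  · exact hD (hpp.dvd_of_dvd_pow h)

lemma loc_iff (K : Type) [Field K] (A B d1 d2 : ℤ) :
    Loc K A B d1 d2 ↔ Pool.Agent.W307.SE.Loc K A B d1 d2 := Iff.rfl

end LG

/-- LG -/
theorem t_LG : S_LG := by
  intro p _ a b c D d1 d3 h2 habc ha hb hc hD hd1 hd3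
  have hbad := LG.bad h2 habc ha hb hc hD
  rw [LG.loc_iff]
  constructor
  · intro h
    exact Pool.Agent.W405.SE.goodp_of Pool.Agent.W407.SE.ratp p _ _ d1 d3 hbad hd1 hd3 h
  · rintro ⟨h1, h4⟩
    exact Pool.Agent.Y105.RZ.GOODS p _ _ d1 d3 hbad h1 h4

end Pool.Agent.NH3.XT
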