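import Pool.Agent.NH3.XT.Stm

/-! Project XT, job XT-4: the primes which divide `a`. -/

set_option autoImplicit false

namespace Pool.Agent.NH3.XT.LP1P

variable {p : ℕ} [hp : Fact p.Prime]

lemma isSquare_one_add (hp2 : p ≠ 2) (r : ℚ_[p]) (hr : ‖r‖ < 1) : IsSquare (1 + r) := by
  let r' : ℤ_[p] := ⟨r, hr.le⟩
  let F : Polynomial ℤ_[p] := Polynomial.X ^ 2 - Polynomial.C (1 + r')
  have hr' : ‖r'‖ < 1 := hr
  have h1 : F.aeval (1 : ℤ_[p]) = -r' := by
    simp [F]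
  have h2 : F.derivative.aeval (1 : ℤ_[p]) = 2 := by
    simp [F, one_add_one_eq_two]
  have h3 : ‖(2 : ℤ_[p])‖ = 1 := by
    have h4 : ¬ (p : ℤ) ∣ 2 := by
      intro h
      have h5 : p ∣ 2 := by exact_mod_cast h
      exact hp2 ((Nat.prime_dvd_prime_iff_eq hp.out Nat.prime_two).1 h5)
    have h5 := (PadicInt.norm_int_lt_one_iff_dvd (p := p) 2).not.2 h4
    have h6 := PadicInt.norm_le_one ((2 : ℤ) : ℤ_[p])
    push_cast at h5 h6
    exact le_antisymm h6 (not_lt.1 h5)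
  have h7 : ‖F.aeval (1 : ℤ_[p])‖ < ‖F.derivative.aeval (1 : ℤ_[p])‖ ^ 2 := by
    rw [h1, h2, h3, norm_neg]
    simpa using hr'
  obtain ⟨z, hz, -⟩ := hensels_lemma h7
  have h8 : z ^ 2 = 1 + r' := by
    have : F.aeval z = z ^ 2 - (1 + r') := by simp [F]
    rw [this] at hz
    linear_combination hz
  refine ⟨(z : ℚ_[p]), ?_⟩
  have h9 : ((z ^ 2 : ℤ_[p]) : ℚ_[p]) = ((1 + r' : ℤ_[p]) : ℚ_[p]) := by rw [h8]
  have h10 : ((1 + r' : ℤ_[p]) : ℚ_[p]) = 1 + r := by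
    push_cast
    rfl
  rw [h10] at h9
  rw [← h9]
  push_cast
  ring

lemma n3 {z : ℤ} (h : (p : ℤ) ∣ z) : ‖(z : ℚ_[p])‖ < 1 := by
  rw [Padic.norm_intCast_lt_one_iff]
  exact h

lemma n1 {z : ℤ} (h : ¬ (p : ℤ) ∣ z) : ‖(z : ℚ_[p])‖ = 1 := by
  apply le_antisymm (Padic.norm_int_le_one z)
  rw [← not_lt, Padic.norm_intCast_lt_one_iff]
  exact h

lemma dvd_iff (z : ℤ) : (p : ℤ) ∣ z ↔ (z : ZMod p) = 0 := by
  rw [ZMod.intCast_zmod_eq_zero_iff_dvd]

lemma lmod {N M : ℤ} (h : (p : ℤ) ∣ M - N) : legendreSym p N = legendreSym p M := by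
  rw [legendreSym.mod p N, legendreSym.mod p M]
  congr 1
  exact (Int.modEq_iff_dvd).2 h

/-- a residue is a square in `ℚ_p` -/
lemma sqj (hp2 : p ≠ 2) {N : ℤ} (h : legendreSym p N = 1) : IsSquare (N : ℚ_[p]) := by
  have hN0 : (N : ZMod p) ≠ 0 := by
    intro h0
    rw [(legendreSym.eq_zero_iff p N).2 h0] at h
    norm_num at h
  obtain ⟨r, hr⟩ := (legendreSym.eq_one_iff p hN0).1 h
  obtain ⟨r', rfl⟩ := ZMod.intCast_surjective r
  have hd : (p : ℤ) ∣ N - r' * r' := by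
    rw [dvd_iff]
    push_cast
    rw [hr, sub_self]
  have hr0 : ¬ (p : ℤ) ∣ r' := by
    rw [dvd_iff]
    intro h0
    apply hN0
    rw [hr, h0, mul_zero]
  have hn := n1 hr0
  have hr00 : (r' : ℚ_[p]) ≠ 0 := norm_ne_zero_iff.1 (by rw [hn]; norm_num)
  obtain ⟨s, hs⟩ := isSquare_one_add hp2 (((N - r' * r' : ℤ) : ℚ_[p]) / (r' * r')) (by
    rw [norm_div, norm_mul, hn]
    simpa using n3 hd)
  refine ⟨r' * s, ?_⟩
  have h1 : ((r' : ℚ_[p]) * s) * (r' * s) = r' * r' * (s * s) := by ring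
  rw [h1, ← hs]
  push_cast
  field_simp
  ring

/-- a nonresidue is not a square in `ℚ_p` -/
lemma nsq {N : ℤ} (h : legendreSym p N = -1) (s : ℚ_[p]) (hs : s * s = (N : ℚ_[p])) : False := by
  have hN : ¬ (p : ℤ) ∣ N := by
    rw [dvd_iff]
    intro h0
    rw [(legendreSym.eq_zero_iff p N).2 h0] at h
    norm_num at h
  have h2 : ‖s‖ = 1 := by
    have := congrArg norm hs
    rw [norm_mul, n1 hN] at this
    nlinarith [norm_nonneg s]
  let u : ℤ_[p] := ⟨s, h2.le⟩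
  have h3 : u * u = (N : ℤ_[p]) := by
    apply Subtype.ext
    push_cast
    exact hs
  have h4 := congrArg (PadicInt.toZMod (p := p)) h3
  rw [map_mul, map_intCast] at h4
  exact (legendreSym.eq_neg_one_iff p).1 h ⟨_, h4.symm⟩

lemma ev {x u w : ℚ_[p]} (hx : x ≠ 0) (hu : ‖u‖ = 1) (h : x = u * (w * w)) :
    Even x.valuation := by
  have hw : w ≠ 0 := by
    rintro rfl
    apply hx
    rw [h]; ring
  have hu0 : u ≠ 0 := norm_ne_zero_iff.1 (by rw [hu]; norm_num)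
  have h1 := Padic.norm_eq_zpow_neg_valuation hu0
  have hp1 : (1 : ℝ) < p := by exact_mod_cast hp.out.one_lt
  rw [hu, eq_comm, zpow_eq_one_iff_right₀ (by linarith) (by linarith)] at h1
  rw [h, Padic.valuation_mul hu0 (mul_ne_zero hw hw), Padic.valuation_mul hw hw]
  exact ⟨w.valuation, by omega⟩

lemma nd {a : ℚ_[p]} {d : ℤ} (ha : a ≠ 0) (hd : Squarefree d) (h : Even a.valuation)
    (hs : IsSquare (a * d)) : ¬ (p : ℤ) ∣ d := by
  intro h3
  have hpp : Prime (p : ℤ) := Nat.prime_iff_prime_int.1 hp.out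
  have hd0 : d ≠ 0 := hd.ne_zero
  have hdq : (d : ℚ_[p]) ≠ 0 := by exact_mod_cast hd0
  obtain ⟨w, hw⟩ := hs
  have h1 := ev (mul_ne_zero ha hdq) (u := 1) norm_one (by rw [one_mul]; exact hw)
  rw [Padic.valuation_mul ha hdq, Padic.valuation_intCast] at h1
  have h2 : padicValInt p d = 1 := by
    obtain ⟨e, rfl⟩ := h3
    have he : ¬ (p : ℤ) ∣ e := by
      rintro ⟨f, rfl⟩
      exact hpp.not_isUnit (hd p ⟨f, by ring⟩)
    have he0 : e ≠ 0 := by
      rintro rfl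
      simp at he
    have t1 : padicValInt p e = 0 := padicValInt.eq_zero_of_not_dvd he
    have t2 : padicValInt p p = 1 := padicValInt.self hp.out.one_lt
    rw [padicValInt.mul hpp.ne_zero he0, t1, t2]
  rw [h2] at h1
  have h3 := (Int.even_add.1 h1).1 h
  revert h3
  decide

/-- `a - b = a (1 - b / a)` is `a` times a square -/
lemma near (hp2 : p ≠ 2) {a b : ℚ_[p]} (ha : a ≠ 0) (h : ‖b‖ < ‖a‖) :
    ∃ s : ℚ_[p], a - b = a * (s * s) := by
  have h1 : ‖-(b / a)‖ < 1 := by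
    rw [norm_neg, norm_div, div_lt_one (norm_pos_iff.2 ha)]
    exact h
  obtain ⟨s, hs⟩ := isSquare_one_add hp2 _ h1
  refine ⟨s, ?_⟩
  rw [← hs]
  field_simp
  ring

lemma nec (hp2 : p ≠ 2) {a b D : ℤ} (ha0 : a ≠ 0) (ha : (p : ℤ) ∣ a) (hb : ¬ (p : ℤ) ∣ b)
    (hD : legendreSym p (-D) = -1) {x y : ℚ_[p]} (hy : y ≠ 0)
    (h : y ^ 2 = x * (x - (b ^ 2 * D : ℤ)) * (x - (a ^ 2 * D : ℤ))) :
    Even x.valuation ∧ Even (x - (b ^ 2 * D : ℤ)).valuation := by
  have hpp : Prime (p : ℤ) := Nat.prime_iff_prime_int.1 hp.out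
  have hx : x ≠ 0 := by
    rintro rfl
    apply hy
    simpa using h
  have hz : x - (b ^ 2 * D : ℤ) ≠ 0 := by
    intro h'
    apply hy
    rw [h'] at h
    simpa using h
  have hw : x - (a ^ 2 * D : ℤ) ≠ 0 := by
    intro h'
    apply hy
    rw [h'] at h
    simpa using h
  have hDp : ¬ (p : ℤ) ∣ D := by
    intro h0
    have h1 : (((-D : ℤ)) : ZMod p) = 0 := (dvd_iff _).1 ((dvd_neg).2 h0)
    rw [(legendreSym.eq_zero_iff p (-D)).2 h1] at hD
    norm_num at hD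
  have nD : ‖((D : ℤ) : ℚ_[p])‖ = 1 := n1 hDp
  have nD' : ‖(-(D : ℤ) : ℚ_[p])‖ = 1 := by rw [norm_neg]; exact nD
  have nb : ‖((b ^ 2 * D : ℤ) : ℚ_[p])‖ = 1 :=
    n1 (fun h0 => (hpp.dvd_or_dvd h0).elim (fun h1 => hb (hpp.dvd_of_dvd_pow h1)) hDp)
  have na : ‖((a ^ 2 * D : ℤ) : ℚ_[p])‖ < 1 := n3 (dvd_mul_of_dvd_left (dvd_pow ha two_ne_zero) _)
  have hD0 : (D : ℚ_[p]) ≠ 0 := norm_ne_zero_iff.1 (by rw [nD]; norm_num)
  have hb0 : (b : ℚ_[p]) ≠ 0 := by
    intro h0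
    have h1 := n1 hb
    rw [h0, norm_zero] at h1
    norm_num at h1
  have ha0' : (a : ℚ_[p]) ≠ 0 := by exact_mod_cast ha0
  have hA0 : ((a ^ 2 * D : ℤ) : ℚ_[p]) ≠ 0 := by
    push_cast
    exact mul_ne_zero (pow_ne_zero _ ha0') hD0
  have hB0 : ((b ^ 2 * D : ℤ) : ℚ_[p]) ≠ 0 := by
    push_cast
    exact mul_ne_zero (pow_ne_zero _ hb0) hD0
  rcases lt_trichotomy ‖x‖ 1 with hv | hv | hv
  · -- `|x| < 1`
    obtain ⟨s, hs⟩ := near hp2 (b := x) hB0 (by rw [nb]; exact hv)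
    have hz' : x - (b ^ 2 * D : ℤ) = -(D : ℚ_[p]) * ((b * s) * (b * s)) := by
      have h1 : x - ((b ^ 2 * D : ℤ) : ℚ_[p]) = -(((b ^ 2 * D : ℤ) : ℚ_[p]) - x) := by ring
      rw [h1, hs]
      push_cast
      ring
    have hs0 : s ≠ 0 := by
      rintro rfl
      apply hz
      rw [hz']; ring
    refine ⟨?_, ev hz nD' hz'⟩
    rcases lt_trichotomy ‖x‖ ‖((a ^ 2 * D : ℤ) : ℚ_[p])‖ with hx1 | hx1 | hx1
    · obtain ⟨t, ht⟩ := near hp2 (b := x) hA0 hx1
      have hw' : x - (a ^ 2 * D : ℤ) = -(D : ℚ_[p]) * ((a * t) * (a * t)) := by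
        have h1 : x - ((a ^ 2 * D : ℤ) : ℚ_[p]) = -(((a ^ 2 * D : ℤ) : ℚ_[p]) - x) := by ring
        rw [h1, ht]
        push_cast
        ring
      have ht0 : t ≠ 0 := by
        rintro rfl
        apply hw
        rw [hw']; ring
      refine ev (u := 1) (w := y / (D * (b * s) * (a * t))) hx norm_one ?_
      rw [hz', hw'] at h
      rw [one_mul]
      field_simp
      linear_combination -h
    · have h1 : Even ((a ^ 2 * D : ℤ) : ℚ_[p]).valuation :=
        ev (u := (D : ℚ_[p])) (w := (a : ℚ_[p])) hA0 nD (by push_cast; ring)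
      have h2 : x.valuation = ((a ^ 2 * D : ℤ) : ℚ_[p]).valuation := by
        have h3 := Padic.norm_eq_zpow_neg_valuation hx
        have h4 := Padic.norm_eq_zpow_neg_valuation hA0
        rw [hx1, h4] at h3
        have hp1 : (1 : ℝ) < p := by exact_mod_cast hp.out.one_lt
        have h5 := zpow_right_injective₀ (by linarith : (0 : ℝ) < p) (by linarith : (p : ℝ) ≠ 1) h3
        have h6 : -((a ^ 2 * D : ℤ) : ℚ_[p]).valuation = -x.valuation := h5
        omega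
      rw [h2]
      exact h1
    · exfalso
      obtain ⟨t, ht⟩ := near hp2 (b := ((a ^ 2 * D : ℤ) : ℚ_[p])) hx hx1
      have ht0 : t ≠ 0 := by
        rintro rfl
        apply hw
        rw [ht]; ring
      refine nsq hD (y / (x * t * (b * s))) ?_
      rw [hz', ht] at h
      push_cast
      field_simp
      linear_combination h
  · -- `|x| = 1`
    obtain ⟨t, ht⟩ := near hp2 (b := ((a ^ 2 * D : ℤ) : ℚ_[p])) hx (by rw [hv]; exact na)
    have ht0 : t ≠ 0 := by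
      rintro rfl
      apply hw
      rw [ht]; ring
    refine ⟨ev (u := x) (w := 1) hx hv (by ring),
      ev (u := 1) (w := y / (x * t)) hz norm_one ?_⟩
    rw [ht] at h
    rw [one_mul]
    field_simp
    linear_combination -h
  · -- `|x| > 1`
    obtain ⟨s, hs⟩ := near hp2 (b := ((b ^ 2 * D : ℤ) : ℚ_[p])) hx (by rw [nb]; exact hv)
    obtain ⟨t, ht⟩ := near hp2 (b := ((a ^ 2 * D : ℤ) : ℚ_[p])) hx (na.trans hv)
    have hs0 : s ≠ 0 := by
      rintro rfl
      apply hz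
      rw [hs]; ring
    have ht0 : t ≠ 0 := by
      rintro rfl
      apply hw
      rw [ht]; ring
    have h2 : x = (y / (x * s * t)) * (y / (x * s * t)) := by
      rw [hs, ht] at h
      field_simp
      linear_combination -h
    refine ⟨ev (u := 1) hx norm_one (by rw [one_mul]; exact h2),
      ev (u := 1) (w := y / (x * s * t) * s) hz norm_one ?_⟩
    rw [hs, one_mul]
    conv_lhs => rw [h2]
    ring

lemma mk (hp2 : p ≠ 2) {A B d1 d2 : ℤ} (X : ℤ) {k1 k3 M1 M3 : ℤ}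
    (e1 : X * d1 = k1 ^ 2 * M1) (e3 : X * (X - A) * (X - B) = k3 ^ 2 * M3) (hk : k3 ≠ 0)
    (j1 : legendreSym p M1 = 1) (j2 : legendreSym p ((X - A) * d2) = 1)
    (j3 : legendreSym p M3 = 1) : Loc ℚ_[p] A B d1 d2 := by
  have h3 : M3 ≠ 0 := by
    rintro rfl
    rw [(legendreSym.eq_zero_iff p 0).2 (by simp)] at j3
    norm_num at j3
  obtain ⟨r1, hr1⟩ := sqj hp2 j1
  obtain ⟨r2, hr2⟩ := sqj hp2 j2
  obtain ⟨r3, hr3⟩ := sqj hp2 j3
  have h3' : (M3 : ℚ_[p]) ≠ 0 := by exact_mod_cast h3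
  have hk' : (k3 : ℚ_[p]) ≠ 0 := by exact_mod_cast hk
  have e1' : (X : ℚ_[p]) * d1 = k1 ^ 2 * M1 := by exact_mod_cast e1
  have e3' : (X : ℚ_[p]) * (X - A) * (X - B) = k3 ^ 2 * M3 := by exact_mod_cast e3
  push_cast at hr2
  refine ⟨X, k3 * r3, ?_, ?_, ⟨k1 * r1, ?_⟩, ⟨r2, hr2⟩⟩
  · refine mul_ne_zero hk' ?_
    rintro rfl
    apply h3'
    rw [hr3, mul_zero]
  · rw [e3', hr3]
    ring
  · rw [e1', hr1]
    ring

/-- the least nonresidue -/
lemma least (hp2 : p ≠ 2) : ∃ n : ℤ, legendreSym p n = -1 ∧ legendreSym p (n - 1) = 1 := by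
  have hex : ∃ n : ℕ, legendreSym p (n + 1 : ℤ) = -1 := by
    have h2 : ringChar (ZMod p) ≠ 2 := by
      rw [ZMod.ringChar_zmod_n]
      exact hp2
    obtain ⟨a, ha⟩ := FiniteField.exists_nonsquare h2
    have ha0 : a ≠ 0 := by
      rintro rfl
      exact ha ⟨0, by ring⟩
    have hv : 0 < a.val := Nat.pos_of_ne_zero fun h => ha0 ((ZMod.val_eq_zero a).1 h)
    refine ⟨a.val - 1, ?_⟩
    have h3 : (((a.val - 1 : ℕ) : ℤ) + 1) = (a.val : ℤ) := by omega
    rw [h3, legendreSym.eq_neg_one_iff]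
    simpa using ha
  obtain ⟨n, hn, hmin⟩ : ∃ n : ℕ, legendreSym p (n + 1 : ℤ) = -1 ∧
      ∀ k < n, ¬ legendreSym p (k + 1 : ℤ) = -1 := by
    classical
    exact ⟨Nat.find hex, Nat.find_spec hex, fun k hk => Nat.find_min hex hk⟩
  refine ⟨n + 1, hn, ?_⟩
  have hn0 : n ≠ 0 := by
    rintro rfl
    simp at hn
  obtain ⟨k, rfl⟩ := Nat.exists_eq_succ_of_ne_zero hn0
  have h4 := hmin k (Nat.lt_succ_self k)
  have h5 : (((k + 1 : ℕ) : ℤ) + 1 - 1) = (k : ℤ) + 1 := by push_cast; ring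
  have hlt : (k + 1 : ℕ) < p := by
    by_contra hcon
    have hz : 0 < k + 1 - p + 1 := by omega
    -- the residue of `k + 2` modulo `p` is smaller
    have h6 : legendreSym p (((k + 1 - p : ℕ) : ℤ) + 1) = -1 := by
      rw [legendreSym.eq_neg_one_iff] at hn ⊢
      have h7 : ((((k + 1 - p : ℕ) : ℤ) + 1 : ℤ) : ZMod p) = ((((k + 1 : ℕ) : ℤ) + 1 : ℤ) : ZMod p) := by
        have h8 : ((k + 1 - p : ℕ) : ℤ) = ((k + 1 : ℕ) : ℤ) - p := by
          rw [Nat.cast_sub (by omega)]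
        rw [h8]
        push_cast
        simp
      rw [h7]
      exact hn
    exact hmin (k + 1 - p) (by have := hp.out.pos; omega) h6
  rw [h5]
  have h9 : (((k : ℤ) + 1 : ℤ) : ZMod p) ≠ 0 := by
    intro h0
    have h10 : (p : ℤ) ∣ (k : ℤ) + 1 := (dvd_iff _).2 h0
    have h11 := Int.le_of_dvd (by positivity) h10
    omega
  exact (legendreSym.eq_one_or_neg_one p h9).resolve_right h4

end Pool.Agent.NH3.XT.LP1P

namespace Pool.Agent.NH3.XT

theorem t_LP1 (hT : S_TOR) : S_LP1 := by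
  intro p hp a b c D d1 d3 hp2 ha0 habc hpa hpb hD q1 q3
  have hpp : Prime (p : ℤ) := Nat.prime_iff_prime_int.1 hp.out
  rw [← jacobiSym.legendreSym.to_jacobiSym] at hD
  have hDp : ¬ (p : ℤ) ∣ D := by
    intro h0
    have h1 : (((-D : ℤ)) : ZMod p) = 0 := (LP1P.dvd_iff _).1 ((dvd_neg).2 h0)
    rw [(legendreSym.eq_zero_iff p (-D)).2 h1] at hD
    norm_num at hD
  constructor
  · rintro ⟨x, y, hy, he, h1, h3⟩
    have h := LP1P.nec hp2 ha0 hpa hpb hD hy he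
    have hx : x ≠ 0 := by
      rintro rfl
      apply hy
      simpa using he
    have hb : x - (b ^ 2 * D : ℤ) ≠ 0 := by
      intro h'
      apply hy
      rw [h'] at he
      simpa using he
    exact ⟨LP1P.nd hx q1 h.1 h1, LP1P.nd hb q3 h.2 h3⟩
  · rintro ⟨h1, h3⟩
    have hD0 : D ≠ 0 := fun h => hDp (by rw [h]; exact dvd_zero _)
    have hb0 : b ≠ 0 := fun h => hpb (by rw [h]; exact dvd_zero _)
    have hc0 : c ≠ 0 := by
      rintro rfl
      apply hpb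
      have h4 : (p : ℤ) ∣ b ^ 2 := by
        rw [← habc]
        exact dvd_add (dvd_pow hpa two_ne_zero) (by norm_num)
      exact hpp.dvd_of_dvd_pow h4
    have u1 : ((d1 : ℤ) : ZMod p) ≠ 0 := fun h => h1 ((LP1P.dvd_iff _).2 h)
    have u3 : ((d3 : ℤ) : ZMod p) ≠ 0 := fun h => h3 ((LP1P.dvd_iff _).2 h)
    have uD : ((D : ℤ) : ZMod p) ≠ 0 := fun h => hDp ((LP1P.dvd_iff _).2 h)
    have ub : ((b : ℤ) : ZMod p) ≠ 0 := fun h => hpb ((LP1P.dvd_iff _).2 h)
    have lb : legendreSym p (b ^ 2) = 1 := legendreSym.sq_one' p ub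
    have hH3 : H3 p D d3 := by
      rcases legendreSym.eq_one_or_neg_one p u3 with h | h
      · exact Or.inl (LP1P.sqj hp2 h)
      · refine Or.inr (LP1P.sqj hp2 ?_)
        have e : -(d3 * D) = d3 * -D := by ring
        rw [e, legendreSym.mul, h, hD]
        norm_num
    rcases legendreSym.eq_one_or_neg_one p u1 with l1 | l1
    · exact hT p a b c D d1 d3 ha0 hb0 hc0 habc hD0 q1.ne_zero q3.ne_zero
        (Or.inl (LP1P.sqj hp2 l1)) hH3
    rcases legendreSym.eq_one_or_neg_one p uD with lD | lD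
    swap
    · refine hT p a b c D d1 d3 ha0 hb0 hc0 habc hD0 q1.ne_zero q3.ne_zero
        (Or.inr (LP1P.sqj hp2 ?_)) hH3
      rw [legendreSym.mul, l1, lD]
      norm_num
    obtain ⟨n, hn, hn1⟩ := LP1P.least (p := p) hp2
    rcases legendreSym.eq_one_or_neg_one p u3 with l3 | l3
    · -- `x = n b ^ 2 D`
      have hw : legendreSym p (n * b ^ 2 * D - a ^ 2 * D) = -1 := by
        have e : legendreSym p (n * b ^ 2 * D - a ^ 2 * D) = legendreSym p (n * b ^ 2 * D) := by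
          refine LP1P.lmod ?_
          have : n * b ^ 2 * D - (n * b ^ 2 * D - a ^ 2 * D) = a ^ 2 * D := by ring
          rw [this]
          exact dvd_mul_of_dvd_left (dvd_pow hpa two_ne_zero) _
        rw [e, legendreSym.mul, legendreSym.mul, hn, lb, lD]
        norm_num
      refine LP1P.mk hp2 (n * b ^ 2 * D) (k1 := b) (k3 := b ^ 2 * D) (M1 := n * (D * d1))
        (M3 := n * ((n - 1) * (n * b ^ 2 * D - a ^ 2 * D))) (by ring) (by ring)
        (mul_ne_zero (pow_ne_zero _ hb0) hD0) ?_ ?_ ?_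
      · rw [legendreSym.mul, legendreSym.mul, hn, lD, l1]
        norm_num
      · have e : (n * b ^ 2 * D - b ^ 2 * D) * d3 = b ^ 2 * ((n - 1) * (D * d3)) := by ring
        rw [e, legendreSym.mul, legendreSym.mul, legendreSym.mul, lb, hn1, lD, l3]
        norm_num
      · rw [legendreSym.mul, legendreSym.mul, hn, hn1, hw]
        norm_num
    · -- `x = n a ^ 2 D`
      have hz : legendreSym p (n * a ^ 2 * D - b ^ 2 * D) = -1 := by
        have e : legendreSym p (n * a ^ 2 * D - b ^ 2 * D) = legendreSym p (b ^ 2 * -D) := by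
          refine LP1P.lmod ?_
          have : b ^ 2 * -D - (n * a ^ 2 * D - b ^ 2 * D) = a ^ 2 * (-(n * D)) := by ring
          rw [this]
          exact dvd_mul_of_dvd_left (dvd_pow hpa two_ne_zero) _
        rw [e, legendreSym.mul, lb, hD]
        norm_num
      refine LP1P.mk hp2 (n * a ^ 2 * D) (k1 := a) (k3 := a ^ 2 * D) (M1 := n * (D * d1))
        (M3 := n * ((n - 1) * (n * a ^ 2 * D - b ^ 2 * D))) (by ring) (by ring)
        (mul_ne_zero (pow_ne_zero _ ha0) hD0) ?_ ?_ ?_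
      · rw [legendreSym.mul, legendreSym.mul, hn, lD, l1]
        norm_num
      · rw [legendreSym.mul, hz, l3]
        norm_num
      · rw [legendreSym.mul, legendreSym.mul, hn, hn1, hz]
        norm_num

end Pool.Agent.NH3.XT
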