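import Pool.Agent.NH3.XT.Stm

/-!
# Project XT: the odd primes which divide `b`
-/

set_option autoImplicit false

namespace Pool.Agent.NH3.XT

namespace LP2x

section gen

variable {p : ℕ} [hp : Fact p.Prime]

/-- `1 + r` is a square if `r` has positive valuation and `p` is odd. -/
lemma sq1 (hp2 : p ≠ 2) (r : ℚ_[p]) (hr : ‖r‖ < 1) : IsSquare (1 + r) := by
  let r' : ℤ_[p] := ⟨r, hr.le⟩
  let F : Polynomial ℤ_[p] := Polynomial.X ^ 2 - Polynomial.C (1 + r')
  have hr' : ‖r'‖ < 1 := hr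
  have h1 : F.aeval (1 : ℤ_[p]) = -r' := by
    simp [F]
  have h2 : F.derivative.aeval (1 : ℤ_[p]) = 2 := by
    simp [F, one_add_one_eq_two]
  have h3 : ‖(2 : ℤ_[p])‖ = 1 := by
    have h4 : ¬ (p : ℤ) ∣ 2 := by
      intro h
      have h5 : p ∣ 2 := by exact_mod_cast h
      exact hp2 ((Nat.prime_dvd_prime_iff_eq hp.out Nat.prime_two).1 h5)
    have h5 : ¬ ‖((2 : ℤ) : ℚ_[p])‖ < 1 := by
      rw [Padic.norm_intCast_lt_one_iff]
      exact h4
    have h6 : ‖(2 : ℤ_[p])‖ = ‖((2 : ℤ) : ℚ_[p])‖ := by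
      rw [PadicInt.norm_def]
      norm_cast
    have h7 := PadicInt.norm_le_one (2 : ℤ_[p])
    rw [h6] at h7 ⊢
    exact le_antisymm h7 (not_lt.1 h5)
  obtain ⟨z, hz, -⟩ := hensels_lemma (p := p) (R := ℤ_[p]) (F := F) (a := 1) (by
    rw [h1, h2, h3, norm_neg]
    simpa using hr')
  have h8 : z ^ 2 = 1 + r' := by
    have : F.aeval z = z ^ 2 - (1 + r') := by simp [F]
    rw [this] at hz
    exact sub_eq_zero.1 hz
  refine ⟨(z : ℚ_[p]), ?_⟩
  have h9 := congrArg (fun w : ℤ_[p] => (w : ℚ_[p])) h8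
  simp only [PadicInt.coe_pow, PadicInt.coe_add, PadicInt.coe_one] at h9
  rw [← pow_two, h9]

lemma p1 : (1 : ℝ) < p := by exact_mod_cast hp.out.one_lt

lemma norm_lt {a : ℚ_[p]} (ha : a ≠ 0) (h : 0 < a.valuation) : ‖a‖ < 1 := by
  rw [Padic.norm_eq_zpow_neg_valuation ha]
  exact zpow_lt_one_of_neg₀ p1 (by omega)

lemma val_sub {a b : ℚ_[p]} (ha : a ≠ 0) (hb : b ≠ 0) (h : a.valuation < b.valuation) :
    (a - b).valuation = a.valuation := by
  have h1 : ‖b‖ < ‖a‖ := by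
    rw [Padic.norm_eq_zpow_neg_valuation ha, Padic.norm_eq_zpow_neg_valuation hb]
    exact zpow_lt_zpow_right₀ p1 (by omega)
  have h2 : ‖a - b‖ = ‖a‖ := by
    rw [sub_eq_add_neg, Padic.add_eq_max_of_ne (by rw [norm_neg]; exact h1.ne'), norm_neg,
      max_eq_left h1.le]
  have h3 : a - b ≠ 0 := by
    intro h0
    rw [h0, norm_zero] at h2
    exact ha (norm_eq_zero.1 h2.symm)
  rw [Padic.norm_eq_zpow_neg_valuation ha, Padic.norm_eq_zpow_neg_valuation h3,
    zpow_right_inj₀ (by linarith [p1 (p := p)]) p1.ne'] at h2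
  omega

/-- `a - b` and `a` differ by a square if `b` is small -/
lemma sub_sq (hp2 : p ≠ 2) {a b : ℚ_[p]} (ha : a ≠ 0) (hb : b ≠ 0)
    (h : a.valuation < b.valuation) : ∃ z : ℚ_[p], z ≠ 0 ∧ a - b = a * z ^ 2 := by
  have h1 : ‖-(b / a)‖ < 1 := by
    rw [norm_neg]
    apply norm_lt (div_ne_zero hb ha)
    rw [div_eq_mul_inv, Padic.valuation_mul hb (inv_ne_zero ha), Padic.valuation_inv]
    omega
  obtain ⟨z, hz⟩ := sq1 hp2 _ h1
  have h2 : a - b = a * z ^ 2 := by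
    rw [pow_two, ← hz]
    field_simp
    ring
  refine ⟨z, ?_, h2⟩
  rintro rfl
  have h3 : a - b = 0 := by rw [h2]; ring
  have h4 := val_sub ha hb h
  rw [sub_eq_zero.1 h3] at h
  exact lt_irrefl _ h

lemma val_sq {a : ℚ_[p]} (h : IsSquare a) : Even a.valuation := by
  obtain ⟨z, rfl⟩ := h
  by_cases hz : z = 0
  · rw [hz]; simp
  · rw [Padic.valuation_mul hz hz]
    exact ⟨_, rfl⟩

/-- the class of a squarefree integer is a unit if the valuation is even -/
lemma not_dvd {x : ℚ_[p]} {d : ℤ} (hd : Squarefree d) (hx : x ≠ 0) (hv : Even x.valuation)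
    (h : IsSquare (x * d)) : ¬ (p : ℤ) ∣ d := by
  intro hc
  have hd0 : (d : ℚ_[p]) ≠ 0 := by exact_mod_cast hd.ne_zero
  have h1 := val_sq h
  rw [Padic.valuation_mul hx hd0, Int.even_add] at h1
  have h2 := h1.1 hv
  obtain ⟨e, rfl⟩ := hc
  have hpe : ¬ (p : ℤ) ∣ e := by
    rintro ⟨g, rfl⟩
    have := hd p ⟨g, by ring⟩
    exact (Nat.prime_iff_prime_int.1 hp.out).not_isUnit this
  have he0 : (e : ℚ_[p]) ≠ 0 := by
    intro h0
    apply hd0
    push_cast
    rw [h0, mul_zero]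
  have hp0 : (p : ℚ_[p]) ≠ 0 := by exact_mod_cast hp.out.ne_zero
  push_cast at h2
  rw [Padic.valuation_mul hp0 he0, Padic.valuation_p, Padic.valuation_intCast,
    padicValInt.eq_zero_of_not_dvd hpe] at h2
  simp at h2

end gen

section unit

variable {p : ℕ} [hp : Fact p.Prime]

lemma jl (n : ℤ) : jacobiSym n p = legendreSym p n := by
  rw [jacobiSym.legendreSym.to_jacobiSym]

lemma sqU (hp2 : p ≠ 2) {n : ℤ} (h : jacobiSym n p = 1) : IsSquare (n : ℚ_[p]) := by
  rw [jl] at h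
  have hn0 : (n : ZMod p) ≠ 0 := by
    intro h0
    rw [(legendreSym.eq_zero_iff p n).2 h0] at h
    exact zero_ne_one h
  obtain ⟨y, hy⟩ := (legendreSym.eq_one_iff p hn0).1 h
  have hm : ((y.val : ℤ) : ZMod p) = y := by
    rw [Int.cast_natCast, ZMod.natCast_zmod_val]
  set m : ℤ := (y.val : ℤ) with hmdef
  have hpm : ¬ (p : ℤ) ∣ m := by
    intro hc
    have := (ZMod.intCast_zmod_eq_zero_iff_dvd m p).2 hc
    rw [hm] at this
    rw [this, mul_zero] at hy
    exact hn0 hy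
  have hm1 : ‖(m : ℚ_[p])‖ = 1 := by
    have h5 : ¬ ‖(m : ℚ_[p])‖ < 1 := by
      rw [Padic.norm_intCast_lt_one_iff]
      exact hpm
    exact le_antisymm (Padic.norm_int_le_one m) (not_lt.1 h5)
  have hmn : (m : ℚ_[p]) ≠ 0 := by
    intro h0
    rw [h0, norm_zero] at hm1
    exact zero_ne_one hm1
  have hd : (p : ℤ) ∣ n - m * m := by
    rw [← ZMod.intCast_zmod_eq_zero_iff_dvd]
    push_cast
    rw [hm, hy, sub_self]
  have h1 : ‖(((n - m * m : ℤ)) : ℚ_[p]) / ((m : ℚ_[p]) * m)‖ < 1 := by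
    rw [norm_div, norm_mul, hm1, mul_one, div_one, Padic.norm_intCast_lt_one_iff]
    exact hd
  obtain ⟨z, hz⟩ := sq1 hp2 _ h1
  refine ⟨m * z, ?_⟩
  have h2 : (m * z) * (m * z) = (m : ℚ_[p]) * m * (z * z) := by ring
  rw [h2, ← hz]
  push_cast
  field_simp
  ring

lemma nsqU {n : ℤ} (h : jacobiSym n p = -1) : ¬ IsSquare (n : ℚ_[p]) := by
  rintro ⟨z, hz⟩
  have h1 : ‖(n : ℚ_[p])‖ ≤ 1 := Padic.norm_int_le_one n
  rw [hz, norm_mul] at h1
  have h2 : ‖z‖ ≤ 1 := by
    by_contra hc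
    rw [not_le] at hc
    nlinarith
  let z' : ℤ_[p] := ⟨z, h2⟩
  have h3 : ((n : ℤ) : ℤ_[p]) = z' * z' := by
    apply Subtype.ext
    push_cast
    exact hz
  have h4 := congrArg (PadicInt.toZMod (p := p)) h3
  rw [map_mul, map_intCast] at h4
  rw [jl, legendreSym.eq_neg_one_iff] at h
  exact h ⟨_, h4⟩

lemma vU {n : ℤ} (h : ¬ (p : ℤ) ∣ n) : (n : ℚ_[p]).valuation = 0 := by
  rw [Padic.valuation_intCast, padicValInt.eq_zero_of_not_dvd h]
  rfl

lemma jpm {n : ℤ} (h : ¬ (p : ℤ) ∣ n) : jacobiSym n p = 1 ∨ jacobiSym n p = -1 := by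
  rw [jl]
  apply legendreSym.eq_one_or_neg_one
  rw [Ne, ZMod.intCast_zmod_eq_zero_iff_dvd]
  exact h

end unit

end LP2x

open LP2x in
theorem t_LP2 (hT : S_TOR) : S_LP2 := by
  intro p hp a b c D d1 d3 hp2 hb0 habc hpb hpa hj hd1 hd3
  have hpI : Prime (p : ℤ) := Nat.prime_iff_prime_int.1 hp.out
  have hpc : ¬ (p : ℤ) ∣ c := by
    intro h
    have h1 : (p : ℤ) ∣ a ^ 2 := by
      have : a ^ 2 = b ^ 2 - c ^ 2 := by linarith
      rw [this]
      exact dvd_sub (dvd_pow hpb two_ne_zero) (dvd_pow h two_ne_zero)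
    exact hpa (hpI.dvd_of_dvd_pow h1)
  have hpD : ¬ (p : ℤ) ∣ D := by
    intro h
    have h1 : ((-D : ℤ) : ZMod p) = 0 := (ZMod.intCast_zmod_eq_zero_iff_dvd _ _).2 (by
      rw [dvd_neg]; exact h)
    rw [jl, (legendreSym.eq_zero_iff p _).2 h1] at hj
    norm_num at hj
  have ha0 : a ≠ 0 := by rintro rfl; exact hpa (dvd_zero _)
  have hc0 : c ≠ 0 := by rintro rfl; exact hpc (dvd_zero _)
  have hD0 : D ≠ 0 := by rintro rfl; exact hpD (dvd_zero _)
  have hDQ : (D : ℚ_[p]) ≠ 0 := by exact_mod_cast hD0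
  have haQ : (a : ℚ_[p]) ≠ 0 := by exact_mod_cast ha0
  have hbQ : (b : ℚ_[p]) ≠ 0 := by exact_mod_cast hb0
  have hm1 : jacobiSym (-1) p = 1 := by
    have ea : jacobiSym (a ^ 2) p = 1 := by
      rw [jacobiSym.pow_left]
      rcases jpm hpa with h | h <;> rw [h] <;> norm_num
    have ec : jacobiSym (c ^ 2) p = 1 := by
      rw [jacobiSym.pow_left]
      rcases jpm hpc with h | h <;> rw [h] <;> norm_num
    have e : jacobiSym (a ^ 2) p = jacobiSym (-1 * c ^ 2) p := by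
      apply jacobiSym.mod_left'
      apply Int.ModEq.symm
      rw [Int.modEq_iff_dvd]
      have : a ^ 2 - -1 * c ^ 2 = b ^ 2 := by linarith
      rw [this]
      exact dvd_pow hpb two_ne_zero
    rw [jacobiSym.mul_left, ec, mul_one, ea] at e
    exact e.symm
  have hjD : jacobiSym D p = -1 := by
    have e : jacobiSym (-1 * D) p = jacobiSym (-1) p * jacobiSym D p := jacobiSym.mul_left _ _ _
    rw [hm1, one_mul, neg_one_mul, hj] at e
    exact e.symm
  have n9 : ((a ^ 2 * D : ℤ) : ℚ_[p]) ≠ 0 := by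
    push_cast
    exact mul_ne_zero (pow_ne_zero _ haQ) hDQ
  have n25 : ((b ^ 2 * D : ℤ) : ℚ_[p]) ≠ 0 := by
    push_cast
    exact mul_ne_zero (pow_ne_zero _ hbQ) hDQ
  have v9 : ((a ^ 2 * D : ℤ) : ℚ_[p]).valuation = 0 := vU (by
    intro h
    rcases hpI.dvd_or_dvd h with h | h
    · exact hpa (hpI.dvd_of_dvd_pow h)
    · exact hpD h)
  obtain ⟨k, hk, v25⟩ : ∃ k : ℤ, 1 ≤ k ∧ ((b ^ 2 * D : ℤ) : ℚ_[p]).valuation = 2 * k := by
    refine ⟨(b : ℚ_[p]).valuation, ?_, ?_⟩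
    · rw [Padic.valuation_intCast]
      have h1 : 1 ≤ padicValInt p b := by
        have h2 := (padicValInt_dvd_iff (p := p) 1 b).1 (by simpa using hpb)
        exact h2.resolve_left hb0
      exact_mod_cast h1
    · push_cast
      rw [Padic.valuation_mul (pow_ne_zero _ hbQ) hDQ, Padic.valuation_pow, vU hpD]
      push_cast
      ring
  have vm1 : (-1 : ℚ_[p]).valuation = 0 := by
    have h4 : ((-1 : ℤ) : ℚ_[p]).valuation = 0 := vU (by
      rw [dvd_neg]
      exact hpI.not_dvd_one)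
    push_cast at h4
    exact h4
  constructor
  · rintro ⟨x, y, hy0, hy, s1, s3⟩
    have hprod : x * (x - (b ^ 2 * D : ℤ)) * (x - (a ^ 2 * D : ℤ)) ≠ 0 := by
      rw [← hy]; exact pow_ne_zero _ hy0
    have hb0 : x - ((b ^ 2 * D : ℤ) : ℚ_[p]) ≠ 0 := fun h => hprod (by rw [h]; ring)
    have hc0 : x - ((a ^ 2 * D : ℤ) : ℚ_[p]) ≠ 0 := fun h => hprod (by rw [h]; ring)
    have hx0 : x ≠ 0 := fun h => hprod (by rw [h]; ring)
    have hsum : x.valuation + (x - ((b ^ 2 * D : ℤ) : ℚ_[p])).valuation +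
        (x - ((a ^ 2 * D : ℤ) : ℚ_[p])).valuation = 2 * y.valuation := by
      rw [← Padic.valuation_mul hx0 hb0, ← Padic.valuation_mul (mul_ne_zero hx0 hb0) hc0, ← hy,
        Padic.valuation_pow]
      norm_num
    suffices H : Even x.valuation ∧ Even (x - ((b ^ 2 * D : ℤ) : ℚ_[p])).valuation by
      exact ⟨not_dvd hd1 hx0 H.1 s1, not_dvd hd3 hb0 H.2 s3⟩
    rcases lt_trichotomy x.valuation 0 with hv | hv | hv
    · have e1 := val_sub hx0 n25 (by omega)
      have e2 := val_sub hx0 n9 (by omega)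
      rw [e1, e2] at hsum
      rw [e1]
      have : Even x.valuation := by
        rw [Int.even_iff]
        omega
      exact ⟨this, this⟩
    · have e1 := val_sub hx0 n25 (by omega)
      rw [e1, hv]
      exact ⟨by simp, by simp⟩
    · -- `x` is divisible by `p`
      have e2 : (x - ((a ^ 2 * D : ℤ) : ℚ_[p])).valuation = 0 := by
        have h1 := val_sub n9 hx0 (by omega)
        have h2 : ((a ^ 2 * D : ℤ) : ℚ_[p]) - x = (-1 : ℚ_[p]) * (x - ((a ^ 2 * D : ℤ) : ℚ_[p])) := by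
          ring
        rw [h2, Padic.valuation_mul (neg_ne_zero.2 one_ne_zero) hc0, v9] at h1
        omega
      rw [e2, add_zero] at hsum
      rcases lt_trichotomy x.valuation (2 * k) with h | h | h
      · -- impossible
        exfalso
        obtain ⟨z, hz0, hz⟩ := sub_sq hp2 hx0 n25 (by omega)
        obtain ⟨w, hw0, hw⟩ := sub_sq hp2 n9 hx0 (by omega)
        rw [hz] at hy
        apply nsqU (n := -D) hj
        have h1 : x - ((a ^ 2 * D : ℤ) : ℚ_[p]) = (a * w) ^ 2 * (-D) := by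
          have : x - ((a ^ 2 * D : ℤ) : ℚ_[p]) = -(((a ^ 2 * D : ℤ) : ℚ_[p]) - x) := by ring
          rw [this, hw]
          push_cast
          ring
        rw [h1] at hy
        have hne : x * z * (a * w) ≠ 0 :=
          mul_ne_zero (mul_ne_zero hx0 hz0) (mul_ne_zero haQ hw0)
        refine ⟨y / (x * z * (a * w)), ?_⟩
        rw [div_mul_div_comm, eq_div_iff (mul_ne_zero hne hne)]
        push_cast
        linear_combination -hy
      · refine ⟨by rw [h, Int.even_iff]; omega, ?_⟩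
        rw [Int.even_iff]
        omega
      · have h1 := val_sub n25 hx0 (by omega)
        have h2 : ((b ^ 2 * D : ℤ) : ℚ_[p]) - x = (-1 : ℚ_[p]) * (x - ((b ^ 2 * D : ℤ) : ℚ_[p])) := by
          ring
        rw [h2, Padic.valuation_mul (neg_ne_zero.2 one_ne_zero) hb0, v25, vm1] at h1
        rw [Int.even_iff, Int.even_iff]
        omega
  · rintro ⟨c1, c3⟩
    refine hT p a b c D d1 d3 ha0 hb0 hc0 habc hD0 hd1.ne_zero hd3.ne_zero ?_ ?_
    · rcases jpm c1 with h | h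
      · exact Or.inl (sqU hp2 h)
      · right
        apply sqU hp2
        rw [jacobiSym.mul_left, h, hjD]
        norm_num
    · rcases jpm c3 with h | h
      · exact Or.inl (sqU hp2 h)
      · right
        apply sqU hp2
        rw [show -(d3 * D) = d3 * (-D) by ring, jacobiSym.mul_left, h, hj]
        norm_num

end Pool.Agent.NH3.XT
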