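import Pool.Agent.NH3.XT.Stm

/-!
# Project XT: the odd primes which divide `c` (helper55)
-/

set_option autoImplicit false

namespace Pool.Agent.NH3.XT

namespace LP3

section gen

variable {p : ℕ} [hp : Fact p.Prime]

/-- `1 + r` is a square if `r` has positive valuation and `p` is odd. -/
lemma sq1 (hp2 : p ≠ 2) (r : ℚ_[p]) (hr : ‖r‖ < 1) : IsSquare (1 + r) := by
  let r' : ℤ_[p] := ⟨r, hr.le⟩
  let F : Polynomial ℤ_[p] := Polynomial.X ^ 2 - Polynomial.C (1 + r')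
  have hr' : ‖r'‖ < 1 := hr
  have h1 : F.aeval (1 : ℤ_[p]) = -r' := by
    simp [F]
  have h2 : F.derivative.aeval (1 : ℤ_[p]) = 2 := by
    simp [F, one_add_one_eq_two]
  have h3 : ‖(2 : ℤ_[p])‖ = 1 := by
    have h4 : ¬ (p : ℤ) ∣ 2 := by
      intro h
      have h5 : p ∣ 2 := by exact_mod_cast h
      exact hp2 ((Nat.prime_dvd_prime_iff_eq hp.out Nat.prime_two).1 h5)
    have h5 : ¬ ‖((2 : ℤ) : ℚ_[p])‖ < 1 := by
      rw [Padic.norm_intCast_lt_one_iff]
      exact h4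
    have h6 : ‖(2 : ℤ_[p])‖ = ‖((2 : ℤ) : ℚ_[p])‖ := by
      rw [PadicInt.norm_def]
      norm_cast
    have h7 := PadicInt.norm_le_one (2 : ℤ_[p])
    rw [h6] at h7 ⊢
    exact le_antisymm h7 (not_lt.1 h5)
  obtain ⟨z, hz, -⟩ := hensels_lemma (p := p) (R := ℤ_[p]) (F := F) (a := 1) (by
    rw [h1, h2, h3, norm_neg]
    simpa using hr')
  have h8 : z ^ 2 = 1 + r' := by
    have : F.aeval z = z ^ 2 - (1 + r') := by simp [F]
    rw [this] at hz
    exact sub_eq_zero.1 hz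
  refine ⟨(z : ℚ_[p]), ?_⟩
  have h9 := congrArg (fun w : ℤ_[p] => (w : ℚ_[p])) h8
  simp only [PadicInt.coe_pow, PadicInt.coe_add, PadicInt.coe_one] at h9
  rw [← pow_two, h9]

lemma p1 : (1 : ℝ) < p := by exact_mod_cast hp.out.one_lt

/-- `a + b` and `a` differ by a square if `b` is small -/
lemma add_sq (hp2 : p ≠ 2) {a b : ℚ_[p]} (ha : a ≠ 0) (h : ‖b‖ < ‖a‖) :
    ∃ z : ℚ_[p], z ≠ 0 ∧ a + b = a * z ^ 2 := by
  have h1 : ‖b / a‖ < 1 := by
    rw [norm_div, div_lt_one (norm_pos_iff.2 ha)]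
    exact h
  obtain ⟨z, hz⟩ := sq1 hp2 _ h1
  have h2 : a + b = a * z ^ 2 := by
    rw [pow_two, ← hz]
    field_simp
  refine ⟨z, ?_, h2⟩
  rintro rfl
  have h3 : b = -a := by linear_combination h2
  rw [h3, norm_neg] at h
  exact lt_irrefl _ h

lemma val_eq {a b : ℚ_[p]} (ha : a ≠ 0) (hb : b ≠ 0) (h : ‖a‖ = ‖b‖) :
    a.valuation = b.valuation := by
  rw [Padic.norm_eq_zpow_neg_valuation ha, Padic.norm_eq_zpow_neg_valuation hb,
    zpow_right_inj₀ (by linarith [p1 (p := p)]) p1.ne'] at h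
  omega

lemma val_sq {a : ℚ_[p]} (h : IsSquare a) : Even a.valuation := by
  obtain ⟨z, rfl⟩ := h
  by_cases hz : z = 0
  · rw [hz]; simp
  · rw [Padic.valuation_mul hz hz]
    exact ⟨_, rfl⟩

lemma val_int {D : ℤ} (h : ¬ (p : ℤ) ∣ D) : (D : ℚ_[p]).valuation = 0 := by
  rw [Padic.valuation_intCast, padicValInt.eq_zero_of_not_dvd h]
  rfl

/-- a unit times a square -/
lemma val_unit {D : ℤ} (h : ¬ (p : ℤ) ∣ D) {x s : ℚ_[p]} (hs : s ≠ 0) (hx : x = D * s ^ 2) :
    Even x.valuation := by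
  have hD : (D : ℚ_[p]) ≠ 0 := by
    intro h0
    apply h
    have : D = 0 := by exact_mod_cast h0
    rw [this]
    exact dvd_zero _
  rw [hx, Padic.valuation_mul hD (pow_ne_zero _ hs), val_int h, zero_add]
  exact val_sq ⟨s, by ring⟩

/-- the class of a squarefree integer is a unit if the valuation is even -/
lemma not_dvd {x : ℚ_[p]} {d : ℤ} (hd : Squarefree d) (hx : x ≠ 0) (hv : Even x.valuation)
    (h : IsSquare (x * d)) : ¬ (p : ℤ) ∣ d := by
  intro hc
  have hd0 : (d : ℚ_[p]) ≠ 0 := by exact_mod_cast hd.ne_zero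
  have h1 := val_sq h
  rw [Padic.valuation_mul hx hd0, Int.even_add] at h1
  have h2 := h1.1 hv
  obtain ⟨e, rfl⟩ := hc
  have hpe : ¬ (p : ℤ) ∣ e := by
    rintro ⟨g, rfl⟩
    have := hd p ⟨g, by ring⟩
    exact (Nat.prime_iff_prime_int.1 hp.out).not_isUnit this
  have he0 : (e : ℚ_[p]) ≠ 0 := by
    intro h0
    apply hd0
    push_cast
    rw [h0, mul_zero]
  have hp0 : (p : ℚ_[p]) ≠ 0 := by exact_mod_cast hp.out.ne_zero
  push_cast at h2
  rw [Padic.valuation_mul hp0 he0, Padic.valuation_p, Padic.valuation_intCast,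
    padicValInt.eq_zero_of_not_dvd hpe] at h2
  simp at h2

omit hp in
lemma jcongr {a b : ℤ} (h : (p : ℤ) ∣ a - b) : jacobiSym a p = jacobiSym b p := by
  rw [jacobiSym.mod_left a, jacobiSym.mod_left b]
  congr 1
  exact Int.emod_eq_emod_iff_emod_sub_eq_zero.2 (Int.emod_eq_zero_of_dvd h)

lemma jval {y : ℤ} (hy : ¬ (p : ℤ) ∣ y) : jacobiSym y p = 1 ∨ jacobiSym y p = -1 := by
  apply jacobiSym.eq_one_or_neg_one
  rw [Int.gcd_comm, ← Int.isCoprime_iff_gcd_eq_one]
  exact ((Nat.prime_iff_prime_int.1 hp.out).coprime_iff_not_dvd).2 hy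

lemma jnd {y : ℤ} (h : jacobiSym y p ≠ 0) : ¬ (p : ℤ) ∣ y := by
  intro hd
  apply h
  rw [jacobiSym.eq_zero_iff]
  refine ⟨hp.out.ne_zero, ?_⟩
  intro h1
  have h2 : (p : ℤ) ∣ (y.gcd (p : ℤ) : ℤ) := Int.dvd_coe_gcd hd (dvd_refl _)
  rw [h1] at h2
  have h3 : p ∣ 1 := by exact_mod_cast h2
  exact hp.out.one_lt.ne' (Nat.dvd_one.1 h3)

lemma jsq (hp2 : p ≠ 2) {M : ℤ} (h : jacobiSym M p = 1) : IsSquare (M : ℚ_[p]) := by
  have hM := jnd (p := p) (y := M) (by rw [h]; norm_num)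
  rw [← jacobiSym.legendreSym.to_jacobiSym] at h
  have hM0 : (M : ZMod p) ≠ 0 := by
    intro h0
    exact hM ((ZMod.intCast_zmod_eq_zero_iff_dvd M p).1 h0)
  obtain ⟨y, hy⟩ := (legendreSym.eq_one_iff p hM0).1 h
  have hY : (p : ℤ) ∣ M - (y.val : ℤ) ^ 2 := by
    rw [← ZMod.intCast_zmod_eq_zero_iff_dvd]
    push_cast
    rw [ZMod.natCast_val, ZMod.cast_id', id_eq, hy]
    ring
  have hY0 : ((y.val : ℤ) : ℚ_[p]) ≠ 0 := by
    intro h0
    have h1 : (y.val : ℤ) = 0 := by exact_mod_cast h0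
    rw [h1] at hY
    exact hM (by simpa using hY)
  have hYn : ‖((y.val : ℤ) : ℚ_[p])‖ = 1 := by
    apply le_antisymm (Padic.norm_int_le_one _)
    rw [← not_lt, Padic.norm_intCast_lt_one_iff]
    intro h1
    apply hM
    have h2 : (p : ℤ) ∣ (M - (y.val : ℤ) ^ 2) + (y.val : ℤ) ^ 2 :=
      dvd_add hY (dvd_pow h1 (by norm_num))
    simpa using h2
  obtain ⟨z, -, hz⟩ := add_sq hp2 (a := ((y.val : ℤ) : ℚ_[p]) ^ 2)
    (b := ((M - (y.val : ℤ) ^ 2 : ℤ) : ℚ_[p])) (pow_ne_zero _ hY0) (by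
      rw [norm_pow, hYn, one_pow, Padic.norm_intCast_lt_one_iff]
      exact hY)
  refine ⟨((y.val : ℤ) : ℚ_[p]) * z, ?_⟩
  have h3 : (M : ℚ_[p]) = ((y.val : ℤ) : ℚ_[p]) ^ 2 + ((M - (y.val : ℤ) ^ 2 : ℤ) : ℚ_[p]) := by
    push_cast
    ring
  rw [h3, hz]
  ring

lemma jns {M : ℤ} (h : jacobiSym M p = -1) : ¬ IsSquare (M : ℚ_[p]) := by
  rintro ⟨z, hz⟩
  have h1 : ‖(M : ℚ_[p])‖ ≤ 1 := Padic.norm_int_le_one M
  rw [hz, norm_mul] at h1
  have h2 : ‖z‖ ≤ 1 := by
    by_contra hc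
    rw [not_le] at hc
    nlinarith
  let z' : ℤ_[p] := ⟨z, h2⟩
  have h3 : ((M : ℤ) : ℤ_[p]) = z' * z' := by
    apply Subtype.ext
    push_cast
    exact hz
  have h4 := congrArg (PadicInt.toZMod (p := p)) h3
  rw [map_mul, map_intCast] at h4
  rw [← jacobiSym.legendreSym.to_jacobiSym] at h
  exact (legendreSym.eq_neg_one_iff p).1 h ⟨_, h4⟩

/-- a point with an integral `x` -/
lemma pt {A B d1 d3 : ℤ} (X : ℤ) (h0 : X * (X - A) * (X - B) ≠ 0)
    (h1 : IsSquare ((X * d1 : ℤ) : ℚ_[p])) (h3 : IsSquare (((X - A) * d3 : ℤ) : ℚ_[p]))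
    (h : IsSquare ((X * (X - A) * (X - B) : ℤ) : ℚ_[p])) : Loc ℚ_[p] A B d1 d3 := by
  obtain ⟨y, hy⟩ := h
  refine ⟨X, y, ?_, ?_, ?_, ?_⟩
  · rintro rfl
    rw [mul_zero] at hy
    exact h0 (by exact_mod_cast hy)
  · rw [pow_two, ← hy]
    push_cast
    ring
  · push_cast at h1
    exact h1
  · push_cast at h3
    exact h3

/-- squares times units which are squares -/
lemma sqm (hp2 : p ≠ 2) (k : ℤ) {n N : ℤ} (h : jacobiSym n p = 1) (hN : N = k ^ 2 * n) :
    IsSquare ((N : ℤ) : ℚ_[p]) := by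
  obtain ⟨z, hz⟩ := jsq hp2 h
  refine ⟨k * z, ?_⟩
  rw [hN]
  push_cast
  rw [hz]
  ring

/-- a residue followed by a nonresidue -/
lemma exs (hp2 : p ≠ 2) : ∃ s : ℤ, jacobiSym s p = 1 ∧ jacobiSym (s + 1) p = -1 := by
  have hex : ∃ n : ℕ, jacobiSym (n : ℤ) p = -1 := by
    have hF : ringChar (ZMod p) ≠ 2 := by
      rw [ZMod.ringChar_zmod_n]
      exact hp2
    obtain ⟨a, ha⟩ := quadraticChar_exists_neg_one hF
    refine ⟨a.val, ?_⟩
    rw [← jacobiSym.legendreSym.to_jacobiSym, legendreSym, ← ha]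
    congr 1
    simp
  classical
  have hn := Nat.find_spec hex
  have hm : ∀ m < Nat.find hex, jacobiSym (m : ℤ) p ≠ -1 := fun m hm => Nat.find_min hex hm
  set n := Nat.find hex with hndef
  have hn0 : n ≠ 0 := by
    intro h0
    rw [h0] at hn
    have h1 := jnd (p := p) (y := ((0 : ℕ) : ℤ)) (by rw [hn]; norm_num)
    exact h1 (by simp)
  obtain ⟨m, hm'⟩ := Nat.exists_eq_succ_of_ne_zero hn0
  refine ⟨m, ?_, ?_⟩
  · have h1 : ¬ (p : ℤ) ∣ (m : ℤ) := by
      intro hd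
      have h2 : jacobiSym (n : ℤ) p = jacobiSym 1 p := by
        apply jcongr
        rw [hm']
        push_cast
        simpa using hd
      rw [hn, jacobiSym.one_left] at h2
      norm_num at h2
    rcases jval h1 with h | h
    · exact h
    · exact absurd h (hm m (by omega))
  · have : ((m : ℤ) + 1) = (n : ℤ) := by rw [hm']; push_cast; ring
    rw [this]
    exact hn

end gen

end LP3

open LP3 in
theorem t_LP3 (hTOR : S_TOR) : S_LP3 := by
  intro p hp a b c D d1 d3 hp2 hc0 habc hpc hpb hjD hd1 hd3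
  have hpD : ¬ (p : ℤ) ∣ D := jnd (by rw [hjD]; norm_num)
  have hD0 : D ≠ 0 := by rintro rfl; exact hpD (dvd_zero _)
  have hb0 : b ≠ 0 := by rintro rfl; exact hpb (dvd_zero _)
  have hpa : ¬ (p : ℤ) ∣ a := by
    intro h
    apply hpb
    have h1 : (p : ℤ) ∣ b ^ 2 := by
      rw [← habc]
      exact dvd_add (dvd_pow h (by norm_num)) (dvd_pow hpc (by norm_num))
    exact (Nat.prime_iff_prime_int.1 hp.out).dvd_of_dvd_pow h1
  have ha0 : a ≠ 0 := by rintro rfl; exact hpa (dvd_zero _)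
  have hDQ : (D : ℚ_[p]) ≠ 0 := by exact_mod_cast hD0
  have hbQ : (b : ℚ_[p]) ≠ 0 := by exact_mod_cast hb0
  have hcQ : (c : ℚ_[p]) ≠ 0 := by exact_mod_cast hc0
  have habcQ : (a : ℚ_[p]) ^ 2 + (c : ℚ_[p]) ^ 2 = (b : ℚ_[p]) ^ 2 := by exact_mod_cast habc
  have nD : ‖(D : ℚ_[p])‖ = 1 := by
    apply le_antisymm (Padic.norm_int_le_one _)
    rw [← not_lt, Padic.norm_intCast_lt_one_iff]
    exact hpD
  have nb : ‖(b : ℚ_[p])‖ = 1 := by
    apply le_antisymm (Padic.norm_int_le_one _)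
    rw [← not_lt, Padic.norm_intCast_lt_one_iff]
    exact hpb
  have nc : ‖(c : ℚ_[p])‖ < 1 := by
    rw [Padic.norm_intCast_lt_one_iff]
    exact hpc
  have nbD : ‖(b : ℚ_[p]) ^ 2 * D‖ = 1 := by
    rw [norm_mul, norm_pow, nb, nD, one_pow, one_mul]
  have ncD : ‖(c : ℚ_[p]) ^ 2 * D‖ < 1 := by
    rw [norm_mul, norm_pow, nD, mul_one]
    exact pow_lt_one₀ (norm_nonneg _) nc (by norm_num)
  have hbD : (b : ℚ_[p]) ^ 2 * D ≠ 0 := mul_ne_zero (pow_ne_zero _ hbQ) hDQ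
  have hcD : (c : ℚ_[p]) ^ 2 * D ≠ 0 := mul_ne_zero (pow_ne_zero _ hcQ) hDQ
  constructor
  · rintro ⟨x, y, hy0, hy, s1, s3⟩
    push_cast at hy s1 s3
    obtain ⟨z, hz⟩ : ∃ z : ℚ_[p], z = x - (b : ℚ_[p]) ^ 2 * D := ⟨_, rfl⟩
    have hxz : x = z + (b : ℚ_[p]) ^ 2 * D := by rw [hz]; ring
    have hw : x - (a : ℚ_[p]) ^ 2 * D = z + (c : ℚ_[p]) ^ 2 * D := by
      rw [hz]
      linear_combination (-(D : ℚ_[p])) * habcQ
    rw [← hz, hw] at hy
    rw [← hz] at s3
    have hprod : x * z * (z + (c : ℚ_[p]) ^ 2 * D) ≠ 0 := by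
      rw [← hy]; exact pow_ne_zero _ hy0
    have hw0 : z + (c : ℚ_[p]) ^ 2 * D ≠ 0 := right_ne_zero_of_mul hprod
    have hz0 : z ≠ 0 := right_ne_zero_of_mul (left_ne_zero_of_mul hprod)
    have hx0 : x ≠ 0 := left_ne_zero_of_mul (left_ne_zero_of_mul hprod)
    suffices H : Even x.valuation ∧ Even z.valuation from
      ⟨not_dvd hd1 hx0 H.1 s1, not_dvd hd3 hz0 H.2 s3⟩
    rcases lt_trichotomy ‖z‖ 1 with hv | hv | hv
    · obtain ⟨s, hs0, hs⟩ := add_sq hp2 (a := (b : ℚ_[p]) ^ 2 * D) (b := z) hbD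
        (by rw [nbD]; exact hv)
      have hx : x = D * ((b : ℚ_[p]) * s) ^ 2 := by
        rw [hxz, add_comm, hs]
        ring
      refine ⟨val_unit hpD (mul_ne_zero hbQ hs0) hx, ?_⟩
      rcases lt_trichotomy ‖z‖ ‖(c : ℚ_[p]) ^ 2 * D‖ with hv2 | hv2 | hv2
      · obtain ⟨t, ht0, ht⟩ := add_sq hp2 (a := (c : ℚ_[p]) ^ 2 * D) (b := z) hcD hv2
        apply val_sq
        refine ⟨y / (D * b * s * c * t), ?_⟩
        have hne : (D : ℚ_[p]) * b * s * c * t ≠ 0 :=
          mul_ne_zero (mul_ne_zero (mul_ne_zero (mul_ne_zero hDQ hbQ) hs0) hcQ) ht0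
        rw [div_mul_div_comm, eq_div_iff (mul_ne_zero hne hne), ← pow_two y, hy,
          add_comm z, ht, hx]
        ring
      · rw [val_eq hz0 hcD hv2]
        exact val_unit hpD hcQ (by ring)
      · exfalso
        obtain ⟨t, ht0, ht⟩ := add_sq hp2 (a := z) (b := (c : ℚ_[p]) ^ 2 * D) hz0 hv2
        apply jns hjD
        refine ⟨y / (b * s * z * t), ?_⟩
        have hne : (b : ℚ_[p]) * s * z * t ≠ 0 :=
          mul_ne_zero (mul_ne_zero (mul_ne_zero hbQ hs0) hz0) ht0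
        rw [div_mul_div_comm, eq_div_iff (mul_ne_zero hne hne), ← pow_two y, hy, ht, hx]
        ring
    · have hz1 : z.valuation = 0 := by
        rw [val_eq hz0 one_ne_zero (by rw [hv, norm_one])]
        simp
      refine ⟨?_, by rw [hz1]; simp⟩
      obtain ⟨t, ht0, ht⟩ := add_sq hp2 (a := z) (b := (c : ℚ_[p]) ^ 2 * D) hz0
        (by rw [hv]; exact ncD)
      apply val_sq
      refine ⟨y / (z * t), ?_⟩
      have hne : z * t ≠ 0 := mul_ne_zero hz0 ht0
      rw [div_mul_div_comm, eq_div_iff (mul_ne_zero hne hne), ← pow_two y, hy, ht]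
      ring
    · obtain ⟨s, hs0, hs⟩ := add_sq hp2 (a := z) (b := (b : ℚ_[p]) ^ 2 * D) hz0
        (by rw [nbD]; exact hv)
      obtain ⟨t, ht0, ht⟩ := add_sq hp2 (a := z) (b := (c : ℚ_[p]) ^ 2 * D) hz0
        (lt_trans ncD hv)
      have hzs : z = (y / (z * s * t)) * (y / (z * s * t)) := by
        have hne : z * s * t ≠ 0 := mul_ne_zero (mul_ne_zero hz0 hs0) ht0
        rw [div_mul_div_comm, eq_div_iff (mul_ne_zero hne hne), ← pow_two y, hy, ht, hxz, hs]
        ring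
      refine ⟨val_sq ⟨y / (z * s * t) * s, ?_⟩, val_sq ⟨_, hzs⟩⟩
      rw [hxz, hs]
      linear_combination s ^ 2 * hzs
  · rintro ⟨c1, c3⟩
    rcases jval c3 with j3 | j3
    · refine hTOR p a b c D d1 d3 ha0 hb0 hc0 habc hD0 hd1.ne_zero hd3.ne_zero ?_
        (Or.inl (jsq hp2 j3))
      rcases jval c1 with j1 | j1
      · exact Or.inl (jsq hp2 j1)
      · exact Or.inr (jsq hp2 (by rw [jacobiSym.mul_left, j1, hjD]; norm_num))
    · obtain ⟨s, hs1, hs2⟩ := exs hp2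
      have hjb : jacobiSym (b ^ 2) p = 1 := by
        rw [pow_two, jacobiSym.mul_left]
        rcases jval hpb with h | h <;> rw [h] <;> norm_num
      rcases jval c1 with j1 | j1
      · -- `z = b² D s`
        have hjX : jacobiSym (b ^ 2 * D * (s + 1)) p = 1 := by
          rw [jacobiSym.mul_left, jacobiSym.mul_left, hjb, hjD, hs2]; norm_num
        have hjz : jacobiSym (b ^ 2 * D * s) p = -1 := by
          rw [jacobiSym.mul_left, jacobiSym.mul_left, hjb, hjD, hs1]; norm_num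
        have hjw : jacobiSym (b ^ 2 * D * s + c ^ 2 * D) p = -1 := by
          rw [← hjz]
          apply jcongr
          rw [add_sub_cancel_left]
          exact dvd_mul_of_dvd_left (dvd_pow hpc (by norm_num)) _
        have e1 : b ^ 2 * D * (s + 1) - b ^ 2 * D = b ^ 2 * D * s := by ring
        have e2 : b ^ 2 * D * (s + 1) - a ^ 2 * D = b ^ 2 * D * s + c ^ 2 * D := by
          linear_combination (-D) * habc
        have hall : jacobiSym ((b ^ 2 * D * (s + 1)) * (b ^ 2 * D * s) *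
            (b ^ 2 * D * s + c ^ 2 * D)) p = 1 := by
          rw [jacobiSym.mul_left, jacobiSym.mul_left (b ^ 2 * D * (s + 1)), hjX, hjz, hjw]
          norm_num
        refine pt (b ^ 2 * D * (s + 1)) ?_ ?_ ?_ ?_
        · rw [e1, e2]
          intro h0
          rw [h0] at hall
          exact jnd (p := p) (y := 0) (by rw [hall]; norm_num) (dvd_zero _)
        · apply jsq hp2
          rw [jacobiSym.mul_left, hjX, j1]; norm_num
        · rw [e1]
          apply jsq hp2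
          rw [jacobiSym.mul_left, hjz, j3]; norm_num
        · rw [e1, e2]
          exact jsq hp2 hall
      · -- `z = c² D s`
        have hjz : jacobiSym (D * s) p = -1 := by
          rw [jacobiSym.mul_left, hjD, hs1]; norm_num
        have hjw : jacobiSym (D * (s + 1)) p = 1 := by
          rw [jacobiSym.mul_left, hjD, hs2]; norm_num
        have hjX : jacobiSym (b ^ 2 * D + c ^ 2 * (D * s)) p = -1 := by
          have : jacobiSym (b ^ 2 * D) p = -1 := by
            rw [jacobiSym.mul_left, hjb, hjD]; norm_num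
          rw [← this]
          apply jcongr
          rw [add_sub_cancel_left]
          exact dvd_mul_of_dvd_left (dvd_pow hpc (by norm_num)) _
        have e1 : b ^ 2 * D + c ^ 2 * (D * s) - b ^ 2 * D = c ^ 2 * (D * s) := by ring
        have e2 : b ^ 2 * D + c ^ 2 * (D * s) - a ^ 2 * D = c ^ 2 * (D * (s + 1)) := by
          linear_combination (-D) * habc
        have hall : jacobiSym ((b ^ 2 * D + c ^ 2 * (D * s)) * (D * s) * (D * (s + 1))) p = 1 := by
          rw [jacobiSym.mul_left, jacobiSym.mul_left (b ^ 2 * D + c ^ 2 * (D * s)), hjX, hjz, hjw]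
          norm_num
        refine pt (b ^ 2 * D + c ^ 2 * (D * s)) ?_ ?_ ?_ ?_
        · rw [e1, e2]
          have h1 : (b ^ 2 * D + c ^ 2 * (D * s)) * (D * s) * (D * (s + 1)) ≠ 0 := by
            intro h0
            rw [h0] at hall
            exact jnd (p := p) (y := 0) (by rw [hall]; norm_num) (dvd_zero _)
          have h2 : (b ^ 2 * D + c ^ 2 * (D * s)) * (c ^ 2 * (D * s)) * (c ^ 2 * (D * (s + 1))) =
              (c ^ 2) ^ 2 * ((b ^ 2 * D + c ^ 2 * (D * s)) * (D * s) * (D * (s + 1))) := by ring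
          rw [h2]
          exact mul_ne_zero (pow_ne_zero _ (pow_ne_zero _ hc0)) h1
        · apply jsq hp2
          rw [jacobiSym.mul_left, hjX, j1]; norm_num
        · rw [e1]
          exact sqm hp2 c (n := D * s * d3) (by rw [jacobiSym.mul_left, hjz, j3]; norm_num)
            (by ring)
        · rw [e1, e2]
          exact sqm hp2 (c ^ 2) hall (by ring)

end Pool.Agent.NH3.XT
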