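import Pool.Agent.NH3.XT.Stm

/-!
# Project XT: the real place (helper51)
-/

set_option autoImplicit false
set_option linter.unusedVariables false

namespace Pool.Agent.NH3.XT

/-- LR -/
theorem t_LR : S_LR := by
  intro a b c D d1 d3 ha hc habc hD hd1 hd3
  have hD' : (D : ℝ) < 0 := by exact_mod_cast hD
  have hR : (a : ℝ) ^ 2 + (c : ℝ) ^ 2 = (b : ℝ) ^ 2 := by exact_mod_cast habc
  have ha' : (0 : ℝ) < (a : ℝ) ^ 2 := by
    have : (a : ℝ) ≠ 0 := by exact_mod_cast ha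
    positivity
  have hc' : (0 : ℝ) < (c : ℝ) ^ 2 := by
    have : (c : ℝ) ≠ 0 := by exact_mod_cast hc
    positivity
  have hb' : (0 : ℝ) < (b : ℝ) ^ 2 := by linarith
  have haD : (a : ℝ) ^ 2 * D < 0 := mul_neg_of_pos_of_neg ha' hD'
  have hbD : (b : ℝ) ^ 2 * D < 0 := mul_neg_of_pos_of_neg hb' hD'
  have hcD : (c : ℝ) ^ 2 * D < 0 := mul_neg_of_pos_of_neg hc' hD'
  have hlt : (b : ℝ) ^ 2 * D = (a : ℝ) ^ 2 * D + (c : ℝ) ^ 2 * D := by rw [← hR]; ring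
  constructor
  · rintro ⟨x, y, hy, he, h1, h3⟩
    push_cast at he h3
    have hy2 : 0 < y ^ 2 := by positivity
    have hx : (b : ℝ) ^ 2 * (D : ℝ) < x := by
      by_contra hcon
      push Not at hcon
      have h5 : x - (b : ℝ) ^ 2 * (D : ℝ) ≤ 0 := by linarith
      have h6 : x - (a : ℝ) ^ 2 * (D : ℝ) ≤ 0 := by linarith
      have h7 : x ≤ 0 := by linarith
      have h8 : x * (x - (b : ℝ) ^ 2 * D) * (x - (a : ℝ) ^ 2 * D) ≤ 0 :=
        mul_nonpos_of_nonneg_of_nonpos (mul_nonneg_of_nonpos_of_nonpos h7 h5) h6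
      linarith
    have h5 : 0 ≤ (x - (b : ℝ) ^ 2 * D) * (d3 : ℝ) := Real.isSquare_iff.1 h3
    have h6 : 0 ≤ (d3 : ℝ) := by
      by_contra hcon
      push Not at hcon
      have := mul_neg_of_pos_of_neg (sub_pos.2 hx) hcon
      linarith
    have h7 : 0 ≤ d3 := by exact_mod_cast h6
    exact lt_of_le_of_ne h7 (Ne.symm hd3)
  · intro h3
    have h3' : (0 : ℝ) < d3 := by exact_mod_cast h3
    have key : ∀ x : ℝ, 0 < x * (x - (b : ℝ) ^ 2 * D) * (x - (a : ℝ) ^ 2 * D) → 0 ≤ x * d1 →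
        0 ≤ (x - (b : ℝ) ^ 2 * D) * d3 → Loc ℝ (b ^ 2 * D) (a ^ 2 * D) d1 d3 := by
      intro x h1 h4 h5
      refine ⟨x, √(x * (x - (b : ℝ) ^ 2 * D) * (x - (a : ℝ) ^ 2 * D)), (Real.sqrt_pos.2 h1).ne', ?_,
        Real.isSquare_iff.2 h4, ?_⟩
      · push_cast
        exact Real.sq_sqrt h1.le
      · push_cast
        exact Real.isSquare_iff.2 h5
    rcases lt_or_gt_of_ne hd1 with h | h
    · have h' : (d1 : ℝ) < 0 := by exact_mod_cast h
      have hx0 : (((a : ℝ) ^ 2 + (b : ℝ) ^ 2) * D / 2) < 0 := by linarith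
      have hxb : 0 < ((a : ℝ) ^ 2 + (b : ℝ) ^ 2) * D / 2 - (b : ℝ) ^ 2 * D := by linarith
      have hxa : ((a : ℝ) ^ 2 + (b : ℝ) ^ 2) * D / 2 - (a : ℝ) ^ 2 * D < 0 := by linarith
      exact key (((a : ℝ) ^ 2 + (b : ℝ) ^ 2) * D / 2)
        (mul_pos_of_neg_of_neg (mul_neg_of_neg_of_pos hx0 hxb) hxa)
        (mul_pos_of_neg_of_neg hx0 h').le (mul_pos hxb h3').le
    · have h' : (0 : ℝ) < d1 := by exact_mod_cast h
      have h5 : 0 < 1 - (b : ℝ) ^ 2 * (D : ℝ) := by linarith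
      have h6 : 0 < 1 - (a : ℝ) ^ 2 * (D : ℝ) := by linarith
      exact key 1 (by positivity) (by linarith) (by positivity)

end Pool.Agent.NH3.XT
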