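import Mathlib

/-!
# Project XT (helper3): exact 2-Selmer groups, all the curves `y² = x (x - a² D) (x - b² D)`, `a² + c² = b²`

The project XS (`Pool.Agent.NH3.XS`) is the case `(a, b, c) = (3, 5, 4)`, the twists of `X_0(15)`. Here
`a, b, c` is any primitive Pythagorean triple, `a` odd, `c = 2 ^ e c'`, `c'` odd, `e ≥ 2`. The conditions on
`D`: `(-D / p) = -1` for `p ∣ a b`, `(D / p) = -1` for `p ∣ c'`, and `D ≠ 1` modulo `8` if `e ≥ 3`. The local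
conditions at all the primes are those of XS. All statements were checked numerically. This file needs
only Mathlib; the definitions are verbatim those of `W307/SE/Stm.lean` and `NH3/XS/Stm.lean`.
-/

set_option autoImplicit false
set_option linter.unusedVariables false

open scoped Classical

namespace Pool.Agent.NH3.XT

/-- the pair `(d1, d2)` comes from a point of `y² = x (x - A) (x - B)` over the field `K` -/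
def Loc (K : Type) [Field K] (A B d1 d2 : ℤ) : Prop :=
  ∃ x y : K, y ≠ 0 ∧ y ^ 2 = x * (x - A) * (x - B) ∧ IsSquare (x * d1) ∧ IsSquare ((x - A) * d2)

/-- the classes of `x` at `2` -/
def A2 (D d : ℤ) : Prop :=
  (D % 4 = 1 ∧ d % 4 = 1) ∨
  (D % 4 ≠ 1 ∧ (d % 8 = 1 ∨ (D % 2 = 1 ∧ d % 8 = D % 8) ∨ (D % 2 = 0 ∧ d % 16 = D % 16)))

/-- the classes of `x - b² D` at `2` -/
def C2 (D d : ℤ) : Prop :=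
  (D % 4 = 1 ∧ d % 2 = 1) ∨ (D % 4 = 3 ∧ (d % 4 = 1 ∨ (d + D - 1) % 8 = 0)) ∨
  (D % 2 = 0 ∧ (d % 8 = 1 ∨ (d + D - 1) % 8 = 0 ∨ (d + D) % 16 = 0 ∨ (d + D - 4) % 16 = 0))

/-- the class of `d` is `1` or `D` -/
def H1 (p : ℕ) [Fact p.Prime] (D d : ℤ) : Prop :=
  IsSquare (d : ℚ_[p]) ∨ IsSquare ((d * D : ℤ) : ℚ_[p])

/-- the class of `d` is `1` or `-D` -/
def H3 (p : ℕ) [Fact p.Prime] (D d : ℤ) : Prop :=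
  IsSquare (d : ℚ_[p]) ∨ IsSquare ((-(d * D) : ℤ) : ℚ_[p])

/-- a nonzero integer which is a square in `ℚ₂` -/
def Sq2 (n : ℤ) : Prop := ∃ (k : ℕ) (u : ℤ), n = 4 ^ k * u ∧ u % 8 = 1

/-- a primitive Pythagorean triple `a² + (2 ^ e c)² = b²`, `a`, `b`, `c` odd -/
structure Tri (a b c : ℤ) (e : ℕ) : Prop where
  eq : a ^ 2 + (2 ^ e * c) ^ 2 = b ^ 2
  cop : IsCoprime a b
  oa : a % 2 = 1
  ob : b % 2 = 1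
  oc : c % 2 = 1
  he : 2 ≤ e

/-- APX, as in XS -/
def S_APX : Prop := ∀ (p : ℕ) [Fact p.Prime] (A B d1 d3 : ℤ), d1 ≠ 0 → d3 ≠ 0 →
  Loc ℚ_[p] A B d1 d3 → ∃ (m : ℕ) (X : ℤ),
    X * (X - A * ((p : ℤ) ^ m) ^ 2) * (X - B * ((p : ℤ) ^ m) ^ 2) ≠ 0 ∧
    IsSquare ((X * d1 : ℤ) : ℚ_[p]) ∧ IsSquare (((X - A * ((p : ℤ) ^ m) ^ 2) * d3 : ℤ) : ℚ_[p]) ∧
    IsSquare ((X * (X - A * ((p : ℤ) ^ m) ^ 2) * (X - B * ((p : ℤ) ^ m) ^ 2) : ℤ) : ℚ_[p])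

/-- SQ2, as in XS -/
def S_SQ2 : Prop := ∀ [Fact (Nat.Prime 2)] (n : ℤ), n ≠ 0 → (IsSquare (n : ℚ_[2]) ↔ Sq2 n)

/-- TOR: the classes of the points of order two, at every prime -/
def S_TOR : Prop := ∀ (p : ℕ) [Fact p.Prime] (a b c D d1 d3 : ℤ), a ≠ 0 → b ≠ 0 → c ≠ 0 →
  a ^ 2 + c ^ 2 = b ^ 2 → D ≠ 0 → d1 ≠ 0 → d3 ≠ 0 →
  H1 p D d1 → H3 p D d3 → Loc ℚ_[p] (b ^ 2 * D) (a ^ 2 * D) d1 d3

/-- LA: the odd primes which divide `D` -/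
def S_LA : Prop := ∀ (p : ℕ) [Fact p.Prime] (a b c D d1 d3 : ℤ), p ≠ 2 → a ^ 2 + c ^ 2 = b ^ 2 →
  ¬ (p : ℤ) ∣ a → ¬ (p : ℤ) ∣ b → ¬ (p : ℤ) ∣ c → (p : ℤ) ∣ D → ¬ (p : ℤ) ^ 2 ∣ D →
  d1 ≠ 0 → d3 ≠ 0 → Loc ℚ_[p] (b ^ 2 * D) (a ^ 2 * D) d1 d3 → H1 p D d1 ∧ H3 p D d3

/-- LP1: the primes which divide `a` -/
def S_LP1 : Prop := ∀ (p : ℕ) [Fact p.Prime] (a b c D d1 d3 : ℤ), p ≠ 2 → a ≠ 0 →
  a ^ 2 + c ^ 2 = b ^ 2 → (p : ℤ) ∣ a → ¬ (p : ℤ) ∣ b → jacobiSym (-D) p = -1 →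
  Squarefree d1 → Squarefree d3 →
  (Loc ℚ_[p] (b ^ 2 * D) (a ^ 2 * D) d1 d3 ↔ ¬ (p : ℤ) ∣ d1 ∧ ¬ (p : ℤ) ∣ d3)

/-- LP2: the primes which divide `b` -/
def S_LP2 : Prop := ∀ (p : ℕ) [Fact p.Prime] (a b c D d1 d3 : ℤ), p ≠ 2 → b ≠ 0 →
  a ^ 2 + c ^ 2 = b ^ 2 → (p : ℤ) ∣ b → ¬ (p : ℤ) ∣ a → jacobiSym (-D) p = -1 →
  Squarefree d1 → Squarefree d3 →
  (Loc ℚ_[p] (b ^ 2 * D) (a ^ 2 * D) d1 d3 ↔ ¬ (p : ℤ) ∣ d1 ∧ ¬ (p : ℤ) ∣ d3)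

/-- LP3: the odd primes which divide `c` -/
def S_LP3 : Prop := ∀ (p : ℕ) [Fact p.Prime] (a b c D d1 d3 : ℤ), p ≠ 2 → c ≠ 0 →
  a ^ 2 + c ^ 2 = b ^ 2 → (p : ℤ) ∣ c → ¬ (p : ℤ) ∣ b → jacobiSym D p = -1 →
  Squarefree d1 → Squarefree d3 →
  (Loc ℚ_[p] (b ^ 2 * D) (a ^ 2 * D) d1 d3 ↔ ¬ (p : ℤ) ∣ d1 ∧ ¬ (p : ℤ) ∣ d3)

/-- J2: the necessary conditions at `2` for the points with integral `x` -/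
def S_J2 (κ : ℤ) : Prop := ∀ (a b c : ℤ) (e : ℕ), Tri a b c e → ∀ D X d1 d3 : ℤ, D % 4 = κ →
  (3 ≤ e → D % 8 ≠ 1) → Squarefree d1 → Squarefree d3 →
  X * (X - b ^ 2 * D) * (X - a ^ 2 * D) ≠ 0 → Sq2 (X * d1) → Sq2 ((X - b ^ 2 * D) * d3) →
  Sq2 (X * (X - b ^ 2 * D) * (X - a ^ 2 * D)) → A2 D d1 ∧ C2 D d3

/-- L21: the prime `2`, necessary conditions -/
def S_L21 : Prop := ∀ [Fact (Nat.Prime 2)] (a b c : ℤ) (e : ℕ), Tri a b c e → ∀ D d1 d3 : ℤ,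
  D % 4 ≠ 0 → (3 ≤ e → D % 8 ≠ 1) → Squarefree d1 → Squarefree d3 →
  Loc ℚ_[2] (b ^ 2 * D) (a ^ 2 * D) d1 d3 → A2 D d1 ∧ C2 D d3

/-- L2R: the necessary conditions at `2`, reduction to the points with integral `x` -/
def S_L2R : Prop := S_APX → S_SQ2 → S_J2 1 → S_J2 3 → S_J2 2 → S_L21

/-- L22: the prime `2`, sufficient conditions -/
def S_L22 (κ : ℤ) : Prop := ∀ [Fact (Nat.Prime 2)] (a b c : ℤ) (e : ℕ), Tri a b c e →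
  ∀ D d1 d3 : ℤ, D % 4 = κ → (3 ≤ e → D % 8 ≠ 1) → Squarefree d1 → Squarefree d3 → A2 D d1 →
  C2 D d3 → Loc ℚ_[2] (b ^ 2 * D) (a ^ 2 * D) d1 d3

/-- LR: the real place -/
def S_LR : Prop := ∀ a b c D d1 d3 : ℤ, a ≠ 0 → c ≠ 0 → a ^ 2 + c ^ 2 = b ^ 2 → D < 0 → d1 ≠ 0 →
  d3 ≠ 0 → (Loc ℝ (b ^ 2 * D) (a ^ 2 * D) d1 d3 ↔ 0 < d3)

/-- LG: the primes of good reduction -/
def S_LG : Prop := ∀ (p : ℕ) [Fact p.Prime] (a b c D d1 d3 : ℤ), p ≠ 2 → a ^ 2 + c ^ 2 = b ^ 2 →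
  ¬ (p : ℤ) ∣ a → ¬ (p : ℤ) ∣ b → ¬ (p : ℤ) ∣ c → ¬ (p : ℤ) ∣ D → Squarefree d1 →
  Squarefree d3 → (Loc ℚ_[p] (b ^ 2 * D) (a ^ 2 * D) d1 d3 ↔ ¬ (p : ℤ) ∣ d1 ∧ ¬ (p : ℤ) ∣ d3)

/-- the 2-Selmer group of `y² = x (x - A) (x - B)` over the rationals -/
def Sel (A B : ℤ) : Set (ℤ × ℤ) :=
  {d | Squarefree d.1 ∧ Squarefree d.2 ∧ Loc ℝ A B d.1 d.2 ∧
    ∀ (p : ℕ) [Fact p.Prime], Loc ℚ_[p] A B d.1 d.2}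

/-- the classes `d₁` -/
def AS (D : ℤ) : Set ℤ := {d | Squarefree d ∧ A2 D d ∧ ∀ (p : ℕ) [Fact p.Prime], p ≠ 2 →
  ((p : ℤ) ∣ D → H1 p D d) ∧ (¬ (p : ℤ) ∣ D → ¬ (p : ℤ) ∣ d)}

/-- the classes `d₃` -/
def CS (D : ℤ) : Set ℤ := {d | Squarefree d ∧ 0 < d ∧ C2 D d ∧ ∀ (p : ℕ) [Fact p.Prime], p ≠ 2 →
  ((p : ℤ) ∣ D → H3 p D d) ∧ (¬ (p : ℤ) ∣ D → ¬ (p : ℤ) ∣ d)}

/-- the class of the twists -/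
def Cls (a b c : ℤ) (e : ℕ) (D : ℤ) : Prop := D < 0 ∧ Squarefree D ∧
  (∀ p : ℕ, p.Prime → (p : ℤ) ∣ a * b → jacobiSym (-D) p = -1) ∧
  (∀ p : ℕ, p.Prime → (p : ℤ) ∣ c → jacobiSym D p = -1) ∧ (3 ≤ e → D % 8 ≠ 1)

/-- SEL: the Selmer group is the product -/
def S_SEL : Prop := S_TOR → S_LA → S_LG → S_LP1 → S_LP2 → S_LP3 → S_L21 → S_L22 1 → S_L22 3 →
  S_L22 2 → S_LR → ∀ (a b c : ℤ) (e : ℕ), Tri a b c e → ∀ D : ℤ, Cls a b c e D →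
  Sel (b ^ 2 * D) (a ^ 2 * D) = AS D ×ˢ CS D

/-- PYT: the primitive Pythagorean triples -/
def S_PYT : Prop := ∀ a b c : ℤ, a ^ 2 + c ^ 2 = b ^ 2 → IsCoprime a c → a % 2 = 1 → c ≠ 0 →
  ∃ (e : ℕ) (c' : ℤ), c = 2 ^ e * c' ∧ Tri a b c' e

/-- EXI: the class is not empty -/
def S_EXI : Prop := ∀ (a b c : ℤ) (e : ℕ), Tri a b c e → ∃ D : ℤ, Cls a b c e D

end Pool.Agent.NH3.XT
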