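import Pool.Agent.NH3.XT.TOR
import Pool.Agent.NH3.XT.LA
import Pool.Agent.NH3.XT.LG
import Pool.Agent.NH3.XT.LR
import Pool.Agent.NH3.XT.LP1
import Pool.Agent.NH3.XT.LP2
import Pool.Agent.NH3.XT.LP3
import Pool.Agent.NH3.XT.L2R
import Pool.Agent.NH3.XT.J2a
import Pool.Agent.NH3.XT.J2b
import Pool.Agent.NH3.XT.J2c
import Pool.Agent.NH3.XT.L22a
import Pool.Agent.NH3.XT.L22b
import Pool.Agent.NH3.XT.L22c
import Pool.Agent.NH3.XT.SEL

/-!
# Project XT (helper3): the 2-Selmer group is the product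
-/

set_option autoImplicit false

open scoped Classical

namespace Pool.Agent.NH3.XT

theorem sel_all (a b c : ℤ) (e : ℕ) (hT : Tri a b c e) (D : ℤ) (hD : Cls a b c e D) :
    Sel (b ^ 2 * D) (a ^ 2 * D) = AS D ×ˢ CS D :=
  t_SEL t_TOR t_LA t_LG (t_LP1 t_TOR) (t_LP2 t_TOR) (t_LP3 t_TOR)
    (t_L2R t_APX t_SQ2 t_J2a t_J2b t_J2c) t_L22a t_L22b t_L22c t_LR a b c e hT D hD

end Pool.Agent.NH3.XT
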