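import Pool.Agent.NH3.XT.LawStm
import Pool.Agent.NH4.XJ.LOW
import Pool.Agent.NH4.PF.Den

/-!
# Project XT: the joint law in arbitrary residue classes (port of `NH4/XH/Den`, `NH4/XH/Law`)
-/

set_option autoImplicit false
set_option linter.style.haveILetI false
set_option linter.unusedVariables false

open scoped Classical

namespace Pool.Agent.NH3.XT

namespace Law

open Finset Filter Topology
open Pool.Agent.NH4.PF (WU sub_WU symm_split symm_sub ratio_sum)
open Pool.Agent.NH4.PJ (law)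
open Pool.Agent.NH4.XJ (OkJ)
open Pool.Agent.NH4.XG (OkG Ev S_XGDEN nx)

theorem card_iff {α : Type*} {s : Finset α} {p q : α → Prop} {ip : DecidablePred p}
    {iq : DecidablePred q} (h : ∀ x ∈ s, p x ↔ q x) : (s.filter p).card = (s.filter q).card := by
  refine congrArg Finset.card (Finset.ext fun x => ?_)
  rw [mem_filter, mem_filter]
  exact and_congr_right (h x)

/-- sets of primes -/
def Pm (S : Finset ℕ) : Prop := ∀ p ∈ S, p.Prime

theorem Pm.mono {S T : Finset ℕ} (h : Pm T) (hST : S ⊆ T) : Pm S := fun p hp => h p (hST hp)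

theorem Pm.pos {S : Finset ℕ} (h : Pm S) : 0 < ∏ p ∈ S, p :=
  Finset.prod_pos fun p hp => (h p hp).pos

theorem Pm.sqf {S : Finset ℕ} (h : Pm S) : Squarefree (∏ p ∈ S, p) := by
  refine Finset.squarefree_prod_of_pairwise_isCoprime (fun p hp q hq hpq => ?_)
    fun p hp => (h p hp).squarefree
  show IsRelPrime p q
  rw [← Nat.coprime_iff_isRelPrime]
  exact (Nat.coprime_primes (h p hp) (h q hq)).mpr hpq

theorem Pm.pf {S : Finset ℕ} (h : Pm S) : (∏ p ∈ S, p).primeFactors = S :=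
  Nat.primeFactors_prod fun p hp => h p hp

theorem pm_of (D : ℕ) : Pm D.primeFactors := fun p hp => Nat.prime_of_mem_primeFactors hp

theorem cop_mod (D m : ℕ) : Nat.Coprime (D % m) m ↔ Nat.Coprime D m := by
  unfold Nat.Coprime
  rw [← Nat.gcd_rec, Nat.gcd_comm]

/-- the conditions on the classes -/
structure PC (q : ℕ) (P : ℤ → Prop) : Prop where
  pos : 0 < q
  per : ∀ D D' : ℤ, D ≡ D' [ZMOD q] → (P D ↔ P D')

variable {M : ℕ} {q : ℕ} {P : ℤ → Prop}

theorem PC.nat (h : PC q P) {x y : ℕ} (hxy : x ≡ y [MOD q]) : P (-(x : ℤ)) ↔ P (-(y : ℤ)) :=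
  h.per _ _ ((Int.natCast_modEq_iff.2 hxy).neg)

/-- the primes of the masks, of the modulus, and `2` -/
noncomputable def W2 (q : ℕ) (U : Fin M → Finset ℕ) : Finset ℕ := insert 2 (WU U ∪ q.primeFactors)

theorem sub_W2 (q : ℕ) (U : Fin M → Finset ℕ) (t : Fin M) : U t ⊆ W2 q U :=
  (sub_WU U t).trans (Finset.subset_union_left.trans (Finset.subset_insert _ _))

/-- the modulus -/
noncomputable def md (q : ℕ) (U : Fin M → Finset ℕ) : ℕ := (4 * q) * ∏ p ∈ W2 q U, p

/-- the indices: the common part and the residue of the cofactor -/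
noncomputable def Idx (q : ℕ) (P : ℤ → Prop) (U : Fin M → Finset ℕ) : Finset (Finset ℕ × ℕ) :=
  ((W2 q U).powerset ×ˢ range (md q U)).filter fun z =>
    Nat.Coprime z.2 (md q U) ∧ P (-((z.2 * ∏ p ∈ z.1, p : ℕ) : ℤ))

theorem pm_W2 {U : Fin M → Finset ℕ} (hU : ∀ t, Pm (U t)) : Pm (W2 q U) := by
  intro p hp
  rcases Finset.mem_insert.1 hp with rfl | hp
  · exact Nat.prime_two
  rcases Finset.mem_union.1 hp with hp | hp
  · obtain ⟨t, -, ht⟩ := Finset.mem_biUnion.1 hp
    exact hU t p ht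
  · exact Nat.prime_of_mem_primeFactors hp

theorem md_pos (hq : 0 < q) {U : Fin M → Finset ℕ} (hU : ∀ t, Pm (U t)) : 0 < md q U :=
  Nat.mul_pos (Nat.mul_pos (by norm_num) hq) (pm_W2 hU).pos

theorem q_md (q : ℕ) (U : Fin M → Finset ℕ) : q ∣ md q U :=
  (Dvd.intro_left 4 rfl : q ∣ 4 * q).trans (Dvd.intro _ rfl)

/-- the decomposition of a squarefree number -/
theorem key (W : Finset ℕ) {D : ℕ} (hD : Squarefree D) :
    (∏ p ∈ D.primeFactors ∩ W, p) * (D / ∏ p ∈ D.primeFactors ∩ W, p) = D := by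
  refine Nat.mul_div_cancel' ?_
  calc (∏ p ∈ D.primeFactors ∩ W, p) ∣ ∏ p ∈ D.primeFactors, p :=
        Finset.prod_dvd_prod_of_subset _ _ _ Finset.inter_subset_left
    _ = D := Nat.prod_primeFactors_of_squarefree hD

theorem key2 (W : Finset ℕ) {D : ℕ} (hD : Squarefree D) :
    (D / ∏ p ∈ D.primeFactors ∩ W, p) = ∏ p ∈ D.primeFactors \ W, p := by
  have h1 := key W hD
  have h2 : (∏ p ∈ D.primeFactors ∩ W, p) * ∏ p ∈ D.primeFactors \ W, p = D := by
    rw [Finset.prod_inter_mul_prod_sdiff]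
    exact Nat.prod_primeFactors_of_squarefree hD
  have h0 : (∏ p ∈ D.primeFactors ∩ W, p) ≠ 0 :=
    Finset.prod_ne_zero_iff.2 fun p hp =>
      (Nat.prime_of_mem_primeFactors (Finset.mem_inter.1 hp).1).ne_zero
  exact Nat.eq_of_mul_eq_mul_left (Nat.pos_of_ne_zero h0) (h1.trans h2.symm)

/-- coprimality to the modulus -/
theorem cop_md (hq0 : 0 < q) {U : Fin M → Finset ℕ} (hU : ∀ t, Pm (U t)) {D' : ℕ} (h0 : D' ≠ 0)
    (h2 : Disjoint D'.primeFactors (W2 q U)) :
    Nat.Coprime D' (md q U) := by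
  have hcp : ∀ p ∈ W2 q U, Nat.Coprime D' p := by
    intro p hp
    rw [Nat.coprime_comm, Nat.Prime.coprime_iff_not_dvd (pm_W2 hU p hp)]
    intro h3
    exact Finset.disjoint_left.1 h2 (Nat.mem_primeFactors.2 ⟨pm_W2 hU p hp, h3, h0⟩) hp
  have h2' : Nat.Coprime D' 2 := hcp 2 (Finset.mem_insert_self _ _)
  have h4 : Nat.Coprime D' 4 := by
    have e : 4 = 2 ^ 2 := by norm_num
    rw [e]
    exact Nat.Coprime.pow_right 2 h2'
  have hq : Nat.Coprime D' q := by
    refine Nat.Coprime.symm (Nat.coprime_of_dvd fun p hp hpq hpD => ?_)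
    exact Finset.disjoint_left.1 h2 (Nat.mem_primeFactors.2 ⟨hp, hpD, h0⟩)
      (Finset.mem_insert_of_mem (Finset.mem_union_right _
        (Nat.mem_primeFactors.2 ⟨hp, hpq, hq0.ne'⟩)))
  exact Nat.Coprime.mul_right (Nat.Coprime.mul_right h4 hq) (Nat.Coprime.prod_right hcp)

/-- the index of a number -/
noncomputable def Fi (q : ℕ) (U : Fin M → Finset ℕ) (D : ℕ) : Finset ℕ × ℕ :=
  (D.primeFactors ∩ W2 q U, (D / ∏ p ∈ D.primeFactors ∩ W2 q U, p) % md q U)

theorem Fi_mem (hP : PC q P) {U : Fin M → Finset ℕ} (hU : ∀ t, Pm (U t)) {D : ℕ}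
    (hs : Squarefree D) (hr : P (-(D : ℤ))) : Fi q U D ∈ Idx q P U := by
  have hDp : Pm D.primeFactors := pm_of D
  have hm0 := md_pos hP.pos hU
  unfold Idx
  rw [Finset.mem_filter, Finset.mem_product, Finset.mem_powerset, Finset.mem_range]
  have e1 := key (W2 q U) hs
  have e2 := key2 (W2 q U) hs
  have e3 : (D / ∏ p ∈ D.primeFactors ∩ W2 q U, p).primeFactors = D.primeFactors \ W2 q U := by
    rw [e2]
    exact (hDp.mono Finset.sdiff_subset).pf
  have hdvd : (D / ∏ p ∈ D.primeFactors ∩ W2 q U, p) ∣ D := Dvd.intro_left _ e1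
  refine ⟨⟨Finset.inter_subset_right, Nat.mod_lt _ hm0⟩, ?_, ?_⟩
  · show Nat.Coprime ((D / ∏ p ∈ D.primeFactors ∩ W2 q U, p) % md q U) (md q U)
    rw [cop_mod]
    refine cop_md hP.pos hU ?_ ?_
    · rw [e2]
      exact (hDp.mono Finset.sdiff_subset).pos.ne'
    · rw [e3]
      exact Finset.sdiff_disjoint
  · show P (-(((D / ∏ p ∈ D.primeFactors ∩ W2 q U, p) % md q U * ∏ p ∈ D.primeFactors ∩ W2 q U, p : ℕ)
      : ℤ))
    rw [hP.nat (y := D) ?_]
    · exact hr
    · have h1 : (D / ∏ p ∈ D.primeFactors ∩ W2 q U, p) % md q U ≡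
          (D / ∏ p ∈ D.primeFactors ∩ W2 q U, p) [MOD q] :=
        (Nat.mod_modEq _ _).of_dvd (q_md q U)
      have h2 := h1.mul_right (∏ p ∈ D.primeFactors ∩ W2 q U, p)
      rw [Nat.mul_comm (D / _), e1] at h2
      exact h2

/-- **the decomposition** -/
theorem card_split (hP : PC q P) {U : Fin M → Finset ℕ}
    (hU : ∀ t, Pm (U t)) (R : Fin M → Finset ℕ → Prop) (X : ℕ) :
    ((Icc 1 X).filter fun D : ℕ => Squarefree D ∧ P (-(D : ℤ)) ∧
      ∀ t, R t (symmDiff D.primeFactors (U t))).card =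
      ∑ z ∈ Idx q P U, ((Icc 1 (X / ∏ p ∈ z.1, p)).filter fun D => Squarefree D ∧
        D % md q U = z.2 ∧ ∀ t, R t (D.primeFactors ∪ symmDiff z.1 (U t))).card := by
  set W := W2 q U with hW
  have hWp : Pm W := pm_W2 hU
  set m := md q U with hm
  have hm0 : 0 < m := md_pos hP.pos hU
  have hqm : q ∣ m := q_md q U
  have hWm : (∏ p ∈ W, p) ∣ m := Dvd.intro_left _ rfl
  have hmaps : ∀ D ∈ (Icc 1 X).filter fun D : ℕ => Squarefree D ∧ P (-(D : ℤ)) ∧
      ∀ t, R t (symmDiff D.primeFactors (U t)), Fi q U D ∈ Idx q P U := by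
    intro D hD
    obtain ⟨hD1, hs, hr, hR⟩ := Finset.mem_filter.1 hD
    exact Fi_mem hP hU hs hr
  rw [Finset.card_eq_sum_card_fiberwise hmaps]
  refine Finset.sum_congr rfl fun z hz => ?_
  obtain ⟨hz1, hz2, hz3⟩ := Finset.mem_filter.1 hz
  obtain ⟨he, hr⟩ := Finset.mem_product.1 hz1
  rw [Finset.mem_powerset] at he
  set a : ℕ := ∏ p ∈ z.1, p with ha
  have hep : Pm z.1 := hWp.mono he
  have ha0 : 0 < a := hep.pos
  have haf : a.primeFactors = z.1 := hep.pf
  have hasq : Squarefree a := hep.sqf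
  -- numbers prime to `W`
  have hcl : ∀ D : ℕ, D % m = z.2 → Nat.Coprime D m := by
    intro D h
    rw [← cop_mod, h]
    exact hz2
  have hcl2 : ∀ D : ℕ, Nat.Coprime D m → Disjoint D.primeFactors W := by
    intro D h
    rw [Finset.disjoint_left]
    intro p hp hpW
    have hp1 := Nat.prime_of_mem_primeFactors hp
    have h1 : p ∣ m := (Finset.dvd_prod_of_mem (fun p => p) hpW).trans hWm
    exact hp1.one_lt.ne' (Nat.Coprime.eq_one_of_dvd
      (Nat.Coprime.coprime_dvd_left (Nat.dvd_of_mem_primeFactors hp) h) h1)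
  refine Finset.card_bij' (fun D _ => D / a) (fun D _ => D * a) ?_ ?_ ?_ ?_
  · -- forward
    intro D hD
    obtain ⟨hD0, hFz⟩ := Finset.mem_filter.1 hD
    obtain ⟨hD1, hs, hr, hR⟩ := Finset.mem_filter.1 hD0
    have hDp : Pm D.primeFactors := pm_of D
    have e1 : D.primeFactors ∩ W = z.1 := congrArg Prod.fst hFz
    have e2 : (D / a) % m = z.2 := by
      have := congrArg Prod.snd hFz
      rw [← this]
      show _ = (D / ∏ p ∈ D.primeFactors ∩ W, p) % m
      rw [e1]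
    have e3 : D / a = ∏ p ∈ D.primeFactors \ W, p := by
      rw [← key2 W hs, e1]
    have e4 : (D / a).primeFactors = D.primeFactors \ W := by
      rw [e3]
      exact (hDp.mono Finset.sdiff_subset).pf
    have hsplit : D.primeFactors = (D / a).primeFactors ∪ z.1 := by
      rw [e4, ← e1, Finset.sdiff_union_inter]
    have hdis : Disjoint (D / a).primeFactors W := by
      rw [e4]
      exact Finset.sdiff_disjoint
    rw [Finset.mem_filter, Finset.mem_Icc]
    have hle : D / a ≤ X / a := Nat.div_le_div_right (Finset.mem_Icc.1 hD1).2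
    have hpos : 1 ≤ D / a := by
      rw [e3]
      exact (hDp.mono Finset.sdiff_subset).pos
    refine ⟨⟨hpos, hle⟩, ?_, e2, ?_⟩
    · have h1 : D / a ∣ D := Nat.div_dvd_of_dvd ⟨D / a, by
        have := key W hs
        rw [e1] at this
        exact this.symm⟩
      exact hs.squarefree_of_dvd h1
    · intro t
      have h1 := hR t
      rw [hsplit, symm_split hdis he (sub_W2 q U t)] at h1
      exact h1
  · -- backward
    intro D hD
    obtain ⟨hD1, hs, hC, hR⟩ := Finset.mem_filter.1 hD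
    have hcm := hcl D hC
    have hdis := hcl2 D hcm
    have hD0 : D ≠ 0 := hs.ne_zero
    have hcop : Nat.Coprime D a :=
      Nat.Coprime.coprime_dvd_right ((Finset.prod_dvd_prod_of_subset _ _ _ he).trans hWm) hcm
    have hpfm : (D * a).primeFactors = D.primeFactors ∪ z.1 := by
      rw [Nat.primeFactors_mul hD0 ha0.ne', haf]
    have hsq2 : Squarefree (D * a) := (Nat.squarefree_mul_iff).2 ⟨hcop, hs, hasq⟩
    have hin : (D.primeFactors ∪ z.1) ∩ W = z.1 := by
      rw [Finset.union_inter_distrib_right, Finset.disjoint_iff_inter_eq_empty.1 hdis,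
        Finset.empty_union, Finset.inter_eq_left.2 he]
    rw [Finset.mem_filter, Finset.mem_filter, Finset.mem_Icc]
    have hle : D * a ≤ X := (Nat.le_div_iff_mul_le ha0).1 (Finset.mem_Icc.1 hD1).2
    refine ⟨⟨⟨Nat.mul_pos (Finset.mem_Icc.1 hD1).1 ha0, hle⟩, hsq2, ?_, fun t => ?_⟩, ?_⟩
    · rw [hP.nat (y := z.2 * a) ?_]
      · exact hz3
      · have h1 : D ≡ z.2 [MOD m] := by
          rw [← hC]
          exact (Nat.mod_modEq _ _).symm
        exact (h1.of_dvd hqm).mul_right a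
    · rw [hpfm, symm_split hdis he (sub_W2 q U t)]
      exact hR t
    · show ((D * a).primeFactors ∩ W, (D * a / ∏ p ∈ (D * a).primeFactors ∩ W, p) % m) = z
      rw [hpfm, hin, Nat.mul_div_cancel _ ha0, hC]
  · intro D hD
    obtain ⟨hD0, hFz⟩ := Finset.mem_filter.1 hD
    obtain ⟨hD1, hs, hr, hR⟩ := Finset.mem_filter.1 hD0
    have e1 : D.primeFactors ∩ W = z.1 := congrArg Prod.fst hFz
    have h1 := key W hs
    rw [e1] at h1
    show D / a * a = D
    rw [mul_comm]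
    exact h1
  · intro D hD
    exact Nat.mul_div_cancel _ ha0

theorem ok_idx (hP : PC q P) {U : Fin M → Finset ℕ} (hU : ∀ t, Pm (U t))
    {z : Finset ℕ × ℕ} (hz : z ∈ Idx q P U) : OkJ (md q U) z.2 := by
  obtain ⟨hz1, hz2, hz3⟩ := Finset.mem_filter.1 hz
  obtain ⟨he, hr⟩ := Finset.mem_product.1 hz1
  refine ⟨md_pos hP.pos hU, ?_, Finset.mem_range.1 hr, hz2⟩
  exact (Dvd.intro _ rfl : 4 ∣ 4 * q).trans (Dvd.intro _ rfl)

theorem okM_idx {U : Fin M → Finset ℕ} (hU : ∀ t, Pm (U t))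
    (hinj : Function.Injective U) {z : Finset ℕ × ℕ} (hz : z ∈ Idx q P U) :
    OkG (md q U) (fun t => symmDiff z.1 (U t)) := by
  obtain ⟨hz1, hz2, hz3⟩ := Finset.mem_filter.1 hz
  obtain ⟨he, hr⟩ := Finset.mem_product.1 hz1
  rw [Finset.mem_powerset] at he
  refine ⟨fun t t' h => hinj (symmDiff_right_injective _ h), fun t u hu => ?_⟩
  have h1 : u ∈ W2 q U := symm_sub he (sub_W2 q U t) hu
  have h2 := pm_W2 hU u h1
  exact ⟨h2, Dvd.dvd.mul_left (Finset.dvd_prod_of_mem (fun p => p) h1) (4 * q)⟩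

/-- the number of the members of the class -/
noncomputable def cn (P : ℤ → Prop) (X : ℕ) : ℕ :=
  ((Icc 1 X).filter fun D : ℕ => Squarefree D ∧ P (-(D : ℤ))).card

/-- the class is large -/
theorem low (hP : PC q P) (hD : ∃ D : ℤ, D < 0 ∧ Squarefree D ∧ P D) :
    ∃ (c : ℝ) (X₀ : ℕ), 0 < c ∧ ∀ X : ℕ, X₀ ≤ X → c * X ≤ (cn P X : ℝ) := by
  obtain ⟨D₀, hD0, hDs, hDP⟩ := hD
  let U : Fin 0 → Finset ℕ := fun _ => ∅
  have hU : ∀ t, Pm (U t) := fun t => t.elim0
  have hN : (-(D₀.natAbs : ℤ)) = D₀ := by omega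
  have hz := Fi_mem (q := q) (P := P) hP hU (D := D₀.natAbs) (Int.squarefree_natAbs.2 hDs)
    (by rw [hN]; exact hDP)
  set z := Fi q U D₀.natAbs with hzd
  have hO := ok_idx hP hU hz
  obtain ⟨c, X₀, hc, g⟩ := NH4.XJ.t_XJLOW _ _ hO
  have ha : 0 < ∏ p ∈ z.1, p := ((pm_W2 hU).mono (Finset.mem_powerset.1
      (Finset.mem_product.1 (Finset.mem_filter.1 hz).1).1)).pos
  set a := ∏ p ∈ z.1, p with had
  have haR : (0 : ℝ) < a := by exact_mod_cast ha
  refine ⟨c / (2 * a), a * (X₀ + 1), by positivity, fun X hX => ?_⟩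
  have h1 : X₀ + 1 ≤ X / a := (Nat.le_div_iff_mul_le ha).2 (by rw [mul_comm]; exact hX)
  have h2 := g (X / a) (by omega)
  have e2 := NH3.XD.LowX.card_eq (md q U) z.2 hO.2.2.2 (X / a) (fun _ => True)
  rw [Finset.filter_true] at e2
  simp only [and_true] at e2
  rw [← e2] at h2
  have h3 := card_split hP hU (fun _ _ => True) X
  have h4 : cn P X = ((Icc 1 X).filter fun D : ℕ => Squarefree D ∧ P (-(D : ℤ)) ∧
      ∀ t : Fin 0, True).card := card_iff fun D _ => ⟨fun h => ⟨h.1, h.2, fun _ => trivial⟩,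
        fun h => ⟨h.1, h.2.1⟩⟩
  have h5 : ((Icc 1 (X / a)).filter fun N => Squarefree N ∧ N % md q U = z.2).card ≤ cn P X := by
    rw [h4, h3]
    have h6 := Finset.single_le_sum (f := fun z => ((Icc 1 (X / ∏ p ∈ z.1, p)).filter fun D =>
      Squarefree D ∧ D % md q U = z.2 ∧ ∀ t : Fin 0, True).card) (fun _ _ => Nat.zero_le _) hz
    refine le_trans (le_of_eq ?_) h6
    exact card_iff fun D _ => ⟨fun h => ⟨h.1, h.2, fun _ => trivial⟩, fun h => ⟨h.1, h.2.1⟩⟩
  have h7 : (((Icc 1 (X / a)).filter fun N => Squarefree N ∧ N % md q U = z.2).card : ℝ) ≤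
      (cn P X : ℝ) := Nat.cast_le.2 h5
  refine le_trans ?_ (h2.trans h7)
  have h8 : (X : ℝ) ≤ 2 * a * (X / a : ℕ) := by
    have h9 : X ≤ 2 * a * (X / a) := by
      have h10 := Nat.div_add_mod X a
      have h11 := Nat.mod_lt X ha
      have h12 : a * 1 ≤ a * (X / a) := Nat.mul_le_mul_left a (by omega)
      nlinarith
    exact_mod_cast h9
  calc c / (2 * a) * X ≤ c / (2 * a) * (2 * a * (X / a : ℕ)) :=
        mul_le_mul_of_nonneg_left h8 (by positivity)
    _ = c * ((X / a : ℕ) : ℝ) := by field_simp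

/-- **the joint law** -/
theorem joint (hJ : S_XGDEN) (hP : PC q P) (hD : ∃ D : ℤ, D < 0 ∧ Squarefree D ∧ P D)
    {U : Fin M → Finset ℕ} (hU : ∀ t, Pm (U t)) (hinj : Function.Injective U)
    (rr : Fin M → ℕ) :
    Filter.Tendsto (fun X : ℕ =>
      (((Icc 1 X).filter fun D : ℕ => Squarefree D ∧ P (-(D : ℤ)) ∧
        ∀ t, nx (symmDiff D.primeFactors (U t)) = 2 ^ (rr t + 1)).card : ℝ) / (cn P X : ℝ))
      Filter.atTop (nhds (∏ t, law 0 (rr t))) := by
  set Nz : Finset ℕ × ℕ → ℕ → ℕ := fun z X => ((Icc 1 (X / ∏ p ∈ z.1, p)).filter fun D =>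
    Squarefree D ∧ D % md q U = z.2).card with hNz
  set Gz : Finset ℕ × ℕ → ℕ → ℕ := fun z X => ((Icc 1 (X / ∏ p ∈ z.1, p)).filter fun D =>
    Squarefree D ∧ D % md q U = z.2 ∧
      Ev (fun t => symmDiff z.1 (U t)) rr D.primeFactors).card with hGz
  have hN : ∀ X, cn P X = ∑ z ∈ Idx q P U, Nz z X := by
    intro X
    have h := card_split hP hU (fun _ _ => True) X
    refine Eq.trans (card_iff fun D _ => ?_) (h.trans ?_)
    · exact ⟨fun h => ⟨h.1, h.2, fun _ => trivial⟩, fun h => ⟨h.1, h.2.1⟩⟩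
    refine Finset.sum_congr rfl fun z _ => ?_
    rw [hNz]
    refine card_iff fun D _ => ?_
    exact ⟨fun h => ⟨h.1, h.2.1⟩, fun h => ⟨h.1, h.2, fun _ => trivial⟩⟩
  have hG : ∀ X, ((Icc 1 X).filter fun D : ℕ => Squarefree D ∧ P (-(D : ℤ)) ∧
      ∀ t, nx (symmDiff D.primeFactors (U t)) = 2 ^ (rr t + 1)).card =
      ∑ z ∈ Idx q P U, Gz z X := by
    intro X
    have h := card_split hP hU (fun t S => nx S = 2 ^ (rr t + 1)) X
    refine (card_iff fun D _ => Iff.rfl).trans (h.trans ?_)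
    refine Finset.sum_congr rfl fun z _ => ?_
    rw [hGz]
    exact card_iff fun D _ => Iff.rfl
  have hmain := ratio_sum (Idx q P U) Gz Nz (∏ t, law 0 (rr t)) ?_ ?_ ?_
  · refine hmain.congr fun X => ?_
    rw [hN X, hG X]
  · intro z hz X
    refine Finset.card_le_card fun D hD => ?_
    obtain ⟨h1, h2, h3, h4⟩ := Finset.mem_filter.1 hD
    exact Finset.mem_filter.2 ⟨h1, h2, h3⟩
  · intro z hz
    have h1 := hJ M (md q U) z.2 (fun t => symmDiff z.1 (U t)) rr (ok_idx hP hU hz)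
      (okM_idx hU hinj hz)
    have hapos : 0 < ∏ p ∈ z.1, p := ((pm_W2 hU).mono (Finset.mem_powerset.1
      (Finset.mem_product.1 (Finset.mem_filter.1 hz).1).1)).pos
    exact h1.comp (Nat.tendsto_div_const_atTop hapos.ne')
  · obtain ⟨c, X₀, hc, hX⟩ := low hP hD
    filter_upwards [Filter.eventually_ge_atTop (max X₀ 1)] with X hX1
    have h1 := hX X (le_trans (le_max_left _ _) hX1)
    have h2 : 1 ≤ X := le_trans (le_max_right _ _) hX1
    have h3 : (0 : ℝ) < X := by exact_mod_cast h2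
    have h4 : 0 < c * X := mul_pos hc h3
    rw [hN X] at h1
    exact_mod_cast lt_of_lt_of_le h4 h1

/-- from negative integers to natural numbers -/
theorem cneg_eq (Q : ℤ → Prop) (X : ℕ) :
    cneg Q X = (((Icc 1 X).filter fun D : ℕ => Squarefree D ∧ Q (-(D : ℤ))).card : ℝ) := by
  unfold cneg
  congr 1
  refine Finset.card_bij' (fun D _ => D.natAbs) (fun N _ => -(N : ℤ)) ?_ ?_ ?_ ?_
  · intro D hD
    obtain ⟨h1, h2, h3⟩ := Finset.mem_filter.1 hD
    rw [Finset.mem_Icc] at h1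
    have hN : (-(D.natAbs : ℤ)) = D := by omega
    refine Finset.mem_filter.2 ⟨Finset.mem_Icc.2 ⟨by omega, by omega⟩,
      Int.squarefree_natAbs.2 h2, ?_⟩
    rw [hN]
    exact h3
  · intro N hN
    obtain ⟨h1, h2, h3⟩ := Finset.mem_filter.1 hN
    rw [Finset.mem_Icc] at h1
    refine Finset.mem_filter.2 ⟨Finset.mem_Icc.2 ⟨by omega, by omega⟩, ?_, h3⟩
    rw [← Int.squarefree_natAbs, Int.natAbs_neg, Int.natAbs_natCast]
    exact h2
  · intro D hD
    obtain ⟨h1, h2, h3⟩ := Finset.mem_filter.1 hD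
    rw [Finset.mem_Icc] at h1
    show (-(D.natAbs : ℤ)) = D
    omega
  · intro N hN
    show (-(N : ℤ)).natAbs = N
    omega

end Law

open Finset Filter Topology Law
open Pool.Agent.NH4.XG (nx)

theorem t_LAW : S_LAW := by
  intro hJ q P hq hper hD
  have hP : PC q P := ⟨hq, hper⟩
  refine ⟨fun k U rr hU hinj => ?_, ?_⟩
  · refine (joint hJ hP hD hU hinj rr).congr fun X => ?_
    rw [cneg_eq, cneg_eq]
    congr 2
    refine card_iff fun D _ => ?_
    rw [Int.natAbs_neg, Int.natAbs_natCast]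
  · obtain ⟨c, X₀, hc, h⟩ := low hP hD
    refine ⟨c, X₀, hc, fun X hX => ?_⟩
    rw [cneg_eq]
    exact h X hX

end Pool.Agent.NH3.XT
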