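import Pool.Agent.NH3.XT.SumStm

/-!
# Project XT, job SUM: the constants of the law add up to one.
-/

set_option autoImplicit false

namespace Pool.Agent.NH3.XT

open Finset Filter Topology

namespace SUM

/-- the finite products -/
noncomputable def Q (n : ℕ) : ℝ := ∏ i ∈ range n, (1 - (1 / 2 : ℝ) ^ (i + 1))

/-- the terms of the finite identity -/
noncomputable def f (n r : ℕ) : ℝ :=
  if r ≤ n then (1 / 2 : ℝ) ^ (r ^ 2) / (Q r ^ 2 * Q (n - r)) else 0

/-- the telescoping terms -/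
noncomputable def W (n : ℕ) : ℕ → ℝ
  | 0 => 0
  | r + 1 => f n r * (1 / 2 : ℝ) ^ (n + r + 1)

theorem fac_pos (i : ℕ) : 0 < 1 - (1 / 2 : ℝ) ^ (i + 1) := by
  have : (1 / 2 : ℝ) ^ (i + 1) < 1 := pow_lt_one₀ (by norm_num) (by norm_num) (by omega)
  linarith

theorem Q_pos (n : ℕ) : 0 < Q n := Finset.prod_pos fun i _ => fac_pos i

theorem Q_succ (n : ℕ) : Q (n + 1) = Q n * (1 - (1 / 2 : ℝ) ^ (n + 1)) := by
  unfold Q
  rw [Finset.prod_range_succ]

theorem Q_zero : Q 0 = 1 := by simp [Q]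

theorem rec (n r : ℕ) (hr : r ≤ n + 1) :
    (1 - (1 / 2 : ℝ) ^ (n + 1)) ^ 2 * f (n + 1) r - f n r = W n r - W n (r + 1) := by
  rcases Nat.eq_zero_or_pos r with h0 | h0
  · subst h0
    have h1 := Q_pos n
    have h2 := fac_pos n
    have e1 : f (n + 1) 0 = 1 / (Q n * (1 - (1 / 2 : ℝ) ^ (n + 1))) := by
      simp [f, Q_zero, Q_succ]
    have e2 : f n 0 = 1 / Q n := by simp [f, Q_zero]
    have e3 : W n 0 = 0 := rfl
    have e4 : W n (0 + 1) = f n 0 * (1 / 2 : ℝ) ^ (n + 0 + 1) := rfl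
    rw [e3, e4, e1, e2, Nat.add_zero]
    generalize (1 / 2 : ℝ) ^ (n + 1) = t at *
    field_simp
    ring
  · obtain ⟨s, rfl⟩ : ∃ s, r = s + 1 := ⟨r - 1, by omega⟩
    rcases Nat.lt_or_ge n (s + 1) with h | h
    · have hns : n = s := by omega
      subst hns
      have h1 := Q_pos n
      have h2 := fac_pos n
      have e1 : f (n + 1) (n + 1) =
          (1 / 2 : ℝ) ^ (n ^ 2) * (1 / 2 : ℝ) ^ (2 * n + 1) / (Q n * (1 - (1 / 2 : ℝ) ^ (n + 1))) ^ 2 := by
        simp only [f, le_refl, if_true, Nat.sub_self, Q_zero, mul_one, Q_succ]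
        rw [← pow_add]
        congr 2
        ring
      have e2 : f n (n + 1) = 0 := by simp [f]
      have e3 : W n (n + 1) = f n n * (1 / 2 : ℝ) ^ (n + n + 1) := rfl
      have e4 : W n (n + 1 + 1) = f n (n + 1) * (1 / 2 : ℝ) ^ (n + (n + 1) + 1) := rfl
      have e5 : f n n = (1 / 2 : ℝ) ^ (n ^ 2) / (Q n ^ 2) := by
        simp [f, Q_zero]
      rw [e3, e4, e1, e2, e5, show n + n + 1 = 2 * n + 1 by ring]
      generalize (1 / 2 : ℝ) ^ (n + 1) = t at *
      generalize (1 / 2 : ℝ) ^ (n ^ 2) = a at *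
      generalize (1 / 2 : ℝ) ^ (2 * n + 1) = b at *
      field_simp
      ring
    · obtain ⟨m, rfl⟩ : ∃ m, n = s + 1 + m := ⟨n - (s + 1), by omega⟩
      have h1 := Q_pos s
      have h2 := fac_pos s
      have h3 := Q_pos m
      have h4 := fac_pos m
      have e1 : f (s + 1 + m) (s + 1) = (1 / 2 : ℝ) ^ (s ^ 2) * (1 / 2 : ℝ) ^ (2 * s + 1) /
          ((Q s * (1 - (1 / 2 : ℝ) ^ (s + 1))) ^ 2 * Q m) := by
        have : s + 1 ≤ s + 1 + m := by omega
        have h' : s + 1 + m - (s + 1) = m := by omega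
        simp only [f, this, if_true, h', Q_succ]
        rw [← pow_add]
        congr 2
        ring
      have e2 : f (s + 1 + m + 1) (s + 1) = (1 / 2 : ℝ) ^ (s ^ 2) * (1 / 2 : ℝ) ^ (2 * s + 1) /
          ((Q s * (1 - (1 / 2 : ℝ) ^ (s + 1))) ^ 2 * (Q m * (1 - (1 / 2 : ℝ) ^ (m + 1)))) := by
        have : s + 1 ≤ s + 1 + m + 1 := by omega
        have h' : s + 1 + m + 1 - (s + 1) = m + 1 := by omega
        simp only [f, this, if_true, h', Q_succ]
        rw [← pow_add]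
        congr 2
        ring
      have e3 : f (s + 1 + m) s = (1 / 2 : ℝ) ^ (s ^ 2) /
          (Q s ^ 2 * (Q m * (1 - (1 / 2 : ℝ) ^ (m + 1)))) := by
        have : s ≤ s + 1 + m := by omega
        have h' : s + 1 + m - s = m + 1 := by omega
        simp only [f, this, if_true, h', Q_succ]
      have e4 : W (s + 1 + m) (s + 1) = f (s + 1 + m) s * (1 / 2 : ℝ) ^ (s + 1 + m + s + 1) := rfl
      have e5 : W (s + 1 + m) (s + 1 + 1) =
          f (s + 1 + m) (s + 1) * (1 / 2 : ℝ) ^ (s + 1 + m + (s + 1) + 1) := rfl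
      rw [e4, e5, e1, e2, e3]
      have p1 : (1 / 2 : ℝ) ^ (s + 1 + m + 1) = 1 / 4 * (1 / 2 : ℝ) ^ s * (1 / 2 : ℝ) ^ m := by
        rw [show s + 1 + m + 1 = s + m + 2 by ring, pow_add, pow_add]; ring
      have p2 : (1 / 2 : ℝ) ^ (2 * s + 1) = 1 / 2 * ((1 / 2 : ℝ) ^ s) ^ 2 := by
        rw [pow_succ, mul_comm 2 s, pow_mul]; ring
      have p3 : (1 / 2 : ℝ) ^ (s + 1) = 1 / 2 * (1 / 2 : ℝ) ^ s := by rw [pow_succ]; ring
      have p4 : (1 / 2 : ℝ) ^ (m + 1) = 1 / 2 * (1 / 2 : ℝ) ^ m := by rw [pow_succ]; ring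
      have p5 : (1 / 2 : ℝ) ^ (s + 1 + m + s + 1) =
          1 / 4 * ((1 / 2 : ℝ) ^ s) ^ 2 * (1 / 2 : ℝ) ^ m := by
        rw [show s + 1 + m + s + 1 = s + s + m + 2 by ring, pow_add, pow_add, pow_add]; ring
      have p6 : (1 / 2 : ℝ) ^ (s + 1 + m + (s + 1) + 1) =
          1 / 8 * ((1 / 2 : ℝ) ^ s) ^ 2 * (1 / 2 : ℝ) ^ m := by
        rw [show s + 1 + m + (s + 1) + 1 = s + s + m + 3 by ring, pow_add, pow_add, pow_add]; ring
      rw [p3] at h2
      rw [p4] at h4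
      rw [p1, p2, p3, p4, p5, p6]
      generalize (1 / 2 : ℝ) ^ s = x at *
      generalize (1 / 2 : ℝ) ^ m = y at *
      generalize (1 / 2 : ℝ) ^ (s ^ 2) = a at *
      generalize Q s = u at *
      generalize Q m = v at *
      have h2' : 1 - 1 / 2 * x ≠ 0 := h2.ne'
      have h4' : 1 - 1 / 2 * y ≠ 0 := h4.ne'
      have h1' : u ≠ 0 := h1.ne'
      have h3' : v ≠ 0 := h3.ne'
      have g2 : (2 : ℝ) - x ≠ 0 := by
        intro h
        apply h2'
        linarith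
      have g4 : (2 : ℝ) - y ≠ 0 := by
        intro h
        apply h4'
        linarith
      rw [show 1 - 1 / 2 * x = (2 - x) / 2 by ring, show 1 - 1 / 2 * y = (2 - y) / 2 by ring]
      field_simp
      ring

theorem fin (n : ℕ) : Q n ^ 2 * ∑ r ∈ range (n + 1), f n r = 1 := by
  induction n with
  | zero => simp [Q_zero, f]
  | succ n ih =>
    have h1 : ∑ r ∈ range (n + 1 + 1),
        ((1 - (1 / 2 : ℝ) ^ (n + 1)) ^ 2 * f (n + 1) r - f n r) = 0 := by
      have : ∀ r ∈ range (n + 1 + 1), (1 - (1 / 2 : ℝ) ^ (n + 1)) ^ 2 * f (n + 1) r - f n r =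
          W n r - W n (r + 1) := by
        intro r hr
        exact rec n r (by have := Finset.mem_range.1 hr; omega)
      rw [Finset.sum_congr rfl this, Finset.sum_range_sub']
      have e1 : W n 0 = 0 := rfl
      have e2 : W n (n + 1 + 1) = f n (n + 1) * (1 / 2 : ℝ) ^ (n + (n + 1) + 1) := rfl
      have e3 : f n (n + 1) = 0 := by simp [f]
      rw [e1, e2, e3]
      ring
    rw [Finset.sum_sub_distrib, ← Finset.mul_sum] at h1
    have h2 : ∑ r ∈ range (n + 1 + 1), f n r = ∑ r ∈ range (n + 1), f n r := by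
      rw [Finset.sum_range_succ]
      have e3 : f n (n + 1) = 0 := by simp [f]
      rw [e3, add_zero]
    rw [h2] at h1
    rw [Q_succ, mul_pow]
    linear_combination ih + Q n ^ 2 * h1

theorem summable_half : Summable (fun i : ℕ => (1 / 2 : ℝ) ^ i) :=
  summable_geometric_of_lt_one (by norm_num) (by norm_num)

theorem mult (k : ℕ) : Multipliable (fun i : ℕ => 1 - (1 / 2 : ℝ) ^ (i + k + 1)) := by
  have hs : Summable (fun i : ℕ => (1 / 2 : ℝ) ^ (i + k + 1)) := by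
    have : (fun i : ℕ => (1 / 2 : ℝ) ^ (i + k + 1)) =
        fun i : ℕ => (1 / 2 : ℝ) ^ (k + 1) * (1 / 2 : ℝ) ^ i := by
      funext i
      rw [← pow_add]
      congr 1
      ring
    rw [this]
    exact summable_half.mul_left _
  have := multipliable_one_add_of_summable (f := fun i : ℕ => -(1 / 2 : ℝ) ^ (i + k + 1))
    (by simpa [norm_neg, norm_pow] using hs)
  simpa [sub_eq_add_neg] using this

/-- the infinite product -/
noncomputable def c : ℝ := ∏' i : ℕ, (1 - (1 / 2 : ℝ) ^ (i + 1))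

theorem lim : Tendsto Q atTop (𝓝 c) := (mult 0).hasProd.tendsto_prod_nat

theorem Q_anti : Antitone Q := by
  apply antitone_nat_of_succ_le
  intro n
  rw [Q_succ]
  have h1 := Q_pos n
  have h2 : 0 < (1 / 2 : ℝ) ^ (n + 1) := by positivity
  nlinarith

theorem c_le (n : ℕ) : c ≤ Q n := Q_anti.le_of_tendsto lim n

theorem Q_ge (n : ℕ) : 1 / 4 + 1 / 2 * (1 / 2 : ℝ) ^ (n + 1) ≤ Q (n + 1) := by
  induction n with
  | zero => norm_num [Q]
  | succ n ih =>
    rw [Q_succ]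
    have h2 := fac_pos (n + 1)
    have h3 : 0 < (1 / 2 : ℝ) ^ (n + 1) := by positivity
    have h5 : (1 / 2 : ℝ) ^ (n + 1) ≤ 1 / 2 := by
      calc (1 / 2 : ℝ) ^ (n + 1) ≤ (1 / 2 : ℝ) ^ 1 :=
            pow_le_pow_of_le_one (by norm_num) (by norm_num) (by omega)
        _ = 1 / 2 := by norm_num
    have h4 : (1 / 2 : ℝ) ^ (n + 1 + 1) = 1 / 2 * (1 / 2 : ℝ) ^ (n + 1) := by rw [pow_succ]; ring
    rw [h4] at h2 ⊢
    have h6 := mul_le_mul_of_nonneg_right ih h2.le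
    nlinarith

theorem c_pos : 0 < c := by
  have h : ∀ n, 1 / 4 ≤ Q (n + 1) := by
    intro n
    have := Q_ge n
    have h3 : 0 < (1 / 2 : ℝ) ^ (n + 1) := by positivity
    linarith
  have h2 : Tendsto (fun n => Q (n + 1)) atTop (𝓝 c) := lim.comp (tendsto_add_atTop_nat 1)
  have := ge_of_tendsto' h2 h
  linarith

theorem cr_eq (r : ℕ) : cr r = (1 / 2 : ℝ) ^ (r ^ 2) * c / Q r ^ 2 := by
  have h1 : (∏ i ∈ range r, (1 - (1 / 2 : ℝ) ^ (i + 1))) *
      ∏' i : ℕ, (1 - (1 / 2 : ℝ) ^ (i + r + 1)) = ∏' i : ℕ, (1 - (1 / 2 : ℝ) ^ (i + 1)) :=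
    Multipliable.prod_mul_tprod_nat_mul' (f := fun i : ℕ => 1 - (1 / 2 : ℝ) ^ (i + 1)) (mult r)
  have h2 : ∏' i : ℕ, (1 - (1 / 2 : ℝ) ^ (r + i + 1)) = ∏' i : ℕ, (1 - (1 / 2 : ℝ) ^ (i + r + 1)) := by
    congr 1
    funext i
    rw [add_comm r i]
  have h3 : Q r * ∏' i : ℕ, (1 - (1 / 2 : ℝ) ^ (i + r + 1)) = c := h1
  have h4 := Q_pos r
  have h5 : cr r = (1 / 2 : ℝ) ^ (r ^ 2) * (∏' i : ℕ, (1 - (1 / 2 : ℝ) ^ (r + i + 1))) / Q r := rfl
  rw [h5, h2, ← h3]
  field_simp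

/-- the terms of the sum -/
noncomputable def a (n r : ℕ) : ℝ := Q n ^ 2 * f n r

theorem a_nonneg (n r : ℕ) : 0 ≤ a n r := by
  unfold a f
  split_ifs with h
  · have h1 := Q_pos r
    have h2 := Q_pos (n - r)
    positivity
  · simp

theorem a_le (n r : ℕ) : a n r ≤ 1 / c * (1 / 2 : ℝ) ^ r := by
  have hc := c_pos
  unfold a f
  split_ifs with h
  · have h1 := Q_pos r
    have h2 := Q_pos (n - r)
    have h3 := Q_pos n
    have h4 : Q n ≤ Q r := Q_anti h
    have h5 := c_le (n - r)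
    have h6 : (1 / 2 : ℝ) ^ (r ^ 2) ≤ (1 / 2 : ℝ) ^ r :=
      pow_le_pow_of_le_one (by norm_num) (by norm_num) (by nlinarith)
    have h7 : 0 < (1 / 2 : ℝ) ^ (r ^ 2) := by positivity
    have h8 : Q n ^ 2 ≤ Q r ^ 2 := pow_le_pow_left₀ h3.le h4 2
    rw [← mul_div_assoc, div_le_iff₀ (by positivity)]
    calc Q n ^ 2 * (1 / 2 : ℝ) ^ (r ^ 2) ≤ Q r ^ 2 * (1 / 2 : ℝ) ^ r := by
          apply mul_le_mul h8 h6 h7.le (by positivity)
      _ = 1 / c * (1 / 2 : ℝ) ^ r * (Q r ^ 2 * c) := by field_simp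
      _ ≤ 1 / c * (1 / 2 : ℝ) ^ r * (Q r ^ 2 * Q (n - r)) := by
          apply mul_le_mul_of_nonneg_left _ (by positivity)
          apply mul_le_mul_of_nonneg_left h5 (by positivity)
  · rw [mul_zero]
    positivity

theorem a_lim (r : ℕ) : Tendsto (fun n => a n r) atTop (𝓝 (cr r)) := by
  have h1 : Tendsto (fun n => Q (n - r)) atTop (𝓝 c) := lim.comp (tendsto_sub_atTop_nat r)
  have h2 : Tendsto (fun n => Q n ^ 2 * ((1 / 2 : ℝ) ^ (r ^ 2) / (Q r ^ 2 * Q (n - r)))) atTop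
      (𝓝 (c ^ 2 * ((1 / 2 : ℝ) ^ (r ^ 2) / (Q r ^ 2 * c)))) := by
    apply (lim.pow 2).mul
    apply Tendsto.div tendsto_const_nhds (tendsto_const_nhds.mul h1)
    have := c_pos
    have := Q_pos r
    positivity
  have h3 : c ^ 2 * ((1 / 2 : ℝ) ^ (r ^ 2) / (Q r ^ 2 * c)) = cr r := by
    rw [cr_eq]
    have := c_pos
    have := Q_pos r
    field_simp
  rw [h3] at h2
  refine h2.congr' ?_
  filter_upwards [eventually_ge_atTop r] with n hn
  simp [a, f, hn]

theorem a_sum (n : ℕ) : ∑' r, a n r = 1 := by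
  rw [tsum_eq_sum (s := range (n + 1))]
  · unfold a
    rw [← Finset.mul_sum]
    exact fin n
  · intro r hr
    have : ¬ r ≤ n := by
      intro h
      apply hr
      exact Finset.mem_range.2 (by omega)
    simp [a, f, this]

end SUM

open SUM in
/-- SUM: the constants add up to one -/
theorem t_SUM : S_SUM := by
  have hb : Summable (fun r : ℕ => 1 / c * (1 / 2 : ℝ) ^ r) := summable_half.mul_left _
  have h1 : Tendsto (fun n => ∑' r, a n r) atTop (𝓝 (∑' r, cr r)) := by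
    apply tendsto_tsum_of_dominated_convergence hb a_lim
    filter_upwards with n r
    rw [Real.norm_eq_abs, abs_of_nonneg (a_nonneg n r)]
    exact a_le n r
  have h2 : ∑' r, cr r = 1 := by
    have h3 : (fun n => ∑' r, a n r) = fun _ => (1 : ℝ) := funext a_sum
    rw [h3] at h1
    exact (tendsto_nhds_unique h1 tendsto_const_nhds)
  have h4 : Summable cr := by
    apply Summable.of_nonneg_of_le _ _ hb
    · intro r
      exact ge_of_tendsto' (a_lim r) (fun n => a_nonneg n r)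
    · intro r
      exact le_of_tendsto' (a_lim r) (fun n => a_le n r)
  unfold S_SUM
  rw [← h2]
  exact h4.hasSum

end Pool.Agent.NH3.XT
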