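import Pool.Agent.NH3.XT.Cnt
import Pool.Agent.NH3.XT.Fin0
import Pool.Agent.NH3.XT.Law
import Pool.Agent.NH3.XT.SUM
import Pool.Agent.NH3.XT.EXI
import Pool.Agent.NH3.XS.R4
import Pool.Agent.NH4.XG.Fin

/-!
# Project XT (helper3): assembly
-/

set_option autoImplicit false

open scoped Classical

namespace Pool.Agent.NH3.XT

open Finset Filter Topology
open Pool.Agent.Y667.SX (Sel2H)
open Pool.Agent.Y667.BK (SelInf)
open Pool.Agent.TH841.SH.D (Sha)
open Pool.Agent.NH4.XG (nx S_XGDEN)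
open Pool.Agent.NH3.XS (G4)

/-- the primes of the squarefree part of a product -/
theorem pf_symm {D g D' k : ℤ} (hD : Squarefree D) (hg : Squarefree g) (hD' : Squarefree D')
    (hk : k ≠ 0) (h : D * g = D' * k ^ 2) :
    D'.natAbs.primeFactors = symmDiff D.natAbs.primeFactors g.natAbs.primeFactors := by
  set S := D.natAbs.primeFactors with hS
  set T := g.natAbs.primeFactors with hT
  have hSp : ∀ p ∈ S, p.Prime := fun p hp => Nat.prime_of_mem_primeFactors hp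
  have hTp : ∀ p ∈ T, p.Prime := fun p hp => Nat.prime_of_mem_primeFactors hp
  have hUp : ∀ p ∈ symmDiff S T, p.Prime := by
    intro p hp
    rcases Finset.mem_symmDiff.1 hp with h1 | h1
    · exact hSp p h1.1
    · exact hTp p h1.1
  have e1 : ∏ p ∈ S, p = D.natAbs :=
    Nat.prod_primeFactors_of_squarefree (Int.squarefree_natAbs.2 hD)
  have e2 : ∏ p ∈ T, p = g.natAbs :=
    Nat.prod_primeFactors_of_squarefree (Int.squarefree_natAbs.2 hg)
  have e3 : (∏ p ∈ S, p) * ∏ p ∈ T, p = (∏ p ∈ symmDiff S T, p) * (∏ p ∈ S ∩ T, p) ^ 2 := by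
    have h1 := Pool.Agent.NH4.PF.prod_symmDiff (fun p : ℕ => (p : ℤ)) S T
    have h2 : ((∏ p ∈ S, p : ℕ) : ℤ) * ((∏ p ∈ T, p : ℕ) : ℤ) =
        ((∏ p ∈ symmDiff S T, p : ℕ) : ℤ) * ((∏ p ∈ S ∩ T, p : ℕ) : ℤ) ^ 2 := by
      rw [Nat.cast_prod, Nat.cast_prod, Nat.cast_prod, Nat.cast_prod]
      convert h1
    exact_mod_cast h2
  have e4 : D.natAbs * g.natAbs = D'.natAbs * k.natAbs ^ 2 := by
    rw [← Int.natAbs_mul, h, Int.natAbs_mul, Int.natAbs_pow]
  rw [e1, e2, e4] at e3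
  have hsq : Squarefree (∏ p ∈ symmDiff S T, p) := by
    refine Finset.squarefree_prod_of_pairwise_isCoprime (fun p hp q hq hpq => ?_)
      fun p hp => (hUp p hp).squarefree
    show IsRelPrime p q
    rw [← Nat.coprime_iff_isRelPrime]
    exact (Nat.coprime_primes (hUp p hp) (hUp q hq)).mpr hpq
  have hne : (∏ p ∈ S ∩ T, p) ≠ 0 :=
    Finset.prod_ne_zero_iff.2 fun p hp => (hSp p (Finset.mem_inter.1 hp).1).ne_zero
  have e5 := Pool.Agent.NH4.PF.sqf_unique_nat (Int.squarefree_natAbs.2 hD') hsq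
    (Int.natAbs_ne_zero.2 hk) hne e3
  rw [e5, Nat.primeFactors_prod hUp]

/-- the squarefree part is in the class -/
def Gd (a b c : ℤ) (e : ℕ) (M : ℤ) : Prop :=
  ∃ D k : ℤ, k ≠ 0 ∧ M = D * k ^ 2 ∧ Cls a b c e D

theorem tri_ne {a b c : ℤ} {e : ℕ} (hT : Tri a b c e) : a ≠ 0 ∧ b ≠ 0 ∧ c ≠ 0 ∧ a ^ 2 ≠ b ^ 2 := by
  have ha : a ≠ 0 := by
    rintro rfl
    exact absurd hT.oa (by norm_num)
  have hb : b ≠ 0 := by
    rintro rfl
    exact absurd hT.ob (by norm_num)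
  have hc : c ≠ 0 := by
    rintro rfl
    exact absurd hT.oc (by norm_num)
  refine ⟨ha, hb, hc, fun h => ?_⟩
  have h1 := hT.eq
  have h2 : 0 < (2 ^ e * c) ^ 2 := by positivity
  linarith

/-- the orders, for the members of the class times a square -/
theorem ords {a b c : ℤ} {e : ℕ} (hT : Tri a b c e) {D k : ℤ} (hk : k ≠ 0) (hD : Cls a b c e D) :
    Nat.card (Sel2H (Ec a b (D * k ^ 2))) = nx D.natAbs.primeFactors ^ 2 ∧
    4 * (2 ^ Module.finrank ℤ (Ec a b (D * k ^ 2)).toAffine.Point *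
        Nat.card {x : Sha (Ec a b (D * k ^ 2)) // x + x = 0}) = nx D.natAbs.primeFactors ^ 2 ∧
    4 * Nat.card {x : SelInf (Ec a b (D * k ^ 2)) // x + x = 0} = nx D.natAbs.primeFactors ^ 2 := by
  obtain ⟨ha, hb, hc, hab⟩ := tri_ne hT
  have h1 := card_prod hD.1 hD.2.1
  rw [← sel_all a b c e hT D hD] at h1
  obtain ⟨⟨-, h2⟩, ⟨-, h3⟩, -, h4⟩ := orders ha hb hab hD.1.ne hk h1
  exact ⟨h2, h3, h4⟩

theorem four_mul_eq {n m r : ℕ} (h : 4 * n = m ^ 2) : n = 4 ^ r ↔ m = 2 ^ (r + 1) := by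
  have e : 4 * 4 ^ r = (2 ^ (r + 1)) ^ 2 := by
    rw [show (4 : ℕ) = 2 ^ 2 by norm_num, ← pow_mul, ← pow_add, ← pow_mul]
    congr 1
    ring
  constructor
  · rintro rfl
    rw [e] at h
    exact (Nat.pow_left_injective two_ne_zero h).symm
  · rintro rfl
    rw [← e] at h
    exact Nat.eq_of_mul_eq_mul_left (by norm_num) h

/-- the event -/
theorem ev_iff {a b c : ℤ} {e : ℕ} (hT : Tri a b c e) {D : ℤ} {g : ℕ} (hD : Squarefree D)
    (hg : Squarefree g) (h : Gd a b c e (D * g)) (r : ℕ) :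
    Nat.card {x : SelInf (Ec a b (D * g)) // x + x = 0} = 4 ^ r ↔
      nx (symmDiff D.natAbs.primeFactors g.primeFactors) = 2 ^ (r + 1) := by
  obtain ⟨D', k, hk, e1, hC⟩ := h
  obtain ⟨-, -, h3⟩ := ords hT hk hC
  rw [← e1] at h3
  have h4 := pf_symm hD (Int.squarefree_natCast.2 hg) hC.2.1 hk e1
  rw [Int.natAbs_natCast] at h4
  rw [h4] at h3
  exact four_mul_eq h3

theorem law_cr (r : ℕ) : Pool.Agent.NH4.PJ.law 0 r = cr r := by
  unfold Pool.Agent.NH4.PJ.law cr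
  have e1 : (2 : ℝ) ^ ((r : ℤ) * 0 - (r : ℤ) ^ 2) = (1 / 2 : ℝ) ^ (r ^ 2) := by
    rw [mul_zero, zero_sub, zpow_neg, one_div, inv_pow]
    norm_cast
  have e2 : ∀ i : ℕ, (2 : ℝ) ^ (0 - (r : ℤ) - ((i : ℤ) + 1)) = (1 / 2 : ℝ) ^ (r + i + 1) := by
    intro i
    rw [show (0 - (r : ℤ) - ((i : ℤ) + 1)) = -((r + i + 1 : ℕ) : ℤ) by push_cast; ring, zpow_neg,
      zpow_natCast, one_div, inv_pow]
  rw [e1]
  simp only [e2]
  rw [div_mul_eq_mul_div]

/-- **the joint law** -/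
theorem law_gen {m n : ℕ} (hm : 0 < m) {a b c : Fin m → ℤ} {e : Fin m → ℕ}
    (hT : ∀ i, Tri (a i) (b i) (c i) (e i)) {g : Fin n → ℕ} (hg : ∀ t, Squarefree (g t))
    (hinj : Function.Injective g) {q : ℕ} {P : ℤ → Prop} (hq : 0 < q)
    (hper : ∀ D D' : ℤ, D ≡ D' [ZMOD q] → (P D ↔ P D'))
    (hex : ∃ D : ℤ, D < 0 ∧ Squarefree D ∧ P D)
    (hG : ∀ D : ℤ, D < 0 → Squarefree D → P D → ∀ i t, Gd (a i) (b i) (c i) (e i) (D * g t))
    (r : Fin n → ℕ) :
    Tendsto (fun X : ℕ => cneg (fun D => P D ∧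
      ∀ i t, Nat.card {x : SelInf (Ec (a i) (b i) (D * g t)) // x + x = 0} = 4 ^ r t) X / cneg P X)
      atTop (𝓝 (∏ t, cr (r t))) ∧
    ∃ (δ : ℝ) (X₀ : ℕ), 0 < δ ∧ ∀ X : ℕ, X₀ ≤ X → δ * X ≤ cneg P X := by
  have hU : Function.Injective fun t => (g t).primeFactors := by
    intro t t' h
    refine hinj ?_
    rw [← Nat.prod_primeFactors_of_squarefree (hg t), ← Nat.prod_primeFactors_of_squarefree (hg t')]
    show ∏ p ∈ (fun t => (g t).primeFactors) t, p = _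
    rw [h]
  obtain ⟨h1, h2⟩ := t_LAW Pool.Agent.NH4.XG.f_XGDEN q P hq hper hex
  refine ⟨?_, h2⟩
  have h3 := h1 n (fun t => (g t).primeFactors) r
    (fun t p hp => Nat.prime_of_mem_primeFactors hp) hU
  simp only [law_cr] at h3
  refine h3.congr fun X => ?_
  have key0 : ∀ Q Q' : ℤ → Prop, (∀ D : ℤ, D < 0 → Squarefree D → (Q D ↔ Q' D)) →
      cneg Q X = cneg Q' X := by
    intro Q Q' h
    unfold cneg
    refine congrArg (fun s : Finset ℤ => ((s.card : ℕ) : ℝ)) (Finset.ext fun D => ?_)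
    rw [Finset.mem_filter, Finset.mem_filter]
    refine and_congr_right fun hD => and_congr_right fun hs => ?_
    rw [Finset.mem_Icc] at hD
    exact h D (by omega) hs
  refine congrArg (· / cneg P X) (key0 _ _ fun D hD0 hs => and_congr_right fun hP => ?_)
  have key : ∀ i t, Nat.card {x : SelInf (Ec (a i) (b i) (D * g t)) // x + x = 0} = 4 ^ r t ↔
      nx (symmDiff D.natAbs.primeFactors (g t).primeFactors) = 2 ^ (r t + 1) :=
    fun i t => ev_iff (hT i) hs (hg t) (hG D hD0 hs hP i t) (r t)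
  constructor
  · exact fun h i t => (key i t).2 (h t)
  · exact fun h t => (key ⟨0, hm⟩ t).1 (h _ t)

end Pool.Agent.NH3.XT
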