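import Pool.Agent.NH3.XT.StmP2

/-!
# XP-8 GE2: the conditions at `2`
-/

set_option autoImplicit false

namespace Pool.Agent.NH3.XT

namespace GE2

theorem congr {D D0 d d0 : ℤ} (h1 : D % 16 = D0 % 16) (h2 : d % 16 = d0 % 16) (h : C2 D0 d0) :
    C2 D d := by
  unfold C2 at *
  omega

/-- the condition as a decidable one, for numbers less than `16` -/
def ok (D d : ℕ) : Bool :=
  (D % 4 = 1 ∧ d % 2 = 1) ∨ (D % 4 = 3 ∧ (d % 4 = 1 ∨ (d + D + 7) % 8 = 0)) ∨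
  (D % 2 = 0 ∧ (d % 8 = 1 ∨ (d + D + 7) % 8 = 0 ∨ (d + D) % 16 = 0 ∨ (d + D + 12) % 16 = 0))

theorem ok_C2 {D d : ℕ} (h : ok D d = true) : C2 D d := by
  unfold ok at h
  unfold C2
  rw [decide_eq_true_eq] at h
  omega

theorem check : ∀ x y : Fin 16, ∀ i j : Fin 4, ∀ r : Fin 2,
    (x.val * y.val) % 4 ≠ 0 → (r.val = 0 ∨ (x.val * y.val) % 4 = 3) →
    (x.val * i.val ^ 2) % 16 = (y.val * j.val ^ 2 + (r.val + 1)) % 16 →
    ok (x.val * y.val) ((r.val + 1) * x.val) = true ∧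
    ok (x.val * y.val) (16 * (r.val + 1) * y.val - (r.val + 1) * y.val) = true := by
  decide +kernel

theorem sq16 (a : ℤ) : ∃ i : Fin 4, a ^ 2 % 16 = ((i.val ^ 2 : ℕ) : ℤ) := by
  have h : a % 16 = 0 ∨ a % 16 = 1 ∨ a % 16 = 2 ∨ a % 16 = 3 ∨ a % 16 = 4 ∨ a % 16 = 5 ∨
    a % 16 = 6 ∨ a % 16 = 7 ∨ a % 16 = 8 ∨ a % 16 = 9 ∨ a % 16 = 10 ∨ a % 16 = 11 ∨
    a % 16 = 12 ∨ a % 16 = 13 ∨ a % 16 = 14 ∨ a % 16 = 15 := by omega
  have e : a ^ 2 % 16 = (a % 16) ^ 2 % 16 := by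
    rw [pow_two, pow_two, Int.mul_emod]
  rw [e]
  rcases h with h | h | h | h | h | h | h | h | h | h | h | h | h | h | h | h <;> rw [h]
  · exact ⟨0, by norm_num⟩
  · exact ⟨1, by norm_num⟩
  · exact ⟨2, by norm_num⟩
  · exact ⟨3, by norm_num⟩
  · exact ⟨0, by norm_num⟩
  · exact ⟨3, by norm_num⟩
  · exact ⟨2, by norm_num⟩
  · exact ⟨1, by norm_num⟩
  · exact ⟨0, by norm_num⟩
  · exact ⟨1, by norm_num⟩
  · exact ⟨2, by norm_num⟩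
  · exact ⟨3, by norm_num⟩
  · exact ⟨0, by norm_num⟩
  · exact ⟨3, by norm_num⟩
  · exact ⟨2, by norm_num⟩
  · exact ⟨1, by norm_num⟩

theorem not_four {D : ℤ} (h : Squarefree D) : D % 4 ≠ 0 := by
  intro h4
  have h1 : (2 : ℤ) * 2 ∣ D := by
    have : (4 : ℤ) ∣ D := Int.dvd_of_emod_eq_zero h4
    norm_num
    exact this
  have h2 := h 2 h1
  rw [Int.isUnit_iff] at h2
  omega

theorem mod_nat (d : ℤ) : ∃ x : ℕ, x < 16 ∧ d % 16 = (x : ℤ) := by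
  refine ⟨(d % 16).toNat, ?_, ?_⟩
  · have := Int.emod_lt_of_pos d (by norm_num : (0 : ℤ) < 16)
    have := Int.emod_nonneg d (by norm_num : (16 : ℤ) ≠ 0)
    omega
  · have := Int.emod_nonneg d (by norm_num : (16 : ℤ) ≠ 0)
    omega

theorem mod_mul {a b c e : ℤ} (h1 : a % 16 = c % 16) (h2 : b % 16 = e % 16) :
    (a * b) % 16 = (c * e) % 16 := Int.ModEq.mul h1 h2

end GE2

open GE2

/-- XP-8 GE2 -/
theorem t_GE2 : S_GE2 := by
  intro D d D' a b t hD hdD hab ht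
  obtain ⟨x, hx, hx'⟩ := mod_nat d
  obtain ⟨y, hy, hy'⟩ := mod_nat D'
  obtain ⟨i, hA'⟩ := sq16 a
  obtain ⟨j, hB'⟩ := sq16 b
  obtain ⟨A, hA⟩ : ∃ A, A = i.val ^ 2 := ⟨_, rfl⟩
  obtain ⟨B, hB⟩ : ∃ B, B = j.val ^ 2 := ⟨_, rfl⟩
  rw [← hA] at hA'
  rw [← hB] at hB'
  have ex : d % 16 = (x : ℤ) % 16 := by omega
  have ey : D' % 16 = (y : ℤ) % 16 := by omega
  have eA : a ^ 2 % 16 = (A : ℤ) % 16 := by omega
  have eB : b ^ 2 % 16 = (B : ℤ) % 16 := by omega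
  have eD : D % 16 = ((x * y : ℕ) : ℤ) % 16 := by
    rw [← hdD]
    push_cast
    exact mod_mul ex ey
  have eA2 : (d * a ^ 2) % 16 = ((x * A : ℕ) : ℤ) % 16 := by
    push_cast
    exact mod_mul ex eA
  have eB2 : (D' * b ^ 2) % 16 = ((y * B : ℕ) : ℤ) % 16 := by
    push_cast
    exact mod_mul ey eB
  have h4 := not_four hD
  have h4' : (x * y) % 4 ≠ 0 := by omega
  obtain ⟨s, hs, hst⟩ : ∃ s : ℕ, s < 2 ∧ t = ((s + 1 : ℕ) : ℤ) := by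
    rcases ht with h | ⟨h, _⟩
    · exact ⟨0, by omega, by omega⟩
    · exact ⟨1, by omega, by omega⟩
  have h5 : s = 0 ∨ (x * y) % 4 = 3 := by
    rcases ht with h | ⟨_, h⟩
    · left; omega
    · right; omega
  have h6 : (x * A) % 16 = (y * B + (s + 1)) % 16 := by omega
  rw [hA, hB] at h6
  obtain ⟨c1, c2⟩ := check ⟨x, hx⟩ ⟨y, hy⟩ i j ⟨s, hs⟩ h4' h5 h6
  have es : t % 16 = ((s + 1 : ℕ) : ℤ) % 16 := by rw [hst]
  refine ⟨congr eD ?_ (ok_C2 c1), congr eD ?_ (ok_C2 c2)⟩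
  · rw [Nat.cast_mul]
    exact mod_mul es ex
  · have e1 : (t * D') % 16 = (((s + 1) * y : ℕ) : ℤ) % 16 := by
      rw [Nat.cast_mul]
      exact mod_mul es ey
    have e3 : 16 * (s + 1) * y - (s + 1) * y = 15 * ((s + 1) * y) := by
      rw [mul_assoc]
      omega
    change -(t * D') % 16 = ((16 * (s + 1) * y - (s + 1) * y : ℕ) : ℤ) % 16
    rw [e3]
    generalize (s + 1) * y = z at *
    push_cast
    omega

end Pool.Agent.NH3.XT
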