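import Pool.Agent.NH3.XT.StmP2

/-!
# XP-7 GEO: the conditions at the odd primes
-/

set_option autoImplicit false

namespace Pool.Agent.NH3.XT

namespace GEOp

/-- Hensel's lemma for squares (as in `Pool/Agent/NH3/XS/SQ.lean`) -/
lemma of_zmod {p : ℕ} [Fact p.Prime] (hp2 : p ≠ 2) {n : ℤ} (hn : ¬ (p : ℤ) ∣ n)
    (h : IsSquare (n : ZMod p)) : IsSquare (n : ℚ_[p]) := by
  obtain ⟨y, hy⟩ := h
  obtain ⟨a, rfl⟩ := ZMod.intCast_surjective y
  have h1 : (p : ℤ) ∣ a * a - n := by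
    rw [← ZMod.intCast_zmod_eq_zero_iff_dvd]
    push_cast
    rw [hy]
    ring
  have ha : ¬ (p : ℤ) ∣ a := by
    intro h
    apply hn
    have h2 : (p : ℤ) ∣ a * a := Dvd.dvd.mul_right h a
    have h3 : n = a * a - (a * a - n) := by ring
    rw [h3]
    exact dvd_sub h2 h1
  have hpp : Prime (p : ℤ) := Nat.prime_iff_prime_int.1 (Fact.out : p.Prime)
  have h2a : ¬ (p : ℤ) ∣ 2 * a := by
    intro h
    rcases hpp.dvd_or_dvd h with h2 | h2
    · have h3 : p ∣ 2 := by exact_mod_cast h2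
      have := (Nat.prime_dvd_prime_iff_eq (Fact.out : p.Prime) Nat.prime_two).1 h3
      exact hp2 this
    · exact ha h2
  have h2a' : ‖((2 * a : ℤ) : ℤ_[p])‖ = 1 := by
    refine le_antisymm (PadicInt.norm_le_one _) (not_lt.1 fun h => h2a ?_)
    exact (PadicInt.norm_int_lt_one_iff_dvd _).1 h
  have hlt : ‖((a * a - n : ℤ) : ℤ_[p])‖ < 1 := (PadicInt.norm_int_lt_one_iff_dvd _).2 h1
  have key : ∃ z : ℤ_[p], z * z = (n : ℤ_[p]) := by
    have := hensels_lemma (p := p) (F := (Polynomial.X ^ 2 - Polynomial.C (n : ℤ_[p]))) (a := (a : ℤ_[p]))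
      (by
        simp only [map_sub, map_pow, Polynomial.aeval_X, Polynomial.aeval_C, Algebra.algebraMap_self,
          RingHom.id_apply, Polynomial.derivative_X_pow,
          Polynomial.derivative_C, sub_zero, map_mul, Nat.cast_ofNat]
        have e1 : (a : ℤ_[p]) ^ 2 - (n : ℤ_[p]) = ((a * a - n : ℤ) : ℤ_[p]) := by
          push_cast; ring
        rw [e1]
        refine lt_of_lt_of_eq hlt ?_
        have e2 : (2 : ℤ_[p]) * (a : ℤ_[p]) ^ (2 - 1) = ((2 * a : ℤ) : ℤ_[p]) := by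
          push_cast; ring
        rw [e2, h2a', one_pow])
    obtain ⟨z, hz, -⟩ := this
    refine ⟨z, ?_⟩
    simp only [map_sub, map_pow, Polynomial.aeval_X, Polynomial.aeval_C, Algebra.algebraMap_self,
      RingHom.id_apply] at hz
    linear_combination hz
  obtain ⟨z, hz⟩ := key
  refine ⟨(z : ℚ_[p]), ?_⟩
  have := congrArg (fun x : ℤ_[p] => (x : ℚ_[p])) hz
  simpa using this.symm

lemma sq_of {p : ℕ} [Fact p.Prime] (hp2 : p ≠ 2) {n b t : ℤ} (ht : ¬ (p : ℤ) ∣ t)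
    (h : (p : ℤ) ∣ n * b ^ 2 - t ^ 2) : IsSquare (n : ℚ_[p]) := by
  have h1 : (n : ZMod p) * (b : ZMod p) ^ 2 = (t : ZMod p) ^ 2 := by
    have h0 := (ZMod.intCast_zmod_eq_zero_iff_dvd _ p).2 h
    push_cast at h0
    linear_combination h0
  have ht' : (t : ZMod p) ≠ 0 := fun h0 => ht ((ZMod.intCast_zmod_eq_zero_iff_dvd _ p).1 h0)
  have hb : (b : ZMod p) ≠ 0 := by
    intro h0
    apply ht'
    have h2 : (t : ZMod p) ^ 2 = 0 := by rw [← h1, h0]; ring
    exact pow_eq_zero_iff two_ne_zero |>.1 h2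
  refine of_zmod hp2 (fun hd => ?_) ⟨(t : ZMod p) / b, ?_⟩
  · apply ht'
    have h0 := (ZMod.intCast_zmod_eq_zero_iff_dvd n p).2 hd
    have h2 : (t : ZMod p) ^ 2 = 0 := by rw [← h1, h0]; ring
    exact pow_eq_zero_iff two_ne_zero |>.1 h2
  · rw [div_mul_div_comm, eq_div_iff (mul_ne_zero hb hb)]
    linear_combination h1

lemma sq_mul {p : ℕ} [Fact p.Prime] {n m k : ℤ} (h : IsSquare (n : ℚ_[p])) (hk : k = n * m ^ 2) :
    IsSquare (k : ℚ_[p]) := by
  obtain ⟨x, hx⟩ := h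
  refine ⟨x * m, ?_⟩
  rw [hk]
  push_cast
  rw [hx]
  ring

end GEOp

open GEOp in
theorem t_GEO : S_GEO := by
  intro D d D' a b t hD _ _ hdD hab ht p hpF hp2
  have hpp : Prime (p : ℤ) := Nat.prime_iff_prime_int.1 (Fact.out : p.Prime)
  have hpt : ¬ (p : ℤ) ∣ t := by
    intro h
    rcases ht with rfl | ⟨rfl, -⟩
    · exact hpp.not_unit (isUnit_of_dvd_one h)
    · have h3 : p ∣ 2 := by exact_mod_cast h
      exact hp2 ((Nat.prime_dvd_prime_iff_eq (Fact.out : p.Prime) Nat.prime_two).1 h3)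
  have h1b : ¬ (p : ℤ) ∣ D → ¬ (p : ℤ) ∣ t * d := by
    intro hn h
    rcases hpp.dvd_or_dvd h with h1 | h1
    · exact hpt h1
    · exact hn (hdD ▸ Dvd.dvd.mul_right h1 D')
  have h2b : ¬ (p : ℤ) ∣ D → ¬ (p : ℤ) ∣ -(t * D') := by
    intro hn h
    rw [dvd_neg] at h
    rcases hpp.dvd_or_dvd h with h1 | h1
    · exact hpt h1
    · exact hn (hdD ▸ Dvd.dvd.mul_left h1 d)
  have key : (p : ℤ) ∣ D → H3 p D (t * d) ∧ H3 p D (-(t * D')) := by
    intro hpD
    rw [← hdD] at hpD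
    rcases hpp.dvd_or_dvd hpD with h | h
    · have hs : IsSquare ((-(t * D') : ℤ) : ℚ_[p]) := by
        refine sq_of hp2 (b := b) hpt ?_
        have e : -(t * D') * b ^ 2 - t ^ 2 = d * (-(t * a ^ 2)) := by
          linear_combination t * hab
        rw [e]
        exact Dvd.dvd.mul_right h _
      refine ⟨Or.inr (sq_mul (m := d) hs ?_), Or.inl hs⟩
      rw [← hdD]
      ring
    · have hs : IsSquare ((t * d : ℤ) : ℚ_[p]) := by
        refine sq_of hp2 (b := a) hpt ?_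
        have e : (t * d) * a ^ 2 - t ^ 2 = D' * (t * b ^ 2) := by
          linear_combination t * hab
        rw [e]
        exact Dvd.dvd.mul_right h _
      refine ⟨Or.inl hs, Or.inr (sq_mul (m := D') hs ?_)⟩
      rw [← hdD]
      ring
  exact ⟨⟨fun h => (key h).1, h1b⟩, ⟨fun h => (key h).2, h2b⟩⟩

end Pool.Agent.NH3.XT
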