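import Pool.Agent.NH3.XT.StmP2

/-!
# XP-9: the second factor has at least four elements
-/

set_option autoImplicit false

open scoped Classical

namespace Pool.Agent.NH3.XT

namespace GEP

theorem one_mem {D : ℤ} : (1 : ℤ) ∈ CSp D := by
  refine ⟨squarefree_one, ?_, fun p hp _ => ⟨fun _ => ?_, fun _ h => ?_⟩⟩
  · unfold C2
    omega
  · left
    exact ⟨1, by simp⟩
  · exact (Nat.prime_iff_prime_int.1 hp.out).not_isUnit (isUnit_of_dvd_one h)

theorem neg_mem {D : ℤ} (hsf : Squarefree D) : -D ∈ CSp D := by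
  refine ⟨hsf.squarefree_of_dvd (neg_dvd.2 dvd_rfl), ?_, fun p hp _ => ⟨fun _ => ?_, fun h h1 => ?_⟩⟩
  · unfold C2
    omega
  · right
    exact ⟨(D : ℚ_[p]), by push_cast; ring⟩
  · exact h ((dvd_neg).1 h1)

theorem sf_two {d : ℤ} (hd : Squarefree d) (hodd : d % 2 = 1) : Squarefree (2 * d) := by
  rw [squarefree_mul_iff]
  refine ⟨IsCoprime.isRelPrime ⟨-(d / 2), 1, by omega⟩, Int.prime_two.squarefree, hd⟩

theorem odd_of_mul {d D' D : ℤ} (h : d * D' = D) (hD : D % 2 = 1) : d % 2 = 1 ∧ D' % 2 = 1 := by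
  have h1 : Odd (d * D') := by rw [h]; exact Int.odd_iff.2 hD
  rw [Int.odd_mul] at h1
  exact ⟨Int.odd_iff.1 h1.1, Int.odd_iff.1 h1.2⟩

end GEP

open GEP in
/-- GEP: the second factor has at least four elements -/
theorem t_GEP : S_GEP := by
  intro hPEL hGEO hGE2 D hD hsf hfin
  obtain ⟨d, D', a, b, hd, hD', hdD, hcase⟩ := hPEL D hD hsf
  obtain ⟨t, ht, htc⟩ : ∃ t : ℤ, d * a ^ 2 - D' * b ^ 2 = t ∧
      ((t = 1 ∧ d ≠ 1) ∨ (t = 2 ∧ D % 4 = 3)) := by
    rcases hcase with ⟨h1, h2⟩ | ⟨h1, h2⟩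
    · exact ⟨1, h2, Or.inl ⟨rfl, h1⟩⟩
    · exact ⟨2, h2, Or.inr ⟨rfl, h1⟩⟩
  have ht1 : t = 1 ∨ (t = 2 ∧ D % 2 = 1) := by
    rcases htc with ⟨h1, _⟩ | ⟨h1, h2⟩
    · exact Or.inl h1
    · exact Or.inr ⟨h1, by omega⟩
  have ht2 : t = 1 ∨ (t = 2 ∧ D % 4 = 3) := by
    rcases htc with ⟨h1, _⟩ | h1
    · exact Or.inl h1
    · exact Or.inr h1
  have htpos : 0 < t := by rcases ht2 with h | ⟨h, _⟩ <;> omega
  have hsd : Squarefree d := hsf.squarefree_of_dvd (Dvd.intro _ hdD)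
  have hsD' : Squarefree D' := hsf.squarefree_of_dvd (Dvd.intro_left _ hdD)
  have hs1 : Squarefree (t * d) := by
    rcases ht1 with h | ⟨h, h2⟩
    · rw [h, one_mul]; exact hsd
    · rw [h]; exact sf_two hsd (odd_of_mul hdD h2).1
  have hs2 : Squarefree (t * D') := by
    rcases ht1 with h | ⟨h, h2⟩
    · rw [h, one_mul]; exact hsD'
    · rw [h]; exact sf_two hsD' (odd_of_mul hdD h2).2
  have hC := hGE2 D d D' a b t hsf hdD ht ht2
  have hO := hGEO D d D' a b t hsf hd hD' hdD ht ht1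
  have m1 : t * d ∈ CSp D := ⟨hs1, hC.1, fun p hp hp2 => (hO p hp2).1⟩
  have m2 : -(t * D') ∈ CSp D :=
    ⟨hs2.squarefree_of_dvd (neg_dvd.2 dvd_rfl), hC.2, fun p hp hp2 => (hO p hp2).2⟩
  have p1 : 0 < t * d := mul_pos htpos hd
  have p2 : 0 < t * D' := mul_pos htpos hD'
  have n1 : t * d ≠ 1 := by
    rcases htc with ⟨h1, h2⟩ | ⟨h1, h2⟩
    · rw [h1, one_mul]; exact h2
    · rw [h1]; omega
  have n2 : t * D' ≠ D := by
    rcases htc with ⟨h1, h2⟩ | ⟨h1, h2⟩
    · rw [h1, one_mul]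
      intro h
      rw [h] at hdD
      have h3 : (d - 1) * D = 0 := by linear_combination hdD
      rcases mul_eq_zero.1 h3 with h4 | h4
      · exact h2 (by omega)
      · omega
    · rw [h1]
      intro h
      omega
  have hcard : ({1, -D, t * d, -(t * D')} : Finset ℤ).card = 4 := by
    rw [Finset.card_insert_of_notMem, Finset.card_insert_of_notMem, Finset.card_insert_of_notMem,
      Finset.card_singleton]
    · rw [Finset.mem_singleton]
      omega
    · rw [Finset.mem_insert, Finset.mem_singleton]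
      omega
    · rw [Finset.mem_insert, Finset.mem_insert, Finset.mem_singleton]
      omega
  have hsub : ((({1, -D, t * d, -(t * D')} : Finset ℤ)) : Set ℤ) ⊆ CSp D := by
    intro x hx
    simp only [Finset.coe_insert, Finset.coe_singleton, Set.mem_insert_iff,
      Set.mem_singleton_iff] at hx
    rcases hx with rfl | rfl | rfl | rfl
    · exact one_mem
    · exact neg_mem hsf
    · exact m1
    · exact m2
  have h := Set.ncard_le_ncard hsub hfin
  rw [Set.ncard_coe_finset, hcard] at h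
  exact h

end Pool.Agent.NH3.XT
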