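import Pool.Agent.NH3.XT.HtStm

/-!
# ALL: upper bound for the number of all pairs
-/

set_option autoImplicit false

open scoped Classical

namespace Pool.Agent.NH3.XT.HT

open Finset Filter Topology

namespace All

/-- the facts on one pair -/
theorem fact (hH : S_HHB) (X : ℕ) (t : Trp) (M : ℤ) (hM : Squarefree M)
    (h : M ^ 6 * hh t.1.1 t.1.2.1 ≤ X) :
    (1 ≤ t.1.1 ∧ t.1.1 ≤ X) ∧ (1 ≤ t.1.2.1 ∧ t.1.2.1 ≤ X) ∧ (1 ≤ t.1.2.2 ∧ t.1.2.2 ≤ X) ∧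
      M ≠ 0 ∧ |(M : ℝ)| * (t.1.2.1 : ℝ) ^ 2 ≤ (X : ℝ) ^ (1 / 6 : ℝ) := by
  obtain ⟨h1, h2, h3⟩ := hH t
  obtain ⟨ha, hb, hc, hab, -, -⟩ := t.2
  set a := t.1.1 with hadef
  set b := t.1.2.1 with hbdef
  set c := t.1.2.2 with hcdef
  have hM0 : M ≠ 0 := hM.ne_zero
  have h1r : (b : ℝ) ^ 12 ≤ (hh a b : ℝ) := by
    have e : (((hh a b).toNat : ℤ) : ℝ) = (hh a b : ℝ) := by rw [h2]
    rw [← e]
    exact_mod_cast h1
  have h1z : b ^ 12 ≤ hh a b := by exact_mod_cast h1r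
  have hhpos : 0 < hh a b := by rw [← h2]; exact_mod_cast h3
  have hM6 : 1 ≤ M ^ 6 := by
    have : 0 < M ^ 6 := by positivity
    omega
  have hle : hh a b ≤ X := le_trans (le_mul_of_one_le_left hhpos.le hM6) h
  have hb1 : b ≤ b ^ 12 := le_self_pow₀ (by omega) (by norm_num)
  have hbX : b ≤ X := by omega
  have hab' : a ≤ b := by nlinarith [sq_nonneg c]
  have hcb' : c ≤ b := by nlinarith [sq_nonneg a]
  refine ⟨⟨by omega, by omega⟩, ⟨by omega, hbX⟩, ⟨by omega, by omega⟩, hM0, ?_⟩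
  have hXr : ((M : ℝ) ^ 6 * (hh a b : ℝ)) ≤ X := by exact_mod_cast h
  have hMr : 0 ≤ (M : ℝ) ^ 6 := by positivity
  have h6 : (|(M : ℝ)| * (b : ℝ) ^ 2) ^ 6 ≤ X := by
    have e : (|(M : ℝ)| * (b : ℝ) ^ 2) ^ 6 = (M : ℝ) ^ 6 * (b : ℝ) ^ 12 := by
      rw [mul_pow, ← pow_mul, Even.pow_abs (by decide)]
    rw [e]
    exact (mul_le_mul_of_nonneg_left h1r hMr).trans hXr
  have h0 : 0 ≤ |(M : ℝ)| * (b : ℝ) ^ 2 := by positivity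
  have h7 := Real.rpow_le_rpow (by positivity) h6 (by norm_num : (0 : ℝ) ≤ ((6 : ℕ) : ℝ)⁻¹)
  rw [Real.pow_rpow_inv_natCast h0 (by norm_num)] at h7
  have e : (1 / 6 : ℝ) = ((6 : ℕ) : ℝ)⁻¹ := by norm_num
  rw [e]
  exact h7

/-- the triples in a box -/
noncomputable def tr (X : ℕ) : Finset Trp :=
  ((Finset.Icc (1 : ℤ) X) ×ˢ ((Finset.Icc (1 : ℤ) X) ×ˢ (Finset.Icc (1 : ℤ) X))).subtype Pyt

/-- the bound for `M` -/
noncomputable def kk (X : ℕ) (t : Trp) : ℤ := ⌊(X : ℝ) ^ (1 / 6 : ℝ) / (t.1.2.1 : ℝ) ^ 2⌋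

/-- the finite set -/
noncomputable def FF (X : ℕ) : Finset ((ℤ × ℤ × ℤ) × ℤ) :=
  (tr X).biUnion fun t => ((Finset.Icc (-(kk X t)) (kk X t)).erase 0).image fun M => (t.1, M)

theorem sub (hH : S_HHB) (X : ℕ) :
    {z : (ℤ × ℤ × ℤ) × ℤ | Pyt z.1 ∧ Squarefree z.2 ∧ z.2 ^ 6 * hh z.1.1 z.1.2.1 ≤ X} ⊆
      (FF X : Set ((ℤ × ℤ × ℤ) × ℤ)) := by
  rintro ⟨t, M⟩ ⟨ht, hM, h⟩
  obtain ⟨h1, h2, h3, h4, h5⟩ := fact hH X ⟨t, ht⟩ M hM h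
  have hb : (0 : ℝ) < (t.2.1 : ℝ) ^ 2 := by
    have : (0 : ℝ) < (t.2.1 : ℝ) := by exact_mod_cast ht.2.1
    positivity
  unfold FF
  simp only [Finset.coe_biUnion, Set.mem_iUnion, Finset.mem_coe, Finset.mem_image]
  refine ⟨⟨t, ht⟩, ?_, M, ?_, rfl⟩
  · unfold tr
    exact Finset.mem_subtype.2 (Finset.mem_product.2 ⟨Finset.mem_Icc.2 h1,
      Finset.mem_product.2 ⟨Finset.mem_Icc.2 h2, Finset.mem_Icc.2 h3⟩⟩)
  · refine Finset.mem_erase.2 ⟨h4, Finset.mem_Icc.2 ?_⟩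
    have h6 : |(M : ℝ)| ≤ (X : ℝ) ^ (1 / 6 : ℝ) / (t.2.1 : ℝ) ^ 2 := (le_div_iff₀ hb).2 h5
    have h7 := abs_le.1 h6
    constructor
    · have : -M ≤ kk X ⟨t, ht⟩ := by
        refine Int.le_floor.2 ?_
        push_cast
        linarith [h7.1]
      omega
    · exact Int.le_floor.2 h7.2

theorem kk_nonneg (X : ℕ) (t : Trp) : 0 ≤ kk X t := Int.floor_nonneg.2 (by positivity)

theorem card_le (X : ℕ) : ((FF X).card : ℝ) ≤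
    ∑ t ∈ tr X, 2 * (X : ℝ) ^ (1 / 6 : ℝ) * (1 / (t.1.2.1 : ℝ) ^ 2) := by
  unfold FF
  refine (Nat.cast_le.2 Finset.card_biUnion_le).trans ?_
  push_cast
  refine Finset.sum_le_sum fun t _ => ?_
  have hk := kk_nonneg X t
  have h1 : (((Finset.Icc (-(kk X t)) (kk X t)).erase 0).image fun M => (t.1, M)).card ≤
      (2 * kk X t).toNat := by
    refine Finset.card_image_le.trans ?_
    rw [Finset.card_erase_of_mem (Finset.mem_Icc.2 ⟨by omega, hk⟩), Int.card_Icc]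
    omega
  have h2 : (((2 * kk X t).toNat : ℕ) : ℝ) = 2 * (kk X t : ℝ) := by
    have : (((2 * kk X t).toNat : ℤ)) = 2 * kk X t := Int.toNat_of_nonneg (by omega)
    exact_mod_cast this
  have h3 : (kk X t : ℝ) ≤ (X : ℝ) ^ (1 / 6 : ℝ) / (t.1.2.1 : ℝ) ^ 2 := Int.floor_le _
  calc (((((Finset.Icc (-(kk X t)) (kk X t)).erase 0).image fun M => (t.1, M)).card : ℕ) : ℝ)
      ≤ (((2 * kk X t).toNat : ℕ) : ℝ) := Nat.cast_le.2 h1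
    _ = 2 * (kk X t : ℝ) := h2
    _ ≤ 2 * ((X : ℝ) ^ (1 / 6 : ℝ) / (t.1.2.1 : ℝ) ^ 2) := by linarith
    _ = _ := by ring

end All

open All in
/-- **ALL** -/
theorem t_ALL : S_ALL := by
  intro hS hH
  have h0 : 0 ≤ ∑' t : Trp, (1 : ℝ) / (t.1.2.1 : ℝ) ^ 2 := tsum_nonneg fun t => by positivity
  refine ⟨2 * (∑' t : Trp, (1 : ℝ) / (t.1.2.1 : ℝ) ^ 2) + 1, by linarith, fun X => ?_⟩
  have hsub := sub hH X
  have hfin := (FF X).finite_toSet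
  refine ⟨hfin.subset hsub, ?_⟩
  have h1 := Set.ncard_le_ncard hsub hfin
  rw [Set.ncard_coe_finset] at h1
  have hY : 0 ≤ (X : ℝ) ^ (1 / 6 : ℝ) := by positivity
  have h2 : ∑ t ∈ tr X, (1 : ℝ) / (t.1.2.1 : ℝ) ^ 2 ≤ ∑' t : Trp, (1 : ℝ) / (t.1.2.1 : ℝ) ^ 2 :=
    hS.sum_le_tsum _ fun t _ => by positivity
  refine (Nat.cast_le.2 h1).trans ((card_le X).trans ?_)
  rw [← Finset.mul_sum]
  nlinarith [mul_le_mul_of_nonneg_left h2 hY]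

end Pool.Agent.NH3.XT.HT
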