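import Pool.Agent.NH3.XT.HtStm2

/-!
# Different pairs give different curves (HT-6)
-/

set_option autoImplicit false

namespace Pool.Agent.NH3.XT.HT

namespace Inj

theorem pm_of_dvd {M M' : ℤ} (h : M ∣ M') (h' : M' ∣ M) : M = M' ∨ M = -M' :=
  Int.natAbs_eq_natAbs_iff.1 (Nat.dvd_antisymm (Int.natAbs_dvd_natAbs.2 h)
    (Int.natAbs_dvd_natAbs.2 h'))

theorem dvd_of_cop {a c x y M M' : ℤ} (h : IsCoprime a c) (h1 : a ^ 2 * M = x * M')
    (h2 : c ^ 2 * M = y * M') : M' ∣ M := by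
  obtain ⟨u, v, huv⟩ := (h.pow (m := 2) (n := 2))
  refine ⟨u * x + v * y, ?_⟩
  linear_combination (-M) * huv + u * h1 + v * h2

theorem eq_of_sq {a a' : ℤ} (h : 0 < a) (h' : 0 < a') (h2 : a ^ 2 = a' ^ 2) : a = a' := by
  rcases sq_eq_sq_iff_eq_or_eq_neg.1 h2 with h3 | h3
  · exact h3
  · omega

end Inj

open Inj in
theorem t_INJ : S_INJ := by
  rintro ⟨a, b, c⟩ ⟨a', b', c'⟩ M M' ⟨ha, hb, hc, hp, hac, ho⟩ ⟨ha', hb', hc', hp', hac', ho'⟩
    hM hM' hA hB
  dsimp only at *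
  have hM0 : M ≠ 0 := hM.ne_zero
  have hM0' : M' ≠ 0 := hM'.ne_zero
  unfold cA at hA
  unfold cB at hB
  -- the roots
  set r1 := -3 * (a ^ 2 + b ^ 2) * M with hr1
  set r2 := (6 * b ^ 2 - 3 * a ^ 2) * M with hr2
  set r3 := (6 * a ^ 2 - 3 * b ^ 2) * M with hr3
  set s1 := -3 * (a' ^ 2 + b' ^ 2) * M' with hs1
  set s2 := (6 * b' ^ 2 - 3 * a' ^ 2) * M' with hs2
  set s3 := (6 * a' ^ 2 - 3 * b' ^ 2) * M' with hs3
  have e1 : r1 + r2 + r3 = 0 := by rw [hr1, hr2, hr3]; ring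
  have f1 : s1 + s2 + s3 = 0 := by rw [hs1, hs2, hs3]; ring
  have e2 : r1 * r2 + r1 * r3 + r2 * r3 = s1 * s2 + s1 * s3 + s2 * s3 := by
    have h1 : r1 * r2 + r1 * r3 + r2 * r3 = -27 * (a ^ 4 - a ^ 2 * b ^ 2 + b ^ 4) * M ^ 2 := by
      rw [hr1, hr2, hr3]; ring
    have h2 : s1 * s2 + s1 * s3 + s2 * s3 =
        -27 * (a' ^ 4 - a' ^ 2 * b' ^ 2 + b' ^ 4) * M' ^ 2 := by
      rw [hs1, hs2, hs3]; ring
    rw [h1, h2, hA]
  have e3 : r1 * r2 * r3 = s1 * s2 * s3 := by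
    have h1 : -(r1 * r2 * r3) =
        27 * (a ^ 2 + b ^ 2) * (2 * b ^ 2 - a ^ 2) * (2 * a ^ 2 - b ^ 2) * M ^ 3 := by
      rw [hr1, hr2, hr3]; ring
    have h2 : -(s1 * s2 * s3) =
        27 * (a' ^ 2 + b' ^ 2) * (2 * b' ^ 2 - a' ^ 2) * (2 * a' ^ 2 - b' ^ 2) * M' ^ 3 := by
      rw [hs1, hs2, hs3]; ring
    have h3 : -(r1 * r2 * r3) = -(s1 * s2 * s3) := by rw [h1, h2, hB]
    linarith
  -- differences
  have d1 : r3 - r1 = 9 * (a ^ 2 * M) := by rw [hr1, hr3]; ring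
  have d2 : r2 - r3 = 9 * (c ^ 2 * M) := by
    rw [hr2, hr3]; linear_combination (-9 * M) * hp
  have d1' : s3 - s1 = 9 * (a' ^ 2 * M') := by rw [hs1, hs3]; ring
  have d2' : s2 - s3 = 9 * (c' ^ 2 * M') := by
    rw [hs2, hs3]; linear_combination (-9 * M') * hp'
  clear_value r1 r2 r3 s1 s2 s3
  clear hA hB
  have hMM : 0 < M ^ 2 := by positivity
  have hMM' : 0 < M' ^ 2 := by positivity
  -- the middle root
  have m3 : (r3 - r1) * (r3 - r2) < 0 := by
    have h1 : (r3 - r1) * (r3 - r2) = -(81 * (a ^ 2 * c ^ 2 * M ^ 2)) := by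
      have : r3 - r2 = -(9 * (c ^ 2 * M)) := by linarith
      rw [d1, this]; ring
    rw [h1]
    have : 0 < a ^ 2 * c ^ 2 * M ^ 2 := by positivity
    linarith
  have n1 : 0 < (s1 - s2) * (s1 - s3) := by
    have h1 : (s1 - s2) * (s1 - s3) = 81 * ((a' ^ 2 + c' ^ 2) * a' ^ 2 * M' ^ 2) := by
      have h2 : s1 - s3 = -(9 * (a' ^ 2 * M')) := by linarith
      have h3 : s1 - s2 = -(9 * ((a' ^ 2 + c' ^ 2) * M')) := by linarith
      rw [h2, h3]; ring
    rw [h1]
    positivity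
  have n2 : 0 < (s2 - s1) * (s2 - s3) := by
    have h1 : (s2 - s1) * (s2 - s3) = 81 * ((a' ^ 2 + c' ^ 2) * c' ^ 2 * M' ^ 2) := by
      have h3 : s2 - s1 = 9 * ((a' ^ 2 + c' ^ 2) * M') := by linarith
      rw [d2', h3]; ring
    rw [h1]
    positivity
  have hmid : r3 = s3 := by
    have h1 : (r3 - s1) * (r3 - s2) * (r3 - s3) = 0 := by
      linear_combination (-r3 ^ 2) * f1 + r3 ^ 2 * e1 - r3 * e2 + e3
    rcases mul_eq_zero.1 h1 with h2 | h2
    · rcases mul_eq_zero.1 h2 with h3 | h3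
      · exfalso
        have h4 : r3 = s1 := by linarith
        have h5 : (r3 - r1) * (r3 - r2) = (s1 - s2) * (s1 - s3) := by
          rw [← h4] at f1 e2 ⊢
          linear_combination (-2 * r3) * e1 + 2 * r3 * f1 + e2
        linarith
      · exfalso
        have h4 : r3 = s2 := by linarith
        have h5 : (r3 - r1) * (r3 - r2) = (s2 - s1) * (s2 - s3) := by
          rw [← h4] at f1 e2 ⊢
          linear_combination (-2 * r3) * e1 + 2 * r3 * f1 + e2
        linarith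
    · linarith
  have h1 : (r1 - s1) * (r1 - s2) = 0 := by
    have h2 : r1 + r2 = s1 + s2 := by linarith
    have h3 : r1 * r2 = s1 * s2 := by
      have h4 : r1 * r2 + (r1 + r2) * r3 = s1 * s2 + (s1 + s2) * s3 := by linarith
      rw [h2, hmid] at h4
      linarith
    linear_combination (-r1) * (-h2) + (-h3)
  rcases mul_eq_zero.1 h1 with h2 | h2
  · -- first case
    have k1 : a ^ 2 * M = a' ^ 2 * M' := by linarith
    have k2 : c ^ 2 * M = c' ^ 2 * M' := by linarith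
    have hd1 : M' ∣ M := dvd_of_cop hac k1 k2
    have hd2 : M ∣ M' := dvd_of_cop hac' k1.symm k2.symm
    rcases pm_of_dvd hd2 hd1 with hm | hm
    · subst hm
      have j1 : a ^ 2 = a' ^ 2 := mul_right_cancel₀ hM0 k1
      have j2 : c ^ 2 = c' ^ 2 := mul_right_cancel₀ hM0 k2
      have j3 : b ^ 2 = b' ^ 2 := by linarith
      rw [eq_of_sq ha ha' j1, eq_of_sq hc hc' j2, eq_of_sq hb hb' j3]
      exact ⟨rfl, rfl⟩
    · exfalso
      have j1 : (a ^ 2 + a' ^ 2) * M' = 0 := by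
        rw [hm] at k1
        linarith
      rcases mul_eq_zero.1 j1 with j2 | j2
      · have : 0 < a ^ 2 + a' ^ 2 := by positivity
        omega
      · exact hM0' j2
  · -- second case
    exfalso
    have k1 : a ^ 2 * M = -c' ^ 2 * M' := by linarith
    have k2 : c ^ 2 * M = -a' ^ 2 * M' := by linarith
    have hd1 : M' ∣ M := dvd_of_cop hac k1 k2
    have hd2 : M ∣ M' := by
      refine dvd_of_cop (x := -c ^ 2) (y := -a ^ 2) hac' ?_ ?_
      · linarith
      · linarith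
    rcases pm_of_dvd hd2 hd1 with hm | hm
    · have j1 : (a ^ 2 + c' ^ 2) * M' = 0 := by
        rw [hm] at k1
        linarith
      rcases mul_eq_zero.1 j1 with j2 | j2
      · have : 0 < a ^ 2 + c' ^ 2 := by positivity
        omega
      · exact hM0' j2
    · have j1 : a ^ 2 = c' ^ 2 := by
        apply mul_right_cancel₀ hM0'
        rw [hm] at k1
        linarith
      have j2 : a = c' := eq_of_sq ha hc' j1
      have o1 : Odd a' := Int.odd_iff.2 ho'
      have o2 : Odd c' := by rw [← j2]; exact Int.odd_iff.2 ho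
      have q1 := Int.sq_mod_four_eq_one_of_odd o1
      have q2 := Int.sq_mod_four_eq_one_of_odd o2
      rcases Int.even_or_odd b' with o3 | o3
      · obtain ⟨m, hm⟩ := o3
        have q3 : b' ^ 2 = 4 * m ^ 2 := by rw [hm]; ring
        omega
      · have q3 := Int.sq_mod_four_eq_one_of_odd o3
        omega

end Pool.Agent.NH3.XT.HT
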