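import Pool.Agent.NH3.XT.HtStm2

/-!
# Project HT (helper3): the law in the order by height, assembly
-/

set_option autoImplicit false

open scoped Classical

namespace Pool.Agent.NH3.XT.HT

open Finset Filter Topology

/-- the set of the pairs -/
def ZZ (Q : ℤ × ℤ × ℤ → ℤ → Prop) (X : ℕ) : Set ((ℤ × ℤ × ℤ) × ℤ) :=
  {z : (ℤ × ℤ × ℤ) × ℤ | Pyt z.1 ∧ z.2 < 0 ∧ Squarefree z.2 ∧ Q z.1 z.2 ∧
    z.2 ^ 6 * hh z.1.1 z.1.2.1 ≤ X}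

theorem cneg_le (P : ℤ → Prop) (Y : ℕ) : cneg P Y ≤ Y := by
  unfold cneg
  have h1 := Finset.card_filter_le (Icc (-(Y : ℤ)) (-1)) fun D : ℤ => Squarefree D ∧ P D
  have h2 : (Icc (-(Y : ℤ)) (-1)).card = Y := by
    rw [Int.card_Icc]
    omega
  rw [h2] at h1
  exact_mod_cast h1

theorem cneg_nonneg (P : ℤ → Prop) (Y : ℕ) : 0 ≤ cneg P Y := Nat.cast_nonneg _

theorem cneg_mono {P P' : ℤ → Prop} (h : ∀ D, P D → P' D) (Y : ℕ) : cneg P Y ≤ cneg P' Y := by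
  unfold cneg
  refine Nat.cast_le.2 (Finset.card_le_card fun D hD => ?_)
  rw [Finset.mem_filter] at hD ⊢
  exact ⟨hD.1, hD.2.1, h D hD.2.2⟩

theorem summ_h (hS : S_SUMM) (hH : S_HHB) :
    Summable fun t : Trp => 1 / ((hh t.1.1 t.1.2.1).toNat : ℝ) ^ (1 / 6 : ℝ) := by
  refine Summable.of_nonneg_of_le (fun t => by positivity) (fun t => ?_) hS
  obtain ⟨h1, h2, h3⟩ := hH t
  have hb : (0 : ℝ) < (t.1.2.1 : ℝ) := by exact_mod_cast t.2.2.1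
  have h4 : ((t.1.2.1 : ℝ) ^ 12) ^ (1 / 6 : ℝ) = (t.1.2.1 : ℝ) ^ 2 := by
    rw [← Real.rpow_natCast, ← Real.rpow_mul hb.le, ← Real.rpow_natCast]
    norm_num
  have h5 : (t.1.2.1 : ℝ) ^ 2 ≤ ((hh t.1.1 t.1.2.1).toNat : ℝ) ^ (1 / 6 : ℝ) := by
    rw [← h4]
    exact Real.rpow_le_rpow (by positivity) h1 (by norm_num)
  exact one_div_le_one_div_of_le (by positivity) h5

/-- **the law in the order by height** -/
theorem law_ht (hS : S_SUMM) (hH : S_HHB) (hC : S_CARD) (hT : S_TANN)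
    {Q Q' : ℤ × ℤ × ℤ → ℤ → Prop} {c : ℝ} (hsub : ∀ t M, Q' t M → Q t M)
    (hlaw : ∀ t : Trp, Tendsto (fun Y => cneg (Q' t.1) Y / cneg (Q t.1) Y) atTop (𝓝 c))
    (hlow : ∃ t : Trp, ∃ δ : ℝ, 0 < δ ∧ ∀ᶠ Y : ℕ in atTop, δ * Y ≤ cneg (Q t.1) Y) :
    Tendsto (fun X : ℕ => ((ZZ Q' X).ncard : ℝ) / ((ZZ Q X).ncard : ℝ)) atTop (𝓝 c) ∧
    ∃ δ : ℝ, 0 < δ ∧ ∀ᶠ X : ℕ in atTop, δ * (X : ℝ) ^ (1 / 6 : ℝ) ≤ ((ZZ Q X).ncard : ℝ) := by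
  obtain ⟨h1, h2⟩ := hT Trp (fun t => (hh t.1.1 t.1.2.1).toNat) (fun t Y => cneg (Q t.1) Y)
    (fun t Y => cneg (Q' t.1) Y) c (fun t => (hH t).2.2) (summ_h hS hH)
    (fun t Y => ⟨cneg_nonneg _ _, cneg_mono (fun D hD => hsub _ _ hD) _, cneg_le _ _⟩) hlaw hlow
  have e1 : ∀ X : ℕ, ((ZZ Q X).ncard : ℝ) = ∑' t : Trp, cneg (Q t.1) (yy (hh t.1.1 t.1.2.1).toNat X) :=
    fun X => (hC hH Q X).2
  have e2 : ∀ X : ℕ, ((ZZ Q' X).ncard : ℝ) =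
      ∑' t : Trp, cneg (Q' t.1) (yy (hh t.1.1 t.1.2.1).toNat X) :=
    fun X => (hC hH Q' X).2
  simp only [e1, e2]
  exact ⟨h1, h2⟩

/-- the triple `(3, 5, 4)` -/
def t345 : Trp := ⟨(3, 5, 4), by
  refine ⟨by norm_num, by norm_num, by norm_num, by norm_num, ?_, by norm_num⟩
  exact ⟨-1, 1, by norm_num⟩⟩

theorem hh_mul (a b M : ℤ) :
    max (4 * |cA a b M| ^ 3) (27 * cB a b M ^ 2) = M ^ 6 * hh a b := by
  unfold hh cA cB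
  have h1 : 4 * |(-27) * (a ^ 4 - a ^ 2 * b ^ 2 + b ^ 4) * M ^ 2| ^ 3 =
      M ^ 6 * (4 * |(-27) * (a ^ 4 - a ^ 2 * b ^ 2 + b ^ 4)| ^ 3) := by
    rw [abs_mul, mul_pow, abs_pow, sq_abs]
    ring
  rw [h1, mul_max_of_nonneg _ _ (by positivity)]
  congr 1
  ring

end Pool.Agent.NH3.XT.HT
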