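import Pool.Agent.NH3.XT.HtStm2

/-!
# MIN: the equations are minimal
-/

set_option autoImplicit false

namespace Pool.Agent.NH3.XT.HT

namespace Mn

theorem dvd_of {p M s : ℤ} (hp : Prime p) (hM : Squarefree M) {k : ℕ} (hk : k ≠ 0)
    (h : p ^ (2 * k) ∣ s * M ^ k) : p ∣ s := by
  by_contra hs
  have h1 : IsCoprime (p ^ (2 * k)) s := (hp.coprime_iff_not_dvd.2 hs).pow_left
  have h2 : p ^ (2 * k) ∣ M ^ k := h1.dvd_of_dvd_mul_left h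
  rw [pow_mul] at h2
  have h3 : p ^ 2 ∣ M := (Int.pow_dvd_pow_iff hk).1 h2
  exact hp.not_isUnit (hM p (by rwa [← sq]))

theorem mod3 : ∀ a b c : ZMod 3, a ^ 2 + c ^ 2 = b ^ 2 → a ^ 4 + a ^ 2 * c ^ 2 + c ^ 4 = 0 →
    a = 0 ∧ c = 0 := by
  decide

end Mn

open Mn in
theorem t_MIN : S_MIN := by
  rintro ⟨a, b, c⟩ M ⟨ha, hb, hc, habc, hcop, hodd⟩ hM h3 p hp ⟨hA, hB⟩
  simp only at ha hb hc habc hcop hodd hA hB
  have hpZ : Prime (p : ℤ) := Nat.prime_iff_prime_int.1 hp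
  have hs : a ^ 4 - a ^ 2 * b ^ 2 + b ^ 4 = a ^ 4 + a ^ 2 * c ^ 2 + c ^ 4 := by
    have h1 : b ^ 4 = (b ^ 2) ^ 2 := by ring
    rw [h1, ← habc]
    ring
  have hncop : ¬ ((p : ℤ) ∣ a ∧ (p : ℤ) ∣ c) := by
    rintro ⟨h1, h2⟩
    exact hpZ.not_isUnit (hcop.isUnit_of_dvd' h1 h2)
  unfold cA at hA
  unfold cB at hB
  by_cases hp3 : p = 3
  · subst hp3
    obtain ⟨k, hk⟩ := hA
    have h4 : (3 : ℤ) ∣ (a ^ 4 - a ^ 2 * b ^ 2 + b ^ 4) * M ^ 2 := by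
      refine ⟨-k, ?_⟩
      push_cast at hk
      nlinarith
    rcases Int.prime_three.dvd_or_dvd h4 with h5 | h5
    · rw [hs] at h5
      have h6 := congrArg (Int.cast : ℤ → ZMod 3) habc
      have h7 : ((a ^ 4 + a ^ 2 * c ^ 2 + c ^ 4 : ℤ) : ZMod 3) = 0 := by
        rw [ZMod.intCast_zmod_eq_zero_iff_dvd]
        exact_mod_cast h5
      push_cast at h6 h7
      obtain ⟨h8, h9⟩ := mod3 _ _ _ h6 h7
      rw [ZMod.intCast_zmod_eq_zero_iff_dvd] at h8 h9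
      exact hncop ⟨h8, h9⟩
    · exact h3 (Int.prime_three.dvd_of_dvd_pow h5)
  · have h27 : ¬ (p : ℤ) ∣ 27 := by
      intro h
      have h1 : p ∣ 3 ^ 3 := by exact_mod_cast h
      exact hp3 ((Nat.prime_dvd_prime_iff_eq hp Nat.prime_three).1 (hp.dvd_of_dvd_pow h1))
    have hps : (p : ℤ) ∣ a ^ 4 + a ^ 2 * c ^ 2 + c ^ 4 := by
      have h1 := dvd_of hpZ hM (k := 2) (by norm_num) hA
      rw [hs] at h1
      rcases hpZ.dvd_or_dvd h1 with h2 | h2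
      · exact absurd ((dvd_neg).1 h2) h27
      · exact h2
    have hpw : (p : ℤ) ∣ (a ^ 2 + b ^ 2) * (2 * b ^ 2 - a ^ 2) * (2 * a ^ 2 - b ^ 2) := by
      have h1 := dvd_of hpZ hM (k := 3) (by norm_num) hB
      have h2 : 27 * (a ^ 2 + b ^ 2) * (2 * b ^ 2 - a ^ 2) * (2 * a ^ 2 - b ^ 2) =
        27 * ((a ^ 2 + b ^ 2) * (2 * b ^ 2 - a ^ 2) * (2 * a ^ 2 - b ^ 2)) := by ring
      rw [h2] at h1
      rcases hpZ.dvd_or_dvd h1 with h3 | h3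
      · exact absurd h3 h27
      · exact h3
    have hid : 4 * (a ^ 4 - a ^ 2 * b ^ 2 + b ^ 4) ^ 3 -
        ((a ^ 2 + b ^ 2) * (2 * b ^ 2 - a ^ 2) * (2 * a ^ 2 - b ^ 2)) ^ 2 =
        27 * (a ^ 4 * (b ^ 4 * c ^ 4)) := by
      have h1 : c ^ 2 = b ^ 2 - a ^ 2 := by linarith
      have h2 : c ^ 4 = (b ^ 2 - a ^ 2) ^ 2 := by rw [← h1]; ring
      rw [h2]
      ring
    have h4 : (p : ℤ) ∣ 27 * (a ^ 4 * (b ^ 4 * c ^ 4)) := by
      rw [← hid, hs]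
      refine dvd_sub ?_ ?_
      · exact dvd_mul_of_dvd_right (dvd_pow hps (by norm_num)) _
      · exact dvd_pow hpw (by norm_num)
    have h5 : (p : ℤ) ∣ a ^ 4 * (b ^ 4 * c ^ 4) := (hpZ.dvd_or_dvd h4).resolve_left h27
    have hcase : (p : ℤ) ∣ a ∨ (p : ℤ) ∣ b ∨ (p : ℤ) ∣ c := by
      rcases hpZ.dvd_or_dvd h5 with h | h
      · exact Or.inl (hpZ.dvd_of_dvd_pow h)
      · rcases hpZ.dvd_or_dvd h with h | h
        · exact Or.inr (Or.inl (hpZ.dvd_of_dvd_pow h))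
        · exact Or.inr (Or.inr (hpZ.dvd_of_dvd_pow h))
    rcases hcase with h | h | h
    · refine hncop ⟨h, ?_⟩
      have h6 : (p : ℤ) ∣ c ^ 4 := by
        have h7 : c ^ 4 = (a ^ 4 + a ^ 2 * c ^ 2 + c ^ 4) - a * (a ^ 3 + a * c ^ 2) := by ring
        rw [h7]
        exact dvd_sub hps (dvd_mul_of_dvd_left h _)
      exact hpZ.dvd_of_dvd_pow h6
    · have h6 : (p : ℤ) ∣ a ^ 4 := by
        rw [← hs] at hps
        have h7 : a ^ 4 = (a ^ 4 - a ^ 2 * b ^ 2 + b ^ 4) - b * (b ^ 3 - a ^ 2 * b) := by ring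
        rw [h7]
        exact dvd_sub hps (dvd_mul_of_dvd_left h _)
      have h7 := hpZ.dvd_of_dvd_pow h6
      refine hncop ⟨h7, ?_⟩
      have h8 : (p : ℤ) ∣ c ^ 2 := by
        have h9 : c ^ 2 = b * b - a * a := by linarith
        rw [h9]
        exact dvd_sub (dvd_mul_of_dvd_left h _) (dvd_mul_of_dvd_left h7 _)
      exact hpZ.dvd_of_dvd_pow h8
    · have h6 : (p : ℤ) ∣ a ^ 4 := by
        have h7 : a ^ 4 = (a ^ 4 + a ^ 2 * c ^ 2 + c ^ 4) - c * (a ^ 2 * c + c ^ 3) := by ring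
        rw [h7]
        exact dvd_sub hps (dvd_mul_of_dvd_left h _)
      exact hncop ⟨hpZ.dvd_of_dvd_pow h6, h⟩

end Pool.Agent.NH3.XT.HT
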