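import Mathlib

/-!
# Project XH (helper3): the curves `y² = x (x - a² M) (x - b² M)`, `a² + c² = b²`, ordered by the height

The height of the curve is `M ^ 6 * hh a b`. Statements; this file needs only Mathlib.
-/

set_option autoImplicit false
set_option linter.unusedVariables false

open scoped Classical

namespace Pool.Agent.NH3.XT.HT

open Finset Filter Topology

/-- a primitive Pythagorean triple `a² + c² = b²`, `a` odd, `a, b, c > 0` -/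
def Pyt (t : ℤ × ℤ × ℤ) : Prop := 0 < t.1 ∧ 0 < t.2.1 ∧ 0 < t.2.2 ∧ t.1 ^ 2 + t.2.2 ^ 2 = t.2.1 ^ 2 ∧
  IsCoprime t.1 t.2.2 ∧ t.1 % 2 = 1

/-- the triples `(a, b, c)` -/
def Trp : Type := {t : ℤ × ℤ × ℤ // Pyt t}

/-- the height of the curve for `M = 1` -/
def hh (a b : ℤ) : ℤ := max (4 * |(-27) * (a ^ 4 - a ^ 2 * b ^ 2 + b ^ 4)| ^ 3)
  (27 * (27 * (a ^ 2 + b ^ 2) * (2 * b ^ 2 - a ^ 2) * (2 * a ^ 2 - b ^ 2)) ^ 2)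

/-- the largest `y` such that `y ^ 6 * h ≤ X` -/
noncomputable def yy (h X : ℕ) : ℕ := Nat.findGreatest (fun y => y ^ 6 * h ≤ X) X

/-- the number of the squarefree `D < 0`, `|D| ≤ X`, with the property `P` -/
noncomputable def cneg (P : ℤ → Prop) (X : ℕ) : ℝ :=
  (((Icc (-(X : ℤ)) (-1)).filter fun D : ℤ => Squarefree D ∧ P D).card : ℝ)

/-- SUMM: the sum over the triples -/
def S_SUMM : Prop := Summable fun t : Trp => (1 : ℝ) / (t.1.2.1 : ℝ) ^ 2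

/-- HHB: the lower bound for the height -/
def S_HHB : Prop := ∀ t : Trp, ((t.1.2.1 : ℝ)) ^ 12 ≤ ((hh t.1.1 t.1.2.1).toNat : ℝ) ∧
  ((hh t.1.1 t.1.2.1).toNat : ℤ) = hh t.1.1 t.1.2.1 ∧ 0 < (hh t.1.1 t.1.2.1).toNat

/-- CARD: the number of the pairs `(t, M)`, `M < 0` -/
def S_CARD : Prop := S_HHB → ∀ (Q : ℤ × ℤ × ℤ → ℤ → Prop) (X : ℕ),
  {z : (ℤ × ℤ × ℤ) × ℤ | Pyt z.1 ∧ z.2 < 0 ∧ Squarefree z.2 ∧ Q z.1 z.2 ∧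
    z.2 ^ 6 * hh z.1.1 z.1.2.1 ≤ X}.Finite ∧
  (({z : (ℤ × ℤ × ℤ) × ℤ | Pyt z.1 ∧ z.2 < 0 ∧ Squarefree z.2 ∧ Q z.1 z.2 ∧
    z.2 ^ 6 * hh z.1.1 z.1.2.1 ≤ X}.ncard : ℕ) : ℝ) =
    ∑' t : Trp, cneg (Q t.1) (yy (hh t.1.1 t.1.2.1).toNat X)

/-- ALL: the number of all the pairs `(t, M)`, both signs -/
def S_ALL : Prop := S_SUMM → S_HHB → ∃ C : ℝ, 0 < C ∧ ∀ X : ℕ,
  {z : (ℤ × ℤ × ℤ) × ℤ | Pyt z.1 ∧ Squarefree z.2 ∧ z.2 ^ 6 * hh z.1.1 z.1.2.1 ≤ X}.Finite ∧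
  (({z : (ℤ × ℤ × ℤ) × ℤ | Pyt z.1 ∧ Squarefree z.2 ∧
    z.2 ^ 6 * hh z.1.1 z.1.2.1 ≤ X}.ncard : ℕ) : ℝ) ≤ C * (X : ℝ) ^ (1 / 6 : ℝ)

/-- TANN: dominated convergence -/
def S_TANN : Prop := ∀ (ι : Type) (h : ι → ℕ) (f g : ι → ℕ → ℝ) (c : ℝ), (∀ i, 0 < h i) →
  Summable (fun i => 1 / (h i : ℝ) ^ (1 / 6 : ℝ)) →
  (∀ i Y, 0 ≤ g i Y ∧ g i Y ≤ f i Y ∧ f i Y ≤ Y) →
  (∀ i, Tendsto (fun Y => g i Y / f i Y) atTop (𝓝 c)) →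
  (∃ i, ∃ δ : ℝ, 0 < δ ∧ ∀ᶠ Y : ℕ in atTop, δ * Y ≤ f i Y) →
  Tendsto (fun X : ℕ => (∑' i, g i (yy (h i) X)) / ∑' i, f i (yy (h i) X)) atTop (𝓝 c) ∧
  ∃ δ : ℝ, 0 < δ ∧ ∀ᶠ X : ℕ in atTop, δ * (X : ℝ) ^ (1 / 6 : ℝ) ≤ ∑' i, f i (yy (h i) X)

end Pool.Agent.NH3.XT.HT
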