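import Pool.Agent.NH3.XT.HtStm

/-!
# Project HT (helper3): the curves are different and the equations are minimal: statements
-/

set_option autoImplicit false
set_option linter.unusedVariables false

namespace Pool.Agent.NH3.XT.HT

/-- a coefficient of the curve -/
def cA (a b M : ℤ) : ℤ := -27 * (a ^ 4 - a ^ 2 * b ^ 2 + b ^ 4) * M ^ 2

/-- a coefficient of the curve -/
def cB (a b M : ℤ) : ℤ :=
  27 * (a ^ 2 + b ^ 2) * (2 * b ^ 2 - a ^ 2) * (2 * a ^ 2 - b ^ 2) * M ^ 3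

/-- INJ: different pairs give different curves -/
def S_INJ : Prop := ∀ (t t' : ℤ × ℤ × ℤ) (M M' : ℤ), Pyt t → Pyt t' → Squarefree M →
  Squarefree M' → cA t.1 t.2.1 M = cA t'.1 t'.2.1 M' → cB t.1 t.2.1 M = cB t'.1 t'.2.1 M' →
  t = t' ∧ M = M'

/-- MIN: the equations are minimal (`3` does not divide `M`) -/
def S_MIN : Prop := ∀ (t : ℤ × ℤ × ℤ) (M : ℤ), Pyt t → Squarefree M → ¬ (3 : ℤ) ∣ M →
  ∀ p : ℕ, p.Prime →
  ¬ ((p : ℤ) ^ 4 ∣ cA t.1 t.2.1 M ∧ (p : ℤ) ^ 6 ∣ cB t.1 t.2.1 M)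

end Pool.Agent.NH3.XT.HT
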