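import Pool.Agent.NH3.XT.StmP2

/-!
# Project XP (helper3), part IC2: the product of two classes outside the smaller group, at `2`

All conditions depend on the residues modulo `16` only.
-/

set_option autoImplicit false

namespace Pool.Agent.NH3.XT

namespace IC2H

/-- `C2` in terms of the residues modulo `16` -/
def C2n (D d : ℕ) : Prop :=
  (D % 4 = 1 ∧ d % 2 = 1) ∨ (D % 4 = 3 ∧ (d % 4 = 1 ∨ (d + D + 7) % 8 = 0)) ∨
  (D % 2 = 0 ∧ (d % 8 = 1 ∨ (d + D + 7) % 8 = 0 ∨ (d + D) % 16 = 0 ∨ (d + D + 12) % 16 = 0))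

instance (D d : ℕ) : Decidable (C2n D d) := by
  unfold C2n
  infer_instance

/-- `A2 (-D)` in terms of the residues modulo `16` -/
def A2n (D d : ℕ) : Prop :=
  (D % 4 = 3 ∧ d % 4 = 1) ∨
  (D % 4 ≠ 3 ∧ (d % 8 = 1 ∨ (D % 2 = 1 ∧ (d + D) % 8 = 0) ∨ (D % 2 = 0 ∧ (d + D) % 16 = 0)))

instance (D d : ℕ) : Decidable (A2n D d) := by
  unfold A2n
  infer_instance

/-- the statement for four residues -/
def Row (D g u v : ℕ) : Prop :=
  ¬ (u % 2 = 0 ∧ v % 2 = 0) → g * v % 4 ≠ 0 → C2n D (g * v % 16) → ¬ A2n D (g * v % 16) →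
    A2n D (u * v % 16)

instance (D g u v : ℕ) : Decidable (Row D g u v) := by
  unfold Row
  infer_instance

/-- the statement for three residues -/
def Rows (D g u : ℕ) : Prop :=
  D % 4 ≠ 0 → g * u % 4 ≠ 0 → C2n D (g * u % 16) → ¬ A2n D (g * u % 16) → ∀ v < 16, Row D g u v

instance (D g u : ℕ) : Decidable (Rows D g u) := by
  unfold Rows
  infer_instance

set_option maxRecDepth 100000 in
theorem table : ∀ D < 16, ∀ g < 16, ∀ u < 16, Rows D g u := by
  decide +kernel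

theorem C2_iff {D d : ℤ} {r x : ℕ} (h1 : D % 16 = r) (h2 : d % 16 = x) : C2 D d ↔ C2n r x := by
  unfold C2 C2n
  constructor <;> intro h <;> omega

theorem A2_iff {D d : ℤ} {r x : ℕ} (h1 : D % 16 = r) (h2 : d % 16 = x) : A2 (-D) d ↔ A2n r x := by
  unfold A2 A2n
  constructor <;> intro h <;> omega

theorem res (n : ℤ) : ∃ r : ℕ, r < 16 ∧ n % 16 = r :=
  ⟨(n % 16).toNat, by omega, by omega⟩

theorem res_mul {a b : ℤ} {r s : ℕ} (h1 : a % 16 = r) (h2 : b % 16 = s) :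
    (a * b) % 16 = ((r * s % 16 : ℕ) : ℤ) := by
  rw [Int.mul_emod, h1, h2]
  push_cast
  rfl

theorem not_four {n : ℤ} (h : Squarefree n) : n % 4 ≠ 0 := by
  intro h4
  have h1 : (2 : ℤ) * 2 ∣ n := by
    have : (4 : ℤ) ∣ n := Int.dvd_of_emod_eq_zero h4
    simpa using this
  have h2 := Int.isUnit_iff.1 (h 2 h1)
  omega

end IC2H

open IC2H in
theorem t_IC2 : S_IC2 := by
  intro D g u v hD hgu hgv huv h1 h2 h3 h4
  obtain ⟨r, hr, eD⟩ := res D
  obtain ⟨a, ha, eg⟩ := res g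
  obtain ⟨b, hb, eu⟩ := res u
  obtain ⟨c, hc, ev⟩ := res v
  have k1 := not_four hD
  have k2 := not_four hgu
  have k3 := not_four hgv
  have egu := res_mul eg eu
  have egv := res_mul eg ev
  have k4 : ¬ (u % 2 = 0 ∧ v % 2 = 0) := by
    rintro ⟨e1, e2⟩
    have h5 := huv.isUnit_of_dvd' (Int.dvd_of_emod_eq_zero e1) (Int.dvd_of_emod_eq_zero e2)
    have h6 := Int.isUnit_iff.1 h5
    omega
  rw [C2_iff eD egu] at h1
  rw [C2_iff eD egv] at h2
  rw [A2_iff eD egu] at h3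
  rw [A2_iff eD egv] at h4
  rw [A2_iff eD (res_mul eu ev)]
  exact table r hr a ha b hb (by omega) (by omega) h1 h3 c hc (by omega) (by omega) h2 h4

end Pool.Agent.NH3.XT
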