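import Pool.Agent.NH3.XT.StmP

/-!
# XP-3 (helper79): the first factor, and the class of the positive twists is not empty
-/

set_option autoImplicit false

namespace Pool.Agent.NH3.XT

/-- INCA -/
theorem t_INCA : S_INCA := by
  rintro D hD hsq d ⟨h1, h2, h3, h4⟩
  refine ⟨h1, h2, ?_, fun p _ hp => ⟨fun hd => ?_, fun hd => ?_⟩⟩
  · unfold A2 at h3
    unfold C2
    omega
  · have h5 := (h4 p hp).1 ((dvd_neg).1 hd)
    have e : -(d * -D) = d * D := by ring
    unfold H3
    rw [e]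
    exact h5
  · exact (h4 p hp).2 fun h6 => hd ((dvd_neg).2 h6)

namespace EXIP

theorem sym_iff {p : ℕ} (hp : p.Prime) (z : ℤ) :
    jacobiSym z p = -1 ↔ ¬ IsSquare (z : ZMod p) := by
  have : Fact p.Prime := ⟨hp⟩
  rw [← jacobiSym.legendreSym.to_jacobiSym]
  exact legendreSym.eq_neg_one_iff p

theorem nonsq {p : ℕ} (hp : p.Prime) (h2 : p ≠ 2) : ∃ n : ZMod p, ¬ IsSquare n := by
  have : Fact p.Prime := ⟨hp⟩
  apply FiniteField.exists_nonsquare
  rw [ZMod.ringChar_zmod_n]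
  exact h2

theorem cop {p r : ℕ} (hp : p.Prime) (h : (r : ZMod p) ≠ 0) : Nat.Coprime r p := by
  rw [Nat.coprime_comm, hp.coprime_iff_not_dvd]
  intro hd
  exact h ((ZMod.natCast_eq_zero_iff r p).2 hd)

end EXIP

open EXIP in
/-- EXIP -/
theorem t_EXIP : S_EXIP := by
  classical
  intro a b c e hT
  obtain ⟨heq, hcop, ha, hb, hc, he⟩ := hT
  have habc : (a * b * c) % 2 = 1 := by
    rw [Int.mul_emod, Int.mul_emod a b, ha, hb, hc]
    norm_num
  have hne : a * b * c ≠ 0 := by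
    intro h
    rw [h] at habc
    norm_num at habc
  obtain ⟨P, hPd⟩ : ∃ P, P = (a * b * c).natAbs.primeFactors := ⟨_, rfl⟩
  have hP : ∀ p : ℕ, p ∈ P ↔ p.Prime ∧ (p : ℤ) ∣ a * b * c := by
    intro p
    rw [hPd, Nat.mem_primeFactors_of_ne_zero (Int.natAbs_ne_zero.2 hne)]
    rw [← Int.natCast_dvd]
  have hodd : ∀ p ∈ P, p ≠ 2 := by
    rintro p hp rfl
    have h1 := ((hP 2).1 hp).2
    have h2 : (2 : ℤ) ∣ a * b * c := by exact_mod_cast h1
    omega
  -- no prime divides `a b` and `c`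
  have hex : ∀ p : ℕ, p.Prime → (p : ℤ) ∣ a * b → (p : ℤ) ∣ c → False := by
    intro p hp h1 h2
    have hp' : Prime (p : ℤ) := Nat.prime_iff_prime_int.1 hp
    have hc2 : (p : ℤ) ∣ (2 ^ e * c) ^ 2 := by
      exact Dvd.dvd.pow (Dvd.dvd.mul_left h2 _) (by norm_num)
    have hboth : (p : ℤ) ∣ a ∧ (p : ℤ) ∣ b := by
      rcases hp'.dvd_or_dvd h1 with h | h
      · refine ⟨h, hp'.dvd_of_dvd_pow (n := 2) ?_⟩
        rw [← heq]
        exact dvd_add (Dvd.dvd.pow h (by norm_num)) hc2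
      · refine ⟨hp'.dvd_of_dvd_pow (n := 2) ?_, h⟩
        have h3 : a ^ 2 = b ^ 2 - (2 ^ e * c) ^ 2 := by linarith
        rw [h3]
        exact dvd_sub (Dvd.dvd.pow h (by norm_num)) hc2
    have h4 := hcop.isUnit_of_dvd' hboth.1 hboth.2
    exact hp'.not_isUnit h4
  -- the residues
  have hr : ∀ p : ℕ, ∃ r : ℕ, p ∈ P → r.Coprime p ∧
      ((p : ℤ) ∣ a * b → jacobiSym (-(r : ℤ)) p = -1) ∧ ((p : ℤ) ∣ c → jacobiSym (r : ℤ) p = -1) := by
    intro p
    by_cases hp : p ∈ P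
    · have hpp := ((hP p).1 hp).1
      have : Fact p.Prime := ⟨hpp⟩
      obtain ⟨n, hn⟩ := nonsq hpp (hodd p hp)
      have hn0 : n ≠ 0 := by
        rintro rfl
        exact hn (IsSquare.zero)
      by_cases hd : (p : ℤ) ∣ a * b
      · refine ⟨(-n).val, fun _ => ⟨cop hpp ?_, fun _ => ?_, fun h => (hex p hpp hd h).elim⟩⟩
        · rw [ZMod.natCast_zmod_val]
          exact neg_ne_zero.2 hn0
        · rw [sym_iff hpp]
          rw [Int.cast_neg, Int.cast_natCast, ZMod.natCast_zmod_val, neg_neg]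
          exact hn
      · refine ⟨n.val, fun _ => ⟨cop hpp ?_, fun h => absurd h hd, fun _ => ?_⟩⟩
        · rw [ZMod.natCast_zmod_val]
          exact hn0
        · rw [sym_iff hpp]
          rw [Int.cast_natCast, ZMod.natCast_zmod_val]
          exact hn
    · exact ⟨0, fun h => absurd h hp⟩
  choose r hr using hr
  -- Chinese remainders
  have h8P : (8 : ℕ) ∉ P := by
    intro h
    have := ((hP 8).1 h).1
    norm_num at this
  have hpc : ∀ p ∈ P, Nat.Coprime 8 p := by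
    intro p hp
    have hpp := ((hP p).1 hp).1
    have h1 : Nat.Coprime 2 p := (Nat.coprime_primes Nat.prime_two hpp).2 (hodd p hp).symm
    exact Nat.Coprime.pow_left 3 h1
  have hpair : Set.Pairwise ((insert 8 P : Finset ℕ) : Set ℕ)
      (Function.onFun Nat.Coprime (fun i : ℕ => i)) := by
    intro i hi j hj hij
    rw [Finset.mem_coe, Finset.mem_insert] at hi hj
    show Nat.Coprime i j
    rcases hi with rfl | hi
    · rcases hj with rfl | hj
      · exact absurd rfl hij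
      · exact hpc j hj
    · rcases hj with rfl | hj
      · exact (hpc i hi).symm
      · exact (Nat.coprime_primes ((hP i).1 hi).1 ((hP j).1 hj).1).2 hij
  obtain ⟨k, hk⟩ := Nat.chineseRemainderOfFinset (fun i : ℕ => if i = 8 then 3 else r i)
    (fun i : ℕ => i) (insert 8 P) (by
      intro i hi
      rcases Finset.mem_insert.1 hi with rfl | hi
      · norm_num
      · exact ((hP i).1 hi).1.ne_zero) hpair
  have hk8 : k ≡ 3 [MOD 8] := by
    have h1 := hk 8 (Finset.mem_insert_self _ _)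
    simpa using h1
  have hkp : ∀ p ∈ P, k ≡ r p [MOD p] := by
    intro p hp
    have h1 := hk p (Finset.mem_insert_of_mem hp)
    have h2 : p ≠ 8 := by
      rintro rfl
      exact h8P hp
    simpa [h2] using h1
  obtain ⟨M, hM⟩ : ∃ M : ℕ, M = ∏ i ∈ insert 8 P, i := ⟨_, rfl⟩
  have hM0 : M ≠ 0 := by
    rw [hM, Finset.prod_ne_zero_iff]
    intro i hi
    rcases Finset.mem_insert.1 hi with rfl | hi
    · norm_num
    · exact ((hP i).1 hi).1.ne_zero
  have hdM : ∀ i ∈ insert 8 P, i ∣ M := by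
    intro i hi
    rw [hM]
    exact Finset.dvd_prod_of_mem (fun i : ℕ => i) hi
  have hkM : Nat.Coprime k M := by
    rw [hM]
    refine Nat.Coprime.prod_right fun i hi => ?_
    rcases Finset.mem_insert.1 hi with rfl | hi
    · have h1 := hk8.gcd_eq
      show Nat.gcd k 8 = 1
      rw [h1]
      rfl
    · have h1 := (hkp i hi).gcd_eq
      show Nat.gcd k i = 1
      rw [h1]
      exact (hr i hi).1
  have : NeZero M := ⟨hM0⟩
  obtain ⟨l, hl0, hl, hlM⟩ := Nat.forall_exists_prime_gt_and_eq_mod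
    (((ZMod.isUnit_iff_coprime k M).2 hkM)) 0
  have hlk : l ≡ k [MOD M] := (ZMod.natCast_eq_natCast_iff _ _ _).1 hlM
  have hl8 : l ≡ 3 [MOD 8] := (hlk.of_dvd (hdM 8 (Finset.mem_insert_self _ _))).trans hk8
  have hlp : ∀ p ∈ P, l ≡ r p [MOD p] := fun p hp =>
    (hlk.of_dvd (hdM p (Finset.mem_insert_of_mem hp))).trans (hkp p hp)
  have hcast : ∀ p ∈ P, ((l : ℤ) : ZMod p) = ((r p : ℤ) : ZMod p) := by
    intro p hp
    rw [Int.cast_natCast, Int.cast_natCast]
    exact (ZMod.natCast_eq_natCast_iff _ _ _).2 (hlp p hp)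
  refine ⟨(l : ℤ), ?_, ?_, ?_, ?_, ?_⟩
  · have := hl.pos
    omega
  · rw [← Int.squarefree_natAbs, Int.natAbs_natCast]
    exact hl.squarefree
  · intro p hp hd
    have hpP : p ∈ P := (hP p).2 ⟨hp, Dvd.dvd.mul_right hd _⟩
    have h1 := (hr p hpP).2.1 hd
    rw [sym_iff hp] at h1 ⊢
    rw [Int.cast_neg] at h1 ⊢
    rw [hcast p hpP]
    exact h1
  · intro p hp hd
    have hpP : p ∈ P := (hP p).2 ⟨hp, Dvd.dvd.mul_left hd _⟩
    have h1 := (hr p hpP).2.2 hd
    rw [sym_iff hp] at h1 ⊢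
    rw [hcast p hpP]
    exact h1
  · intro _ h1
    have h2 : l % 8 = 3 := hl8
    omega

end Pool.Agent.NH3.XT
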