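import Pool.Agent.NH3.XT.StmP2

/-! Project XP (helper3), part INCH: the second factor is at most twice as large. -/

set_option autoImplicit false

namespace Pool.Agent.NH3.XT

namespace INCH

theorem sq_eq {a b x y : ℤ} (ha : Squarefree a) (hb : Squarefree b) (hx : x ≠ 0)
    (h : a * y ^ 2 = b * x ^ 2) : a = b := by
  have ha0 : a ≠ 0 := ha.ne_zero
  have h1 : x ^ 2 ∣ (a * y) ^ 2 := ⟨a * b, by linear_combination a * h⟩
  obtain ⟨c, hc⟩ := (Int.pow_dvd_pow_iff (by norm_num)).1 h1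
  have h2 : x ^ 2 * (c ^ 2 - a * b) = 0 := by
    have h3 : (a * y) ^ 2 = (x * c) ^ 2 := by rw [hc]
    linear_combination -h3 + a * h
  have h3 : c ^ 2 = a * b := by
    rcases mul_eq_zero.1 h2 with h4 | h4
    · exact absurd h4 (pow_ne_zero 2 hx)
    · linarith
  have h4 : a ∣ c ^ 2 := ⟨b, h3⟩
  obtain ⟨e, he⟩ := (ha.dvd_pow_iff_dvd (by norm_num)).1 h4
  have h5 : b = a * e ^ 2 := by
    have h6 : a * (b - a * e ^ 2) = 0 := by
      rw [he] at h3
      linear_combination -h3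
    rcases mul_eq_zero.1 h6 with h7 | h7
    · exact absurd h7 ha0
    · linarith
  have h6 : IsUnit e := hb e ⟨a, by rw [h5]; ring⟩
  have h7 : e ^ 2 = 1 := by
    rcases Int.isUnit_iff.1 h6 with h8 | h8 <;> rw [h8] <;> norm_num
  rw [h5, h7, mul_one]

theorem sq_div {K : Type} [Field K] {g w z : K} (hg : g ≠ 0) (h : z = g ^ 2 * w) (hz : IsSquare z) :
    IsSquare w := by
  obtain ⟨r, hr⟩ := hz
  refine ⟨r / g, ?_⟩
  rw [h] at hr
  field_simp
  linear_combination hr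

theorem H_iff (p : ℕ) [Fact p.Prime] (D d : ℤ) : H1 p (-D) d ↔ H3 p D d := by
  unfold H1 H3
  rw [mul_neg]

theorem H_mul (p : ℕ) [Fact p.Prime] (D g u v : ℤ) (hD : D ≠ 0) (hg : g ≠ 0)
    (h1 : H3 p D (g * u)) (h2 : H3 p D (g * v)) : H3 p D (u * v) := by
  have hD' : (D : ℚ_[p]) ≠ 0 := by exact_mod_cast hD
  have hg' : (g : ℚ_[p]) ≠ 0 := by exact_mod_cast hg
  unfold H3 at *
  push_cast at *
  rcases h1 with h1 | h1 <;> rcases h2 with h2 | h2
  · exact Or.inl (sq_div hg' (by ring) (h1.mul h2))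
  · exact Or.inr (sq_div hg' (by ring) (h1.mul h2))
  · exact Or.inr (sq_div hg' (by ring) (h1.mul h2))
  · exact Or.inl (sq_div (mul_ne_zero hg' hD') (by ring) (h1.mul h2))

end INCH

open INCH in
theorem t_INCH : S_INCH := by
  intro hIC D hD hsD hA
  have hD0 : D ≠ 0 := hD.ne'
  obtain ⟨C, hC⟩ : ∃ C, C = CSp D := ⟨_, rfl⟩
  obtain ⟨A, hAA⟩ : ∃ A, A = AS (-D) := ⟨_, rfl⟩
  rw [← hC, ← hAA]
  rw [← hAA] at hA
  have hCm : ∀ d, d ∈ C ↔ Squarefree d ∧ C2 D d ∧ ∀ (p : ℕ) [Fact p.Prime], p ≠ 2 →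
      ((p : ℤ) ∣ D → H3 p D d) ∧ (¬ (p : ℤ) ∣ D → ¬ (p : ℤ) ∣ d) := by
    intro d
    rw [hC]
    rfl
  have hAm : ∀ d, d ∈ A ↔ Squarefree d ∧ A2 (-D) d ∧ ∀ (p : ℕ) [Fact p.Prime], p ≠ 2 →
      ((p : ℤ) ∣ D → H3 p D d) ∧ (¬ (p : ℤ) ∣ D → ¬ (p : ℤ) ∣ d) := by
    intro d
    rw [hAA]
    unfold AS
    rw [Set.mem_ofPred_eq]
    refine and_congr_right fun _ => and_congr_right fun _ => ?_
    refine forall_congr' fun p => forall_congr' fun hp => forall_congr' fun _ => ?_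
    rw [H_iff, dvd_neg]
  have key : (C \ A).Finite ∧ (C \ A).ncard ≤ A.ncard := by
    rcases Set.eq_empty_or_nonempty (C \ A) with h0 | ⟨d0, hd0⟩
    · rw [h0]
      exact ⟨Set.finite_empty, by rw [Set.ncard_empty]; exact Nat.zero_le _⟩
    · have hd0C := (hCm d0).1 hd0.1
      have hd0n : d0 ≠ 0 := hd0C.1.ne_zero
      have hnA : ∀ d ∈ C \ A, ¬ A2 (-D) d := by
        intro d hd h
        have h1 := (hCm d).1 hd.1
        exact hd.2 ((hAm d).2 ⟨h1.1, h, h1.2.2⟩)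
      have hdec : ∀ d ∈ C \ A, ∃ g u v : ℤ, g ≠ 0 ∧ d = g * u ∧ d0 = g * v ∧ IsCoprime u v := by
        intro d hd
        have hg : 0 < Int.gcd d d0 := Int.gcd_pos_of_ne_zero_right _ hd0n
        refine ⟨(Int.gcd d d0 : ℤ), d / (Int.gcd d d0 : ℤ), d0 / (Int.gcd d d0 : ℤ), ?_, ?_, ?_, ?_⟩
        · exact_mod_cast hg.ne'
        · exact (Int.mul_ediv_cancel' (Int.gcd_dvd_left _ _)).symm
        · exact (Int.mul_ediv_cancel' (Int.gcd_dvd_right _ _)).symm
        · rw [Int.isCoprime_iff_gcd_eq_one]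
          exact Int.gcd_div_gcd_div_gcd hg
      choose! g u v hg hdu hdv huv using hdec
      obtain ⟨f, hf⟩ : ∃ f : ℤ → ℤ, ∀ d, f d = u d * v d := ⟨_, fun _ => rfl⟩
      have hmap : ∀ d ∈ C \ A, f d ∈ A := by
        intro d hd
        have hdC := (hCm d).1 hd.1
        have e1 := hdu d hd
        have e2 := hdv d hd
        have s1 : Squarefree (u d) := hdC.1.squarefree_of_dvd ⟨g d, by rw [mul_comm]; exact e1⟩
        have s2 : Squarefree (v d) := hd0C.1.squarefree_of_dvd ⟨g d, by rw [mul_comm]; exact e2⟩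
        rw [hf, hAm]
        refine ⟨(squarefree_mul_iff).2 ⟨(huv d hd).isRelPrime, s1, s2⟩, ?_, ?_⟩
        · exact hIC D (g d) (u d) (v d) hsD (e1 ▸ hdC.1) (e2 ▸ hd0C.1) (huv d hd) (e1 ▸ hdC.2.1)
            (e2 ▸ hd0C.2.1) (e1 ▸ hnA d hd) (e2 ▸ hnA d0 hd0)
        · intro p hp hp2
          have h1 := hdC.2.2 p hp2
          have h2 := hd0C.2.2 p hp2
          refine ⟨fun hpD => ?_, fun hpD hdiv => ?_⟩
          · exact H_mul p D (g d) (u d) (v d) hD0 (hg d hd) (e1 ▸ h1.1 hpD) (e2 ▸ h2.1 hpD)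
          · have hpp : Prime (p : ℤ) := Nat.prime_iff_prime_int.1 hp.out
            rcases hpp.dvd_or_dvd hdiv with h3 | h3
            · exact h1.2 hpD (h3.trans ⟨g d, by rw [mul_comm]; exact e1⟩)
            · exact h2.2 hpD (h3.trans ⟨g d, by rw [mul_comm]; exact e2⟩)
      have hinj : Set.InjOn f (C \ A) := by
        intro d hd d' hd' h
        rw [hf, hf] at h
        have e1 := hdu d hd
        have e2 := hdv d hd
        have e3 := hdu d' hd'
        have e4 := hdv d' hd'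
        have h1 := ((hCm d).1 hd.1).1
        have h2 := ((hCm d').1 hd'.1).1
        refine sq_eq (x := g d) (y := g d') h1 h2 (hg d hd) ?_
        have h3 : d0 * (d * g d' ^ 2 - d' * g d ^ 2) = 0 := by
          have h4 : d * d0 = g d ^ 2 * (u d * v d) := by
            calc d * d0 = (g d * u d) * (g d * v d) := by rw [← e1, ← e2]
              _ = _ := by ring
          have h5 : d' * d0 = g d' ^ 2 * (u d' * v d') := by
            calc d' * d0 = (g d' * u d') * (g d' * v d') := by rw [← e3, ← e4]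
              _ = _ := by ring
          linear_combination g d' ^ 2 * h4 - g d ^ 2 * h5 + g d ^ 2 * g d' ^ 2 * h
        rcases mul_eq_zero.1 h3 with h4 | h4
        · exact absurd h4 hd0n
        · linarith
      exact ⟨Set.Finite.of_injOn hmap hinj hA, Set.ncard_le_ncard_of_injOn f hmap hinj hA⟩
  have hfin : C.Finite := by
    refine (hA.union key.1).subset fun d hd => ?_
    by_cases h : d ∈ A
    · exact Or.inl h
    · exact Or.inr ⟨hd, h⟩
  refine ⟨hfin, ?_⟩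
  have h1 := Set.ncard_inter_add_ncard_sdiff_eq_ncard C A hfin
  have h2 : (C ∩ A).ncard ≤ A.ncard := Set.ncard_le_ncard Set.inter_subset_right hA
  have h3 := key.2
  omega

end Pool.Agent.NH3.XT
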