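import Pool.Agent.NH4.XG.Stm

/-!
# Project XT (helper3): the joint law in arbitrary residue classes: statement
-/

set_option autoImplicit false

open scoped Classical

namespace Pool.Agent.NH3.XT

open Finset Filter Topology
open Pool.Agent.NH4.XG (nx S_XGDEN)
open Pool.Agent.NH4.PJ (law)

/-- the number of the squarefree `D < 0`, `|D| ≤ X`, with the property `P` -/
noncomputable def cneg (P : ℤ → Prop) (X : ℕ) : ℝ :=
  (((Icc (-(X : ℤ)) (-1)).filter fun D : ℤ => Squarefree D ∧ P D).card : ℝ)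

/-- LAW: the joint law, `P` is a union of residue classes modulo `q` -/
def S_LAW : Prop := S_XGDEN → ∀ (q : ℕ) (P : ℤ → Prop), 0 < q →
  (∀ D D' : ℤ, D ≡ D' [ZMOD q] → (P D ↔ P D')) →
  (∃ D : ℤ, D < 0 ∧ Squarefree D ∧ P D) →
  (∀ (k : ℕ) (U : Fin k → Finset ℕ) (rr : Fin k → ℕ), (∀ t, ∀ p ∈ U t, p.Prime) →
    Function.Injective U →
    Tendsto (fun X : ℕ => cneg (fun D => P D ∧
      ∀ t, nx (symmDiff D.natAbs.primeFactors (U t)) = 2 ^ (rr t + 1)) X / cneg P X) atTop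
      (𝓝 (∏ t, law 0 (rr t)))) ∧
  ∃ (c : ℝ) (X₀ : ℕ), 0 < c ∧ ∀ X : ℕ, X₀ ≤ X → c * X ≤ cneg P X

end Pool.Agent.NH3.XT
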