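import Pool.Agent.NH3.XT.StmP2

/-!
# PEL: Legendre's descent for the Pell equation
-/

set_option autoImplicit false

namespace Pool.Agent.NH3.XT

/-- two coprime factors of `D z²` -/
theorem pel_split {m n D z : ℤ} (hm : 0 < m) (hn : 0 < n) (hD : 0 < D) (hc : IsCoprime m n)
    (h : m * n = D * z ^ 2) :
    ∃ d D' a b : ℤ, 0 < d ∧ 0 < D' ∧ d * D' = D ∧ m = d * a ^ 2 ∧ n = D' * b ^ 2 := by
  have hg : 0 < Int.gcd m D := Int.gcd_pos_of_ne_zero_left _ hm.ne'
  obtain ⟨m', D', hmD, h1, h2⟩ := Int.exists_gcd_one hg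
  generalize Int.gcd m D = g at hg h1 h2
  have hgz : (0 : ℤ) < (g : ℤ) := by exact_mod_cast hg
  have hm' : 0 < m' := by
    by_contra hc
    have : m' * g ≤ 0 := mul_nonpos_of_nonpos_of_nonneg (not_lt.1 hc) hgz.le
    omega
  have hD' : 0 < D' := by
    by_contra hc
    have : D' * g ≤ 0 := mul_nonpos_of_nonpos_of_nonneg (not_lt.1 hc) hgz.le
    omega
  have hcop : IsCoprime m' D' := Int.isCoprime_iff_gcd_eq_one.2 hmD
  have h3 : m' * n = D' * z ^ 2 := by
    have : (g : ℤ) * (m' * n) = g * (D' * z ^ 2) := by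
      rw [h1, h2] at h
      linear_combination h
    exact mul_left_cancel₀ hgz.ne' this
  have h4 : D' ∣ n := hcop.symm.dvd_of_dvd_mul_left (Dvd.intro _ h3.symm)
  obtain ⟨n', rfl⟩ := h4
  have hn' : 0 < n' := (mul_pos_iff_of_pos_left hD').1 hn
  have h5 : m' * n' = z ^ 2 := by
    have : D' * (m' * n') = D' * z ^ 2 := by linear_combination h3
    exact mul_left_cancel₀ hD'.ne' this
  have h6 : IsCoprime m' n' := by
    rw [h1] at hc
    exact hc.of_mul_left_left.of_mul_right_right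
  have hsq : ∀ {u w : ℤ}, 0 < u → IsCoprime u w → u * w = z ^ 2 → ∃ r, u = r ^ 2 := by
    intro u w hu huw he
    obtain ⟨r, hr | hr⟩ := Int.sq_of_isCoprime huw he
    · exact ⟨r, hr⟩
    · have : 0 ≤ r ^ 2 := sq_nonneg r
      omega
  obtain ⟨a, ha⟩ := hsq hm' h6 h5
  obtain ⟨b, hb⟩ := hsq hn' h6.symm (by rw [mul_comm]; exact h5)
  refine ⟨g, D', a, b, hgz, hD', by rw [h2]; ring, by rw [h1, ha]; ring, by rw [hb]⟩

theorem t_PEL : S_PEL := by
  intro D hD hsf
  have hns : ¬ IsSquare D := by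
    rintro ⟨r, hr⟩
    have h1 : IsUnit r := hsf r (by rw [hr])
    rcases Int.isUnit_iff.1 h1 with h | h <;> rw [h] at hr <;> omega
  obtain ⟨s, hs1, hs2, hs3⟩ := Pell.IsFundamental.exists_of_not_isSquare (by omega : 0 < D) hns
  have hp := s.prop
  generalize hx : s.x = x at hs1 hs3 hp
  generalize hy : s.y = y at hs2 hp
  rcases Int.emod_two_eq_zero_or_one x with hx2 | hx2
  · -- `x` even
    obtain ⟨k, rfl⟩ : ∃ k, x = 2 * k := ⟨x / 2, by omega⟩
    have hyo : y % 2 = 1 := by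
      rcases Int.emod_two_eq_zero_or_one y with h | h
      · exfalso
        obtain ⟨l, rfl⟩ : ∃ l, y = 2 * l := ⟨y / 2, by omega⟩
        have : 4 * (k ^ 2 - D * l ^ 2) = 1 := by linear_combination hp
        omega
      · exact h
    obtain ⟨l, rfl⟩ : ∃ l, y = 2 * l + 1 := ⟨y / 2, by omega⟩
    have hD4 : D % 4 = 3 := by
      have : 4 * (k ^ 2 - D * (l ^ 2 + l)) = D + 1 := by linear_combination hp
      omega
    have hc : IsCoprime (2 * k + 1) (2 * k - 1) := ⟨k, -(k + 1) + 0, by ring⟩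
    obtain ⟨d, D', a, b, h1, h2, h3, h4, h5⟩ := pel_split (m := 2 * k + 1) (n := 2 * k - 1) (D := D)
      (z := 2 * l + 1) (by omega) (by omega) (by omega) hc (by linear_combination hp)
    exact ⟨d, D', a, b, h1, h2, h3, Or.inr ⟨hD4, by rw [← h4, ← h5]; ring⟩⟩
  · -- `x` odd
    obtain ⟨k, rfl⟩ : ∃ k, x = 2 * k + 1 := ⟨x / 2, by omega⟩
    have hk : 1 ≤ k := by omega
    have hye : y % 2 = 0 := by
      by_contra hyo
      obtain ⟨l, rfl⟩ : ∃ l, y = 2 * l + 1 := ⟨y / 2, by omega⟩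
      have h4 : (4 : ℤ) ∣ D := ⟨k ^ 2 + k - D * (l ^ 2 + l), by linear_combination -hp⟩
      have h5 : IsUnit (2 : ℤ) := hsf 2 (by simpa using h4)
      rcases Int.isUnit_iff.1 h5 with h | h <;> omega
    obtain ⟨l, rfl⟩ : ∃ l, y = 2 * l := ⟨y / 2, by omega⟩
    have hc : IsCoprime (k + 1) k := ⟨1, -1, by ring⟩
    obtain ⟨d, D', a, b, h1, h2, h3, h4, h5⟩ := pel_split (m := k + 1) (n := k) (D := D)
      (z := l) (by omega) (by omega) (by omega) hc (by linarith)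
    refine ⟨d, D', a, b, h1, h2, h3, Or.inl ⟨?_, by rw [← h4, ← h5]; ring⟩⟩
    rintro rfl
    rw [one_mul] at h3 h4
    rw [h3] at h5
    have h6 : a ^ 2 - D * b ^ 2 = 1 := by rw [← h4, ← h5]; ring
    have h7 : |a| ^ 2 - D * b ^ 2 = 1 := by rw [sq_abs]; exact h6
    have ha : 1 < |a| := by
      by_contra hc
      have h8 : |a| ≤ 1 := not_lt.1 hc
      have h9 : |a| ^ 2 ≤ 1 ^ 2 := pow_le_pow_left₀ (abs_nonneg a) h8 2
      rw [sq_abs] at h9
      omega
    have h10 := hs3 (b := Pell.Solution₁.mk |a| b h7) ha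
    have h11 : 2 * k + 1 ≤ |a| := h10
    have h12 : |a| ≤ a ^ 2 := by
      rw [← sq_abs]
      nlinarith
    omega

end Pool.Agent.NH3.XT
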