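import Pool.Agent.NH3.XT.StmP2
import Pool.Agent.NH3.XT.Ev

/-!
# Project XP (helper3): the orders of the Selmer groups of the positive twists
-/

set_option autoImplicit false

open scoped Classical

namespace Pool.Agent.NH3.XT

open Pool.Agent.Y667.SX (Sel2H)
open Pool.Agent.Y667.BK (SelInf)
open Pool.Agent.TH841.SH.D (Sha)
open Pool.Agent.NH4.XG (nx)
open Pool.Agent.NH3.XS (G4)

/-- **the orders of the groups** -/
theorem ordersN {a b D : ℤ} (ha : a ≠ 0) (hb : b ≠ 0) (hab : a ^ 2 ≠ b ^ 2) (hD : D ≠ 0) {n : ℕ}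
    (hC : (Sel (b ^ 2 * D) (a ^ 2 * D)).Finite ∧ (Sel (b ^ 2 * D) (a ^ 2 * D)).ncard = n) :
    Nat.card (Sel2H (Ec a b D)) = n ∧
    4 * (2 ^ Module.finrank ℤ (Ec a b D).toAffine.Point *
        Nat.card {x : Sha (Ec a b D) // x + x = 0}) = n ∧
    4 * Nat.card {x : SelInf (Ec a b D) // x + x = 0} = n := by
  rw [sel_eq] at hC
  obtain ⟨c1, c2⟩ := hC
  have hd := disc_ne ha hb hab hD
  have hr : ∀ x : ℤ, x ^ 3 + cA a b D * x + cB a b D =
      (x - (-3 * (a ^ 2 + b ^ 2) * D)) * (x - (6 * b ^ 2 - 3 * a ^ 2) * D) *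
        (x - (6 * a ^ 2 - 3 * b ^ 2) * D) := by
    intro x
    unfold cA cB
    ring
  obtain ⟨s1, s2⟩ := Pool.Agent.Y212.RZ.SELC2 _ _ _ _ _ (b ^ 2 * D) (a ^ 2 * D) ((3 : ℤ) : ℚ)
    hd hr (by norm_num) (by push_cast; ring) (by push_cast; ring) c1
  rw [c2] at s2
  obtain ⟨h1, h2⟩ := Pool.Agent.Z864.SX.SELH _ _ _ _ _ hd hr s1
  obtain ⟨h3, h4⟩ := Pool.Agent.Y214.SX.RKSHA _ _ _ _ _ hd hr h1
  obtain ⟨h5⟩ := Pool.Agent.Y833.SX.SEL2 _ _ _ _ _ hd hr
  obtain ⟨h6, h7⟩ := Pool.Agent.Y833.SX.SELI _ _ _ _ _ hd hr h1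
  rw [s2] at h2
  refine ⟨(Nat.card_congr h5).trans h2, ?_, h7.trans h2⟩
  rw [← h2, ← h4]
  ring

/-- the class contains neither `1` nor `3` -/
theorem nep_small {a b c : ℤ} {e : ℕ} (hT : Tri a b c e) {D : ℤ} (hD : Clsp a b c e D) :
    D ≠ 1 ∧ D ≠ 3 := by
  obtain ⟨-, -, h1, h2, -⟩ := hD
  constructor
  · rintro rfl
    have hb1 : b.natAbs ≠ 1 := by
      intro hb
      have hb2 : b ^ 2 = 1 := by
        rw [← Int.natAbs_sq, hb]
        rfl
      have hq := hT.eq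
      rw [hb2] at hq
      obtain ⟨ha, -, hc, -⟩ := tri_ne hT
      have ha' : 0 < a ^ 2 := by positivity
      have hc' : 0 < (2 ^ e * c) ^ 2 := by positivity
      linarith
    obtain ⟨p, hp, hpb⟩ := Nat.exists_prime_and_dvd hb1
    have hpb' : (p : ℤ) ∣ b := Int.natCast_dvd.2 hpb
    have : Fact p.Prime := ⟨hp⟩
    have h3 := h1 p hp (hpb'.mul_left a)
    rw [← jacobiSym.legendreSym.to_jacobiSym, legendreSym.eq_neg_one_iff] at h3
    refine h3 ?_
    have hpa : ((a : ℤ) : ZMod p) ≠ 0 := by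
      intro h
      rw [ZMod.intCast_zmod_eq_zero_iff_dvd] at h
      have h4 := hT.cop.isUnit_of_dvd' h hpb'
      exact (Nat.prime_iff_prime_int.1 hp).not_unit h4
    have hq := congrArg (Int.cast : ℤ → ZMod p) hT.eq
    have hb0 : ((b : ℤ) : ZMod p) = 0 := (ZMod.intCast_zmod_eq_zero_iff_dvd b p).2 hpb'
    push_cast at hq
    rw [hb0] at hq
    refine ⟨(2 ^ e * (c : ZMod p)) / (a : ZMod p), ?_⟩
    push_cast
    field_simp
    linear_combination -hq
  · rintro rfl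
    have hp3 : Nat.Prime 3 := Nat.prime_three
    have h0 : jacobiSym 3 3 = 0 := by norm_num
    have h0' : jacobiSym (-3) 3 = 0 := by norm_num
    rcases three_dvd hT.eq with h | h
    · have h3 := h1 3 hp3 (by push_cast; exact h.mul_right b)
      push_cast at h3
      rw [h0'] at h3
      norm_num at h3
    · have h4 : (3 : ℤ) ∣ c := by
        have h5 : IsCoprime (3 : ℤ) (2 ^ e) := by
          refine IsCoprime.pow_right ?_
          norm_num
        exact h5.dvd_of_dvd_mul_left h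
      have h3 := h2 3 hp3 (by push_cast; exact h4)
      push_cast at h3
      rw [h0] at h3
      norm_num at h3

theorem asp_two {D : ℤ} (h1 : 1 < D) (hs : Squarefree D) (hf : (ASp D).Finite) :
    2 ≤ (ASp D).ncard := by
  have m1 : (1 : ℤ) ∈ ASp D := by
    refine ⟨squarefree_one, one_pos, ?_, fun p hp hp2 => ⟨fun _ => Or.inl ?_, fun _ h => ?_⟩⟩
    · unfold A2
      by_cases h : D % 4 = 1
      · exact Or.inl ⟨h, by norm_num⟩
      · exact Or.inr ⟨h, Or.inl (by norm_num)⟩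
    · push_cast
      exact ⟨1, by ring⟩
    · exact (Nat.prime_iff_prime_int.1 hp.out).not_unit (isUnit_of_dvd_one h)
  have m2 : D ∈ ASp D := by
    refine ⟨hs, by linarith, ?_, fun p hp hp2 => ⟨fun _ => Or.inr ?_, fun h => h⟩⟩
    · unfold A2
      by_cases h : D % 4 = 1
      · exact Or.inl ⟨h, h⟩
      · refine Or.inr ⟨h, ?_⟩
        rcases Int.emod_two_eq_zero_or_one D with h2 | h2
        · exact Or.inr (Or.inr ⟨h2, rfl⟩)
        · exact Or.inr (Or.inl ⟨h2, rfl⟩)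
    · push_cast
      exact ⟨D, by ring⟩
  have h2 : ({1, D} : Set ℤ) ⊆ ASp D := by
    intro x hx
    rcases hx with rfl | hx
    · exact m1
    · rw [Set.mem_singleton_iff] at hx
      rw [hx]
      exact m2
  calc 2 = ({1, D} : Set ℤ).ncard := (Set.ncard_pair h1.ne).symm
    _ ≤ _ := Set.ncard_le_ncard h2 hf

/-- the orders of the two factors of `-D` -/
theorem card_fac {D : ℤ} (h0 : D < 0) (hs : Squarefree D) :
    ((AS D).Finite ∧ (AS D).ncard = nx D.natAbs.primeFactors) ∧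
    ((CS D).Finite ∧ (CS D).ncard = nx D.natAbs.primeFactors) := by
  have h4 : D % 4 ≠ 0 := by
    intro h
    have h1 : (2 : ℤ) * 2 ∣ D := by omega
    have h2 := hs 2 h1
    rw [Int.isUnit_iff] at h2
    omega
  have hp : ∀ p ∈ D.natAbs.primeFactors, p.Prime := fun p hp => Nat.prime_of_mem_primeFactors hp
  have key : ∀ κ : ℤ, XS.S_CS κ → XS.S_AS κ → D % 4 = κ →
      ((AS D).Finite ∧ (AS D).ncard = nx D.natAbs.primeFactors) ∧
      ((CS D).Finite ∧ (CS D).ncard = nx D.natAbs.primeFactors) := by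
    intro κ hC hA hκ
    obtain ⟨c1, c2⟩ := hC XS.t_SQ D h0 hs hκ
    obtain ⟨a1, a2⟩ := hA XS.t_SQ D h0 hs hκ
    rw [as_eq, cs_eq]
    exact ⟨⟨a1, a2.trans (XS.t_TR _ hp)⟩, c1, c2⟩
  have h5 : D % 4 = 1 ∨ D % 4 = 2 ∨ D % 4 = 3 := by omega
  rcases h5 with h | h | h
  · exact key 1 XS.t_CSa XS.t_ASa h
  · exact key 2 XS.t_CSc XS.t_ASc h
  · exact key 3 XS.t_CSb XS.t_ASb h

/-- the 2-Selmer group of a positive twist -/
theorem sel_pos (hSel : ∀ (a b c : ℤ) (e : ℕ), Tri a b c e → ∀ D : ℤ, Clsp a b c e D →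
      Sel (b ^ 2 * D) (a ^ 2 * D) = ASp D ×ˢ CSp D)
    (hA : S_INCA) (hC : ∀ D : ℤ, 0 < D → Squarefree D → (AS (-D)).Finite →
      (CSp D).Finite ∧ (CSp D).ncard ≤ 2 * (AS (-D)).ncard)
    (hG : ∀ D : ℤ, 1 < D → Squarefree D → (CSp D).Finite → 4 ≤ (CSp D).ncard)
    {a b c : ℤ} {e : ℕ} (hT : Tri a b c e) {D : ℤ} (hD : Clsp a b c e D) :
    (Sel (b ^ 2 * D) (a ^ 2 * D)).Finite ∧ 8 ≤ (Sel (b ^ 2 * D) (a ^ 2 * D)).ncard ∧
    (Sel (b ^ 2 * D) (a ^ 2 * D)).ncard ≤ 2 * nx D.natAbs.primeFactors ^ 2 := by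
  have h0 : 0 < D := hD.1
  have hs : Squarefree D := hD.2.1
  have h1 : 1 < D := by
    have := (nep_small hT hD).1
    omega
  have hs' : Squarefree (-D) := by
    rw [← Int.squarefree_natAbs, Int.natAbs_neg, Int.squarefree_natAbs]
    exact hs
  obtain ⟨⟨a1, a2⟩, c1, c2⟩ := card_fac (by linarith : -D < 0) hs'
  rw [Int.natAbs_neg] at a2 c2
  have hsub := hA D h0 hs
  have f1 : (ASp D).Finite := c1.subset hsub
  obtain ⟨f2, f3⟩ := hC D h0 hs a1
  have u1 : (ASp D).ncard ≤ nx D.natAbs.primeFactors := by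
    rw [← c2]
    exact Set.ncard_le_ncard hsub c1
  have u2 : (CSp D).ncard ≤ 2 * nx D.natAbs.primeFactors := by
    rw [← a2]
    exact f3
  have l1 := asp_two h1 hs f1
  have l2 := hG D h1 hs f2
  rw [hSel a b c e hT D hD, Set.ncard_prod]
  refine ⟨f1.prod f2, ?_, ?_⟩
  · nlinarith
  · calc (ASp D).ncard * (CSp D).ncard ≤ nx D.natAbs.primeFactors * (2 * nx D.natAbs.primeFactors) :=
          Nat.mul_le_mul u1 u2
      _ = _ := by ring

end Pool.Agent.NH3.XT
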