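import Pool.Agent.NH3.XT.StmP

/-!
# XP-2 (SELP): the Selmer group is the product of the two factors, positive twists
-/

set_option autoImplicit false
set_option linter.unusedVariables false

open scoped Classical

namespace Pool.Agent.NH3.XT

namespace SELPA

theorem sel_aux {a P Q b c : Prop} (h : ¬ a) :
    (¬ b ∧ ¬ c) ↔ ((a → P) ∧ (¬ a → ¬ b)) ∧ ((a → Q) ∧ (¬ a → ¬ c)) :=
  ⟨fun h' => ⟨⟨fun k => absurd k h, fun _ => h'.1⟩, ⟨fun k => absurd k h, fun _ => h'.2⟩⟩,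
    fun h' => ⟨h'.1.2 h, h'.2.2 h⟩⟩

theorem nd_of_jac {p : ℕ} [Fact p.Prime] {D : ℤ} (h : jacobiSym D p = -1) : ¬ (p : ℤ) ∣ D := by
  intro hd
  rw [← jacobiSym.legendreSym.to_jacobiSym] at h
  have h0 : legendreSym p D = 0 :=
    (legendreSym.eq_zero_iff p D).2 ((ZMod.intCast_zmod_eq_zero_iff_dvd D p).2 hd)
  rw [h0] at h
  omega

theorem nd_of_jac_neg {p : ℕ} [Fact p.Prime] {D : ℤ} (h : jacobiSym (-D) p = -1) :
    ¬ (p : ℤ) ∣ D := fun hd => nd_of_jac h ((dvd_neg).2 hd)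

end SELPA

open SELPA in
theorem t_SELP : S_SELP := by
  intro hTOR hLA hLG hP1 hP2 hP3 h21 hA hB hC hLR a b c e hT D hD
  obtain ⟨hneg, hsq, hab, hc, h8⟩ := hD
  have hD0 : D ≠ 0 := hneg.ne'
  have ha0 : a ≠ 0 := by
    have := hT.oa
    rintro rfl
    omega
  have hb0 : b ≠ 0 := by
    have := hT.ob
    rintro rfl
    omega
  have hc0 : c ≠ 0 := by
    have := hT.oc
    rintro rfl
    omega
  have hc20 : (2 : ℤ) ^ e * c ≠ 0 := mul_ne_zero (by positivity) hc0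
  have h4 : D % 4 = 1 ∨ D % 4 = 2 ∨ D % 4 = 3 := by
    have h : D % 4 ≠ 0 := by
      intro h
      have h' : (2 : ℤ) * 2 ∣ D := by
        rw [show (2 : ℤ) * 2 = 4 by norm_num]
        exact Int.dvd_of_emod_eq_zero h
      have := hsq 2 h'
      rw [Int.isUnit_iff] at this
      omega
    omega
  have hsqp : ∀ (p : ℕ) [Fact p.Prime], ¬ (p : ℤ) ^ 2 ∣ D := by
    intro p hp h
    rw [pow_two] at h
    have := hsq _ h
    rw [Int.isUnit_iff] at this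
    have := hp.out.one_lt
    omega
  have e2 : ∀ [Fact (Nat.Prime 2)] (d1 d3 : ℤ), Squarefree d1 → Squarefree d3 →
      (Loc ℚ_[2] (b ^ 2 * D) (a ^ 2 * D) d1 d3 ↔ A2 D d1 ∧ C2 D d3) := by
    intro _ d1 d3 h1 h3
    refine ⟨fun h' => h21 a b c e hT D d1 d3 (by omega) h8 h1 h3 h', fun h' => ?_⟩
    rcases h4 with h | h | h
    · exact hA a b c e hT D d1 d3 h h8 h1 h3 h'.1 h'.2
    · exact hC a b c e hT D d1 d3 h h8 h1 h3 h'.1 h'.2
    · exact hB a b c e hT D d1 d3 h h8 h1 h3 h'.1 h'.2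
  -- coprimality
  have nab : ∀ (p : ℕ) [Fact p.Prime], (p : ℤ) ∣ a → ¬ (p : ℤ) ∣ b := by
    intro p hp h1 h2
    have h := hT.cop.isUnit_of_dvd' h1 h2
    rw [Int.isUnit_iff] at h
    have := hp.out.one_lt
    omega
  have ncb : ∀ (p : ℕ) [Fact p.Prime], (p : ℤ) ∣ 2 ^ e * c → ¬ (p : ℤ) ∣ b := by
    intro p hp h1 h2
    have hpp : Prime (p : ℤ) := Nat.prime_iff_prime_int.1 hp.out
    have h3 : (p : ℤ) ∣ a ^ 2 := by
      have h4 : a ^ 2 = b ^ 2 - (2 ^ e * c) ^ 2 := by linarith [hT.eq]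
      rw [h4]
      exact dvd_sub (dvd_pow h2 two_ne_zero) (dvd_pow h1 two_ne_zero)
    exact nab p (hpp.dvd_of_dvd_pow h3) h2
  -- the odd primes
  have eo : ∀ (p : ℕ) [Fact p.Prime] (d1 d3 : ℤ), p ≠ 2 → Squarefree d1 → Squarefree d3 →
      (Loc ℚ_[p] (b ^ 2 * D) (a ^ 2 * D) d1 d3 ↔
        (((p : ℤ) ∣ D → H1 p D d1) ∧ (¬ (p : ℤ) ∣ D → ¬ (p : ℤ) ∣ d1)) ∧
        (((p : ℤ) ∣ D → H3 p D d3) ∧ (¬ (p : ℤ) ∣ D → ¬ (p : ℤ) ∣ d3))) := by
    intro p hp d1 d3 hp2 h1 h3'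
    have n1 : d1 ≠ 0 := h1.ne_zero
    have n3 : d3 ≠ 0 := h3'.ne_zero
    by_cases hpa : (p : ℤ) ∣ a
    · have hj := hab p hp.out (hpa.mul_right b)
      exact (hP1 p a b (2 ^ e * c) D d1 d3 hp2 ha0 hT.eq hpa (nab p hpa) hj h1 h3').trans
        (sel_aux (nd_of_jac_neg hj))
    · by_cases hpb : (p : ℤ) ∣ b
      · have hj := hab p hp.out (hpb.mul_left a)
        exact (hP2 p a b (2 ^ e * c) D d1 d3 hp2 hb0 hT.eq hpb hpa hj h1 h3').trans
          (sel_aux (nd_of_jac_neg hj))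
      · by_cases hpc : (p : ℤ) ∣ 2 ^ e * c
        · have hpp : Prime (p : ℤ) := Nat.prime_iff_prime_int.1 hp.out
          have hpc' : (p : ℤ) ∣ c := by
            rcases hpp.dvd_or_dvd hpc with h | h
            · exfalso
              have h5 : (p : ℤ) ∣ 2 := hpp.dvd_of_dvd_pow h
              have h6 : p ∣ 2 := by exact_mod_cast h5
              exact hp2 ((Nat.prime_dvd_prime_iff_eq hp.out Nat.prime_two).1 h6)
            · exact h
          have hj := hc p hp.out hpc'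
          exact (hP3 p a b (2 ^ e * c) D d1 d3 hp2 hc20 hT.eq hpc (ncb p hpc) hj h1 h3').trans
            (sel_aux (nd_of_jac hj))
        · by_cases hpD : (p : ℤ) ∣ D
          · constructor
            · intro h
              obtain ⟨x, y⟩ := hLA p a b (2 ^ e * c) D d1 d3 hp2 hT.eq hpa hpb hpc hpD (hsqp p)
                n1 n3 h
              exact ⟨⟨fun _ => x, fun h => absurd hpD h⟩, ⟨fun _ => y, fun h => absurd hpD h⟩⟩
            · rintro ⟨⟨x, -⟩, ⟨y, -⟩⟩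
              exact hTOR p a b (2 ^ e * c) D d1 d3 ha0 hb0 hc20 hT.eq hD0 n1 n3 (x hpD) (y hpD)
          · exact (hLG p a b (2 ^ e * c) D d1 d3 hp2 hT.eq hpa hpb hpc hpD h1 h3').trans
              (sel_aux hpD)
  ext ⟨d1, d3⟩
  constructor
  · rintro ⟨s1, s3, hR, hp⟩
    simp only at s1 s3 hR hp
    have : Fact (Nat.Prime 2) := ⟨Nat.prime_two⟩
    obtain ⟨a2, c2⟩ := (e2 d1 d3 s1 s3).1 (hp 2)
    refine ⟨⟨s1, (hLR a b (2 ^ e * c) D d1 d3 ha0 hc20 hT.eq hneg s1.ne_zero s3.ne_zero).1 hR, a2,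
        fun p _ hp2 => ((eo p d1 d3 hp2 s1 s3).1 (hp p)).1⟩,
      ⟨s3, c2, fun p _ hp2 => ((eo p d1 d3 hp2 s1 s3).1 (hp p)).2⟩⟩
  · rintro ⟨⟨s1, hpos, a2, ha⟩, ⟨s3, c2, hc⟩⟩
    refine ⟨s1, s3,
      (hLR a b (2 ^ e * c) D d1 d3 ha0 hc20 hT.eq hneg s1.ne_zero s3.ne_zero).2 hpos,
      fun p hp => ?_⟩
    by_cases hp2 : p = 2
    · subst hp2
      exact (e2 d1 d3 s1 s3).2 ⟨a2, c2⟩
    · exact (eo p d1 d3 hp2 s1 s3).2 ⟨ha p hp2, hc p hp2⟩

end Pool.Agent.NH3.XT
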