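import Pool.Agent.NH3.XT.StmP
import Pool.Agent.Y703.CQ.Stm

/-!
# Project XE2 (helper3): the 2-Selmer groups of the positive twists have odd dimension: statements

Local coordinates: a squarefree integer `d` whose odd prime divisors are in `S` is `(-1)^e 2^x₂ ∏ p^x_p`. The
two factors of the Selmer group are the preimages of a subspace and of its orthogonal space (Hilbert symbols),
and the global classes are a maximal isotropic space. All statements were checked numerically.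
-/

set_option autoImplicit false
set_option linter.unusedVariables false

open scoped Classical

namespace Pool.Agent.NH3.XT.EQ

open Finset Filter Topology
open Pool.Agent.Y703.CQ (nr)

/-- `-1` modulo `p` -/
def ch (p : ℕ) : ZMod 2 := if p % 4 = 3 then 1 else 0

/-- the class of `p` modulo `8` -/
def om (p : ℕ) : ZMod 2 := if p % 8 = 3 ∨ p % 8 = 5 then 1 else 0

/-- the classes: `(e, x₂, x)` -/
abbrev G (S : Finset ℕ) : Type := ZMod 2 × ZMod 2 × (S → ZMod 2)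

/-- the quadratic symbol of the unit part at `p` -/
noncomputable def rr (S : Finset ℕ) (g : G S) (p : S) : ZMod 2 :=
  g.1 * ch p + g.2.1 * nr p 2 + ∑ q : S, nr p q * g.2.2 q

/-- the odd part modulo `4` -/
def ep (S : Finset ℕ) (g : G S) : ZMod 2 := g.1 + ∑ q : S, ch q * g.2.2 q

/-- the odd part modulo `8` -/
def ow (S : Finset ℕ) (g : G S) : ZMod 2 := ∑ q : S, om q * g.2.2 q

/-- ISO: the product formula -/
def S_ISO : Prop := ∀ S : Finset ℕ, (∀ p ∈ S, p.Prime ∧ p ≠ 2) → ∀ g g' : G S,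
  ∑ p : S, (g.2.2 p * rr S g' p + g'.2.2 p * rr S g p + g.2.2 p * g'.2.2 p * ch p) +
    (g.2.1 * ow S g' + g'.2.1 * ow S g + ep S g * ep S g') + g.1 * g'.1 = 0

/-- LAM: linear algebra -/
def S_LAM : Prop := ∀ (G V : Type) [AddCommGroup G] [Module (ZMod 2) G] [Finite G]
  [AddCommGroup V] [Module (ZMod 2) V] [Finite V] (B : V →ₗ[ZMod 2] V →ₗ[ZMod 2] ZMod 2)
  (f : G →ₗ[ZMod 2] V) (W W' : Submodule (ZMod 2) V), (∀ v, (∀ w, B v w = 0) → v = 0) →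
  (∀ v w, B v w = B w v) → Function.Injective f → (∀ g g', B (f g) (f g') = 0) →
  Nat.card G ^ 2 = Nat.card V → (∀ w ∈ W, ∀ w' ∈ W', B w w' = 0) →
  Nat.card W * Nat.card W' = Nat.card V →
  Nat.card {g : G // f g ∈ W'} * Nat.card W = Nat.card G * Nat.card {g : G // f g ∈ W}

/-- the first condition at `2`; `κ = D % 4`, `a`, `b` are the classes of the odd part of `D` -/
def Ac (κ : ℤ) (a b : ZMod 2) (x y z : ZMod 2) : Prop :=
  (κ = 1 ∧ x = 0 ∧ y = 0) ∨ (κ = 3 ∧ x = 0 ∧ z = y * b) ∨ (κ = 2 ∧ y = x * a ∧ z = x * b)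

/-- the second condition at `2` -/
def Cc (κ : ℤ) (a b : ZMod 2) (x y z : ZMod 2) : Prop :=
  (κ = 1 ∧ x = 0) ∨ (κ = 3 ∧ x * b + y = 0) ∨ (κ = 2 ∧ x * b + z + y * a = 0)

/-- CRD: duality in coordinates -/
def S_CRD : Prop := S_ISO → S_LAM → ∀ (S : Finset ℕ) (ρ : ℕ → ZMod 2) (κ : ℤ) (a b : ZMod 2),
  (∀ p ∈ S, p.Prime ∧ p ≠ 2) → (κ = 1 ∨ κ = 3 ∨ κ = 2) →
  Nat.card {g : G S // Cc κ a b g.2.1 (ep S g) (ow S g) ∧
      ∀ p : S, rr S g p + g.2.2 p * (ρ p + ch p) = 0} =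
    2 * Nat.card {g : G S // g.1 = 0 ∧ Ac κ a b g.2.1 (ep S g) (ow S g) ∧
      ∀ p : S, rr S g p + g.2.2 p * ρ p = 0}

/-- the integer of a class -/
noncomputable def F (S : Finset ℕ) (g : G S) : ℤ := (if g.1 = 0 then 1 else -1) *
  (if g.2.1 = 0 then 1 else 2) * ∏ p : S, (if g.2.2 p = 0 then (1 : ℤ) else ((p : ℕ) : ℤ))

/-- BIJ: the integers and the classes -/
def S_BIJ : Prop := ∀ S : Finset ℕ, (∀ p ∈ S, p.Prime ∧ p ≠ 2) →
  Function.Injective (F S) ∧ (∀ g, Squarefree (F S g)) ∧ (∀ g, 0 < F S g ↔ g.1 = 0) ∧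
  (∀ g, ∀ p : ℕ, p.Prime → p ≠ 2 → p ∉ S → ¬ (p : ℤ) ∣ F S g) ∧
  ∀ d : ℤ, Squarefree d → (∀ p : ℕ, p.Prime → p ≠ 2 → p ∉ S → ¬ (p : ℤ) ∣ d) → ∃ g, F S g = d

/-- HSY: the conditions at the odd primes of `D = δ ∏ S`, `δ = 1` or `2` -/
def S_HSY : Prop := ∀ (S : Finset ℕ) (δ : ℕ), (∀ p ∈ S, p.Prime ∧ p ≠ 2) → (δ = 1 ∨ δ = 2) →
  ∀ (g : G S) (p : S) [Fact (p : ℕ).Prime],
  (H1 p (δ * ∏ q ∈ S, (q : ℤ)) (F S g) ↔
    rr S g p + g.2.2 p * ((if δ = 2 then nr p 2 else 0) + ∑ q ∈ S, nr p q) = 0) ∧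
  (H3 p (δ * ∏ q ∈ S, (q : ℤ)) (F S g) ↔
    rr S g p + g.2.2 p * ((if δ = 2 then nr p 2 else 0) + ∑ q ∈ S, nr p q + ch p) = 0)

/-- TWO: the conditions at `2` of `D = δ ∏ S` -/
def S_TWO : Prop := ∀ (S : Finset ℕ) (δ : ℕ), (∀ p ∈ S, p.Prime ∧ p ≠ 2) → (δ = 1 ∨ δ = 2) →
  ∀ g : G S,
  (A2 (δ * ∏ q ∈ S, (q : ℤ)) (F S g) ↔ Ac ((δ * ∏ q ∈ S, (q : ℤ)) % 4) (ch (∏ q ∈ S, q))
    (om (∏ q ∈ S, q)) g.2.1 (ep S g) (ow S g)) ∧
  (C2 (δ * ∏ q ∈ S, (q : ℤ)) (F S g) ↔ Cc ((δ * ∏ q ∈ S, (q : ℤ)) % 4) (ch (∏ q ∈ S, q))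
    (om (∏ q ∈ S, q)) g.2.1 (ep S g) (ow S g))

/-- SQC: squarefree numbers in opposite residue classes -/
def S_SQC : Prop := ∀ (q : ℕ) (r : ℤ), 0 < q → Tendsto (fun Y : ℕ =>
  ((((Icc 1 Y).filter fun m : ℕ => Squarefree m ∧ (m : ℤ) ≡ r [ZMOD q]).card : ℝ) -
    (((Icc 1 Y).filter fun m : ℕ => Squarefree m ∧ (m : ℤ) ≡ -r [ZMOD q]).card : ℝ)) / Y)
  atTop (𝓝 0)

/-- the number of the squarefree `D < 0`, `|D| ≤ X`, with the property `P` -/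
noncomputable def cneg (P : ℤ → Prop) (X : ℕ) : ℝ :=
  (((Icc (-(X : ℤ)) (-1)).filter fun D : ℤ => Squarefree D ∧ P D).card : ℝ)

/-- RAT: the two signs -/
def S_RAT : Prop := S_SQC → ∀ (q : ℕ) (P : ℤ → Prop), 0 < q →
  (∀ D D' : ℤ, D ≡ D' [ZMOD q] → (P D ↔ P D')) →
  Tendsto (fun Y : ℕ => (cneg P Y - cneg (fun D => P (-D)) Y) / Y) atTop (𝓝 0)

/-- POW: a group killed by two -/
def S_POW : Prop := ∀ (A : Type) [AddCommGroup A], Finite {x : A // x + x = 0} →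
  ∃ j : ℕ, Nat.card {x : A // x + x = 0} = 2 ^ j

end Pool.Agent.NH3.XT.EQ
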