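import Pool.Agent.NH3.XT.Stm

/-!
# Project XP (helper3): the positive twists of `y² = x (x - a²) (x - b²)`, `a² + c² = b²`: statements

As in the project XT, with `D > 0`: at the real place the condition is `d₁ > 0`. All statements were checked
numerically. This file needs only Mathlib and `XT/Stm.lean` (only Mathlib).
-/

set_option autoImplicit false
set_option linter.unusedVariables false

open scoped Classical

namespace Pool.Agent.NH3.XT

/-- the classes `d₁`, `D > 0` -/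
def ASp (D : ℤ) : Set ℤ := {d | Squarefree d ∧ 0 < d ∧ A2 D d ∧ ∀ (p : ℕ) [Fact p.Prime], p ≠ 2 →
  ((p : ℤ) ∣ D → H1 p D d) ∧ (¬ (p : ℤ) ∣ D → ¬ (p : ℤ) ∣ d)}

/-- the classes `d₃`, `D > 0` -/
def CSp (D : ℤ) : Set ℤ := {d | Squarefree d ∧ C2 D d ∧ ∀ (p : ℕ) [Fact p.Prime], p ≠ 2 →
  ((p : ℤ) ∣ D → H3 p D d) ∧ (¬ (p : ℤ) ∣ D → ¬ (p : ℤ) ∣ d)}

/-- the class of the positive twists -/
def Clsp (a b c : ℤ) (e : ℕ) (D : ℤ) : Prop := 0 < D ∧ Squarefree D ∧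
  (∀ p : ℕ, p.Prime → (p : ℤ) ∣ a * b → jacobiSym (-D) p = -1) ∧
  (∀ p : ℕ, p.Prime → (p : ℤ) ∣ c → jacobiSym D p = -1) ∧ (3 ≤ e → D % 8 ≠ 1)

/-- LRP: the real place -/
def S_LRP : Prop := ∀ a b c D d1 d3 : ℤ, a ≠ 0 → c ≠ 0 → a ^ 2 + c ^ 2 = b ^ 2 → 0 < D → d1 ≠ 0 →
  d3 ≠ 0 → (Loc ℝ (b ^ 2 * D) (a ^ 2 * D) d1 d3 ↔ 0 < d1)

/-- SELP: the Selmer group is the product -/
def S_SELP : Prop := S_TOR → S_LA → S_LG → S_LP1 → S_LP2 → S_LP3 → S_L21 → S_L22 1 → S_L22 3 →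
  S_L22 2 → S_LRP → ∀ (a b c : ℤ) (e : ℕ), Tri a b c e → ∀ D : ℤ, Clsp a b c e D →
  Sel (b ^ 2 * D) (a ^ 2 * D) = ASp D ×ˢ CSp D

/-- INCA: the first factor is in the one of `-D` -/
def S_INCA : Prop := ∀ D : ℤ, 0 < D → Squarefree D → ASp D ⊆ CS (-D)

/-- INCC: the second factor is at most twice as large as the one of `-D` -/
def S_INCC (κ : ℤ) : Prop := ∀ D : ℤ, 0 < D → Squarefree D → D % 4 = κ → (AS (-D)).Finite →
  (CSp D).Finite ∧ (CSp D).ncard ≤ 2 * (AS (-D)).ncard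

/-- GEF: the second factor has at least four elements -/
def S_GEF (κ : ℤ) : Prop := ∀ D : ℤ, 1 < D → Squarefree D → D % 4 = κ → (CSp D).Finite →
  4 ≤ (CSp D).ncard

/-- EQT: the second factor has twice as many elements as the first one (duality) -/
def S_EQT : Prop := ∀ D : ℤ, 0 < D → Squarefree D → (ASp D).Finite ∧ (CSp D).Finite ∧
  (CSp D).ncard = 2 * (ASp D).ncard

/-- EXIP: the class is not empty -/
def S_EXIP : Prop := ∀ (a b c : ℤ) (e : ℕ), Tri a b c e → ∃ D : ℤ, Clsp a b c e D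

end Pool.Agent.NH3.XT
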