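import Pool.Agent.NH3.XT.StmP

/-!
# Project XP (helper3): the second factor has at least four elements, by Pell's equation: statements
-/

set_option autoImplicit false

namespace Pool.Agent.NH3.XT

/-- PEL: Legendre's descent for `x² - D y² = 1` -/
def S_PEL : Prop := ∀ D : ℤ, 1 < D → Squarefree D → ∃ d D' a b : ℤ, 0 < d ∧ 0 < D' ∧ d * D' = D ∧
  ((d ≠ 1 ∧ d * a ^ 2 - D' * b ^ 2 = 1) ∨ (D % 4 = 3 ∧ d * a ^ 2 - D' * b ^ 2 = 2))

/-- GEO: the conditions at the odd primes -/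
def S_GEO : Prop := ∀ (D d D' a b t : ℤ), Squarefree D → 0 < d → 0 < D' → d * D' = D →
  d * a ^ 2 - D' * b ^ 2 = t → (t = 1 ∨ (t = 2 ∧ D % 2 = 1)) →
  ∀ (p : ℕ) [Fact p.Prime], p ≠ 2 →
    (((p : ℤ) ∣ D → H3 p D (t * d)) ∧ (¬ (p : ℤ) ∣ D → ¬ (p : ℤ) ∣ t * d)) ∧
    (((p : ℤ) ∣ D → H3 p D (-(t * D'))) ∧ (¬ (p : ℤ) ∣ D → ¬ (p : ℤ) ∣ -(t * D')))

/-- GE2: the conditions at `2` -/
def S_GE2 : Prop := ∀ (D d D' a b t : ℤ), Squarefree D → d * D' = D →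
  d * a ^ 2 - D' * b ^ 2 = t → (t = 1 ∨ (t = 2 ∧ D % 4 = 3)) →
  C2 D (t * d) ∧ C2 D (-(t * D'))

/-- GEP: the second factor has at least four elements -/
def S_GEP : Prop := S_PEL → S_GEO → S_GE2 → ∀ D : ℤ, 1 < D → Squarefree D → (CSp D).Finite →
  4 ≤ (CSp D).ncard

/-- IC2: the product of two classes outside the smaller group, at `2` -/
def S_IC2 : Prop := ∀ D g u v : ℤ, Squarefree D → Squarefree (g * u) → Squarefree (g * v) →
  IsCoprime u v → C2 D (g * u) → C2 D (g * v) → ¬ A2 (-D) (g * u) → ¬ A2 (-D) (g * v) →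
  A2 (-D) (u * v)

/-- INCH: the second factor is at most twice as large as the first one of `-D` -/
def S_INCH : Prop := S_IC2 → ∀ D : ℤ, 0 < D → Squarefree D → (AS (-D)).Finite →
  (CSp D).Finite ∧ (CSp D).ncard ≤ 2 * (AS (-D)).ncard

end Pool.Agent.NH3.XT
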