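import Mathlib

/-!
# Project XT (helper3): the constants of the law: statement
-/

set_option autoImplicit false

namespace Pool.Agent.NH3.XT

open Finset

/-- the constants `c_r = 2 ^ (-r²) ∏_{i > r} (1 - 2 ^ (-i)) / ∏_{i ≤ r} (1 - 2 ^ (-i))` -/
noncomputable def cr (r : ℕ) : ℝ :=
  (1 / 2 : ℝ) ^ (r ^ 2) * (∏' i : ℕ, (1 - (1 / 2 : ℝ) ^ (r + i + 1))) /
    ∏ i ∈ range r, (1 - (1 / 2 : ℝ) ^ (i + 1))

/-- SUM: the constants add up to one -/
def S_SUM : Prop := HasSum cr 1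

end Pool.Agent.NH3.XT
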