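import Pool.Agent.NH3.XT.Stm

/-!
# XT-1: the classes of the points of order two are local at every prime (helper14)

Port of `NH3/XS/TOR.lean` (helper72).
-/

set_option autoImplicit false

open scoped Classical

namespace Pool.Agent.NH3.XT

namespace TOR

variable {p : ℕ} [hp : Fact p.Prime]

theorem norm_two_le : ‖(2 : ℚ_[p])‖ ≤ 1 := by
  have := Padic.norm_int_le_one (p := p) 2
  simpa using this

theorem norm_four : ‖(4 : ℚ_[p])‖ = ‖(2 : ℚ_[p])‖ ^ 2 := by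
  rw [← norm_pow]; norm_num

theorem norm_four_le : ‖(4 : ℚ_[p])‖ ≤ 1 := by
  rw [norm_four]
  exact pow_le_one₀ (norm_nonneg _) norm_two_le

theorem sq_near_one (u : ℚ_[p]) (hu : ‖u - 1‖ < ‖(4 : ℚ_[p])‖) :
    ∃ c : ℚ_[p], c ≠ 0 ∧ u = c ^ 2 := by
  have h1 : ‖u - 1‖ < 1 := hu.trans_le norm_four_le
  have hun : ‖u‖ ≤ 1 := by
    have h2 := Padic.nonarchimedean (u - 1) 1
    rw [sub_add_cancel, norm_one] at h2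
    exact h2.trans (max_le h1.le le_rfl)
  have hu0 : u ≠ 0 := by
    rintro rfl
    rw [zero_sub, norm_neg, norm_one] at h1
    exact lt_irrefl _ h1
  set v : ℤ_[p] := ⟨u, hun⟩ with hv
  set F : Polynomial ℤ_[p] := Polynomial.X ^ 2 - Polynomial.C v with hF
  have e1 : F.aeval (1 : ℤ_[p]) = 1 - v := by simp [hF]
  have e2 : F.derivative.aeval (1 : ℤ_[p]) = 2 := by
    simp [hF]
    norm_num
  obtain ⟨z, hz, -⟩ := hensels_lemma (p := p) (F := F) (a := (1 : ℤ_[p])) (by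
    rw [e1, e2]
    have a1 : ‖(1 - v : ℤ_[p])‖ = ‖u - 1‖ := by
      rw [PadicInt.norm_def, ← norm_neg]
      congr 1
      push_cast
      rw [hv]
      ring
    have a2 : ‖(2 : ℤ_[p])‖ = ‖(2 : ℚ_[p])‖ := by
      rw [PadicInt.norm_def]
      rfl
    rw [a1, a2, ← norm_four]
    exact hu)
  have e : F.aeval z = z ^ 2 - v := by simp [hF]
  rw [e, sub_eq_zero] at hz
  have h3 : u = (z : ℚ_[p]) ^ 2 := by
    have h4 : ((z ^ 2 : ℤ_[p]) : ℚ_[p]) = (v : ℚ_[p]) := by rw [hz]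
    push_cast at h4
    rw [h4]
  refine ⟨(z : ℚ_[p]), ?_, h3⟩
  intro h0
  rw [h0] at h3
  exact hu0 (by rw [h3]; ring)

theorem near {A B : ℚ_[p]} (hB : B ≠ 0) (h : ‖A - B‖ < ‖(4 : ℚ_[p])‖ * ‖B‖) :
    ∃ c : ℚ_[p], c ≠ 0 ∧ A = B * c ^ 2 := by
  have hBn : 0 < ‖B‖ := norm_pos_iff.2 hB
  obtain ⟨c, hc, hc2⟩ := sq_near_one (A / B) (by
    have : A / B - 1 = (A - B) / B := by field_simp
    rw [this, norm_div, div_lt_iff₀ hBn]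
    exact h)
  refine ⟨c, hc, ?_⟩
  rw [← hc2]
  field_simp

/-- there are small elements -/
theorem ex_small {ε : ℝ} (hε : 0 < ε) : ∃ t : ℚ_[p], t ≠ 0 ∧ ‖t ^ 2‖ < ε := by
  have hp0 : (p : ℚ_[p]) ≠ 0 := by
    exact_mod_cast hp.out.ne_zero
  have h1 : ‖(p : ℚ_[p])‖ < 1 := Padic.norm_p_lt_one
  obtain ⟨n, hn⟩ := exists_pow_lt_of_lt_one hε h1
  refine ⟨(p : ℚ_[p]) ^ n, pow_ne_zero _ hp0, ?_⟩
  rw [norm_pow, norm_pow]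
  have h2 : ‖(p : ℚ_[p])‖ ^ n ≤ 1 := pow_le_one₀ (norm_nonneg _) h1.le
  have h3 : 0 ≤ ‖(p : ℚ_[p])‖ ^ n := by positivity
  nlinarith

/-- a square factor -/
theorem fac {E t : ℚ_[p]} (hE : E ≠ 0) (ht : ‖t ^ 2‖ < ‖(4 : ℚ_[p])‖ * ‖E‖) (s : ℚ_[p])
    (hs : s = 1 ∨ s = -1) : ∃ u : ℚ_[p], u ≠ 0 ∧ E + s * t ^ 2 = E * u ^ 2 := by
  apply near hE
  have e : ‖(E + s * t ^ 2) - E‖ = ‖t ^ 2‖ := by
    rcases hs with rfl | rfl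
    · congr 1
      ring
    · rw [show E + -1 * t ^ 2 - E = -(t ^ 2) by ring, norm_neg]
  rw [e]
  exact ht

end TOR

open TOR in
theorem t_TOR : S_TOR := by
  intro p hp a b c D d1 d3 ha hb hc habc hD hd1 hd3 h1 h3
  have hD' : (D : ℚ_[p]) ≠ 0 := by exact_mod_cast hD
  have ha' : (a : ℚ_[p]) ≠ 0 := by exact_mod_cast ha
  have hb' : (b : ℚ_[p]) ≠ 0 := by exact_mod_cast hb
  have hc' : (c : ℚ_[p]) ≠ 0 := by exact_mod_cast hc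
  have habc' : (c : ℚ_[p]) ^ 2 = (b : ℚ_[p]) ^ 2 - (a : ℚ_[p]) ^ 2 := by
    have : ((a ^ 2 + c ^ 2 : ℤ) : ℚ_[p]) = ((b ^ 2 : ℤ) : ℚ_[p]) := by rw [habc]
    push_cast at this
    linear_combination this
  have hA0 : (a : ℚ_[p]) ^ 2 * D ≠ 0 := mul_ne_zero (pow_ne_zero _ ha') hD'
  have hB0 : (b : ℚ_[p]) ^ 2 * D ≠ 0 := mul_ne_zero (pow_ne_zero _ hb') hD'
  have hC0 : (c : ℚ_[p]) ^ 2 * D ≠ 0 := mul_ne_zero (pow_ne_zero _ hc') hD'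
  have h40 : 0 < ‖(4 : ℚ_[p])‖ := norm_pos_iff.2 (by norm_num)
  have hpos : ∀ E : ℚ_[p], E ≠ 0 → 0 < ‖(4 : ℚ_[p])‖ * ‖E‖ := fun E hE =>
    mul_pos h40 (norm_pos_iff.2 hE)
  obtain ⟨t, ht0, ht⟩ := ex_small (p := p) (lt_min (hpos _ hA0) (lt_min (hpos _ hB0) (hpos _ hC0)))
  have htA : ‖t ^ 2‖ < ‖(4 : ℚ_[p])‖ * ‖(a : ℚ_[p]) ^ 2 * D‖ := ht.trans_le (min_le_left _ _)
  have htB : ‖t ^ 2‖ < ‖(4 : ℚ_[p])‖ * ‖(b : ℚ_[p]) ^ 2 * D‖ :=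
    ht.trans_le ((min_le_right _ _).trans (min_le_left _ _))
  have htC : ‖t ^ 2‖ < ‖(4 : ℚ_[p])‖ * ‖(c : ℚ_[p]) ^ 2 * D‖ :=
    ht.trans_le ((min_le_right _ _).trans (min_le_right _ _))
  have htA' : ‖t ^ 2‖ < ‖(4 : ℚ_[p])‖ * ‖-((a : ℚ_[p]) ^ 2 * D)‖ := by rwa [norm_neg]
  have htB' : ‖t ^ 2‖ < ‖(4 : ℚ_[p])‖ * ‖-((b : ℚ_[p]) ^ 2 * D)‖ := by rwa [norm_neg]
  have htC' : ‖t ^ 2‖ < ‖(4 : ℚ_[p])‖ * ‖-((c : ℚ_[p]) ^ 2 * D)‖ := by rwa [norm_neg]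
  rcases h1 with ⟨r, hr⟩ | ⟨r, hr⟩ <;> rcases h3 with ⟨q, hq⟩ | ⟨q, hq⟩
  · -- a point near the origin
    have hi : ∀ E : ℚ_[p], E ≠ 0 → 0 < ‖(4 : ℚ_[p])‖ / ‖E‖ := fun E hE =>
      div_pos h40 (norm_pos_iff.2 hE)
    obtain ⟨w, hw0, hw⟩ := ex_small (p := p) (lt_min (hi _ hA0) (hi _ hB0))
    have g : ∀ E : ℚ_[p], E ≠ 0 → ‖w ^ 2‖ < ‖(4 : ℚ_[p])‖ / ‖E‖ →
        ∃ u : ℚ_[p], u ≠ 0 ∧ 1 - E * w ^ 2 = u ^ 2 := by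
      intro E hE h
      obtain ⟨u, hu, h2⟩ := sq_near_one (1 - E * w ^ 2) (by
        rw [show 1 - E * w ^ 2 - 1 = -(E * w ^ 2) by ring, norm_neg, norm_mul, mul_comm]
        exact (lt_div_iff₀ (norm_pos_iff.2 hE)).1 h)
      exact ⟨u, hu, h2⟩
    obtain ⟨u, hu0, hu⟩ := g _ hA0 (hw.trans_le (min_le_left _ _))
    obtain ⟨v, hv0, hv⟩ := g _ hB0 (hw.trans_le (min_le_right _ _))
    have e1 : w⁻¹ ^ 2 - ((b ^ 2 * D : ℤ) : ℚ_[p]) = w⁻¹ ^ 2 * v ^ 2 := by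
      rw [← hv]; push_cast; field_simp
    have e2 : w⁻¹ ^ 2 - ((a ^ 2 * D : ℤ) : ℚ_[p]) = w⁻¹ ^ 2 * u ^ 2 := by
      rw [← hu]; push_cast; field_simp
    refine ⟨w⁻¹ ^ 2, w⁻¹ ^ 3 * u * v, ?_, ?_, ⟨w⁻¹ * r, ?_⟩, ⟨w⁻¹ * v * q, ?_⟩⟩
    · exact mul_ne_zero (mul_ne_zero (pow_ne_zero _ (inv_ne_zero hw0)) hu0) hv0
    · rw [e1, e2]
      ring
    · rw [hr]
      ring
    · rw [e1, hq]
      ring
  · obtain ⟨u, hu0, hu⟩ := fac (neg_ne_zero.2 hB0) htB' 1 (Or.inl rfl)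
    obtain ⟨v, hv0, hv⟩ := fac (neg_ne_zero.2 hA0) htA' 1 (Or.inl rfl)
    have e1 : t ^ 2 - ((b ^ 2 * D : ℤ) : ℚ_[p]) = -((b : ℚ_[p]) ^ 2 * D) * u ^ 2 := by
      rw [← hu]; push_cast; ring
    have e2 : t ^ 2 - ((a ^ 2 * D : ℤ) : ℚ_[p]) = -((a : ℚ_[p]) ^ 2 * D) * v ^ 2 := by
      rw [← hv]; push_cast; ring
    refine ⟨t ^ 2, a * b * t * D * u * v, ?_, ?_, ⟨t * r, ?_⟩, ⟨b * u * q, ?_⟩⟩
    · exact mul_ne_zero (mul_ne_zero (mul_ne_zero (mul_ne_zero (mul_ne_zero ha' hb') ht0) hD') hu0)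
        hv0
    · rw [e1, e2]
      ring
    · rw [hr]
      ring
    · rw [e1]
      push_cast at hq
      linear_combination (b : ℚ_[p]) ^ 2 * u ^ 2 * hq
  · obtain ⟨u, hu0, hu⟩ := fac hB0 htB 1 (Or.inl rfl)
    obtain ⟨v, hv0, hv⟩ := fac hC0 htC 1 (Or.inl rfl)
    have e1 : (b : ℚ_[p]) ^ 2 * D + t ^ 2 = (b : ℚ_[p]) ^ 2 * D * u ^ 2 := by
      rw [← hu]; ring
    have e2 : (b : ℚ_[p]) ^ 2 * D + t ^ 2 - ((b ^ 2 * D : ℤ) : ℚ_[p]) = t ^ 2 := by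
      push_cast; ring
    have e3 : (b : ℚ_[p]) ^ 2 * D + t ^ 2 - ((a ^ 2 * D : ℤ) : ℚ_[p]) =
        (c : ℚ_[p]) ^ 2 * D * v ^ 2 := by
      rw [← hv]; push_cast
      linear_combination -(D : ℚ_[p]) * habc'
    refine ⟨(b : ℚ_[p]) ^ 2 * D + t ^ 2, b * c * t * D * u * v, ?_, ?_, ⟨b * u * r, ?_⟩,
      ⟨t * q, ?_⟩⟩
    · exact mul_ne_zero (mul_ne_zero (mul_ne_zero (mul_ne_zero (mul_ne_zero hb' hc') ht0) hD') hu0)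
        hv0
    · rw [e3, e2, e1]
      ring
    · rw [e1]
      push_cast at hr
      linear_combination (b : ℚ_[p]) ^ 2 * u ^ 2 * hr
    · rw [e2, hq]
      ring
  · obtain ⟨u, hu0, hu⟩ := fac hA0 htA (-1) (Or.inr rfl)
    obtain ⟨v, hv0, hv⟩ := fac (neg_ne_zero.2 hC0) htC' (-1) (Or.inr rfl)
    have e1 : (a : ℚ_[p]) ^ 2 * D - t ^ 2 = (a : ℚ_[p]) ^ 2 * D * u ^ 2 := by
      rw [← hu]; ring
    have e2 : (a : ℚ_[p]) ^ 2 * D - t ^ 2 - ((b ^ 2 * D : ℤ) : ℚ_[p]) =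
        -((c : ℚ_[p]) ^ 2 * D) * v ^ 2 := by
      rw [← hv]; push_cast
      linear_combination (D : ℚ_[p]) * habc'
    have e3 : (a : ℚ_[p]) ^ 2 * D - t ^ 2 - ((a ^ 2 * D : ℤ) : ℚ_[p]) = -t ^ 2 := by
      push_cast; ring
    refine ⟨(a : ℚ_[p]) ^ 2 * D - t ^ 2, a * c * t * D * u * v, ?_, ?_, ⟨a * u * r, ?_⟩,
      ⟨c * v * q, ?_⟩⟩
    · exact mul_ne_zero (mul_ne_zero (mul_ne_zero (mul_ne_zero (mul_ne_zero ha' hc') ht0) hD') hu0)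
        hv0
    · rw [e3, e2, e1]
      ring
    · rw [e1]
      push_cast at hr
      linear_combination (a : ℚ_[p]) ^ 2 * u ^ 2 * hr
    · rw [e2]
      push_cast at hq
      linear_combination (c : ℚ_[p]) ^ 2 * v ^ 2 * hq

end Pool.Agent.NH3.XT
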