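import Pool.Agent.NH3.XT.Ev
import Pool.Agent.Y667.BK.Fin
import Pool.Agent.Y667.BK.SelInf

/-!
# Project XT (helper3): the sequence is zero when the four-rank is zero
-/

set_option autoImplicit false

open scoped Classical

namespace Pool.Agent.NH3.XT

open Pool.Agent.W307.RT (Sh)
open Pool.Agent.W307.SE
open Pool.Agent.W402.FK (dist)
open Pool.Agent.Y667.BK (SelInf)
open Pool.Agent.TH841.SH (isR_Sh)
open Pool.Agent.TH841.SH.D (Sha Pruf)

/-- the sequence is zero -/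
theorem zero_of {a b M : ℤ} (ha : a ≠ 0) (hb : b ≠ 0) (hab : a ^ 2 ≠ b ^ 2) (hM : M ≠ 0)
    (h : 2 ^ Module.finrank ℤ (Ec a b M).toAffine.Point *
        Nat.card {x : Sha (Ec a b M) // x + x = 0} = 1) :
    (∀ x : TensorProduct ℤ (Ec a b M).toAffine.Point Pruf, x = 0) ∧
    (∀ x : SelInf (Ec a b M), x = 0) ∧
    ∀ (k : ℕ) (x : Sha (Ec a b M)), (2 ^ k : ℕ) • x = 0 → x = 0 := by
  obtain ⟨h1, h2⟩ := mul_eq_one.1 h
  have h0 : Module.finrank ℤ (Ec a b M).toAffine.Point = 0 := by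
    by_contra hne
    have := Nat.one_lt_two_pow hne
    omega
  have hd := disc_ne ha hb hab hM
  have hr : ∀ x : ℤ, x ^ 3 + cA a b M * x + cB a b M =
      (x - (-3 * (a ^ 2 + b ^ 2) * M)) * (x - (6 * b ^ 2 - 3 * a ^ 2) * M) *
        (x - (6 * a ^ 2 - 3 * b ^ 2) * M) := by
    intro x
    unfold cA cB
    ring
  obtain ⟨d12, d13, d23⟩ := dist _ _ _ _ _ hd hr
  have hfin : Finite (Ec a b M).toAffine.Point :=
    Pool.Agent.Y667.BK.finite_of_rk (Pool.Agent.Y667.BK.fg_pts (isR_Sh hr) d12 d13 d23) h0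
  have h3 : ∀ x : Sha (Ec a b M), x + x = 0 → x = 0 := by
    have hsub : Subsingleton {x : Sha (Ec a b M) // x + x = 0} :=
      (Nat.card_eq_one_iff_unique.1 h2).1
    intro x hx
    have := Subsingleton.elim (⟨x, hx⟩ : {x : Sha (Ec a b M) // x + x = 0}) ⟨0, add_zero 0⟩
    exact congrArg Subtype.val this
  have h4 : ∀ (k : ℕ) (x : Sha (Ec a b M)), (2 ^ k : ℕ) • x = 0 → x = 0 := by
    intro k
    induction k with
    | zero =>
      intro x hx
      rwa [pow_zero, one_smul] at hx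
    | succ k ih =>
      intro x hx
      refine ih x (h3 _ ?_)
      rw [← two_nsmul, smul_smul, ← pow_succ']
      exact hx
  exact ⟨Pool.Agent.Y667.BK.tensor_div_zero Pool.Agent.Y667.BK.pruf_div,
    Pool.Agent.Y667.BK.selInf_zero hfin h4, h4⟩

end Pool.Agent.NH3.XT
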